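import Mathlib

namespace Pool.Agent.V11117.SU

open Finset Polynomial

/-- the suspension: one new vertex adjacent to every old vertex -/
def susp {V : Type} (G : SimpleGraph V) : SimpleGraph (V ⊕ Unit) where
  Adj
    | Sum.inl u, Sum.inl v => G.Adj u v
    | Sum.inl _, Sum.inr _ => True
    | Sum.inr _, Sum.inl _ => True
    | Sum.inr _, Sum.inr _ => False
  symm := ⟨by
    rintro (u | u) (v | v) h
    · exact G.symm.symm u v h
    · trivial
    · trivial
    · exact h⟩
  loopless := ⟨by
    rintro (u | u) h
    · exact G.loopless.irrefl u h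
    · exact h⟩

open Classical in
/-- the weighted Laplacian D_w - W_w -/
noncomputable def lapW {V : Type} [Fintype V] (w : V → V → ℝ) : Matrix V V ℝ :=
  Matrix.diagonal (fun u => ∑ v, w u v) - Matrix.of w

open Classical in
/-- the multiset s is realized by G: for some weighting w (nonnegative, symmetric, zero off the
edges of G) the eigenvalues of the weighted Laplacian, with multiplicity, are 0 and the elements
of s -/
def Realizable {V : Type} [Fintype V] (G : SimpleGraph V) (s : Multiset ℝ) : Prop :=
  ∃ w : V → V → ℝ, (∀ u v, 0 ≤ w u v) ∧ (∀ u v, w u v = w v u) ∧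
    (∀ u v, ¬ G.Adj u v → w u v = 0) ∧
    (lapW w).charpoly = X * (s.map (fun a => X - C a)).prod

lemma eval_prod_map (s : Multiset ℝ) (x : ℝ) :
    eval x (s.map (fun a => X - C a)).prod = (s.map (fun a => x - a)).prod := by
  induction s using Multiset.induction with
  | empty => simp
  | cons a s ih => simp [ih]

open Classical in
lemma lap_mulVec_one {V : Type} [Fintype V] (w : V → V → ℝ) (u : V) :
    (lapW w).mulVec (fun _ => 1) u = 0 := by
  unfold lapW
  rw [Matrix.sub_mulVec, Pi.sub_apply, Matrix.mulVec_diagonal]
  simp [Matrix.mulVec, dotProduct]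

lemma susp_aux (N x t P : ℝ) (h : x - t ≠ 0) :
    (x - t) * P * (x - N * t - N * (t * (t / (x - t)))) - x * ((x - (N + 1) * t) * P) = 0 := by
  field_simp
  ring

open Classical in
theorem realizable_susp {V : Type} [Fintype V] (G : SimpleGraph V) {s : Multiset ℝ}
    (h : Realizable G s) {t : ℝ} (ht : 0 ≤ t) :
    Realizable (susp G) ((((Fintype.card V : ℝ) + 1) * t) ::ₘ s.map (fun a => a + t)) := by
  obtain ⟨w, h0, hs, hG, hc⟩ := h
  let w' : V ⊕ Unit → V ⊕ Unit → ℝ
    | Sum.inl u, Sum.inl v => w u v
    | Sum.inl _, Sum.inr _ => t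
    | Sum.inr _, Sum.inl _ => t
    | Sum.inr _, Sum.inr _ => 0
  refine ⟨w', ?_, ?_, ?_, ?_⟩
  · rintro (u | u) (v | v)
    · exact h0 u v
    · exact ht
    · exact ht
    · exact le_rfl
  · rintro (u | u) (v | v)
    · exact hs u v
    · rfl
    · rfl
    · rfl
  · rintro (u | u) (v | v) hn
    · exact hG u v hn
    · exact absurd trivial hn
    · exact absurd trivial hn
    · rfl
  · have hblock : lapW w' = Matrix.fromBlocks (lapW w + t • 1) (Matrix.of fun _ _ => -t)
        (Matrix.of fun _ _ => -t) (Matrix.of fun _ _ => (Fintype.card V : ℝ) * t) := by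
      ext (u | u) (v | v)
      · by_cases huv : u = v
        · subst huv
          simp [lapW, w', Matrix.fromBlocks]
          ring
        · simp [lapW, w', Matrix.fromBlocks, huv]
      · simp [lapW, w', Matrix.fromBlocks]
      · simp [lapW, w', Matrix.fromBlocks]
      · simp [lapW, w', Matrix.fromBlocks]
    have hdetL : ∀ y : ℝ, (Matrix.scalar V y - lapW w).det = y * (s.map (fun a => y - a)).prod := by
      intro y
      rw [← Matrix.eval_charpoly, hc, eval_mul, eval_X, eval_prod_map]
    set r : ℝ[X] := (X - C t) * ((s.map (fun a => X - C (a + t))).prod) with hr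
    have hr0 : r ≠ 0 := by
      rw [hr]
      apply mul_ne_zero (X_sub_C_ne_zero t)
      rw [Ne, Multiset.prod_eq_zero_iff, Multiset.mem_map]
      rintro ⟨a, _, ha⟩
      exact X_sub_C_ne_zero _ ha
    set q : ℝ[X] := X * (((((Fintype.card V : ℝ) + 1) * t) ::ₘ s.map (fun a => a + t)).map
      (fun a => X - C a)).prod with hq
    have key : ((lapW w').charpoly - q) * r = 0 := by
      apply Polynomial.funext
      intro x
      rw [eval_mul, eval_sub, eval_zero]
      by_cases hx : eval x r = 0
      · rw [hx, mul_zero]
      · have hrx : eval x r = (x - t) * (s.map (fun a => (x - t) - a)).prod := by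
          have e1 : (s.map (fun a => X - C (a + t))).prod = ((s.map (fun a => a + t)).map (fun a => X - C a)).prod := by
            rw [Multiset.map_map]; rfl
          rw [hr, eval_mul, eval_sub, eval_X, eval_C, e1, eval_prod_map, Multiset.map_map]
          congr 2
          apply Multiset.map_congr rfl
          intro a _
          simp only [Function.comp]
          ring
        rw [hrx] at hx
        have hxt : x - t ≠ 0 := left_ne_zero_of_mul hx
        have hqx : eval x q = x * ((x - ((Fintype.card V : ℝ) + 1) * t) * (s.map (fun a => (x - t) - a)).prod) := by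
          rw [hq, eval_mul, eval_X, eval_prod_map, Multiset.map_cons, Multiset.prod_cons, Multiset.map_map]
          congr 3
          apply Multiset.map_congr rfl
          intro a _
          simp only [Function.comp]
          ring
        have hA : (Matrix.scalar V (x - t) - lapW w).det ≠ 0 := by rw [hdetL]; exact hx
        have hAu : IsUnit (Matrix.scalar V (x - t) - lapW w).det := isUnit_iff_ne_zero.mpr hA
        letI : Invertible (Matrix.scalar V (x - t) - lapW w) := Matrix.invertibleOfIsUnitDet _ hAu
        have hsub : Matrix.scalar (V ⊕ Unit) x - lapW w' = Matrix.fromBlocks (Matrix.scalar V (x - t) - lapW w)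
            (Matrix.of fun _ _ => t) (Matrix.of fun _ _ => t)
            (Matrix.of fun _ _ => x - (Fintype.card V : ℝ) * t) := by
          rw [hblock]
          ext (u | u) (v | v)
          · by_cases huv : u = v
            · subst huv
              simp [Matrix.fromBlocks, Matrix.scalar_apply]
              ring
            · simp [Matrix.fromBlocks, Matrix.scalar_apply, huv]
          · simp [Matrix.fromBlocks, Matrix.scalar_apply]
          · simp [Matrix.fromBlocks, Matrix.scalar_apply]
          · simp [Matrix.fromBlocks, Matrix.scalar_apply]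
        have hinv : ⅟(Matrix.scalar V (x - t) - lapW w) * (Matrix.of fun (_ : V) (_ : Unit) => t) =
            Matrix.of fun (_ : V) (_ : Unit) => t / (x - t) := by
          have h1 : (Matrix.scalar V (x - t) - lapW w) * (Matrix.of fun (_ : V) (_ : Unit) => t / (x - t)) =
              (Matrix.of fun (_ : V) (_ : Unit) => t) := by
            ext u v
            have h2 := lap_mulVec_one w u
            simp only [Matrix.mulVec, dotProduct, mul_one] at h2
            rw [Matrix.mul_apply]
            simp only [Matrix.sub_apply, Matrix.of_apply, Matrix.scalar_apply, Matrix.diagonal_apply]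
            rw [← sum_mul, sum_sub_distrib, h2]
            simp
            field_simp
          rw [← h1, ← Matrix.mul_assoc, invOf_mul_self, Matrix.one_mul]
        rw [Matrix.eval_charpoly, hsub, Matrix.det_fromBlocks₁₁, Matrix.mul_assoc, hinv, hdetL, hqx]
        have hdet1 : (Matrix.of (fun (_ : Unit) (_ : Unit) => x - (Fintype.card V : ℝ) * t) -
            Matrix.of (fun (_ : Unit) (_ : V) => t) * Matrix.of (fun (_ : V) (_ : Unit) => t / (x - t))).det =
            x - (Fintype.card V : ℝ) * t - (Fintype.card V : ℝ) * (t * (t / (x - t))) := by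
          rw [Matrix.det_unique]
          simp [Matrix.mul_apply]
        rw [hdet1]
        rw [susp_aux _ _ _ _ hxt, zero_mul]
    have h1 := (mul_eq_zero.mp key).resolve_right hr0
    have h2 := sub_eq_zero.mp h1
    rw [← h2]
    congr 1

theorem realizable_iso {V V' : Type} [Fintype V] [Fintype V'] {G : SimpleGraph V}
    {G' : SimpleGraph V'} (e : G ≃g G') {s : Multiset ℝ} (h : Realizable G s) :
    Realizable G' s := by
  classical
  obtain ⟨w, h0, hs, hG, hc⟩ := h
  refine ⟨fun u v => w (e.symm u) (e.symm v), fun u v => h0 _ _, fun u v => hs _ _, ?_, ?_⟩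
  · intro u v huv
    apply hG
    intro h
    apply huv
    have := e.map_rel_iff.mpr h
    simpa using this
  · have hl : lapW (fun u v => w (e.symm u) (e.symm v)) = Matrix.reindex e.toEquiv e.toEquiv (lapW w) := by
      ext u v
      simp only [lapW, Matrix.reindex_apply, Matrix.submatrix_apply, Matrix.sub_apply, Matrix.of_apply]
      have h1 : ∑ x, w (e.symm u) (e.symm x) = ∑ x, w (e.symm u) x :=
        Equiv.sum_comp e.symm.toEquiv (fun x => w (e.symm u) x)
      by_cases huv : u = v
      · subst huv
        rw [Matrix.diagonal_apply_eq, Matrix.diagonal_apply_eq, h1]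
        rfl
      · rw [Matrix.diagonal_apply_ne _ huv, Matrix.diagonal_apply_ne]
        · rfl
        · intro h
          apply huv
          exact e.symm.injective h
    rw [hl, ← hc]
    convert Matrix.charpoly_reindex e.toEquiv (lapW w)

/-- star weights -/
def starW {V : Type} (w : V → ℝ) : V ⊕ Unit → V ⊕ Unit → ℝ
    | Sum.inl _, Sum.inl _ => 0
    | Sum.inl u, Sum.inr _ => w u
    | Sum.inr _, Sum.inl v => w v
    | Sum.inr _, Sum.inr _ => 0

open Classical in
theorem star_charpoly {V : Type} [Fintype V] (w : V → ℝ) :
    (lapW (starW w)).charpoly = X * (C ((Fintype.card V : ℝ) + 1) * (∏ v, (X - C (w v))) -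
      X * derivative (∏ v, (X - C (w v)))) := by
  · have hblock : lapW (starW w) = Matrix.fromBlocks (Matrix.diagonal w) (Matrix.of fun u _ => -(w u))
        (Matrix.of fun _ v => -(w v)) (Matrix.of fun _ _ => ∑ v, w v) := by
      ext (u | u) (v | v)
      · by_cases huv : u = v
        · subst huv
          simp [lapW, starW, Matrix.fromBlocks]
        · simp [lapW, starW, Matrix.fromBlocks, huv]
      · simp [lapW, starW, Matrix.fromBlocks]
      · simp [lapW, starW, Matrix.fromBlocks]
      · simp [lapW, starW, Matrix.fromBlocks]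
    set r : ℝ[X] := ∏ v, (X - C (w v)) with hr
    have hr0 : r ≠ 0 := by
      rw [hr, Finset.prod_ne_zero_iff]
      intro a _
      exact X_sub_C_ne_zero _
    have key : ((lapW (starW w)).charpoly - X * (C ((Fintype.card V : ℝ) + 1) * r - X * derivative r)) * r = 0 := by
      apply Polynomial.funext
      intro x
      rw [eval_mul, eval_sub, eval_zero]
      by_cases hx : eval x r = 0
      · rw [hx, mul_zero]
      · have hrx : eval x r = ∏ v, (x - w v) := by
          rw [hr, eval_prod]; simp
        have hxv : ∀ v, x - w v ≠ 0 := by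
          rw [hrx] at hx
          intro v
          exact (Finset.prod_ne_zero_iff.mp hx) v (mem_univ v)
        have hder : eval x (derivative r) = (∏ v, (x - w v)) * ∑ v, 1 / (x - w v) := by
          rw [hr, Polynomial.derivative_prod_finset, eval_finset_sum, mul_sum]
          refine sum_congr rfl (fun v _ => ?_)
          rw [derivative_X_sub_C, mul_one, eval_prod]
          rw [← Finset.mul_prod_erase univ (fun v => x - w v) (mem_univ v)]
          simp only [eval_sub, eval_X, eval_C]
          have := hxv v
          field_simp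
        have hA : (Matrix.diagonal (fun v => x - w v)).det ≠ 0 := by
          rw [Matrix.det_diagonal, ← hrx]; exact hx
        have hAu : IsUnit (Matrix.diagonal (fun v => x - w v)).det := isUnit_iff_ne_zero.mpr hA
        letI : Invertible (Matrix.diagonal (fun v => x - w v)) := Matrix.invertibleOfIsUnitDet _ hAu
        have hsub : Matrix.scalar (V ⊕ Unit) x - lapW (starW w) = Matrix.fromBlocks (Matrix.diagonal (fun v => x - w v))
            (Matrix.of fun u _ => w u) (Matrix.of fun _ v => w v)
            (Matrix.of fun _ _ => x - ∑ v, w v) := by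
          rw [hblock]
          ext (u | u) (v | v)
          · by_cases huv : u = v
            · subst huv
              simp [Matrix.fromBlocks, Matrix.scalar_apply]
            · simp [Matrix.fromBlocks, Matrix.scalar_apply, huv]
          · simp [Matrix.fromBlocks, Matrix.scalar_apply]
          · simp [Matrix.fromBlocks, Matrix.scalar_apply]
          · simp [Matrix.fromBlocks, Matrix.scalar_apply]
        have hinv : ⅟(Matrix.diagonal (fun v => x - w v)) * (Matrix.of fun (u : V) (_ : Unit) => w u) =
            Matrix.of fun (u : V) (_ : Unit) => w u / (x - w u) := by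
          have h1 : (Matrix.diagonal (fun v => x - w v)) * (Matrix.of fun (u : V) (_ : Unit) => w u / (x - w u)) =
              (Matrix.of fun (u : V) (_ : Unit) => w u) := by
            ext u v
            rw [Matrix.diagonal_mul]
            simp only [Matrix.of_apply]
            have := hxv u
            field_simp
          rw [← h1, ← Matrix.mul_assoc, invOf_mul_self, Matrix.one_mul]
        have hdet1 : (Matrix.of (fun (_ : Unit) (_ : Unit) => x - ∑ v, w v) -
            Matrix.of (fun (_ : Unit) (v : V) => w v) * Matrix.of (fun (u : V) (_ : Unit) => w u / (x - w u))).det =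
            x - ∑ v, w v - ∑ v, w v * (w v / (x - w v)) := by
          rw [Matrix.det_unique]
          simp [Matrix.mul_apply]
        rw [eval_mul, eval_X, eval_sub, eval_mul, eval_mul, eval_X, eval_C, hder, hrx, Matrix.eval_charpoly, hsub, Matrix.det_fromBlocks₁₁, Matrix.mul_assoc, hinv,
          hdet1, Matrix.det_diagonal]
        have h3 : x - ∑ v, w v - ∑ v, w v * (w v / (x - w v)) =
            x * (((Fintype.card V : ℝ) + 1) - x * ∑ v, 1 / (x - w v)) := by
          have h4 : ∑ v : V, (x * (x * (1 / (x - w v))) - w v - w v * (w v / (x - w v))) =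
              ∑ v : V, x := by
            refine sum_congr rfl (fun v _ => ?_)
            have := hxv v
            field_simp
            ring
          rw [sum_sub_distrib, sum_sub_distrib, ← mul_sum, ← mul_sum] at h4
          simp only [sum_const, card_univ, nsmul_eq_mul] at h4
          linarith
        rw [h3]
        ring
    have h1 := (mul_eq_zero.mp key).resolve_right hr0
    exact sub_eq_zero.mp h1

open Classical in
theorem star_realizable {V : Type} [Fintype V] (G : SimpleGraph V) (w : V → ℝ)
    (hw : ∀ v, 0 ≤ w v) (s : Multiset ℝ)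
    (h : C ((Fintype.card V : ℝ) + 1) * (∏ v, (X - C (w v))) - X * derivative (∏ v, (X - C (w v))) =
      (s.map (fun a => X - C a)).prod) : Realizable (susp G) s := by
  refine ⟨starW w, ?_, ?_, ?_, ?_⟩
  · rintro (u | u) (v | v)
    · exact le_rfl
    · exact hw u
    · exact hw v
    · exact le_rfl
  · rintro (u | u) (v | v)
    · rfl
    · rfl
    · rfl
    · rfl
  · rintro (u | u) (v | v) hn
    · rfl
    · exact absurd trivial hn
    · exact absurd trivial hn
    · rfl
  · rw [← h, ← star_charpoly w]
    congr 1

lemma exists_root_of_sign {f : ℝ[X]} {a b : ℝ} (hab : a < b) (h : f.eval a * f.eval b < 0) :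
    ∃ c, a < c ∧ c < b ∧ f.eval c = 0 := by
  have hcont : ContinuousOn (fun x => f.eval x) (Set.Icc a b) := f.continuous.continuousOn
  rcases mul_neg_iff.mp h with ⟨h1, h2⟩ | ⟨h1, h2⟩
  · have := intermediate_value_Ioo' hab.le hcont
    obtain ⟨c, hc, hc2⟩ := this (⟨h2, h1⟩ : (0:ℝ) ∈ Set.Ioo (f.eval b) (f.eval a))
    exact ⟨c, hc.1, hc.2, hc2⟩
  · have := intermediate_value_Ioo hab.le hcont
    obtain ⟨c, hc, hc2⟩ := this (⟨h1, h2⟩ : (0:ℝ) ∈ Set.Ioo (f.eval a) (f.eval b))
    exact ⟨c, hc.1, hc.2, hc2⟩

lemma ivt_factor {n : ℕ} {f : ℝ[X]} (hf : f.Monic) (hdeg : f.natDegree = n) (τ : ℕ → ℝ)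
    (hτ : ∀ j, τ j < τ (j + 1)) (hsign : ∀ j < n, f.eval (τ j) * f.eval (τ (j + 1)) < 0) :
    ∃ r : Fin n → ℝ, (∀ j : Fin n, τ j < r j) ∧ f = ∏ j, (X - C (r j)) := by
  classical
  have hex : ∀ j : Fin n, ∃ c, τ j < c ∧ c < τ (j + 1) ∧ f.eval c = 0 := fun j =>
    exists_root_of_sign (hτ j) (hsign j j.2)
  choose r hr1 hr2 hr3 using hex
  have hmono : StrictMono τ := strictMono_nat_of_lt_succ hτ
  have hinj : Function.Injective r := by
    have hlt : ∀ i j : Fin n, i < j → r i < r j := by
      intro i j hij
      have h1 : τ (i + 1) ≤ τ j := hmono.monotone hij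
      linarith [hr2 i, hr1 j]
    intro i j hij
    rcases lt_trichotomy i j with h | h | h
    · exact absurd hij (hlt i j h).ne
    · exact h
    · exact absurd hij (hlt j i h).ne'
  refine ⟨r, hr1, ?_⟩
  have hle : (univ.image r).val ≤ f.roots := by
    rw [Finset.val_le_iff_val_subset]
    intro a ha
    rw [Finset.mem_val, mem_image] at ha
    obtain ⟨j, -, rfl⟩ := ha
    rw [mem_roots hf.ne_zero]
    exact hr3 j
  have hcard : (univ.image r).val.card = n := by
    rw [Finset.card_val, card_image_of_injective _ hinj, card_univ, Fintype.card_fin]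
  have heq : (univ.image r).val = f.roots := by
    apply Multiset.eq_of_le_of_card_le hle
    rw [hcard, ← hdeg]
    exact f.card_roots'
  have hprod := prod_multiset_X_sub_C_of_monic_of_roots_card_eq hf (by rw [← heq, hcard, hdeg])
  rw [← hprod, ← heq, Finset.image_val_of_injOn (hinj.injOn), Multiset.map_map]
  rfl

/-- the inverse of the operator f -> (n+1) f - X f' -/
noncomputable def J (n : ℕ) (p : ℝ[X]) : ℝ[X] :=
  ∑ k ∈ range (n + 1), C (p.coeff k / ((n:ℝ) + 1 - k)) * X ^ k

lemma J_coeff (n : ℕ) (p : ℝ[X]) (k : ℕ) :
    (J n p).coeff k = if k ≤ n then p.coeff k / ((n:ℝ) + 1 - k) else 0 := by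
  unfold J
  rw [finset_sum_coeff]
  simp only [coeff_C_mul, coeff_X_pow]
  by_cases hk : k ≤ n
  · rw [sum_eq_single k]
    · simp [hk]
    · intro b _ hb
      simp [hb.symm]
    · intro h
      exact absurd (mem_range.mpr (by omega)) h
  · rw [if_neg hk]
    apply sum_eq_zero
    intro b hb
    rw [mem_range] at hb
    have : k ≠ b := by omega
    simp [this]

lemma T_coeff (n : ℕ) (q : ℝ[X]) (k : ℕ) :
    (C ((n:ℝ) + 1) * q - X * derivative q).coeff k = ((n:ℝ) + 1 - k) * q.coeff k := by
  rw [coeff_sub, coeff_C_mul]
  cases k with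
  | zero => simp
  | succ k =>
    rw [coeff_X_mul, coeff_derivative]
    push_cast
    ring

lemma T_J (n : ℕ) {p : ℝ[X]} (hp : p.natDegree ≤ n) :
    C ((n:ℝ) + 1) * J n p - X * derivative (J n p) = p := by
  ext k
  rw [T_coeff, J_coeff]
  by_cases hk : k ≤ n
  · rw [if_pos hk]
    have : (n:ℝ) + 1 - k ≠ 0 := by
      have : (k:ℝ) ≤ n := by exact_mod_cast hk
      linarith
    field_simp
  · rw [if_neg hk, mul_zero]
    symm
    apply coeff_eq_zero_of_natDegree_lt
    omega

lemma J_T (n : ℕ) {q : ℝ[X]} (hq : q.natDegree ≤ n) :
    J n (C ((n:ℝ) + 1) * q - X * derivative q) = q := by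
  ext k
  rw [J_coeff, T_coeff]
  by_cases hk : k ≤ n
  · rw [if_pos hk]
    have : (n:ℝ) + 1 - k ≠ 0 := by
      have : (k:ℝ) ≤ n := by exact_mod_cast hk
      linarith
    field_simp
  · rw [if_neg hk]
    symm
    apply coeff_eq_zero_of_natDegree_lt
    omega

lemma J_natDegree {n : ℕ} {p : ℝ[X]} (hp : p.Monic) (hd : p.natDegree = n) :
    (J n p).natDegree = n ∧ (J n p).Monic := by
  have h1 : (J n p).coeff n = 1 := by
    rw [J_coeff, if_pos le_rfl]
    have : p.coeff n = 1 := by rw [← hd]; exact hp
    rw [this]
    norm_num
  have h2 : (J n p).natDegree ≤ n := by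
    rw [natDegree_le_iff_coeff_eq_zero]
    intro k hk
    rw [J_coeff, if_neg (by omega)]
  have h3 : (J n p).natDegree = n := by
    apply le_antisymm h2
    apply le_natDegree_of_ne_zero
    rw [h1]; exact one_ne_zero
  refine ⟨h3, ?_⟩
  rw [Monic, leadingCoeff, h3, h1]

lemma continuous_coeff {n : ℕ} (S : Finset (Fin n)) (k : ℕ) :
    Continuous (fun l : Fin n → ℝ => (∏ j ∈ S, (X - C (l j))).coeff k) := by
  classical
  induction S using Finset.induction generalizing k with
  | empty => simp only [prod_empty]; exact continuous_const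
  | insert a S ha ih =>
    have : (fun l : Fin n → ℝ => (∏ j ∈ insert a S, (X - C (l j))).coeff k) =
        fun l => (X * (∏ j ∈ S, (X - C (l j)))).coeff k - l a * (∏ j ∈ S, (X - C (l j))).coeff k := by
      funext l
      rw [prod_insert ha, sub_mul, coeff_sub, coeff_C_mul]
    rw [this]
    refine Continuous.sub ?_ ((continuous_apply a).mul (ih k))
    cases k with
    | zero => simp only [mul_coeff_zero, coeff_X_zero, zero_mul]; exact continuous_const
    | succ k => simp only [coeff_X_mul]; exact ih k

lemma continuous_J {n : ℕ} (x : ℝ) :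
    Continuous (fun l : Fin n → ℝ => (J n (∏ j, (X - C (l j)))).eval x) := by
  unfold J
  simp only [eval_finset_sum, eval_mul, eval_C, eval_pow, eval_X]
  refine continuous_finset_sum _ (fun k _ => ?_)
  exact ((continuous_coeff univ k).div_const _).mul continuous_const

end Pool.Agent.V11117.SU
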