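import Mathlib
import Pool.Agent.V11117.SU1

namespace Pool.Agent.V11117.SU

open Finset Polynomial

lemma prod_two_neg {n : ℕ} (a b : Fin n → ℝ) (k : Fin n) (hk : a k * b k < 0)
    (h : ∀ i, i ≠ k → 0 < a i * b i) : (∏ i, a i) * (∏ i, b i) < 0 := by
  rw [← Finset.prod_mul_distrib, ← Finset.mul_prod_erase univ _ (mem_univ k)]
  apply mul_neg_of_neg_of_pos hk
  apply Finset.prod_pos
  intro i hi
  exact h i (Finset.ne_of_mem_erase hi)

/-- the reference polynomial with roots 1, ..., n -/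
noncomputable def Q0 (n : ℕ) : ℝ[X] := ∏ i : Fin n, (X - C ((i:ℝ) + 1))

lemma Q0_monic (n : ℕ) : (Q0 n).Monic := monic_prod_of_monic _ _ (fun i _ => monic_X_sub_C _)

lemma Q0_natDegree (n : ℕ) : (Q0 n).natDegree = n := by
  unfold Q0
  rw [natDegree_prod_of_monic _ _ (fun i _ => monic_X_sub_C _)]
  simp only [natDegree_X_sub_C]
  simp

lemma Q0_eval (n : ℕ) (x : ℝ) : (Q0 n).eval x = ∏ i : Fin n, (x - ((i:ℝ) + 1)) := by
  unfold Q0
  rw [eval_prod]
  simp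

noncomputable def p0 (n : ℕ) : ℝ[X] := C ((n:ℝ) + 1) * Q0 n - X * derivative (Q0 n)

lemma p0_natDegree (n : ℕ) : (p0 n).natDegree = n ∧ (p0 n).Monic := by
  have h1 : (p0 n).coeff n = 1 := by
    unfold p0
    rw [T_coeff]
    have : (Q0 n).coeff n = 1 := by
      have := Q0_monic n
      rw [Monic, leadingCoeff, Q0_natDegree] at this
      exact this
    rw [this]
    ring
  have h2 : (p0 n).natDegree ≤ n := by
    rw [natDegree_le_iff_coeff_eq_zero]
    intro k hk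
    unfold p0
    rw [T_coeff, coeff_eq_zero_of_natDegree_lt (by rw [Q0_natDegree]; exact hk), mul_zero]
  have h3 : (p0 n).natDegree = n := by
    apply le_antisymm h2
    apply le_natDegree_of_ne_zero
    rw [h1]; exact one_ne_zero
  refine ⟨h3, ?_⟩
  rw [Monic, leadingCoeff, h3, h1]

lemma deriv_Q0 (n : ℕ) (j : Fin n) : (derivative (Q0 n)).eval ((j:ℝ) + 1) =
    ∏ i ∈ univ.erase j, (((j:ℝ) + 1) - ((i:ℝ) + 1)) := by
  classical
  unfold Q0
  rw [derivative_prod_finset, eval_finset_sum, Finset.sum_eq_single j]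
  · rw [derivative_X_sub_C, mul_one, eval_prod]
    simp
  · intro i _ hij
    rw [derivative_X_sub_C, mul_one, eval_prod]
    apply Finset.prod_eq_zero (mem_erase.mpr ⟨hij.symm, mem_univ j⟩)
    simp
  · intro h
    exact absurd (mem_univ j) h

lemma p0_at (n : ℕ) (j : Fin n) : (p0 n).eval ((j:ℝ) + 1) =
    - ((j:ℝ) + 1) * ∏ i ∈ univ.erase j, (((j:ℝ) + 1) - ((i:ℝ) + 1)) := by
  unfold p0
  have h : (Q0 n).eval ((j:ℝ) + 1) = 0 := by
    rw [Q0_eval]
    exact Finset.prod_eq_zero (mem_univ j) (by ring)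
  rw [eval_sub, eval_mul, eval_mul, eval_X, h, deriv_Q0]
  ring

lemma p0_sign (n : ℕ) (j : ℕ) (hj : j + 1 < n) :
    (p0 n).eval ((j:ℝ) + 1) * (p0 n).eval (((j + 1 : ℕ):ℝ) + 1) < 0 := by
  classical
  have h1 := p0_at n ⟨j, by omega⟩
  have h2 := p0_at n ⟨j + 1, hj⟩
  simp only at h1 h2
  rw [h1, h2]
  have hne : (⟨j + 1, hj⟩ : Fin n) ≠ ⟨j, by omega⟩ := by
    intro h
    have := congrArg Fin.val h
    simp at this
  rw [← Finset.mul_prod_erase (univ.erase (⟨j, by omega⟩ : Fin n)) _ (mem_erase.mpr ⟨hne, mem_univ _⟩),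
    ← Finset.mul_prod_erase (univ.erase (⟨j + 1, hj⟩ : Fin n)) _ (mem_erase.mpr ⟨hne.symm, mem_univ _⟩)]
  have he : (univ.erase (⟨j + 1, hj⟩ : Fin n)).erase ⟨j, by omega⟩ = (univ.erase (⟨j, by omega⟩ : Fin n)).erase ⟨j + 1, hj⟩ :=
    Finset.erase_right_comm
  rw [he]
  set S := (univ.erase (⟨j, by omega⟩ : Fin n)).erase ⟨j + 1, hj⟩ with hS
  have hpos : 0 < (∏ i ∈ S, (((j:ℝ) + 1) - ((i:ℝ) + 1))) * (∏ i ∈ S, ((((j + 1 : ℕ):ℝ) + 1) - ((i:ℝ) + 1))) := by
    rw [← Finset.prod_mul_distrib]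
    apply Finset.prod_pos
    intro i hi
    have hi1 : i ≠ ⟨j + 1, hj⟩ := Finset.ne_of_mem_erase hi
    have hi2 : i ≠ ⟨j, by omega⟩ := Finset.ne_of_mem_erase (Finset.mem_of_mem_erase hi)
    have hv1 : (i:ℕ) ≠ j + 1 := fun h => hi1 (Fin.ext h)
    have hv2 : (i:ℕ) ≠ j := fun h => hi2 (Fin.ext h)
    rcases lt_or_gt_of_ne hv2 with h | h
    · have : ((i:ℕ):ℝ) < j := by exact_mod_cast h
      apply mul_pos
      · linarith
      · push_cast; linarith
    · have h' : j + 1 < (i:ℕ) := by omega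
      have : ((j + 1 : ℕ):ℝ) < ((i:ℕ):ℝ) := by exact_mod_cast h'
      apply mul_pos_of_neg_of_neg
      · push_cast at this; linarith
      · linarith
  have hj0 : (0:ℝ) ≤ j := Nat.cast_nonneg j
  have e : (-((j:ℝ) + 1) * ((((j:ℝ) + 1) - ((((⟨j + 1, hj⟩ : Fin n) : ℕ):ℝ) + 1)) * ∏ i ∈ S, (((j:ℝ) + 1) - ((i:ℝ) + 1)))) *
      (-(((j + 1 : ℕ):ℝ) + 1) * (((((j + 1 : ℕ):ℝ) + 1) - ((((⟨j, by omega⟩ : Fin n) : ℕ):ℝ) + 1)) * ∏ i ∈ S, ((((j + 1 : ℕ):ℝ) + 1) - ((i:ℝ) + 1)))) =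
      - (((j:ℝ) + 1) * ((j:ℝ) + 2)) * ((∏ i ∈ S, (((j:ℝ) + 1) - ((i:ℝ) + 1))) * (∏ i ∈ S, ((((j + 1 : ℕ):ℝ) + 1) - ((i:ℝ) + 1)))) := by
    push_cast
    ring
  rw [e]
  have : 0 < ((j:ℝ) + 1) * ((j:ℝ) + 2) := by positivity
  nlinarith [mul_pos this hpos]

lemma p0_last_neg (n : ℕ) (hn : 1 ≤ n) : (p0 n).eval (((n - 1 : ℕ):ℝ) + 1) < 0 := by
  have h1 := p0_at n ⟨n - 1, by omega⟩
  simp only at h1
  rw [h1]
  have hpos : 0 < ∏ i ∈ univ.erase (⟨n - 1, by omega⟩ : Fin n), ((((n - 1 : ℕ):ℝ) + 1) - ((i:ℝ) + 1)) := by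
    apply Finset.prod_pos
    intro i hi
    have hi1 : i ≠ ⟨n - 1, by omega⟩ := Finset.ne_of_mem_erase hi
    have hv1 : (i:ℕ) ≠ n - 1 := fun h => hi1 (Fin.ext h)
    have h2 : (i:ℕ) < n - 1 := by have := i.2; omega
    have : ((i:ℕ):ℝ) < ((n - 1 : ℕ):ℝ) := by exact_mod_cast h2
    linarith
  have : (0:ℝ) ≤ ((n - 1 : ℕ):ℝ) := Nat.cast_nonneg _
  nlinarith

lemma p0_far_pos (n : ℕ) : 0 < (p0 n).eval ((n:ℝ) * ((n:ℝ) + 1) + 1) := by
  set x : ℝ := (n:ℝ) * ((n:ℝ) + 1) + 1 with hx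
  have hn0 : (0:ℝ) ≤ n := Nat.cast_nonneg n
  have hxi : ∀ i : Fin n, 0 < x - ((i:ℝ) + 1) := by
    intro i
    have : ((i:ℕ):ℝ) + 1 ≤ n := by exact_mod_cast i.2
    nlinarith
  have hder : (derivative (Q0 n)).eval x = (∏ i : Fin n, (x - ((i:ℝ) + 1))) * ∑ i : Fin n, 1 / (x - ((i:ℝ) + 1)) := by
    unfold Q0
    rw [Polynomial.derivative_prod_finset, eval_finset_sum, mul_sum]
    refine sum_congr rfl (fun v _ => ?_)
    rw [derivative_X_sub_C, mul_one, eval_prod]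
    rw [← Finset.mul_prod_erase univ (fun v : Fin n => x - ((v:ℝ) + 1)) (mem_univ v)]
    simp only [eval_sub, eval_X, eval_C]
    have := (hxi v).ne'
    field_simp
  unfold p0
  rw [eval_sub, eval_mul, eval_mul, eval_X, eval_C, hder, Q0_eval]
  have hP : 0 < ∏ i : Fin n, (x - ((i:ℝ) + 1)) := Finset.prod_pos (fun i _ => hxi i)
  have hsum : x * ∑ i : Fin n, 1 / (x - ((i:ℝ) + 1)) < (n:ℝ) + 1 := by
    have h1 : ∑ i : Fin n, 1 / (x - ((i:ℝ) + 1)) ≤ ∑ i : Fin n, 1 / (x - n) := by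
      apply sum_le_sum
      intro i _
      have hi : ((i:ℕ):ℝ) + 1 ≤ n := by exact_mod_cast i.2
      apply one_div_le_one_div_of_le
      · nlinarith
      · linarith
    rw [sum_const, card_univ, Fintype.card_fin, nsmul_eq_mul] at h1
    have hx0 : 0 < x := by positivity
    have h2 : x * ∑ i : Fin n, 1 / (x - ((i:ℝ) + 1)) ≤ x * ((n:ℝ) * (1 / (x - n))) :=
      mul_le_mul_of_nonneg_left h1 hx0.le
    refine lt_of_le_of_lt h2 ?_
    have hxn : 0 < x - n := by nlinarith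
    have e : x * ((n:ℝ) * (1 / (x - n))) = (x * n) / (x - n) := by ring
    rw [e, div_lt_iff₀ hxn]
    nlinarith
  nlinarith [mul_pos hP (sub_pos.mpr hsum)]

/-- the base step: an open box of spectra is realized by stars with weights w ≥ 0 -/
theorem base_ball (n : ℕ) (hn : 1 ≤ n) : ∃ (l0 : Fin n → ℝ) (ρ : ℝ), 0 < ρ ∧ (∀ j, 1 ≤ l0 j) ∧
    ∀ l : Fin n → ℝ, (∀ j, |l j - l0 j| < ρ) → ∃ w : Fin n → ℝ, (∀ j, 0 ≤ w j) ∧
      C ((n:ℝ) + 1) * (∏ v, (X - C (w v))) - X * derivative (∏ v, (X - C (w v))) =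
        ∏ j, (X - C (l j)) := by
  -- roots of p0
  let τ : ℕ → ℝ := fun j => if j < n then (j:ℝ) + 1 else (n:ℝ) * ((n:ℝ) + 1) + 1 + (j - n)
  have hn1 : (1:ℝ) ≤ n := by exact_mod_cast hn
  have hτ : ∀ j, τ j < τ (j + 1) := by
    intro j
    simp only [τ]
    by_cases h1 : j + 1 < n
    · rw [if_pos (by omega), if_pos h1]
      push_cast; linarith
    · rw [if_neg h1]
      by_cases h2 : j < n
      · rw [if_pos h2]
        have : j + 1 = n := by omega
        have hjn : (j:ℝ) + 1 = n := by exact_mod_cast this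
        push_cast
        nlinarith
      · rw [if_neg h2]
        push_cast
        linarith
  have hsg : ∀ j < n, (p0 n).eval (τ j) * (p0 n).eval (τ (j + 1)) < 0 := by
    intro j hj
    simp only [τ]
    rw [if_pos hj]
    by_cases h1 : j + 1 < n
    · rw [if_pos h1]
      exact p0_sign n j h1
    · rw [if_neg h1]
      have hjn : j + 1 = n := by omega
      have hj' : j = n - 1 := by omega
      have e1 : ((n:ℝ) * ((n:ℝ) + 1) + 1 + (((j + 1 : ℕ):ℝ) - n)) = (n:ℝ) * ((n:ℝ) + 1) + 1 := by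
        rw [hjn]; ring
      rw [e1]
      have h3 := p0_far_pos n
      have h4 := p0_last_neg n hn
      rw [← hj'] at h4
      exact mul_neg_of_neg_of_pos h4 h3
  obtain ⟨l0, hl0, hfac⟩ := ivt_factor (p0_natDegree n).2 (p0_natDegree n).1 τ hτ hsg
  have hl1 : ∀ j, 1 ≤ l0 j := by
    intro j
    have h1 := hl0 j
    simp only [τ] at h1
    rw [if_pos j.2] at h1
    have : (0:ℝ) ≤ ((j:ℕ):ℝ) := Nat.cast_nonneg _
    linarith
  -- sign pattern of J
  let σ : ℕ → ℝ := fun j => (j:ℝ) + 1 / 2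
  have hσ : ∀ j, σ j < σ (j + 1) := by
    intro j
    simp only [σ]
    push_cast; linarith
  let F : (Fin n → ℝ) → ℕ → ℝ := fun l j => (J n (∏ j, (X - C (l j)))).eval (σ j) * (J n (∏ j, (X - C (l j)))).eval (σ (j + 1))
  have hF0 : ∀ j < n, F l0 j < 0 := by
    intro j hj
    simp only [F]
    rw [← hfac]
    have : J n (p0 n) = Q0 n := J_T n (Q0_natDegree n).le
    rw [this, Q0_eval, Q0_eval]
    apply prod_two_neg _ _ ⟨j, hj⟩
    · simp only [σ]
      push_cast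
      nlinarith
    · intro i hi
      have hv : (i:ℕ) ≠ j := fun h => hi (Fin.ext h)
      simp only [σ]
      rcases lt_or_gt_of_ne hv with h | h
      · have : ((i:ℕ):ℝ) + 1 ≤ j := by exact_mod_cast h
        apply mul_pos
        · linarith
        · push_cast; linarith
      · have : (j:ℝ) + 1 ≤ ((i:ℕ):ℝ) := by exact_mod_cast h
        apply mul_pos_of_neg_of_neg
        · linarith
        · push_cast; linarith
  have hopen : IsOpen {l : Fin n → ℝ | ∀ j ∈ range n, F l j < 0} := by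
    have : {l : Fin n → ℝ | ∀ j ∈ range n, F l j < 0} = ⋂ j ∈ range n, {l | F l j < 0} := by
      ext l; simp
    rw [this]
    apply isOpen_biInter_finset
    intro j _
    apply isOpen_lt
    · exact (continuous_J (σ j)).mul (continuous_J (σ (j + 1)))
    · exact continuous_const
  have hmem : l0 ∈ {l : Fin n → ℝ | ∀ j ∈ range n, F l j < 0} := by
    intro j hj
    exact hF0 j (mem_range.mp hj)
  obtain ⟨ρ, hρ, hball⟩ := Metric.isOpen_iff.mp hopen l0 hmem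
  refine ⟨l0, ρ, hρ, hl1, ?_⟩
  intro l hl
  have hlb : l ∈ Metric.ball l0 ρ := by
    rw [Metric.mem_ball, dist_pi_lt_iff hρ]
    intro j
    rw [Real.dist_eq]
    exact hl j
  have hs := hball hlb
  have hmon : (∏ j, (X - C (l j))).Monic := monic_prod_of_monic _ _ (fun i _ => monic_X_sub_C _)
  have hnd : (∏ j, (X - C (l j))).natDegree = n := by
    rw [natDegree_prod_of_monic _ _ (fun i _ => monic_X_sub_C _)]
    simp
  obtain ⟨w, hw, hwf⟩ := ivt_factor (J_natDegree hmon hnd).2 (J_natDegree hmon hnd).1 σ hσ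
    (fun j hj => hs j (mem_range.mpr hj))
  refine ⟨w, ?_, ?_⟩
  · intro j
    have h1 := hw j
    simp only [σ] at h1
    have : (0:ℝ) ≤ ((j:ℕ):ℝ) := Nat.cast_nonneg _
    linarith
  · rw [← hwf]
    exact T_J n hnd.le

end Pool.Agent.V11117.SU
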