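import Mathlib

namespace Pool.Agent.V11117.SU

open Finset

/-- the elimination goal: after total shift T, the list l still to be eliminated and the final
tuple A -/
def Good {n0 : ℕ} (R : ℕ → Multiset ℝ → Prop) (A : Fin n0 → ℝ) (l : List ℝ) (T : ℝ) : Prop :=
  R l.length (((l : Multiset ℝ) + univ.val.map A).map (fun a => a - T))

variable {n0 : ℕ} {R : ℕ → Multiset ℝ → Prop} {l0 : Fin n0 → ℝ} {ρ : ℝ}

lemma good_nil (H0 : ∀ l : Fin n0 → ℝ, (∀ j, |l j - l0 j| < ρ) → R 0 (univ.val.map l))
    {A : Fin n0 → ℝ} {T : ℝ} (h : ∀ j, |A j - T - l0 j| < ρ) : Good R A [] T := by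
  have h1 := H0 (fun j => A j - T) h
  unfold Good
  rw [Multiset.coe_nil, zero_add, Multiset.map_map]
  exact h1

lemma good_cons (H1 : ∀ (j : ℕ) (s : Multiset ℝ) (t : ℝ), R j s → 0 ≤ t →
      R (j + 1) ((((n0:ℝ) + 2 + j) * t) ::ₘ s.map (fun a => a + t)))
    {A : Fin n0 → ℝ} {c T : ℝ} {l : List ℝ} (hT : T ≤ c)
    (h : Good R A l (T + (c - T) / ((n0:ℝ) + 2 + l.length))) : Good R A (c :: l) T := by
  have hN : (0:ℝ) < (n0:ℝ) + 2 + l.length := by positivity
  have h1 := H1 l.length _ ((c - T) / ((n0:ℝ) + 2 + l.length)) h (div_nonneg (by linarith) hN.le)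
  unfold Good
  rw [List.length_cons]
  convert h1 using 1
  rw [← Multiset.cons_coe, Multiset.cons_add, Multiset.map_cons, Multiset.map_map]
  congr 1
  · field_simp
  · apply Multiset.map_congr rfl
    intro a _
    simp only [Function.comp]
    ring

lemma phase2 (hρ : 0 < ρ) (H0 : ∀ l : Fin n0 → ℝ, (∀ j, |l j - l0 j| < ρ) → R 0 (univ.val.map l))
    (H1 : ∀ (j : ℕ) (s : Multiset ℝ) (t : ℝ), R j s → 0 ≤ t →
      R (j + 1) ((((n0:ℝ) + 2 + j) * t) ::ₘ s.map (fun a => a + t)))
    {A : Fin n0 → ℝ} {b δ : ℝ} (hδ : δ ≤ ρ / 4)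
    (hA : ∀ j, b + l0 j ≤ A j ∧ A j ≤ b + l0 j + δ) (S : List ℝ) :
    ∀ (T : ℝ), S.Pairwise (· ≤ ·) → (∀ x ∈ S, T ≤ x) → (∀ x ∈ S, x ≤ b + δ) → T ≤ b + δ →
      (b - T) * ((n0:ℝ) + 1) ≤ (ρ / 4) * ((n0:ℝ) + 1 + (S.countP (fun x => decide (b ≤ x)) : ℕ)) →
      Good R A S T := by
  induction S with
  | nil =>
    intro T _ _ _ hT hb
    apply good_nil H0
    intro j
    have h1 := hA j
    rw [List.countP_nil, Nat.cast_zero, add_zero] at hb
    have hn : (0:ℝ) < (n0:ℝ) + 1 := by positivity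
    have hb2 : b - T ≤ ρ / 4 := le_of_mul_le_mul_right hb hn
    rw [abs_lt]
    constructor <;> linarith
  | cons c S ih =>
    intro T hp hTx hx hT hb
    rw [List.pairwise_cons] at hp
    have hTc : T ≤ c := hTx c (List.mem_cons_self)
    have hcb : c ≤ b + δ := hx c (List.mem_cons_self)
    apply good_cons H1 hTc
    have hN : (0:ℝ) < (n0:ℝ) + 2 + S.length := by positivity
    have hN1 : (1:ℝ) ≤ (n0:ℝ) + 2 + S.length := by
      have : (0:ℝ) ≤ n0 := Nat.cast_nonneg _
      have : (0:ℝ) ≤ S.length := Nat.cast_nonneg _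
      linarith
    have hT'c : T + (c - T) / ((n0:ℝ) + 2 + S.length) ≤ c := by
      have : (c - T) / ((n0:ℝ) + 2 + S.length) ≤ c - T := div_le_self (by linarith) hN1
      linarith
    have hTT' : T ≤ T + (c - T) / ((n0:ℝ) + 2 + S.length) := by
      have : 0 ≤ (c - T) / ((n0:ℝ) + 2 + S.length) := div_nonneg (by linarith) hN.le
      linarith
    apply ih _ hp.2
    · intro x hxS
      exact hT'c.trans (hp.1 x hxS)
    · intro x hxS
      exact hx x (List.mem_cons_of_mem _ hxS)
    · linarith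
    · by_cases hbc : b ≤ c
      · have hall : S.countP (fun x => decide (b ≤ x)) = S.length := by
          rw [List.countP_eq_length]
          intro a ha
          exact decide_eq_true (hbc.trans (hp.1 a ha))
        have hcnt : (c :: S).countP (fun x => decide (b ≤ x)) = S.length + 1 := by
          rw [List.countP_cons_of_pos (by exact decide_eq_true hbc), hall]
        rw [hcnt] at hb
        rw [hall]
        push_cast at hb
        set N : ℝ := (n0:ℝ) + 2 + S.length with hNdef
        have e1 : (b - (T + (c - T) / N)) * ((n0:ℝ) + 1) ≤ ((b - T) * ((n0:ℝ) + 1)) * ((N - 1) / N) := by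
          have h2 : (b - (T + (c - T) / N)) ≤ (b - T) * ((N - 1) / N) := by
            have h3 : (b - T) / N ≤ (c - T) / N := by
              apply div_le_div_of_nonneg_right _ hN.le
              linarith
            have h4 : (b - T) * ((N - 1) / N) = (b - T) - (b - T) / N := by
              field_simp
            rw [h4]; linarith
          have hn : (0:ℝ) ≤ (n0:ℝ) + 1 := by positivity
          calc (b - (T + (c - T) / N)) * ((n0:ℝ) + 1) ≤ ((b - T) * ((N - 1) / N)) * ((n0:ℝ) + 1) :=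
                mul_le_mul_of_nonneg_right h2 hn
            _ = _ := by ring
        have e2 : ((b - T) * ((n0:ℝ) + 1)) * ((N - 1) / N) ≤ (ρ / 4 * N) * ((N - 1) / N) := by
          apply mul_le_mul_of_nonneg_right
          · have : ρ / 4 * N = ρ / 4 * ((n0:ℝ) + 1 + ((S.length:ℝ) + 1)) := by rw [hNdef]; ring
            rw [this]; exact hb
          · apply div_nonneg _ hN.le
            linarith
        have e3 : (ρ / 4 * N) * ((N - 1) / N) = ρ / 4 * ((n0:ℝ) + 1 + S.length) := by
          have : N - 1 = (n0:ℝ) + 1 + S.length := by rw [hNdef]; ring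
          rw [← this]
          field_simp
        linarith
      · have hcnt : (c :: S).countP (fun x => decide (b ≤ x)) = S.countP (fun x => decide (b ≤ x)) := by
          rw [List.countP_cons_of_neg]
          simpa using hbc
        rw [hcnt] at hb
        have hn : (0:ℝ) ≤ (n0:ℝ) + 1 := by positivity
        have : (b - (T + (c - T) / ((n0:ℝ) + 2 + S.length))) * ((n0:ℝ) + 1) ≤ (b - T) * ((n0:ℝ) + 1) :=
          mul_le_mul_of_nonneg_right (by linarith) hn
        linarith

lemma phase1 (H1 : ∀ (j : ℕ) (s : Multiset ℝ) (t : ℝ), R j s → 0 ≤ t →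
      R (j + 1) ((((n0:ℝ) + 2 + j) * t) ::ₘ s.map (fun a => a + t)))
    {A : Fin n0 → ℝ} {S : List ℝ} {ε K : ℝ} (hS : ∀ T, 0 ≤ T → T ≤ ε → Good R A S T)
    (hK0 : 0 < K) (hK : K ≤ (n0:ℝ) + 1 + S.length) (l : List ℝ) :
    ∀ T : ℝ, l.Pairwise (· ≤ ·) → (∀ x ∈ l, T ≤ x) → 0 ≤ T → T + l.sum / K ≤ ε →
      Good R A (l ++ S) T := by
  induction l with
  | nil =>
    intro T _ _ h0 h1
    rw [List.sum_nil, zero_div, add_zero] at h1
    exact hS T h0 h1
  | cons c l ih =>
    intro T hp hTx h0 h1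
    rw [List.pairwise_cons] at hp
    have hTc : T ≤ c := hTx c (List.mem_cons_self)
    rw [List.cons_append]
    apply good_cons H1 hTc
    have hlen : (((l ++ S).length : ℕ) : ℝ) = (l.length : ℝ) + S.length := by
      rw [List.length_append]; push_cast; ring
    rw [hlen]
    set N : ℝ := (n0:ℝ) + 2 + ((l.length : ℝ) + S.length) with hNdef
    have hNK : K ≤ N := by
      have : (0:ℝ) ≤ l.length := Nat.cast_nonneg _
      rw [hNdef]; linarith
    have hN : (0:ℝ) < N := lt_of_lt_of_le hK0 hNK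
    have hN1 : (1:ℝ) ≤ N := by
      have : (0:ℝ) ≤ n0 := Nat.cast_nonneg _
      have : (0:ℝ) ≤ l.length := Nat.cast_nonneg _
      have : (0:ℝ) ≤ S.length := Nat.cast_nonneg _
      rw [hNdef]; linarith
    have hT'c : T + (c - T) / N ≤ c := by
      have : (c - T) / N ≤ c - T := div_le_self (by linarith) hN1
      linarith
    have hTT' : T ≤ T + (c - T) / N := by
      have : 0 ≤ (c - T) / N := div_nonneg (by linarith) hN.le
      linarith
    apply ih _ hp.2
    · intro x hxS
      exact hT'c.trans (hp.1 x hxS)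
    · linarith
    · rw [List.sum_cons, add_div] at h1
      have h2 : (c - T) / N ≤ c / K := by
        calc (c - T) / N ≤ c / N := div_le_div_of_nonneg_right (by linarith) hN.le
          _ ≤ c / K := div_le_div_of_nonneg_left (by linarith) hK0 hNK
      linarith

lemma map_val_eq_sum {ι : Type} (s : Finset ι) (y : ι → ℝ) :
    s.val.map y = ∑ i ∈ s, ({y i} : Multiset ℝ) := by
  have : ∑ i ∈ s, ({y i} : Multiset ℝ) = ((s.val.map y).map (fun a => ({a} : Multiset ℝ))).sum := by
    rw [Multiset.map_map]; rfl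
  rw [this, Multiset.sum_map_singleton]

/-- the deterministic core: sufficient conditions on the tuple y for it to be realizable -/
theorem det_main (hρ : 0 < ρ) (hl0 : ∀ j, 1 ≤ l0 j)
    (H0 : ∀ l : Fin n0 → ℝ, (∀ j, |l j - l0 j| < ρ) → R 0 (univ.val.map l))
    (H1 : ∀ (j : ℕ) (s : Multiset ℝ) (t : ℝ), R j s → 0 ≤ t →
      R (j + 1) ((((n0:ℝ) + 2 + j) * t) ::ₘ s.map (fun a => a + t)))
    {M : ℕ} (y : Fin M → ℝ) (hy0 : ∀ i, 0 ≤ y i) {L : ℕ} {b δ ε : ℝ}
    (hδ : δ ≤ ρ / 4) (hδ0 : 0 < δ) (hδ1 : δ < 1) (hε : 0 < ε) (hεb : ε ≤ b)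
    (hL : b * ((n0:ℝ) + 1) ≤ (ρ / 4) * ((n0:ℝ) + 1 + L))
    (κ : Fin n0 ⊕ Fin L → Fin M) (hκ : Function.Injective κ)
    (ha : ∀ j, b + l0 j ≤ y (κ (Sum.inl j)) ∧ y (κ (Sum.inl j)) ≤ b + l0 j + δ)
    (hw : ∀ j, b ≤ y (κ (Sum.inr j)) ∧ y (κ (Sum.inr j)) ≤ b + δ)
    (hg : ∑ i, ((if y i < ε then 1 else 0) + (y i) ^ 2 / (ε * b)) ≤ (M:ℝ) / 4) :
    R (M - n0) (univ.val.map y) := by
  classical
  have hb : 0 < b := lt_of_lt_of_le hε hεb
  set I : Finset (Fin M) := univ.image (fun j => κ (Sum.inl j)) with hI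
  have hinl : Function.Injective (fun j => κ (Sum.inl j) : Fin n0 → Fin M) :=
    hκ.comp Sum.inl_injective
  have hinr : Function.Injective (fun j => κ (Sum.inr j) : Fin L → Fin M) :=
    hκ.comp Sum.inr_injective
  have hIc : I.card = n0 := by
    rw [hI, card_image_of_injective _ hinl, card_univ, Fintype.card_fin]
  set B : Finset (Fin M) := Iᶜ.filter (fun i => y i < ε ∨ b + δ < y i) with hB
  set D : Finset (Fin M) := Iᶜ.filter (fun i => ¬ (y i < ε ∨ b + δ < y i)) with hD
  have hcards : B.card + D.card + n0 = M := by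
    have h1 : B.card + D.card = Iᶜ.card := by
      rw [hB, hD]
      exact Finset.card_filter_add_card_filter_not _
    have h2 := Finset.card_add_card_compl I
    rw [Fintype.card_fin, hIc] at h2
    omega
  set l : List ℝ := (B.val.map y).sort (· ≤ ·) with hl
  set S : List ℝ := (D.val.map y).sort (· ≤ ·) with hS
  have hlB : (l : Multiset ℝ) = B.val.map y := Multiset.sort_eq _ _
  have hSD : (S : Multiset ℝ) = D.val.map y := Multiset.sort_eq _ _
  have hll : l.length = B.card := by
    rw [hl, Multiset.length_sort, Multiset.card_map, card_val]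
  have hSl : S.length = D.card := by
    rw [hS, Multiset.length_sort, Multiset.card_map, card_val]
  have hsum : univ.val.map y = ((l : Multiset ℝ) + (S : Multiset ℝ)) + univ.val.map (fun j => y (κ (Sum.inl j))) := by
    rw [hlB, hSD, map_val_eq_sum, map_val_eq_sum, map_val_eq_sum, map_val_eq_sum]
    rw [hB, hD, Finset.sum_filter_add_sum_filter_not, ← Finset.sum_add_sum_compl I, hI,
      Finset.sum_image (fun a _ b _ h => hinl h), add_comm]
  have hbad : ∀ i ∈ B, (1:ℝ) ≤ (if y i < ε then 1 else 0) + (y i) ^ 2 / (ε * b) ∧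
      y i ≤ ε * ((if y i < ε then 1 else 0) + (y i) ^ 2 / (ε * b)) := by
    intro i hi
    have h1 := (mem_filter.mp hi).2
    have h2 : 0 ≤ (y i) ^ 2 / (ε * b) := by positivity
    rcases h1 with h | h
    · rw [if_pos h]
      refine ⟨by linarith, ?_⟩
      nlinarith
    · have h3 : y i ≤ ε * ((y i) ^ 2 / (ε * b)) := by
        have e : ε * ((y i) ^ 2 / (ε * b)) = y i * (y i / b) := by field_simp
        rw [e]
        have : 1 ≤ y i / b := by rw [le_div_iff₀ hb]; linarith
        nlinarith [hy0 i]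
      have h4 : (0:ℝ) ≤ (if y i < ε then (1:ℝ) else 0) := by split_ifs <;> norm_num
      constructor
      · have h5 : 1 ≤ (y i) ^ 2 / (ε * b) := by
          rw [le_div_iff₀ (by positivity)]
          nlinarith
        linarith
      · nlinarith
  have hgB : ∑ i ∈ B, ((if y i < ε then (1:ℝ) else 0) + (y i) ^ 2 / (ε * b)) ≤ (M:ℝ) / 4 := by
    refine le_trans ?_ hg
    apply Finset.sum_le_sum_of_subset_of_nonneg (subset_univ _)
    intro i _ _
    have h2 : 0 ≤ (y i) ^ 2 / (ε * b) := by positivity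
    have h4 : (0:ℝ) ≤ (if y i < ε then (1:ℝ) else 0) := by split_ifs <;> norm_num
    linarith
  have hBc : (B.card : ℝ) ≤ (M:ℝ) / 4 := by
    calc (B.card : ℝ) = ∑ i ∈ B, (1:ℝ) := by simp
      _ ≤ _ := sum_le_sum (fun i hi => (hbad i hi).1)
      _ ≤ _ := hgB
  have hBs : l.sum ≤ ε * ((M:ℝ) / 4) := by
    have h1 : l.sum = ∑ i ∈ B, y i := by
      rw [← Multiset.sum_coe, hlB]
      rfl
    rw [h1]
    calc ∑ i ∈ B, y i ≤ ∑ i ∈ B, ε * ((if y i < ε then (1:ℝ) else 0) + (y i) ^ 2 / (ε * b)) :=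
          sum_le_sum (fun i hi => (hbad i hi).2)
      _ = ε * ∑ i ∈ B, ((if y i < ε then (1:ℝ) else 0) + (y i) ^ 2 / (ε * b)) := by rw [mul_sum]
      _ ≤ _ := mul_le_mul_of_nonneg_left hgB hε.le
  have hlmem : ∀ x ∈ l, ∃ i ∈ B, y i = x := by
    intro x hx
    have : x ∈ (l : Multiset ℝ) := hx
    rw [hlB, Multiset.mem_map] at this
    exact this
  have hSmem : ∀ x ∈ S, ∃ i ∈ D, y i = x := by
    intro x hx
    have : x ∈ (S : Multiset ℝ) := hx
    rw [hSD, Multiset.mem_map] at this
    exact this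
  have hcnt : (L:ℝ) ≤ (S.countP (fun x => decide (b ≤ x)) : ℕ) := by
    have h1 : S.countP (fun x => decide (b ≤ x)) = (D.filter (fun i => b ≤ y i)).card := by
      have : S.countP (fun x => decide (b ≤ x)) = Multiset.countP (fun x => b ≤ x) (S : Multiset ℝ) := by
        rw [Multiset.coe_countP]
      rw [this, hSD, Multiset.countP_map]
      rfl
    have h2 : univ.image (fun j => κ (Sum.inr j)) ⊆ D.filter (fun i => b ≤ y i) := by
      intro i hi
      obtain ⟨j, -, rfl⟩ := mem_image.mp hi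
      have h3 := hw j
      rw [mem_filter, hD, mem_filter, mem_compl, hI]
      refine ⟨⟨?_, ?_⟩, h3.1⟩
      · intro h
        obtain ⟨j', -, hj'⟩ := mem_image.mp h
        have := hκ hj'
        exact absurd this (by simp)
      · push Not
        exact ⟨by linarith, h3.2⟩
    have h3 := card_le_card h2
    rw [card_image_of_injective _ hinr, card_univ, Fintype.card_fin] at h3
    rw [h1]
    exact_mod_cast h3
  have hScard : (S.length : ℝ) = (M:ℝ) - n0 - B.card := by
    rw [hSl]
    have : (B.card : ℝ) + D.card + n0 = M := by exact_mod_cast hcards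
    linarith
  have hM0 : (0:ℝ) ≤ M := Nat.cast_nonneg _
  have hfin : Good R (fun j => y (κ (Sum.inl j))) (l ++ S) 0 := by
    refine phase1 (ε := ε) (K := 3 * (M:ℝ) / 4 + 1) H1 ?_ (by positivity) (by rw [hScard]; linarith)
      l 0 ?_ ?_ le_rfl ?_
    · intro T hT0 hTε
      apply phase2 hρ H0 H1 hδ ha
      · exact Multiset.pairwise_sort _ _
      · intro x hx
        obtain ⟨i, hi, rfl⟩ := hSmem x hx
        have := (mem_filter.mp hi).2
        push Not at this
        linarith [this.1]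
      · intro x hx
        obtain ⟨i, hi, rfl⟩ := hSmem x hx
        have := (mem_filter.mp hi).2
        push Not at this
        exact this.2
      · linarith
      · have h5 : (0:ℝ) ≤ n0 := Nat.cast_nonneg _
        have h6 : (b - T) * ((n0:ℝ) + 1) ≤ b * ((n0:ℝ) + 1) := by nlinarith
        have h7 : (ρ / 4) * ((n0:ℝ) + 1 + L) ≤ (ρ / 4) * ((n0:ℝ) + 1 + (S.countP (fun x => decide (b ≤ x)) : ℕ)) := by
          apply mul_le_mul_of_nonneg_left _ (by positivity)
          linarith
        linarith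
    · exact Multiset.pairwise_sort _ _
    · intro x hx
      obtain ⟨i, hi, rfl⟩ := hlmem x hx
      exact hy0 i
    · rw [zero_add, div_le_iff₀ (by positivity)]
      nlinarith
  unfold Good at hfin
  have hlen : (l ++ S).length = M - n0 := by
    rw [List.length_append, hll, hSl]
    omega
  rw [hlen, ← Multiset.coe_add, ← hsum] at hfin
  simp only [sub_zero, Multiset.map_id'] at hfin
  exact hfin

end Pool.Agent.V11117.SU
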