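import Mathlib

namespace Pool.Agent.V11117.SU

open MeasureTheory Set
open scoped ENNReal

/-- the density of the standard exponential law -/
noncomputable def phi (t : ℝ) : ℝ≥0∞ := if 0 ≤ t then ENNReal.ofReal (Real.exp (-t)) else 0

lemma phi_meas : Measurable phi := by
  unfold phi
  apply Measurable.ite measurableSet_Ici
  · fun_prop
  · fun_prop

lemma phi_neg {t : ℝ} (h : t < 0) : phi t = 0 := by
  unfold phi; rw [if_neg (not_le.mpr h)]

lemma phi_nonneg {t : ℝ} (h : 0 ≤ t) : phi t = ENNReal.ofReal (Real.exp (-t)) := by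
  unfold phi; rw [if_pos h]

/-- the standard exponential law -/
noncomputable def mue : Measure ℝ := volume.withDensity phi

lemma lintegral_phi : ∫⁻ t, phi t = 1 := by
  have h1 : ∫⁻ t, phi t = ∫⁻ t in Ici (0:ℝ), ENNReal.ofReal (Real.exp (-t)) := by
    rw [← lintegral_indicator measurableSet_Ici]
    apply lintegral_congr
    intro t
    by_cases h : 0 ≤ t
    · rw [phi_nonneg h, indicator_of_mem (mem_Ici.mpr h)]
    · rw [phi_neg (not_le.mp h), indicator_of_notMem (by simpa using h)]
  rw [h1, setLIntegral_congr Ioi_ae_eq_Ici.symm]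
  rw [← ofReal_integral_eq_lintegral_ofReal]
  · rw [integral_exp_neg_Ioi_zero]; simp
  · exact integrableOn_exp_neg_Ioi 0
  · exact Filter.Eventually.of_forall (fun t => (Real.exp_pos _).le)

instance : IsProbabilityMeasure mue := ⟨by
  unfold mue
  rw [withDensity_apply _ MeasurableSet.univ, Measure.restrict_univ, lintegral_phi]⟩

lemma lintegral_fin_prod {n : ℕ} (f : Fin n → ℝ → ℝ≥0∞) (hf : ∀ i, Measurable (f i)) :
    ∫⁻ y : Fin n → ℝ, ∏ i, f i (y i) = ∏ i, ∫⁻ x, f i x := by
  induction n with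
  | zero => simp [volume_pi]
  | succ n ih =>
    have h := (volume_preserving_piFinSuccAbove (fun _ : Fin (n+1) => ℝ) 0).symm
    have hm : Measurable (fun y : Fin (n+1) → ℝ => ∏ i, f i (y i)) :=
      Finset.measurable_prod _ (fun i _ => (hf i).comp (measurable_pi_apply i))
    rw [← h.lintegral_comp hm]
    have h2 : ∀ p : ℝ × (Fin n → ℝ), ∏ i, f i ((MeasurableEquiv.piFinSuccAbove (fun _ : Fin (n+1) => ℝ) 0).symm p i) =
        f 0 p.1 * ∏ i : Fin n, f i.succ (p.2 i) := by
      intro p
      rw [Fin.prod_univ_succ]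
      simp [MeasurableEquiv.piFinSuccAbove, Fin.insertNthEquiv]
    simp only [h2]
    have hg : AEMeasurable (fun y : Fin n → ℝ => ∏ i : Fin n, f i.succ (y i)) volume :=
      (Finset.measurable_prod _ (fun i _ => (hf i.succ).comp (measurable_pi_apply i))).aemeasurable
    have h3 := lintegral_prod_mul (μ := (volume : Measure ℝ)) (ν := (volume : Measure (Fin n → ℝ)))
      (f := f 0) (g := fun y : Fin n → ℝ => ∏ i : Fin n, f i.succ (y i)) (hf 0).aemeasurable hg
    rw [Measure.volume_eq_prod, h3]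
    rw [ih _ (fun i => hf i.succ), Fin.prod_univ_succ]

/-- independent exponentials -/
noncomputable def nue (k : ℕ) : Measure (Fin k → ℝ) := Measure.pi (fun _ => mue)

instance (k : ℕ) : IsProbabilityMeasure (nue k) := by unfold nue; infer_instance

lemma prodphi_meas (k : ℕ) : Measurable (fun y : Fin k → ℝ => ∏ i, phi (y i)) :=
  Finset.measurable_prod _ (fun i _ => phi_meas.comp (measurable_pi_apply i))

lemma nue_eq (k : ℕ) : nue k = (volume : Measure (Fin k → ℝ)).withDensity (fun y => ∏ i, phi (y i)) := by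
  unfold nue
  apply Measure.pi_eq
  intro s hs
  rw [withDensity_apply _ (MeasurableSet.univ_pi hs), ← lintegral_indicator (MeasurableSet.univ_pi hs)]
  have h1 : ∀ y : Fin k → ℝ, (univ.pi s).indicator (fun y => ∏ i, phi (y i)) y = ∏ i, (s i).indicator phi (y i) := by
    intro y
    by_cases h : y ∈ univ.pi s
    · rw [indicator_of_mem h]
      apply Finset.prod_congr rfl
      intro i _
      rw [indicator_of_mem (h i (mem_univ i))]
    · rw [indicator_of_notMem h]
      simp only [mem_pi, mem_univ, true_imp_iff, not_forall] at h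
      obtain ⟨i, hi⟩ := h
      symm
      apply Finset.prod_eq_zero (Finset.mem_univ i)
      rw [indicator_of_notMem hi]
  simp only [h1]
  rw [lintegral_fin_prod _ (fun i => phi_meas.indicator (hs i))]
  apply Finset.prod_congr rfl
  intro i _
  rw [lintegral_indicator (hs i), mue, withDensity_apply _ (hs i)]

lemma lintegral_scale {m : ℕ} (K : (Fin m → ℝ) → ℝ≥0∞) (hK : Measurable K) {r : ℝ} (hr : 0 < r) :
    ∫⁻ y, K y = ENNReal.ofReal (r ^ m) * ∫⁻ x, K (r • x) := by
  have h1 : ∫⁻ x, K (r • x) = ∫⁻ y, K y ∂(Measure.map (fun x : Fin m → ℝ => r • x) volume) := by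
    rw [lintegral_map hK (measurable_const_smul r)]
  have h2 := Measure.map_addHaar_smul (volume : Measure (Fin m → ℝ)) hr.ne'
  rw [h1]
  rw [show (fun x : Fin m → ℝ => r • x) = (r • ·) from rfl, h2, lintegral_smul_measure]
  rw [Module.finrank_fin_fun, smul_eq_mul, ← mul_assoc, ← ENNReal.ofReal_mul (by positivity)]
  rw [abs_of_nonneg (by positivity), mul_inv_cancel₀ (by positivity), ENNReal.ofReal_one, one_mul]

/-- the polar formula -/
lemma formula (m : ℕ) (H : (Fin (m + 1) → ℝ) → ℝ≥0∞) (hH : Measurable H) :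
    ∫⁻ y, H y ∂(nue (m + 1)) = ∫⁻ x : Fin m → ℝ, ∫⁻ r in Ioi (0:ℝ), ENNReal.ofReal (r ^ m) *
      ((phi (r - ∑ i, r * x i) * ∏ i, phi (r * x i)) * H (Fin.cons (r - ∑ i, r * x i) (fun i => r * x i))) := by
  have hcons : Measurable (fun p : ℝ × (Fin m → ℝ) => (Fin.cons p.1 p.2 : Fin (m + 1) → ℝ)) := by
    rw [measurable_pi_iff]
    intro i
    refine Fin.cases ?_ ?_ i
    · simpa using measurable_fst
    · intro j
      simp only [Fin.cons_succ]
      exact (measurable_pi_apply j).comp measurable_snd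
  set F : ℝ → (Fin m → ℝ) → ℝ≥0∞ := fun t y => (phi t * ∏ i, phi (y i)) * H (Fin.cons t y) with hF
  have hFm : Measurable (fun p : ℝ × (Fin m → ℝ) => F p.1 p.2) := by
    apply Measurable.mul
    · apply Measurable.mul
      · exact phi_meas.comp measurable_fst
      · exact (prodphi_meas m).comp measurable_snd
    · exact hH.comp hcons
  have hshear : Measurable (fun p : ℝ × (Fin m → ℝ) => F (p.1 - ∑ i, p.2 i) p.2) := by
    have : Measurable (fun p : ℝ × (Fin m → ℝ) => ((p.1 - ∑ i, p.2 i), p.2)) := by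
      fun_prop
    exact hFm.comp this
  have hscale : Measurable (fun p : ℝ × (Fin m → ℝ) => F (p.1 - ∑ i, p.1 * p.2 i) (fun i => p.1 * p.2 i)) := by
    have : Measurable (fun p : ℝ × (Fin m → ℝ) => ((p.1 - ∑ i, p.1 * p.2 i), (fun i => p.1 * p.2 i))) := by
      fun_prop
    exact hFm.comp this
  rw [nue_eq, lintegral_withDensity_eq_lintegral_mul _ (prodphi_meas _) hH]
  have h := (volume_preserving_piFinSuccAbove (fun _ : Fin (m+1) => ℝ) 0).symm
  rw [← h.lintegral_comp ((prodphi_meas _).mul hH)]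
  have h2 : ∀ p : ℝ × (Fin m → ℝ), ((fun y : Fin (m+1) → ℝ => ∏ i, phi (y i)) * H) ((MeasurableEquiv.piFinSuccAbove (fun _ : Fin (m+1) => ℝ) 0).symm p) =
      F p.1 p.2 := by
    intro p
    have e : (MeasurableEquiv.piFinSuccAbove (fun _ : Fin (m+1) => ℝ) 0).symm p = Fin.cons p.1 p.2 := by
      simp [MeasurableEquiv.piFinSuccAbove, Fin.insertNthEquiv]
    rw [Pi.mul_apply, e, hF]
    simp only [Fin.prod_univ_succ, Fin.cons_zero, Fin.cons_succ]
  simp only [h2]
  rw [Measure.volume_eq_prod, lintegral_prod_symm _ hFm.aemeasurable]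
  have h3 : ∀ y : Fin m → ℝ, ∫⁻ t, F t y = ∫⁻ r, F (r - ∑ i, y i) y := by
    intro y
    rw [lintegral_sub_right_eq_self (fun t => F t y)]
  simp only [h3]
  rw [lintegral_lintegral_swap]
  swap
  · have : Measurable (fun p : (Fin m → ℝ) × ℝ => F (p.2 - ∑ i, p.1 i) p.1) := hshear.comp measurable_swap
    exact this.aemeasurable
  have h4 : ∫⁻ r, ∫⁻ y : Fin m → ℝ, F (r - ∑ i, y i) y = ∫⁻ r in Ioi (0:ℝ), ∫⁻ y : Fin m → ℝ, F (r - ∑ i, y i) y := by
    rw [setLIntegral_congr Ioi_ae_eq_Ici, ← lintegral_indicator measurableSet_Ici]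
    apply lintegral_congr
    intro r
    by_cases hr : 0 ≤ r
    · rw [indicator_of_mem (mem_Ici.mpr hr)]
    · rw [indicator_of_notMem (by simpa using hr)]
      rw [lintegral_eq_zero_iff]
      · apply Filter.Eventually.of_forall
        intro y
        simp only [hF, Pi.zero_apply]
        by_cases hy : ∀ i, 0 ≤ y i
        · rw [phi_neg]
          · simp
          · have : 0 ≤ ∑ i, y i := Finset.sum_nonneg (fun i _ => hy i)
            push Not at hr
            linarith
        · push Not at hy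
          obtain ⟨i, hi⟩ := hy
          rw [Finset.prod_eq_zero (Finset.mem_univ i) (phi_neg hi)]
          simp
      · exact hshear.comp (measurable_const.prodMk measurable_id)
  rw [h4]
  have h5 : ∫⁻ r in Ioi (0:ℝ), ∫⁻ y : Fin m → ℝ, F (r - ∑ i, y i) y =
      ∫⁻ r in Ioi (0:ℝ), ∫⁻ x : Fin m → ℝ, ENNReal.ofReal (r ^ m) * F (r - ∑ i, r * x i) (fun i => r * x i) := by
    apply setLIntegral_congr_fun measurableSet_Ioi
    intro r hr
    simp only
    have hm1 : Measurable (fun y : Fin m → ℝ => F (r - ∑ i, y i) y) :=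
      hshear.comp (measurable_const.prodMk measurable_id)
    have hm2 : Measurable (fun x : Fin m → ℝ => F (r - ∑ i, r * x i) (fun i => r * x i)) :=
      hscale.comp (measurable_const.prodMk measurable_id)
    rw [lintegral_scale _ hm1 hr, lintegral_const_mul _ hm2]
    rfl
  rw [h5, lintegral_lintegral_swap]
  have : Measurable (fun p : ℝ × (Fin m → ℝ) => ENNReal.ofReal (p.1 ^ m) * F (p.1 - ∑ i, p.1 * p.2 i) (fun i => p.1 * p.2 i)) := by
    apply Measurable.mul _ hscale
    fun_prop
  exact this.aemeasurable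

end Pool.Agent.V11117.SU
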