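import Mathlib
import Pool.Agent.V11117.SU1
import Pool.Agent.V11117.SU4

namespace Pool.Agent.V11117.SU

open MeasureTheory Set
open scoped ENNReal

section scale
open Polynomial Finset

open Classical in
lemma realizable_card {V : Type} [Fintype V] {G : SimpleGraph V} {s : Multiset ℝ}
    (h : Realizable G s) : Multiset.card s + 1 = Fintype.card V := by
  obtain ⟨w, -, -, -, hc⟩ := h
  have h1 := congrArg natDegree hc
  rw [natDegree_X_mul] at h1
  · have h2 := natDegree_multiset_prod_X_sub_C_eq_card s
    have h3 := Matrix.charpoly_natDegree_eq_dim (lapW w)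
    rw [← h3, ← h2]
    rw [← h1]
  · intro h0
    rw [Multiset.prod_eq_zero_iff, Multiset.mem_map] at h0
    obtain ⟨a, _, ha⟩ := h0
    exact X_sub_C_ne_zero _ ha

lemma prod_scale (s : Multiset ℝ) (r x : ℝ) (hr : r ≠ 0) :
    r ^ (Multiset.card s) * (s.map (fun a => x / r - a)).prod = (s.map (fun a => x - r * a)).prod := by
  induction s using Multiset.induction with
  | empty => simp
  | cons a s ih =>
    rw [Multiset.map_cons, Multiset.prod_cons, Multiset.map_cons, Multiset.prod_cons, ← ih,
      Multiset.card_cons, pow_succ]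
    field_simp

open Classical in
theorem realizable_smul {V : Type} [Fintype V] {G : SimpleGraph V} {s : Multiset ℝ}
    (h : Realizable G s) {r : ℝ} (hr : 0 < r) : Realizable G (s.map (fun a => r * a)) := by
  have hcard := realizable_card h
  obtain ⟨w, h0, hs, hG, hc⟩ := h
  refine ⟨fun u v => r * w u v, fun u v => mul_nonneg hr.le (h0 u v), fun u v => by simp only; rw [hs u v],
    fun u v huv => by simp only; rw [hG u v huv, mul_zero], ?_⟩
  have hl : lapW (fun u v => r * w u v) = r • lapW w := by
    ext u v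
    by_cases huv : u = v
    · subst huv
      simp [lapW, ← mul_sum]
      ring
    · simp [lapW, huv]
  rw [hl]
  apply Polynomial.funext
  intro x
  rw [Matrix.eval_charpoly, eval_mul, eval_X, eval_prod_map, Multiset.map_map]
  have h1 : Matrix.scalar V x - r • lapW w = r • (Matrix.scalar V (x / r) - lapW w) := by
    ext u v
    by_cases huv : u = v
    · subst huv
      simp [Matrix.scalar_apply]
      field_simp
    · simp [Matrix.scalar_apply, huv]
  rw [h1, Matrix.det_smul, ← Matrix.eval_charpoly, hc, eval_mul, eval_X, eval_prod_map, ← hcard, pow_succ]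
  have h2 := prod_scale s r x hr.ne'
  have h3 : (Multiset.map ((fun a => x - a) ∘ fun a => r * a) s).prod = (s.map (fun a => x - r * a)).prod := rfl
  rw [h3, ← h2]
  field_simp

end scale

/-- the simplex R in the coordinates (λ_1, ..., λ_k) with k = n - 2; the last coordinate is
1 - Σ -/
def simplex (k : ℕ) : Set (Fin k → ℝ) := {x | (∀ i, 0 ≤ x i) ∧ ∑ i, x i ≤ 1}

/-- the (n-1)-tuple (x_1, ..., x_k, 1 - Σ x) as a multiset -/
def tuple {k : ℕ} (x : Fin k → ℝ) : Multiset ℝ :=
  (1 - ∑ i, x i) ::ₘ (Finset.univ.val.map x)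

/-- P(G): the proportion (by volume) of the simplex R consisting of tuples realizable by G -/
noncomputable def P {V : Type} [Fintype V] (G : SimpleGraph V) : ℝ :=
  (volume {x : Fin (Fintype.card V - 2) → ℝ | x ∈ simplex (Fintype.card V - 2) ∧
      Realizable G (tuple x)}).toReal /
    (volume (simplex (Fintype.card V - 2))).toReal

lemma simplex_meas (k : ℕ) : MeasurableSet (simplex k) := by
  have : simplex k = (⋂ i, {x : Fin k → ℝ | 0 ≤ x i}) ∩ {x | ∑ i, x i ≤ 1} := by
    ext x; simp [simplex]
  rw [this]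
  apply MeasurableSet.inter
  · exact MeasurableSet.iInter (fun i => measurableSet_le measurable_const (measurable_pi_apply i))
  · exact measurableSet_le (by fun_prop) measurable_const

/-- the normalizing constant -/
noncomputable def gam (m : ℕ) : ℝ≥0∞ :=
  ∫⁻ r in Ioi (0:ℝ), ENNReal.ofReal (r ^ m) * ENNReal.ofReal (Real.exp (-r))

lemma in_simplex {m : ℕ} {x : Fin m → ℝ} (hx : x ∈ simplex m) {r : ℝ} (hr : 0 < r) :
    phi (r - ∑ i, r * x i) * ∏ i, phi (r * x i) = ENNReal.ofReal (Real.exp (-r)) := by
  have h1 : ∀ i, phi (r * x i) = ENNReal.ofReal (Real.exp (-(r * x i))) := fun i =>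
    phi_nonneg (mul_nonneg hr.le (hx.1 i))
  have h2 : 0 ≤ r - ∑ i, r * x i := by
    rw [← Finset.mul_sum]
    nlinarith [hx.2]
  rw [phi_nonneg h2]
  simp only [h1]
  rw [← ENNReal.ofReal_prod_of_nonneg (fun i _ => (Real.exp_pos _).le), ← Real.exp_sum,
    ← ENNReal.ofReal_mul (Real.exp_pos _).le, ← Real.exp_add]
  congr 2
  rw [Finset.sum_neg_distrib]
  ring

lemma out_simplex {m : ℕ} {x : Fin m → ℝ} (hx : x ∉ simplex m) {r : ℝ} (hr : 0 < r) :
    phi (r - ∑ i, r * x i) * ∏ i, phi (r * x i) = 0 := by
  by_cases h : ∀ i, 0 ≤ x i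
  · have h2 : r - ∑ i, r * x i < 0 := by
      rw [← Finset.mul_sum]
      have : ¬ ∑ i, x i ≤ 1 := fun h' => hx ⟨h, h'⟩
      push Not at this
      nlinarith
    rw [phi_neg h2, zero_mul]
  · push Not at h
    obtain ⟨i, hi⟩ := h
    rw [Finset.prod_eq_zero (Finset.mem_univ i) (phi_neg (mul_neg_of_pos_of_neg hr hi)), mul_zero]

lemma gam_mul (m : ℕ) : gam m * volume (simplex m) = 1 := by
  have h := formula m (fun _ => 1) measurable_const
  rw [lintegral_const, measure_univ, mul_one] at h
  rw [h, ← lintegral_indicator_const (simplex_meas m)]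
  apply lintegral_congr
  intro x
  by_cases hx : x ∈ simplex m
  · rw [indicator_of_mem hx]
    unfold gam
    apply setLIntegral_congr_fun measurableSet_Ioi
    intro r hr
    simp only
    rw [in_simplex hx hr, mul_one]
  · rw [indicator_of_notMem hx]
    symm
    have : ∫⁻ r in Ioi (0:ℝ), (0:ℝ≥0∞) = 0 := by simp
    rw [← this]
    apply setLIntegral_congr_fun measurableSet_Ioi
    intro r hr
    simp only
    rw [out_simplex hx hr, zero_mul, mul_zero]

lemma inner_meas {m : ℕ} {H : (Fin (m + 1) → ℝ) → ℝ≥0∞} (hH : Measurable H) :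
    Measurable (fun x : Fin m → ℝ => ∫⁻ r in Ioi (0:ℝ), ENNReal.ofReal (r ^ m) *
      ((phi (r - ∑ i, r * x i) * ∏ i, phi (r * x i)) * H (Fin.cons (r - ∑ i, r * x i) (fun i => r * x i)))) := by
  apply Measurable.lintegral_prod_left' (f := fun p : ℝ × (Fin m → ℝ) => ENNReal.ofReal (p.1 ^ m) *
      ((phi (p.1 - ∑ i, p.1 * p.2 i) * ∏ i, phi (p.1 * p.2 i)) * H (Fin.cons (p.1 - ∑ i, p.1 * p.2 i) (fun i => p.1 * p.2 i))))
  have hcons : Measurable (fun p : ℝ × (Fin m → ℝ) => (Fin.cons p.1 p.2 : Fin (m + 1) → ℝ)) := by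
    rw [measurable_pi_iff]
    intro i
    refine Fin.cases ?_ ?_ i
    · simpa using measurable_fst
    · intro j
      simp only [Fin.cons_succ]
      exact (measurable_pi_apply j).comp measurable_snd
  have hpair : Measurable (fun p : ℝ × (Fin m → ℝ) => ((p.1 - ∑ i, p.1 * p.2 i), (fun i => p.1 * p.2 i))) := by
    fun_prop
  apply Measurable.mul (by fun_prop)
  apply Measurable.mul
  · apply Measurable.mul
    · exact phi_meas.comp (measurable_fst.comp hpair)
    · exact (prodphi_meas m).comp (measurable_snd.comp hpair)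
  · exact hH.comp (hcons.comp hpair)

lemma gam_mul_le {m : ℕ} {NR : Set (Fin m → ℝ)} {B : Set (Fin (m + 1) → ℝ)} (hB : MeasurableSet B)
    (hNR : NR ⊆ simplex m)
    (h : ∀ x ∈ NR, ∀ r : ℝ, 0 < r → (Fin.cons (r - ∑ i, r * x i) (fun i => r * x i) : Fin (m + 1) → ℝ) ∈ B) :
    gam m * volume NR ≤ nue (m + 1) B := by
  have hH : Measurable (B.indicator (fun _ => (1:ℝ≥0∞))) := measurable_const.indicator hB
  have h1 := formula m (B.indicator (fun _ => 1)) hH
  rw [lintegral_indicator_const hB, one_mul] at h1
  rw [h1]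
  refine le_trans ?_ (mul_meas_ge_le_lintegral (inner_meas hH) (gam m))
  apply mul_le_mul_right
  apply measure_mono
  intro x hx
  rw [mem_setOf_eq]
  apply le_of_eq
  unfold gam
  apply setLIntegral_congr_fun measurableSet_Ioi
  intro r hr
  simp only
  rw [in_simplex (hNR hx) hr, indicator_of_mem (h x hx r hr), mul_one]

theorem P_bound {V : Type} [Fintype V] (G : SimpleGraph V) {m : ℕ} (hm : Fintype.card V = m + 2)
    {B : Set (Fin (m + 1) → ℝ)} (hB : MeasurableSet B)
    (h : ∀ y : Fin (m + 1) → ℝ, (∀ i, 0 ≤ y i) → y ∉ B → Realizable G (Finset.univ.val.map y)) :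
    1 - (nue (m + 1) B).toReal ≤ P G ∧ P G ≤ 1 := by
  have hm2 : Fintype.card V - 2 = m := by omega
  unfold P
  rw [hm2]
  set A : Set (Fin m → ℝ) := {x | x ∈ simplex m ∧ Realizable G (tuple x)} with hA
  set NR : Set (Fin m → ℝ) := {x | x ∈ simplex m ∧ ¬ Realizable G (tuple x)} with hNR
  have hg := gam_mul m
  have hVtop : volume (simplex m) ≠ ∞ := by
    intro h'
    rw [h'] at hg
    by_cases hz : gam m = 0
    · rw [hz] at hg; simp at hg
    · rw [ENNReal.mul_top hz] at hg; simp at hg
  have hGtop : gam m ≠ ∞ := by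
    intro h'
    rw [h'] at hg
    by_cases hz : volume (simplex m) = 0
    · rw [hz] at hg; simp at hg
    · rw [ENNReal.top_mul hz] at hg; simp at hg
  have hAle : volume A ≤ volume (simplex m) := measure_mono (fun x hx => hx.1)
  have hAtop : volume A ≠ ∞ := ne_top_of_le_ne_top hVtop hAle
  have h1 : gam m * volume NR ≤ nue (m + 1) B := by
    apply gam_mul_le hB (fun x hx => hx.1)
    intro x hx r hr
    by_contra hcon
    apply hx.2
    have hy : ∀ i, 0 ≤ (Fin.cons (r - ∑ i, r * x i) (fun i => r * x i) : Fin (m + 1) → ℝ) i := by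
      intro i
      refine Fin.cases ?_ ?_ i
      · rw [Fin.cons_zero, ← Finset.mul_sum]
        nlinarith [hx.1.2]
      · intro j
        rw [Fin.cons_succ]
        exact mul_nonneg hr.le (hx.1.1 j)
    have h2 := realizable_smul (h _ hy hcon) (inv_pos.mpr hr)
    convert h2 using 1
    rw [Multiset.map_map, Fin.univ_succ]
    simp only [Finset.cons_val, Multiset.map_cons, Finset.map_val, Multiset.map_map]
    unfold tuple
    congr 1
    · simp only [Function.comp, Fin.cons_zero]
      rw [← Finset.mul_sum]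
      field_simp
    · apply Multiset.map_congr rfl
      intro i _
      simp only [Function.comp, Function.Embedding.coeFn_mk, Fin.cons_succ]
      field_simp
  have h3 : volume (simplex m) ≤ volume A + volume NR := by
    refine le_trans (measure_mono ?_) (measure_union_le A NR)
    intro x hx
    by_cases hr : Realizable G (tuple x)
    · exact Or.inl ⟨hx, hr⟩
    · exact Or.inr ⟨hx, hr⟩
  have h4 : 1 ≤ gam m * volume A + nue (m + 1) B := by
    rw [← hg]
    calc gam m * volume (simplex m) ≤ gam m * (volume A + volume NR) := by gcongr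
      _ = gam m * volume A + gam m * volume NR := by rw [mul_add]
      _ ≤ _ := by gcongr
  have hBtop : nue (m + 1) B ≠ ∞ := measure_ne_top _ _
  have h5 : 1 ≤ (gam m).toReal * (volume A).toReal + (nue (m + 1) B).toReal := by
    have := ENNReal.toReal_mono (ENNReal.add_ne_top.mpr ⟨ENNReal.mul_ne_top hGtop hAtop, hBtop⟩) h4
    rw [ENNReal.toReal_add (ENNReal.mul_ne_top hGtop hAtop) hBtop, ENNReal.toReal_mul] at this
    simpa using this
  have h6 : (gam m).toReal * (volume (simplex m)).toReal = 1 := by
    rw [← ENNReal.toReal_mul, hg]; simp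
  have hVpos : 0 < (volume (simplex m)).toReal := by
    rcases (ENNReal.toReal_nonneg (a := volume (simplex m))).lt_or_eq with h' | h'
    · exact h'
    · rw [← h', mul_zero] at h6
      exact absurd h6 (by norm_num)
  have hAV : (volume A).toReal ≤ (volume (simplex m)).toReal := ENNReal.toReal_mono hVtop hAle
  constructor
  · rw [le_div_iff₀ hVpos]
    have : (1 - (nue (m + 1) B).toReal) ≤ (gam m).toReal * (volume A).toReal := by linarith
    calc (1 - (nue (m + 1) B).toReal) * (volume (simplex m)).toReal ≤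
        ((gam m).toReal * (volume A).toReal) * (volume (simplex m)).toReal :=
          mul_le_mul_of_nonneg_right this hVpos.le
      _ = ((gam m).toReal * (volume (simplex m)).toReal) * (volume A).toReal := by ring
      _ = (volume A).toReal := by rw [h6, one_mul]
  · rw [div_le_one hVpos]
    exact hAV

end Pool.Agent.V11117.SU
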