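import Mathlib
import Pool.Agent.V11117.SU3
import Pool.Agent.V11117.SU4

namespace Pool.Agent.V11117.SU

open MeasureTheory Set Filter
open scoped ENNReal

/-- the cost function -/
noncomputable def cost (ε b t : ℝ) : ℝ := (if t < ε then 1 else 0) + t ^ 2 / (ε * b)

lemma cost_nonneg {ε b : ℝ} (hε : 0 < ε) (hb : 0 < b) (t : ℝ) : 0 ≤ cost ε b t := by
  unfold cost
  have h2 : 0 ≤ t ^ 2 / (ε * b) := by positivity
  have h4 : (0:ℝ) ≤ (if t < ε then (1:ℝ) else 0) := by split_ifs <;> norm_num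
  linarith

lemma cost_meas (ε b : ℝ) : Measurable (cost ε b) := by
  unfold cost
  apply Measurable.add
  · exact Measurable.ite measurableSet_Iio measurable_const measurable_const
  · fun_prop

/-- second moment -/
noncomputable def C2 : ℝ≥0∞ := ∫⁻ t, ENNReal.ofReal (t ^ 2) ∂mue

lemma C2_lt_top : C2 < ∞ := by
  unfold C2 mue
  rw [lintegral_withDensity_eq_lintegral_mul _ phi_meas (by fun_prop)]
  have h1 : ∫⁻ t, (phi * fun t => ENNReal.ofReal (t ^ 2)) t =
      ∫⁻ t in Ioi (0:ℝ), ENNReal.ofReal (Real.exp (-t) * t ^ ((3:ℝ) - 1)) := by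
    rw [setLIntegral_congr Ioi_ae_eq_Ici, ← lintegral_indicator measurableSet_Ici]
    apply lintegral_congr
    intro t
    rw [Pi.mul_apply]
    by_cases h : 0 ≤ t
    · rw [phi_nonneg h, indicator_of_mem (mem_Ici.mpr h), ← ENNReal.ofReal_mul (Real.exp_pos _).le]
      congr 2
      rw [show (3:ℝ) - 1 = ((2:ℕ):ℝ) by norm_num, Real.rpow_natCast]
    · rw [phi_neg (not_le.mp h), indicator_of_notMem (by simpa using h), zero_mul]
  rw [h1]
  have h2 : IntegrableOn (fun x : ℝ => Real.exp (-x) * x ^ ((3:ℝ) - 1)) (Ioi 0) volume :=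
    Real.GammaIntegral_convergent (by norm_num)
  exact h2.lintegral_lt_top

lemma mue_Iio {ε : ℝ} (hε : 0 < ε) : mue (Iio ε) ≤ ENNReal.ofReal ε := by
  unfold mue
  rw [withDensity_apply _ measurableSet_Iio]
  have h1 : ∫⁻ t in Iio ε, phi t ≤ ∫⁻ t in Ico 0 ε, 1 := by
    rw [← lintegral_indicator measurableSet_Iio, ← lintegral_indicator measurableSet_Ico]
    apply lintegral_mono
    intro t
    simp only
    by_cases h : t ∈ Iio ε
    · rw [indicator_of_mem h]
      by_cases h0 : 0 ≤ t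
      · rw [indicator_of_mem (show t ∈ Ico 0 ε from ⟨h0, h⟩), phi_nonneg h0]
        rw [← ENNReal.ofReal_one]
        apply ENNReal.ofReal_le_ofReal
        rw [Real.exp_le_one_iff]
        linarith
      · rw [phi_neg (not_le.mp h0)]
        exact zero_le
    · rw [indicator_of_notMem h]
      exact zero_le
  refine h1.trans ?_
  rw [setLIntegral_one, Real.volume_Ico, sub_zero]

lemma cost_int {ε b : ℝ} (hε : 0 < ε) (hb : 0 < b) :
    ∫⁻ t, ENNReal.ofReal (cost ε b t) ∂mue ≤ ENNReal.ofReal (ε + C2.toReal / (ε * b)) := by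
  have h1 : ∀ t, ENNReal.ofReal (cost ε b t) = (Iio ε).indicator (fun _ => (1:ℝ≥0∞)) t +
      ENNReal.ofReal (1 / (ε * b)) * ENNReal.ofReal (t ^ 2) := by
    intro t
    unfold cost
    rw [ENNReal.ofReal_add (by split_ifs <;> norm_num) (by positivity),
      ← ENNReal.ofReal_mul (by positivity)]
    congr 1
    · by_cases h : t < ε
      · rw [if_pos h, indicator_of_mem (mem_Iio.mpr h), ENNReal.ofReal_one]
      · rw [if_neg h, indicator_of_notMem (by simpa using h), ENNReal.ofReal_zero]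
    · congr 1
      ring
  simp only [h1]
  rw [lintegral_add_left (measurable_const.indicator measurableSet_Iio),
    lintegral_indicator_const measurableSet_Iio, one_mul, lintegral_const_mul _ (by fun_prop)]
  have hC : C2 = ENNReal.ofReal C2.toReal := (ENNReal.ofReal_toReal C2_lt_top.ne).symm
  have h2 : ENNReal.ofReal (1 / (ε * b)) * C2 = ENNReal.ofReal (C2.toReal / (ε * b)) := by
    rw [hC, ← ENNReal.ofReal_mul (by positivity)]
    congr 1
    rw [ENNReal.toReal_ofReal ENNReal.toReal_nonneg]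
    ring
  change mue (Iio ε) + ENNReal.ofReal (1 / (ε * b)) * C2 ≤ _
  rw [h2, ENNReal.ofReal_add hε.le (by positivity)]
  gcongr
  exact mue_Iio hε

lemma bad1 {ε b η : ℝ} (hε : 0 < ε) (hb : 0 < b) (hη : 0 < η) (h : ε + C2.toReal / (ε * b) ≤ η / 8)
    {M : ℕ} (hM : 0 < M) :
    nue M {y | ENNReal.ofReal ((M:ℝ) / 4) ≤ ∑ i, ENNReal.ofReal (cost ε b (y i))} ≤ ENNReal.ofReal (η / 2) := by
  have hm : Measurable (fun y : Fin M → ℝ => ∑ i, ENNReal.ofReal (cost ε b (y i))) := by
    apply Finset.measurable_sum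
    intro i _
    exact ((cost_meas ε b).comp (measurable_pi_apply i)).ennreal_ofReal
  have h1 := mul_meas_ge_le_lintegral (μ := nue M) hm (ENNReal.ofReal ((M:ℝ) / 4))
  have h2 : ∫⁻ y, ∑ i, ENNReal.ofReal (cost ε b (y i)) ∂(nue M) ≤ M * ENNReal.ofReal (η / 8) := by
    rw [lintegral_finsetSum]
    · have h3 : ∀ i : Fin M, ∫⁻ y, ENNReal.ofReal (cost ε b (y i)) ∂(nue M) = ∫⁻ t, ENNReal.ofReal (cost ε b t) ∂mue := by
        intro i
        have hp : MeasurePreserving (Function.eval i) (nue M) mue := measurePreserving_eval (fun _ : Fin M => mue) i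
        exact hp.lintegral_comp ((cost_meas ε b).ennreal_ofReal)
      simp only [h3]
      rw [Finset.sum_const, Finset.card_univ, Fintype.card_fin, nsmul_eq_mul]
      gcongr
      exact (cost_int hε hb).trans (ENNReal.ofReal_le_ofReal h)
    · intro i _
      exact ((cost_meas ε b).comp (measurable_pi_apply i)).ennreal_ofReal
  have h4 := h1.trans h2
  have hMr : (0:ℝ) < M := by exact_mod_cast hM
  have e1 : (M:ℝ≥0∞) * ENNReal.ofReal (η / 8) = ENNReal.ofReal ((M:ℝ) / 4) * ENNReal.ofReal (η / 2) := by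
    rw [← ENNReal.ofReal_natCast, ← ENNReal.ofReal_mul hMr.le, ← ENNReal.ofReal_mul (by positivity)]
    congr 1
    ring
  rw [e1] at h4
  have hne : ENNReal.ofReal ((M:ℝ) / 4) ≠ 0 := by
    rw [Ne, ENNReal.ofReal_eq_zero]
    push Not
    positivity
  exact (ENNReal.mul_le_mul_iff_right hne ENNReal.ofReal_ne_top).mp h4

lemma mue_Icc_pos {a δ : ℝ} (ha : 0 ≤ a) (hδ : 0 < δ) : 0 < mue (Icc a (a + δ)) := by
  unfold mue
  rw [withDensity_apply _ measurableSet_Icc]
  have h1 : ∫⁻ t in Icc a (a + δ), ENNReal.ofReal (Real.exp (-(a + δ))) ≤ ∫⁻ t in Icc a (a + δ), phi t := by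
    apply setLIntegral_mono phi_meas
    intro t ht
    rw [phi_nonneg (ha.trans ht.1)]
    apply ENNReal.ofReal_le_ofReal
    apply Real.exp_le_exp.mpr
    linarith [ht.2]
  refine lt_of_lt_of_le ?_ h1
  rw [setLIntegral_const, Real.volume_Icc]
  apply ENNReal.mul_pos
  · rw [Ne, ENNReal.ofReal_eq_zero]
    push Not
    exact Real.exp_pos _
  · rw [Ne, ENNReal.ofReal_eq_zero]
    push Not
    linarith

lemma mue_compl_lt {a δ : ℝ} (ha : 0 ≤ a) (hδ : 0 < δ) : mue (Icc a (a + δ))ᶜ < 1 := by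
  rw [prob_compl_eq_one_sub measurableSet_Icc]
  exact ENNReal.sub_lt_self ENNReal.one_ne_top one_ne_zero (mue_Icc_pos ha hδ).ne'

lemma bad2 {M q : ℕ} (e : Fin q → Fin M) (he : Function.Injective e) (W : Set ℝ) (hW : MeasurableSet W) :
    MeasurableSet {y : Fin M → ℝ | ∀ j, y (e j) ∉ W} ∧
    nue M {y | ∀ j, y (e j) ∉ W} = (mue Wᶜ) ^ q := by
  classical
  have hset : {y : Fin M → ℝ | ∀ j, y (e j) ∉ W} = univ.pi (fun i => if i ∈ Finset.univ.image e then Wᶜ else univ) := by
    ext y
    simp only [mem_setOf_eq, Set.mem_pi, mem_univ, true_imp_iff]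
    constructor
    · intro h i
      by_cases hi : i ∈ Finset.univ.image e
      · rw [if_pos hi]
        obtain ⟨j, -, rfl⟩ := Finset.mem_image.mp hi
        exact h j
      · rw [if_neg hi]
        exact mem_univ _
    · intro h j
      have := h (e j)
      rw [if_pos (Finset.mem_image_of_mem e (Finset.mem_univ j))] at this
      exact this
  constructor
  · rw [hset]
    apply MeasurableSet.univ_pi
    intro i
    split_ifs
    · exact hW.compl
    · exact MeasurableSet.univ
  · rw [hset]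
    unfold nue
    rw [Measure.pi_pi]
    have h1 : ∀ i : Fin M, mue (if i ∈ Finset.univ.image e then Wᶜ else univ) =
        if i ∈ Finset.univ.image e then mue Wᶜ else 1 := by
      intro i
      split_ifs
      · rfl
      · exact measure_univ
    simp only [h1]
    rw [Finset.prod_ite, Finset.prod_const, Finset.prod_const, one_pow, mul_one]
    congr 1
    rw [Finset.filter_mem_eq_inter, Finset.univ_inter, Finset.card_image_of_injective _ he,
      Finset.card_univ, Fintype.card_fin]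

/-- the probabilistic core -/
theorem prob_main {n0 : ℕ} {R : ℕ → Multiset ℝ → Prop} {l0 : Fin n0 → ℝ} {ρ : ℝ}
    (hρ : 0 < ρ) (hl0 : ∀ j, 1 ≤ l0 j)
    (H0 : ∀ l : Fin n0 → ℝ, (∀ j, |l j - l0 j| < ρ) → R 0 (Finset.univ.val.map l))
    (H1 : ∀ (j : ℕ) (s : Multiset ℝ) (t : ℝ), R j s → 0 ≤ t →
      R (j + 1) ((((n0:ℝ) + 2 + j) * t) ::ₘ s.map (fun a => a + t)))
    {η : ℝ} (hη : 0 < η) :
    ∀ᶠ M : ℕ in atTop, ∃ B : Set (Fin M → ℝ), MeasurableSet B ∧ (nue M B).toReal ≤ η ∧
      ∀ y : Fin M → ℝ, (∀ i, 0 ≤ y i) → y ∉ B → R (M - n0) (Finset.univ.val.map y) := by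
  classical
  set ε : ℝ := η / 16 with hε
  have hε0 : 0 < ε := by positivity
  have hC0 : 0 ≤ C2.toReal := ENNReal.toReal_nonneg
  set b : ℝ := ε + C2.toReal / (ε * ε) with hb
  have hεb : ε ≤ b := by
    rw [hb]
    have : 0 ≤ C2.toReal / (ε * ε) := by positivity
    linarith
  have hb0 : 0 < b := lt_of_lt_of_le hε0 hεb
  have hcond : ε + C2.toReal / (ε * b) ≤ η / 8 := by
    have h1 : C2.toReal / (ε * b) ≤ ε := by
      rw [div_le_iff₀ (by positivity)]
      have h2 : ε * (ε * b) = ε * ε * ε + C2.toReal := by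
        rw [hb]; field_simp
      rw [h2]
      have : 0 < ε * ε * ε := by positivity
      linarith
    have : ε = η / 16 := hε
    linarith
  set δ : ℝ := min (ρ / 4) (1 / 2) with hδ
  have hδ0 : 0 < δ := by rw [hδ]; positivity
  have hδ1 : δ < 1 := lt_of_le_of_lt (min_le_right _ _) (by norm_num)
  have hδρ : δ ≤ ρ / 4 := min_le_left _ _
  obtain ⟨L, hL⟩ := exists_nat_ge (b * ((n0:ℝ) + 1) / (ρ / 4))
  have hL' : b * ((n0:ℝ) + 1) ≤ (ρ / 4) * ((n0:ℝ) + 1 + L) := by
    rw [div_le_iff₀ (by positivity)] at hL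
    nlinarith [Nat.cast_nonneg (α := ℝ) n0]
  set Q : ℕ := n0 + L with hQ
  let a : Fin n0 ⊕ Fin L → ℝ := fun k => Sum.elim (fun j => b + l0 j) (fun _ => b) k
  have ha : ∀ k, 0 ≤ a k := by
    rintro (j | j)
    · simp only [a, Sum.elim_inl]
      linarith [hl0 j]
    · simp only [a, Sum.elim_inr]
      exact hb0.le
  have htend : Tendsto (fun M : ℕ => ∑ k : Fin n0 ⊕ Fin L, (mue (Icc (a k) (a k + δ))ᶜ) ^ (M / Q)) atTop (nhds 0) := by
    have h0 : (0:ℝ≥0∞) = ∑ k : Fin n0 ⊕ Fin L, 0 := by simp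
    rw [h0]
    apply tendsto_finset_sum
    intro k _
    have hQ0 : Q ≠ 0 := by
      rcases k with j | j
      · have := j.2; omega
      · have := j.2; omega
    exact (ENNReal.tendsto_pow_atTop_nhds_zero_of_lt_one (mue_compl_lt (ha k) hδ0)).comp
      (Nat.tendsto_div_const_atTop hQ0)
  have hev := htend.eventually (Iic_mem_nhds (show (0:ℝ≥0∞) < ENNReal.ofReal (η / 2) by
    rw [ENNReal.ofReal_pos]; positivity))
  filter_upwards [hev, eventually_gt_atTop 0] with M hM hM0
  have hM' : ∑ k : Fin n0 ⊕ Fin L, (mue (Icc (a k) (a k + δ))ᶜ) ^ (M / Q) ≤ ENNReal.ofReal (η / 2) := hM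
  -- index classes
  have hidx : ∀ (k : Fin n0 ⊕ Fin L) (j : Fin (M / Q)), (j:ℕ) * Q + ((finSumFinEquiv k : Fin (n0 + L)) : ℕ) < M := by
    intro k j
    have h1 := (finSumFinEquiv k : Fin (n0 + L)).2
    have h2 := j.2
    have h3 : ((j:ℕ) + 1) * Q ≤ (M / Q) * Q := Nat.mul_le_mul_right Q h2
    have h4 := Nat.div_mul_le_self M Q
    have h5 : ((j:ℕ) + 1) * Q = (j:ℕ) * Q + Q := by ring
    omega
  let e : (k : Fin n0 ⊕ Fin L) → Fin (M / Q) → Fin M := fun k j =>
    ⟨(j:ℕ) * Q + ((finSumFinEquiv k : Fin (n0 + L)) : ℕ), hidx k j⟩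
  have hemod : ∀ k j, (e k j : ℕ) % Q = ((finSumFinEquiv k : Fin (n0 + L)) : ℕ) := by
    intro k j
    simp only [e]
    rw [Nat.mul_add_mod_self_right]
    exact Nat.mod_eq_of_lt (finSumFinEquiv k : Fin (n0 + L)).2
  have heinj : ∀ k, Function.Injective (e k) := by
    intro k j j' h
    have h1 := congrArg Fin.val h
    simp only [e] at h1
    have h2 : (j:ℕ) * Q = (j':ℕ) * Q := by omega
    have hQ0 : 0 < Q := by
      have := (finSumFinEquiv k : Fin (n0 + L)).2
      omega
    exact Fin.ext (Nat.eq_of_mul_eq_mul_right hQ0 h2)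
  set B1 : Set (Fin M → ℝ) := {y | ENNReal.ofReal ((M:ℝ) / 4) ≤ ∑ i, ENNReal.ofReal (cost ε b (y i))} with hB1
  have hB1m : MeasurableSet B1 := by
    apply measurableSet_le measurable_const
    apply Finset.measurable_sum
    intro i _
    exact ((cost_meas ε b).comp (measurable_pi_apply i)).ennreal_ofReal
  set B2 : (k : Fin n0 ⊕ Fin L) → Set (Fin M → ℝ) := fun k => {y | ∀ j, y (e k j) ∉ Icc (a k) (a k + δ)} with hB2
  refine ⟨B1 ∪ ⋃ k, B2 k, ?_, ?_, ?_⟩
  · apply hB1m.union
    apply MeasurableSet.iUnion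
    intro k
    exact (bad2 (e k) (heinj k) _ measurableSet_Icc).1
  · have h1 : nue M (B1 ∪ ⋃ k, B2 k) ≤ ENNReal.ofReal η := by
      calc nue M (B1 ∪ ⋃ k, B2 k) ≤ nue M B1 + nue M (⋃ k, B2 k) := measure_union_le _ _
        _ ≤ ENNReal.ofReal (η / 2) + ENNReal.ofReal (η / 2) := by
            apply add_le_add
            · exact bad1 hε0 hb0 hη hcond hM0
            · refine le_trans (measure_iUnion_fintype_le _ _) ?_
              refine le_trans (le_of_eq ?_) hM'
              apply Finset.sum_congr rfl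
              intro k _
              exact (bad2 (e k) (heinj k) _ measurableSet_Icc).2
        _ = ENNReal.ofReal η := by
            rw [← ENNReal.ofReal_add (by positivity) (by positivity)]
            congr 1
            ring
    exact ENNReal.toReal_le_of_le_ofReal hη.le h1
  · intro y hy0 hy
    rw [mem_union, not_or] at hy
    obtain ⟨hy1, hy2⟩ := hy
    have hg : ∑ i, ((if y i < ε then 1 else 0) + (y i) ^ 2 / (ε * b)) ≤ (M:ℝ) / 4 := by
      by_contra hcon
      push Not at hcon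
      apply hy1
      rw [hB1, mem_setOf_eq, ← ENNReal.ofReal_sum_of_nonneg (fun i _ => cost_nonneg hε0 hb0 _)]
      apply ENNReal.ofReal_le_ofReal
      exact hcon.le
    have hex : ∀ k, ∃ j, y (e k j) ∈ Icc (a k) (a k + δ) := by
      intro k
      by_contra hcon
      push Not at hcon
      apply hy2
      rw [mem_iUnion]
      exact ⟨k, hcon⟩
    choose j hj using hex
    have hκ : Function.Injective (fun k => e k (j k)) := by
      intro k k' h
      simp only at h
      have h1 := hemod k (j k)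
      have h2 := hemod k' (j k')
      rw [h, h2] at h1
      exact finSumFinEquiv.injective (Fin.ext h1.symm)
    refine det_main hρ hl0 H0 H1 y hy0 hδρ hδ0 hδ1 hε0 hεb hL' (fun k => e k (j k)) hκ ?_ ?_ hg
    · intro i
      have h1 := hj (Sum.inl i)
      simp only [a, Sum.elim_inl] at h1
      exact h1
    · intro i
      have h1 := hj (Sum.inr i)
      simp only [a, Sum.elim_inr] at h1
      exact h1

end Pool.Agent.V11117.SU
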