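import Mathlib

namespace Pool.Agent.V11117.Spec

open Matrix Finset

variable {V : Type*} [Fintype V] [DecidableEq V] {A : Matrix V V ℝ}

lemma spec (hA : A.IsHermitian) : ∃ U : Matrix V V ℝ, Uᵀ * U = 1 ∧ U * Uᵀ = 1 ∧
    A = U * diagonal hA.eigenvalues * Uᵀ := by
  refine ⟨(hA.eigenvectorUnitary : Matrix V V ℝ), ?_, ?_, ?_⟩
  · have := (Matrix.mem_unitaryGroup_iff'.mp hA.eigenvectorUnitary.2)
    rwa [Matrix.star_eq_conjTranspose, Matrix.conjTranspose_eq_transpose_of_trivial] at this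
  · have := (Matrix.mem_unitaryGroup_iff.mp hA.eigenvectorUnitary.2)
    rwa [Matrix.star_eq_conjTranspose, Matrix.conjTranspose_eq_transpose_of_trivial] at this
  · have h := hA.spectral_theorem
    rw [Unitary.conjStarAlgAut_apply] at h
    rw [Matrix.star_eq_conjTranspose,
      Matrix.conjTranspose_eq_transpose_of_trivial] at h
    have e : (RCLike.ofReal ∘ hA.eigenvalues : V → ℝ) = hA.eigenvalues := by
      funext i; simp
    rw [e] at h
    exact h

lemma conj_pow {U D : Matrix V V ℝ} (h : Uᵀ * U = 1) (h2 : U * Uᵀ = 1) (k : ℕ) :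
    (U * D * Uᵀ) ^ k = U * D ^ k * Uᵀ := by
  induction k with
  | zero => simp [h2]
  | succ k ih =>
    rw [pow_succ, ih, pow_succ]
    calc U * D ^ k * Uᵀ * (U * D * Uᵀ) = U * D ^ k * (Uᵀ * U) * D * Uᵀ := by
          simp only [Matrix.mul_assoc]
      _ = U * (D ^ k * D) * Uᵀ := by rw [h]; simp only [Matrix.mul_assoc, Matrix.one_mul]

lemma trace_pow (hA : A.IsHermitian) (k : ℕ) :
    (A ^ k).trace = ∑ i, (hA.eigenvalues i) ^ k := by
  obtain ⟨U, h1, h2, h3⟩ := spec hA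
  conv_lhs => rw [h3]
  rw [conj_pow h1 h2, Matrix.trace_mul_comm, ← Matrix.mul_assoc, h1, Matrix.one_mul,
    Matrix.diagonal_pow, Matrix.trace_diagonal]
  rfl

lemma exists_vec (hA : A.IsHermitian) (i : V) :
    ∃ y : V → ℝ, y ≠ 0 ∧ A *ᵥ y = hA.eigenvalues i • y := by
  refine ⟨⇑(hA.eigenvectorBasis i), ?_, hA.mulVec_eigenvectorBasis i⟩
  exact (WithLp.ofLp_eq_zero 2).ne.2 <| hA.eigenvectorBasis.orthonormal.ne_zero i

lemma exists_index (hA : A.IsHermitian) {μ : ℝ} {y : V → ℝ} (hy : y ≠ 0)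
    (h : A *ᵥ y = μ • y) : ∃ i, hA.eigenvalues i = μ := by
  have h1 : μ ∈ spectrum ℝ A := by
    rw [← Matrix.spectrum_toLin']
    apply Module.End.HasEigenvalue.mem_spectrum
    exact Module.End.hasEigenvalue_of_hasEigenvector (x := y)
      ⟨Module.End.mem_eigenspace_iff.mpr (by rw [Matrix.toLin'_apply, h]), hy⟩
  rw [hA.spectrum_real_eq_range_eigenvalues] at h1
  exact h1

lemma pow_mulVec {μ : ℝ} {y : V → ℝ} (h : A *ᵥ y = μ • y) (k : ℕ) :
    (A ^ k) *ᵥ y = μ ^ k • y := by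
  induction k with
  | zero => simp
  | succ k ih => rw [pow_succ, ← Matrix.mulVec_mulVec, h, Matrix.mulVec_smul, ih, smul_smul,
      pow_succ, mul_comm]

/-- trace duality, easy direction -/
lemma trace_mul_le (hA : A.IsHermitian) (Y : Matrix V V ℝ)
    (hY : ∀ x : V → ℝ, |x ⬝ᵥ (Y *ᵥ x)| ≤ x ⬝ᵥ x) :
    (Y * A).trace ≤ ∑ i, |hA.eigenvalues i| := by
  obtain ⟨U, h1, h2, h3⟩ := spec hA
  have h4 : (Y * A).trace = ∑ i, (Uᵀ * Y * U) i i * hA.eigenvalues i := by
    conv_lhs => rw [h3]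
    have : Y * (U * diagonal hA.eigenvalues * Uᵀ)
        = (Y * U * diagonal hA.eigenvalues) * Uᵀ := by simp only [Matrix.mul_assoc]
    rw [this, Matrix.trace_mul_comm]
    have : Uᵀ * (Y * U * diagonal hA.eigenvalues)
        = (Uᵀ * Y * U) * diagonal hA.eigenvalues := by simp only [Matrix.mul_assoc]
    rw [this, Matrix.trace]
    refine Finset.sum_congr rfl fun i _ => ?_
    rw [Matrix.diag_apply, Matrix.mul_diagonal]
  rw [h4]
  refine Finset.sum_le_sum fun i _ => ?_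
  have h5 : (Uᵀ * Y * U) i i = (fun j => U j i) ⬝ᵥ (Y *ᵥ (fun j => U j i)) := by
    rw [Matrix.mul_assoc, Matrix.mul_apply]
    rfl
  have h6 : (fun j => U j i) ⬝ᵥ (fun j => U j i) = 1 := by
    have := congrFun (congrFun h1 i) i
    rw [Matrix.mul_apply] at this
    simpa [dotProduct] using this
  have h7 := hY (fun j => U j i)
  rw [← h5, h6] at h7
  calc (Uᵀ * Y * U) i i * hA.eigenvalues i ≤ |(Uᵀ * Y * U) i i * hA.eigenvalues i| := le_abs_self _
    _ = |(Uᵀ * Y * U) i i| * |hA.eigenvalues i| := abs_mul _ _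
    _ ≤ 1 * |hA.eigenvalues i| := mul_le_mul_of_nonneg_right h7 (abs_nonneg _)
    _ = |hA.eigenvalues i| := one_mul _

/-- the sign matrix -/
lemma exists_sign (hA : A.IsHermitian) : ∃ X : Matrix V V ℝ, Xᵀ = X ∧
    (X * A).trace = ∑ i, |hA.eigenvalues i| ∧
    (∀ x : V → ℝ, |x ⬝ᵥ (X *ᵥ x)| ≤ x ⬝ᵥ x) ∧
    (∀ u, ∑ w, X u w ^ 2 ≤ 1) := by
  obtain ⟨U, h1, h2, h3⟩ := spec hA
  let s : V → ℝ := fun i => (SignType.sign (hA.eigenvalues i) : ℝ)
  have hs : ∀ i, s i * hA.eigenvalues i = |hA.eigenvalues i| := fun i => by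
    simp [s]
  have hs1 : ∀ i, |s i| ≤ 1 := fun i => by
    rcases lt_trichotomy (hA.eigenvalues i) 0 with h | h | h
    · simp [s, h]
    · simp [s, h]
    · simp [s, h]
  have hX : ∀ x : V → ℝ, x ⬝ᵥ ((U * diagonal s * Uᵀ) *ᵥ x) = ∑ i, s i * ((Uᵀ *ᵥ x) i) ^ 2 := by
    intro x
    rw [← Matrix.mulVec_mulVec, ← Matrix.mulVec_mulVec, Matrix.dotProduct_mulVec,
      ← Matrix.mulVec_transpose, dotProduct]
    refine Finset.sum_congr rfl fun i _ => ?_
    rw [Matrix.mulVec_diagonal]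
    ring
  have hN : ∀ x : V → ℝ, x ⬝ᵥ x = ∑ i, ((Uᵀ *ᵥ x) i) ^ 2 := by
    intro x
    have : x ⬝ᵥ x = (Uᵀ *ᵥ x) ⬝ᵥ (Uᵀ *ᵥ x) := by
      rw [Matrix.dotProduct_mulVec, ← Matrix.mulVec_transpose, Matrix.transpose_transpose,
        Matrix.mulVec_mulVec, h2, Matrix.one_mulVec]
    rw [this, dotProduct]
    exact Finset.sum_congr rfl fun i _ => by ring
  refine ⟨U * diagonal s * Uᵀ, ?_, ?_, ?_, ?_⟩
  · rw [Matrix.transpose_mul, Matrix.transpose_mul, Matrix.transpose_transpose,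
      Matrix.diagonal_transpose, Matrix.mul_assoc]
  · conv_lhs => rw [h3]
    have : U * diagonal s * Uᵀ * (U * diagonal hA.eigenvalues * Uᵀ)
        = U * diagonal s * (Uᵀ * U) * diagonal hA.eigenvalues * Uᵀ := by
      simp only [Matrix.mul_assoc]
    rw [this, h1, Matrix.mul_one, Matrix.trace_mul_comm, ← Matrix.mul_assoc, ← Matrix.mul_assoc,
      h1, Matrix.one_mul, Matrix.diagonal_mul_diagonal, Matrix.trace_diagonal]
    exact Finset.sum_congr rfl fun i _ => hs i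
  · intro x
    rw [hX, hN]
    refine (Finset.abs_sum_le_sum_abs _ _).trans (Finset.sum_le_sum fun i _ => ?_)
    rw [abs_mul, abs_of_nonneg (sq_nonneg ((Uᵀ *ᵥ x) i))]
    exact mul_le_of_le_one_left (sq_nonneg _) (hs1 i)
  · intro u
    have h5 : ∑ w, (U * diagonal s * Uᵀ) u w ^ 2
        = ((U * diagonal s * Uᵀ) * (U * diagonal s * Uᵀ)ᵀ) u u := by
      rw [Matrix.mul_apply]
      exact Finset.sum_congr rfl fun w _ => by rw [Matrix.transpose_apply]; ring
    have h6 : (U * diagonal s * Uᵀ) * (U * diagonal s * Uᵀ)ᵀ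
        = U * (diagonal (fun i => s i * s i)) * Uᵀ := by
      rw [Matrix.transpose_mul, Matrix.transpose_mul, Matrix.transpose_transpose,
        Matrix.diagonal_transpose]
      calc U * diagonal s * Uᵀ * (U * (diagonal s * Uᵀ))
          = U * diagonal s * (Uᵀ * U) * diagonal s * Uᵀ := by simp only [Matrix.mul_assoc]
        _ = _ := by rw [h1, Matrix.mul_one, Matrix.mul_assoc U, Matrix.diagonal_mul_diagonal]
    rw [h5, h6, Matrix.mul_apply]
    have h7 : (U * Uᵀ) u u = 1 := by rw [h2, Matrix.one_apply_eq]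
    rw [Matrix.mul_apply] at h7
    rw [← h7]
    refine Finset.sum_le_sum fun i _ => ?_
    rw [Matrix.mul_diagonal, Matrix.transpose_apply]
    have h8 : s i * s i ≤ 1 := by
      have := hs1 i
      rw [abs_le] at this
      nlinarith [this.1, this.2]
    have h9 : 0 ≤ U u i * U u i := mul_self_nonneg _
    nlinarith

end Pool.Agent.V11117.Spec
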