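import Mathlib

namespace Pool.Agent.V11117.MExp

open Matrix Finset
open scoped Nat

set_option backward.isDefEq.respectTransparency false in
lemma hasSum_exp {m : Type*} [Fintype m] [DecidableEq m] (M : Matrix m m ℂ) :
    HasSum (fun n : ℕ => ((n ! : ℂ)⁻¹) • M ^ n) (NormedSpace.exp M) :=
  open scoped Norms.Operator in NormedSpace.exp_series_hasSum_exp' (𝕂 := ℂ) M

lemma hasSum_exp_apply {m : Type*} [Fintype m] [DecidableEq m] (M : Matrix m m ℂ) (i j : m) :
    HasSum (fun n : ℕ => ((n ! : ℂ)⁻¹) * (M ^ n) i j) ((NormedSpace.exp M) i j) := by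
  have h := hasSum_exp M
  have hc : Continuous (fun N : Matrix m m ℂ => N i j) := continuous_id.matrix_elem i j
  exact h.map (⟨⟨fun N : Matrix m m ℂ => N i j, rfl⟩, fun _ _ => rfl⟩ :
    Matrix m m ℂ →+ ℂ) hc

end Pool.Agent.V11117.MExp
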