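import Mathlib
import Pool.Agent.V11117.MExp

namespace Pool.Agent.V11117.MExp

open Matrix Finset
open scoped Nat

lemma pow_mulVec_c {m : Type*} [Fintype m] [DecidableEq m] {M : Matrix m m ℂ} {v : m → ℂ} {μ : ℂ}
    (h : M *ᵥ v = μ • v) (k : ℕ) : (M ^ k) *ᵥ v = μ ^ k • v := by
  induction k with
  | zero => simp
  | succ k ih => rw [pow_succ, ← Matrix.mulVec_mulVec, h, Matrix.mulVec_smul, ih, smul_smul,
      pow_succ, mul_comm]

lemma exp_mulVec {m : Type*} [Fintype m] [DecidableEq m] {M : Matrix m m ℂ} {v : m → ℂ} {μ : ℂ}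
    (h : M *ᵥ v = μ • v) : NormedSpace.exp M *ᵥ v = Complex.exp μ • v := by
  funext i
  have h1 : HasSum (fun n : ℕ => ∑ j, ((n ! : ℂ)⁻¹ * (M ^ n) i j) * v j)
      (∑ j, NormedSpace.exp M i j * v j) :=
    hasSum_sum fun j _ => (hasSum_exp_apply M i j).mul_right (v j)
  have h2 : ∀ n : ℕ, ∑ j, ((n ! : ℂ)⁻¹ * (M ^ n) i j) * v j = ((n ! : ℂ)⁻¹ * μ ^ n) * v i := by
    intro n
    have h3 := congrFun (pow_mulVec_c h n) i
    rw [Matrix.mulVec, dotProduct, Pi.smul_apply, smul_eq_mul] at h3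
    simp_rw [mul_assoc]
    rw [← Finset.mul_sum, h3]
  simp_rw [h2] at h1
  have h4 : HasSum (fun n : ℕ => ((n ! : ℂ)⁻¹ * μ ^ n) * v i) (Complex.exp μ * v i) := by
    have h5 := NormedSpace.exp_series_hasSum_exp' (𝕂 := ℂ) (𝔸 := ℂ) μ
    simp only [smul_eq_mul] at h5
    rw [← Complex.exp_eq_exp_ℂ] at h5
    exact h5.mul_right (v i)
  have h6 := h1.unique h4
  rw [Matrix.mulVec, dotProduct, Pi.smul_apply, smul_eq_mul]
  exact h6

lemma smul_mulVec_eig {m : Type*} [Fintype m] [DecidableEq m] {M : Matrix m m ℂ} {v : m → ℂ}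
    {μ : ℂ} (h : M *ᵥ v = μ • v) (t : ℂ) : (t • M) *ᵥ v = (t * μ) • v := by
  rw [Matrix.smul_mulVec, h, smul_smul]

lemma exp_add_smul {m : Type*} [Fintype m] [DecidableEq m] (M : Matrix m m ℂ) (s t : ℂ) :
    NormedSpace.exp ((s + t) • M) = NormedSpace.exp (s • M) * NormedSpace.exp (t • M) := by
  rw [add_smul, Matrix.exp_add_of_commute]
  exact (Commute.refl M).smul_left s |>.smul_right t

/-- vectors constant on the cells of an equitable partition -/
lemma quotient_mulVec {m c : Type*} [Fintype m] [Fintype c] [DecidableEq c] {R : Type*}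
    [CommRing R] (A : Matrix m m ℤ) (B : Matrix c c ℤ) (cell : m → c)
    (h : ∀ a k, ∑ b, (if cell b = k then A a b else 0) = B (cell a) k) (w : c → R) :
    (A.map (Int.castRingHom R)) *ᵥ (w ∘ cell) = ((B.map (Int.castRingHom R)) *ᵥ w) ∘ cell := by
  funext a
  rw [Matrix.mulVec, dotProduct, Function.comp_apply, Matrix.mulVec, dotProduct]
  simp only [Matrix.map_apply, Int.coe_castRingHom, ← h]
  push_cast
  simp_rw [Finset.sum_mul]
  rw [Finset.sum_comm]
  refine Finset.sum_congr rfl fun b _ => ?_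
  have : ∀ k, ((if cell b = k then (A a b : R) else 0) * w k)
      = if cell b = k then (A a b : R) * w (cell b) else 0 := by
    intro k
    split_ifs with hk
    · rw [hk]
    · simp
  simp [this]

end Pool.Agent.V11117.MExp
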