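import Mathlib
import Pool.Agent.V11117.MExp2

namespace Pool.Agent.V11117.PathMix

open Matrix Finset

/-- telescoping -/
lemma tele (y : ℝ) (M : ℕ) : ∑ a ∈ range M, 2 * Real.sin y * Real.cos (2 * y * a) =
    Real.sin ((2 * M - 1) * y) + Real.sin y := by
  induction M with
  | zero => simp
  | succ M ih =>
    rw [Finset.sum_range_succ, ih]
    push_cast
    have h1 : (2 * ((M : ℝ) + 1) - 1) * y = 2 * y * M + y := by ring
    have h2 : (2 * (M : ℝ) - 1) * y = 2 * y * M - y := by ring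
    rw [h1, h2, Real.sin_add, Real.sin_sub]
    ring

lemma sumcos (N : ℕ) (hN : 0 < N) (m : ℤ) :
    ∑ a ∈ range N, Real.cos (m * (Real.pi / N) * a) =
      (if (2 * N : ℤ) ∣ m then (N : ℝ) else 0) + (1 - Real.cos (Real.pi * m)) / 2 := by
  have hN' : (N : ℝ) ≠ 0 := by exact_mod_cast hN.ne'
  split_ifs with h
  · obtain ⟨j, rfl⟩ := h
    have h1 : ∀ a ∈ range N, Real.cos (((2 * N * j : ℤ) : ℝ) * (Real.pi / N) * a) = 1 := by
      intro a _
      have : ((2 * N * j : ℤ) : ℝ) * (Real.pi / N) * a = ((j * a : ℤ) : ℝ) * (2 * Real.pi) := by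
        push_cast
        field_simp
      rw [this]
      exact Real.cos_int_mul_two_pi _
    rw [Finset.sum_congr rfl h1]
    have h2 : Real.cos (Real.pi * ((2 * N * j : ℤ) : ℝ)) = 1 := by
      have : Real.pi * ((2 * N * j : ℤ) : ℝ) = ((N * j : ℤ) : ℝ) * (2 * Real.pi) := by
        push_cast
        ring
      rw [this]
      exact Real.cos_int_mul_two_pi _
    rw [h2]
    simp
  · set y : ℝ := m * Real.pi / (2 * N) with hy
    have hs : Real.sin y ≠ 0 := by
      intro h0
      rw [Real.sin_eq_zero_iff] at h0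
      obtain ⟨j, hj⟩ := h0
      apply h
      refine ⟨j, ?_⟩
      have h1 : (j : ℝ) * Real.pi * (2 * N) = m * Real.pi := by
        rw [hj, hy]
        field_simp
      have h2 : (j : ℝ) * (2 * N) = m := by
        have := Real.pi_ne_zero
        have h3 : ((j : ℝ) * (2 * N)) * Real.pi = m * Real.pi := by linarith
        exact mul_right_cancel₀ this h3
      have h3 : ((2 * N * j : ℤ) : ℝ) = ((m : ℤ) : ℝ) := by
        push_cast
        linarith
      exact_mod_cast h3.symm
    have h1 := tele y N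
    have h2 : (2 * (N : ℝ) - 1) * y = Real.pi * m - y := by
      rw [hy]
      field_simp
    rw [h2, Real.sin_sub] at h1
    have h3 : Real.sin (Real.pi * m) = 0 := by
      rw [mul_comm]
      exact Real.sin_int_mul_pi m
    rw [h3, ← Finset.mul_sum] at h1
    have h4 : ∀ a ∈ range N, Real.cos (m * (Real.pi / N) * a) = Real.cos (2 * y * a) := by
      intro a _
      congr 1
      rw [hy]
      field_simp
    rw [Finset.sum_congr rfl h4]
    have h5 : Real.sin y * (2 * ∑ a ∈ range N, Real.cos (2 * y * a) -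
        (1 - Real.cos (Real.pi * m))) = 0 := by linarith
    rcases mul_eq_zero.1 h5 with h6 | h6
    · exact absurd h6 hs
    · linarith

/-- `Σ_a cos(ka) sin(ra) sin(sa)` -/
lemma sumT (N : ℕ) (hN : 0 < N) (k r s : ℤ) :
    ∑ a ∈ range N, Real.cos (k * (Real.pi / N) * a) * Real.sin (r * (Real.pi / N) * a) *
      Real.sin (s * (Real.pi / N) * a) =
      (N : ℝ) / 4 * ((if (2 * N : ℤ) ∣ k + r - s then (1 : ℝ) else 0) +
        (if (2 * N : ℤ) ∣ k - r + s then (1 : ℝ) else 0) -
        (if (2 * N : ℤ) ∣ k + r + s then (1 : ℝ) else 0) -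
        (if (2 * N : ℤ) ∣ k - r - s then (1 : ℝ) else 0)) := by
  have hx : ∀ a ∈ range N, Real.cos (k * (Real.pi / N) * a) * Real.sin (r * (Real.pi / N) * a) *
      Real.sin (s * (Real.pi / N) * a) = (1 / 4) * (
        Real.cos (((k + r - s : ℤ) : ℝ) * (Real.pi / N) * a) +
        Real.cos (((k - r + s : ℤ) : ℝ) * (Real.pi / N) * a) -
        Real.cos (((k + r + s : ℤ) : ℝ) * (Real.pi / N) * a) -
        Real.cos (((k - r - s : ℤ) : ℝ) * (Real.pi / N) * a)) := by
    intro a _
    have e1 : ((k + r - s : ℤ) : ℝ) * (Real.pi / N) * a = k * (Real.pi / N) * a +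
      (r * (Real.pi / N) * a - s * (Real.pi / N) * a) := by push_cast; ring
    have e2 : ((k - r + s : ℤ) : ℝ) * (Real.pi / N) * a = k * (Real.pi / N) * a -
      (r * (Real.pi / N) * a - s * (Real.pi / N) * a) := by push_cast; ring
    have e3 : ((k + r + s : ℤ) : ℝ) * (Real.pi / N) * a = k * (Real.pi / N) * a +
      (r * (Real.pi / N) * a + s * (Real.pi / N) * a) := by push_cast; ring
    have e4 : ((k - r - s : ℤ) : ℝ) * (Real.pi / N) * a = k * (Real.pi / N) * a -
      (r * (Real.pi / N) * a + s * (Real.pi / N) * a) := by push_cast; ring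
    rw [e1, e2, e3, e4]
    simp only [Real.cos_add, Real.cos_sub, Real.sin_add, Real.sin_sub]
    ring
  rw [Finset.sum_congr rfl hx, ← Finset.mul_sum, Finset.sum_sub_distrib, Finset.sum_sub_distrib,
    Finset.sum_add_distrib, sumcos N hN, sumcos N hN, sumcos N hN, sumcos N hN]
  have c1 : Real.cos (Real.pi * ((k + r - s : ℤ) : ℝ)) = Real.cos (Real.pi * ((k + r + s : ℤ) : ℝ)) := by
    have : Real.pi * ((k + r + s : ℤ) : ℝ) = Real.pi * ((k + r - s : ℤ) : ℝ) + s * (2 * Real.pi) := by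
      push_cast; ring
    rw [this, Real.cos_add_int_mul_two_pi]
  have c2 : Real.cos (Real.pi * ((k - r + s : ℤ) : ℝ)) = Real.cos (Real.pi * ((k + r + s : ℤ) : ℝ)) := by
    have : Real.pi * ((k + r + s : ℤ) : ℝ) = Real.pi * ((k - r + s : ℤ) : ℝ) + r * (2 * Real.pi) := by
      push_cast; ring
    rw [this, Real.cos_add_int_mul_two_pi]
  have c3 : Real.cos (Real.pi * ((k - r - s : ℤ) : ℝ)) = Real.cos (Real.pi * ((k + r + s : ℤ) : ℝ)) := by
    have : Real.pi * ((k + r + s : ℤ) : ℝ) = Real.pi * ((k - r - s : ℤ) : ℝ) +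
        ((r + s : ℤ) : ℝ) * (2 * Real.pi) := by
      push_cast; ring
    rw [this, Real.cos_add_int_mul_two_pi]
  rw [c1, c2, c3]
  have hite : ∀ (P : Prop) [Decidable P], (if P then (N : ℝ) else 0) = N * (if P then (1 : ℝ) else 0) := by
    intro P _
    split_ifs <;> simp
  simp only [hite]
  ring

/-- orthogonality -/
lemma orth (N : ℕ) (hN : 0 < N) (r s : ℤ) :
    ∑ a ∈ range N, Real.sin (r * (Real.pi / N) * a) * Real.sin (s * (Real.pi / N) * a) =
      (N : ℝ) / 2 * ((if (2 * N : ℤ) ∣ r - s then (1 : ℝ) else 0) -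
        (if (2 * N : ℤ) ∣ r + s then (1 : ℝ) else 0)) := by
  have h := sumT N hN 0 r s
  simp only [Int.cast_zero, zero_mul, Real.cos_zero, one_mul, zero_add, zero_sub] at h
  rw [h]
  have h1 : ((2 * N : ℤ) ∣ -r + s) ↔ ((2 * N : ℤ) ∣ r - s) := by
    rw [← dvd_neg, neg_add, neg_neg, sub_eq_add_neg]
  have h2 : ((2 * N : ℤ) ∣ -r - s) ↔ ((2 * N : ℤ) ∣ r + s) := by
    rw [← dvd_neg]
    ring_nf
  simp only [h1, h2]
  ring

end Pool.Agent.V11117.PathMix
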