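import Mathlib
import Pool.Agent.V11117.MExp2
import Pool.Agent.V11117.PathMix

namespace Pool.Agent.V11117.PathMix

open Matrix Finset Pool.Agent.V11117

/-- The adjacency matrix of the path with `n` vertices. -/
def adjM (n : ℕ) : Matrix (Fin n) (Fin n) ℂ :=
  Matrix.of fun a b => if a.1 + 1 = b.1 ∨ b.1 + 1 = a.1 then 1 else 0

lemma adj_sum (n : ℕ) (F : ℕ → ℂ) (h0 : F 0 = 0) (hN : F (n + 1) = 0) (a : Fin n) :
    ∑ b : Fin n, adjM n a b * F (b.1 + 1) =
      F a.1 + F (a.1 + 2) := by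
  have h1 : ∀ b : Fin n, adjM n a b * F (b.1 + 1) =
      (if b.1 + 1 = a.1 then F a.1 else 0) + (if b.1 = a.1 + 1 then F (a.1 + 2) else 0) := by
    intro b
    simp only [adjM, Matrix.of_apply]
    by_cases c1 : b.1 + 1 = a.1
    · have c2 : ¬ b.1 = a.1 + 1 := by omega
      have c3 : (a.1 + 1 = b.1 ∨ b.1 + 1 = a.1) := Or.inr c1
      rw [if_pos c3, if_pos c1, if_neg c2, one_mul, add_zero, c1]
    · by_cases c2 : b.1 = a.1 + 1
      · have c3 : (a.1 + 1 = b.1 ∨ b.1 + 1 = a.1) := Or.inl c2.symm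
        rw [if_pos c3, if_neg c1, if_pos c2, one_mul, zero_add, c2]
      · have c3 : ¬ (a.1 + 1 = b.1 ∨ b.1 + 1 = a.1) := by omega
        rw [if_neg c3, if_neg c1, if_neg c2]
        simp
  rw [Finset.sum_congr rfl (fun b _ => h1 b), Finset.sum_add_distrib]
  congr 1
  · rw [Fin.sum_univ_eq_sum_range (fun b => if b + 1 = a.1 then F a.1 else 0) n]
    rcases Nat.eq_zero_or_pos a.1 with h | h
    · rw [h, h0]
      simp
    · obtain ⟨a', ha'⟩ : ∃ a', a.1 = a' + 1 := ⟨a.1 - 1, by omega⟩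
      rw [ha']
      simp only [Nat.add_right_cancel_iff]
      rw [Finset.sum_ite_eq' (range n) a' (fun _ => F (a' + 1)), if_pos]
      rw [Finset.mem_range]
      have := a.2
      omega
  · rw [Fin.sum_univ_eq_sum_range (fun b => if b = a.1 + 1 then F (a.1 + 2) else 0) n,
      Finset.sum_ite_eq' (range n) (a.1 + 1) (fun _ => F (a.1 + 2))]
    split_ifs with h
    · rfl
    · rw [Finset.mem_range] at h
      have := a.2
      have h2 : a.1 + 2 = n + 1 := by omega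
      rw [h2, hN]

/-- the sine -/
noncomputable def S (n r a : ℕ) : ℝ := Real.sin (r * (Real.pi / (n + 1 : ℕ)) * a)

/-- eigenvalue -/
noncomputable def θ (n r : ℕ) : ℝ := 2 * Real.cos (r * (Real.pi / (n + 1 : ℕ)))

lemma S_comm (n r a : ℕ) : S n r a = S n a r := by
  unfold S
  congr 1
  ring

lemma S_zero (n r : ℕ) : S n r 0 = 0 := by simp [S]

lemma S_last (n r : ℕ) : S n r (n + 1) = 0 := by
  unfold S
  have : (r : ℝ) * (Real.pi / (n + 1 : ℕ)) * ((n + 1 : ℕ) : ℝ) = r * Real.pi := by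
    have : ((n + 1 : ℕ) : ℝ) ≠ 0 := by positivity
    field_simp
  rw [this]
  exact Real.sin_nat_mul_pi r

lemma S_rec (n r a : ℕ) : S n r a + S n r (a + 2) = θ n r * S n r (a + 1) := by
  unfold S θ
  set x : ℝ := r * (Real.pi / (n + 1 : ℕ)) with hx
  have e1 : x * ((a + 2 : ℕ) : ℝ) = x * ((a + 1 : ℕ) : ℝ) + x := by push_cast; ring
  have e2 : x * (a : ℝ) = x * ((a + 1 : ℕ) : ℝ) - x := by push_cast; ring
  rw [e1, e2, Real.sin_add, Real.sin_sub]
  ring

/-- eigenvector -/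
noncomputable def vec (n r : ℕ) : Fin n → ℂ := fun a => ((S n r (a.1 + 1) : ℝ) : ℂ)

lemma eig (n r : ℕ) : adjM n *ᵥ vec n r =
    ((θ n r : ℝ) : ℂ) • vec n r := by
  funext a
  rw [Matrix.mulVec, dotProduct, Pi.smul_apply, smul_eq_mul]
  have h := adj_sum n (fun m => ((S n r m : ℝ) : ℂ)) (by simp [S_zero]) (by simp [S_last]) a
  simp only [vec]
  rw [h]
  exact_mod_cast S_rec n r a.1

/-- transition matrix of the path -/
noncomputable def U (n : ℕ) (t : ℝ) : Matrix (Fin n) (Fin n) ℂ :=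
  NormedSpace.exp (((t : ℂ) * Complex.I) • adjM n)

lemma sum_shift (n : ℕ) (G : ℕ → ℝ) (h0 : G 0 = 0) :
    ∑ a ∈ range n, G (a + 1) = ∑ a ∈ range (n + 1), G a := by
  rw [Finset.sum_range_succ', h0, add_zero]

lemma orthS (n : ℕ) (a b : ℕ) (ha : 1 ≤ a) (ha' : a ≤ n) (hb : 1 ≤ b) (hb' : b ≤ n) :
    ∑ r ∈ range n, S n (r + 1) a * S n (r + 1) b = if a = b then ((n + 1 : ℕ) : ℝ) / 2 else 0 := by
  rw [sum_shift n (fun r => S n r a * S n r b) (by simp [S])]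
  have h := orth (n + 1) (Nat.succ_pos n) (a : ℤ) (b : ℤ)
  have h1 : ∑ r ∈ range (n + 1), S n r a * S n r b =
      ∑ r ∈ range (n + 1), Real.sin (((a : ℤ) : ℝ) * (Real.pi / (n + 1 : ℕ)) * r) *
        Real.sin (((b : ℤ) : ℝ) * (Real.pi / (n + 1 : ℕ)) * r) := by
    refine Finset.sum_congr rfl fun r _ => ?_
    rw [S_comm n r a, S_comm n r b]
    unfold S
    push_cast
    rfl
  rw [h1, h]
  have c2 : ¬ ((2 * (n + 1 : ℕ) : ℤ) ∣ (a : ℤ) + b) := by
    intro hd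
    have := Int.le_of_dvd (by omega) hd
    push_cast at this
    omega
  rw [if_neg c2, sub_zero]
  by_cases hab : a = b
  · subst hab
    simp
  · rw [if_neg hab, if_neg, mul_zero]
    intro hd
    have h3 : |(a : ℤ) - b| < 2 * ((n + 1 : ℕ) : ℤ) := by
      rw [abs_lt]
      constructor <;> push_cast <;> omega
    have h4 := Int.eq_zero_of_abs_lt_dvd hd h3
    omega

lemma single_eq (n : ℕ) (b : Fin n) : (Pi.single b (1 : ℂ) : Fin n → ℂ) =
    ∑ r ∈ range n, (((2 / (n + 1 : ℕ) * S n (r + 1) (b.1 + 1) : ℝ)) : ℂ) • vec n (r + 1) := by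
  funext a
  rw [Finset.sum_apply]
  simp only [Pi.smul_apply, smul_eq_mul, vec]
  have h := orthS n (b.1 + 1) (a.1 + 1) (by omega) b.2 (by omega) a.2
  have h1 : ∑ r ∈ range n, (((2 / (n + 1 : ℕ) * S n (r + 1) (b.1 + 1) : ℝ)) : ℂ) *
      ((S n (r + 1) (a.1 + 1) : ℝ) : ℂ) =
      ((2 / (n + 1 : ℕ) * ∑ r ∈ range n, S n (r + 1) (b.1 + 1) * S n (r + 1) (a.1 + 1) : ℝ) : ℂ) := by
    push_cast
    rw [Finset.mul_sum]
    refine Finset.sum_congr rfl fun r _ => ?_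
    ring
  rw [h1, h]
  by_cases hab : b = a
  · subst hab
    rw [if_pos rfl, Pi.single_eq_same]
    have : ((n + 1 : ℕ) : ℝ) ≠ 0 := by positivity
    have h2 : (2 / ((n + 1 : ℕ) : ℝ) * (((n + 1 : ℕ) : ℝ) / 2)) = 1 := by field_simp
    rw [h2]
    simp
  · have : ¬ (b.1 + 1 = a.1 + 1) := by
      intro h2
      exact hab (Fin.ext (by omega))
    rw [if_neg this, Pi.single_eq_of_ne (Ne.symm hab)]
    simp

lemma U_apply (n : ℕ) (t : ℝ) (a b : Fin n) : U n t a b =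
    ∑ r ∈ range n, (((2 / (n + 1 : ℕ) * S n (r + 1) (b.1 + 1) * S n (r + 1) (a.1 + 1) : ℝ)) : ℂ) *
      Complex.exp (((t * θ n (r + 1) : ℝ) : ℂ) * Complex.I) := by
  have h1 : U n t a b = (U n t *ᵥ Pi.single b 1) a := by
    rw [Matrix.mulVec_single_one]
    rfl
  rw [h1, single_eq, Matrix.mulVec_sum, Finset.sum_apply]
  refine Finset.sum_congr rfl fun r _ => ?_
  rw [Matrix.mulVec_smul, U,
    MExp.exp_mulVec (MExp.smul_mulVec_eig (eig n (r + 1)) ((t : ℂ) * Complex.I))]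
  simp only [Pi.smul_apply, smul_eq_mul, vec]
  push_cast
  rw [show (t : ℂ) * Complex.I * (θ n (r + 1) : ℂ) = (t : ℂ) * (θ n (r + 1) : ℂ) * Complex.I by ring]
  ring

lemma normsq_sum {ι : Type*} (A : Finset ι) (w φ : ι → ℝ) :
    ‖∑ r ∈ A, (w r : ℂ) * Complex.exp ((φ r : ℂ) * Complex.I)‖ ^ 2 =
      ∑ r ∈ A, ∑ s ∈ A, w r * w s * Real.cos (φ r - φ s) := by
  rw [Complex.sq_norm, Complex.normSq_apply]
  have hre : (∑ r ∈ A, (w r : ℂ) * Complex.exp ((φ r : ℂ) * Complex.I)).re =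
      ∑ r ∈ A, w r * Real.cos (φ r) := by
    rw [Complex.re_sum]
    refine Finset.sum_congr rfl fun r _ => ?_
    rw [Complex.re_ofReal_mul, Complex.exp_ofReal_mul_I_re]
  have him : (∑ r ∈ A, (w r : ℂ) * Complex.exp ((φ r : ℂ) * Complex.I)).im =
      ∑ r ∈ A, w r * Real.sin (φ r) := by
    rw [Complex.im_sum]
    refine Finset.sum_congr rfl fun r _ => ?_
    rw [Complex.im_ofReal_mul, Complex.exp_ofReal_mul_I_im]
  rw [hre, him, Finset.sum_mul_sum, Finset.sum_mul_sum, ← Finset.sum_add_distrib]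
  refine Finset.sum_congr rfl fun r _ => ?_
  rw [← Finset.sum_add_distrib]
  refine Finset.sum_congr rfl fun s _ => ?_
  rw [Real.cos_sub]
  ring

lemma U_normsq (n : ℕ) (t : ℝ) (a b : Fin n) : ‖U n t a b‖ ^ 2 =
    ∑ r ∈ range n, ∑ s ∈ range n,
      (2 / ((n + 1 : ℕ) : ℝ)) ^ 2 * (S n (r + 1) (a.1 + 1) * S n (s + 1) (a.1 + 1)) *
        (S n (r + 1) (b.1 + 1) * S n (s + 1) (b.1 + 1)) *
        Real.cos (t * (θ n (r + 1) - θ n (s + 1))) := by
  rw [U_apply, normsq_sum]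
  refine Finset.sum_congr rfl fun r _ => Finset.sum_congr rfl fun s _ => ?_
  rw [mul_sub]
  ring

end Pool.Agent.V11117.PathMix
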