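import Mathlib
import Pool.Agent.V11117.PathMix2

namespace Pool.Agent.V11117.PathMix

open Matrix Finset Pool.Agent.V11117

lemma row_sum (n : ℕ) (t : ℝ) (a : Fin n) : ∑ b : Fin n, ‖U n t a b‖ ^ 2 = 1 := by
  simp_rw [U_normsq]
  rw [Finset.sum_comm]
  have hN : ((n + 1 : ℕ) : ℝ) ≠ 0 := by positivity
  have h1 : ∀ r ∈ range n, ∑ b : Fin n, ∑ s ∈ range n,
      (2 / ((n + 1 : ℕ) : ℝ)) ^ 2 * (S n (r + 1) (a.1 + 1) * S n (s + 1) (a.1 + 1)) *
        (S n (r + 1) (b.1 + 1) * S n (s + 1) (b.1 + 1)) *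
        Real.cos (t * (θ n (r + 1) - θ n (s + 1))) =
      2 / ((n + 1 : ℕ) : ℝ) * (S n (r + 1) (a.1 + 1) * S n (r + 1) (a.1 + 1)) := by
    intro r hr
    rw [Finset.mem_range] at hr
    rw [Finset.sum_comm]
    have h2 : ∀ s ∈ range n, ∑ b : Fin n,
      (2 / ((n + 1 : ℕ) : ℝ)) ^ 2 * (S n (r + 1) (a.1 + 1) * S n (s + 1) (a.1 + 1)) *
        (S n (r + 1) (b.1 + 1) * S n (s + 1) (b.1 + 1)) *
        Real.cos (t * (θ n (r + 1) - θ n (s + 1))) =
        (if s = r then 2 / ((n + 1 : ℕ) : ℝ) * (S n (r + 1) (a.1 + 1) * S n (r + 1) (a.1 + 1))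
          else 0) := by
      intro s hs
      rw [Finset.mem_range] at hs
      have h3 : ∑ b : Fin n, S n (r + 1) (b.1 + 1) * S n (s + 1) (b.1 + 1) =
          if r + 1 = s + 1 then ((n + 1 : ℕ) : ℝ) / 2 else 0 := by
        rw [Fin.sum_univ_eq_sum_range (fun b => S n (r + 1) (b + 1) * S n (s + 1) (b + 1)) n]
        rw [← orthS n (r + 1) (s + 1) (by omega) (by omega) (by omega) (by omega)]
        refine Finset.sum_congr rfl fun b _ => ?_
        rw [S_comm n (r + 1) (b + 1), S_comm n (s + 1) (b + 1)]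
      rw [← Finset.sum_mul, ← Finset.mul_sum, h3]
      by_cases hrs : s = r
      · subst hrs
        rw [if_pos rfl, if_pos rfl, sub_self, mul_zero, Real.cos_zero]
        field_simp
      · rw [if_neg hrs, if_neg (by omega)]
        ring
    rw [Finset.sum_congr rfl h2, Finset.sum_ite_eq' (range n) r, if_pos (Finset.mem_range.2 hr)]
  rw [Finset.sum_congr rfl h1, ← Finset.mul_sum]
  rw [orthS n (a.1 + 1) (a.1 + 1) (by omega) a.2 (by omega) a.2, if_pos rfl]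
  field_simp

lemma swap4 {α ι : Type*} (A : Finset α) (R : Finset ι) (u v : α → ℝ) (X : ι → ι → ℝ)
    (P : α → ι → ι → ℝ) :
    ∑ a ∈ A, ∑ b ∈ A, u a * v b * ∑ r ∈ R, ∑ s ∈ R, X r s * P a r s * P b r s =
    ∑ r ∈ R, ∑ s ∈ R, X r s * (∑ a ∈ A, u a * P a r s) * (∑ b ∈ A, v b * P b r s) := by
  have h1 : ∀ r ∈ R, ∀ s ∈ R, X r s * (∑ a ∈ A, u a * P a r s) * (∑ b ∈ A, v b * P b r s) =
      ∑ a ∈ A, ∑ b ∈ A, u a * v b * (X r s * P a r s * P b r s) := by
    intro r _ s _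
    rw [mul_assoc, Finset.sum_mul_sum, Finset.mul_sum]
    refine Finset.sum_congr rfl fun a _ => ?_
    rw [Finset.mul_sum]
    refine Finset.sum_congr rfl fun b _ => ?_
    ring
  rw [Finset.sum_congr rfl (fun r hr => Finset.sum_congr rfl (h1 r hr))]
  simp_rw [Finset.mul_sum]
  calc ∑ a ∈ A, ∑ b ∈ A, ∑ r ∈ R, ∑ s ∈ R, u a * v b * (X r s * P a r s * P b r s)
      = ∑ a ∈ A, ∑ r ∈ R, ∑ b ∈ A, ∑ s ∈ R, u a * v b * (X r s * P a r s * P b r s) :=
        Finset.sum_congr rfl fun a _ => Finset.sum_comm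
    _ = ∑ r ∈ R, ∑ a ∈ A, ∑ b ∈ A, ∑ s ∈ R, u a * v b * (X r s * P a r s * P b r s) :=
        Finset.sum_comm
    _ = ∑ r ∈ R, ∑ a ∈ A, ∑ s ∈ R, ∑ b ∈ A, u a * v b * (X r s * P a r s * P b r s) :=
        Finset.sum_congr rfl fun r _ => Finset.sum_congr rfl fun a _ => Finset.sum_comm
    _ = ∑ r ∈ R, ∑ s ∈ R, ∑ a ∈ A, ∑ b ∈ A, u a * v b * (X r s * P a r s * P b r s) :=
        Finset.sum_congr rfl fun r _ => Finset.sum_comm

lemma dvd1 (M z : ℤ) (h1 : -M < z) (h2 : z < M) : M ∣ z ↔ z = 0 :=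
  ⟨fun h => Int.eq_zero_of_abs_lt_dvd h (abs_lt.2 ⟨h1, h2⟩), fun h => h ▸ dvd_zero _⟩

lemma dvd2 (M z : ℤ) (h1 : 0 < z) (h2 : z < 2 * M) : M ∣ z ↔ z = M := by
  have h3 : M ∣ z ↔ M ∣ z - M := by
    constructor
    · intro h
      exact dvd_sub h (dvd_refl M)
    · intro h
      have := dvd_add h (dvd_refl M)
      rwa [sub_add_cancel] at this
  rw [h3, dvd1 M (z - M) (by omega) (by omega)]
  omega

/-- the indicator combination -/
noncomputable def D (N k r s : ℤ) : ℝ :=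
  (if 2 * N ∣ k + r - s then (1 : ℝ) else 0) + (if 2 * N ∣ k - r + s then (1 : ℝ) else 0) -
    (if 2 * N ∣ k + r + s then (1 : ℝ) else 0) - (if 2 * N ∣ k - r - s then (1 : ℝ) else 0)

lemma prodD (N p q r s : ℕ) (hq : 1 ≤ q) (hpq : q < p) (hN : p + q < N) (hr : 1 ≤ r) (hr' : r < N)
    (hs : 1 ≤ s) (hs' : s < N) :
    D N ((p : ℤ) - q) r s * D N ((p : ℤ) + q) r s =
      -((if r = p ∧ s = q then (1 : ℝ) else 0) + (if r = q ∧ s = p then (1 : ℝ) else 0) +
        (if r = N - q ∧ s = N - p then (1 : ℝ) else 0) +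
        (if r = N - p ∧ s = N - q then (1 : ℝ) else 0)) := by
  unfold D
  simp only [dvd1 (2 * (N : ℤ)) ((p : ℤ) - q + r - s) (by omega) (by omega),
    dvd1 (2 * (N : ℤ)) ((p : ℤ) - q - r + s) (by omega) (by omega),
    dvd2 (2 * (N : ℤ)) ((p : ℤ) - q + r + s) (by omega) (by omega),
    dvd1 (2 * (N : ℤ)) ((p : ℤ) - q - r - s) (by omega) (by omega),
    dvd1 (2 * (N : ℤ)) ((p : ℤ) + q + r - s) (by omega) (by omega),
    dvd1 (2 * (N : ℤ)) ((p : ℤ) + q - r + s) (by omega) (by omega),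
    dvd2 (2 * (N : ℤ)) ((p : ℤ) + q + r + s) (by omega) (by omega),
    dvd1 (2 * (N : ℤ)) ((p : ℤ) + q - r - s) (by omega) (by omega)]
  by_cases a1 : (p : ℤ) - q + r - s = 0
  · rw [if_pos a1, if_neg (show ¬ (p : ℤ) - q - r + s = 0 by omega),
      if_neg (show ¬ (p : ℤ) - q + r + s = 2 * N by omega),
      if_neg (show ¬ (p : ℤ) - q - r - s = 0 by omega),
      if_neg (show ¬ (p : ℤ) + q + r - s = 0 by omega),
      if_neg (show ¬ (p : ℤ) + q - r + s = 0 by omega)]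
    by_cases b3 : (p : ℤ) + q + r + s = 2 * N
    · rw [if_pos b3, if_neg (show ¬ (p : ℤ) + q - r - s = 0 by omega),
        if_neg (show ¬ (r = p ∧ s = q) by omega), if_neg (show ¬ (r = q ∧ s = p) by omega),
        if_neg (show ¬ (r = N - q ∧ s = N - p) by omega),
        if_pos (show (r = N - p ∧ s = N - q) by omega)]
      norm_num
    · rw [if_neg b3, if_neg (show ¬ (r = p ∧ s = q) by omega),
        if_neg (show ¬ (r = N - q ∧ s = N - p) by omega),
        if_neg (show ¬ (r = N - p ∧ s = N - q) by omega)]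
      by_cases b4 : (p : ℤ) + q - r - s = 0
      · rw [if_pos b4, if_pos (show (r = q ∧ s = p) by omega)]
        norm_num
      · rw [if_neg b4, if_neg (show ¬ (r = q ∧ s = p) by omega)]
        norm_num
  · by_cases a2 : (p : ℤ) - q - r + s = 0
    · rw [if_neg a1, if_pos a2,
        if_neg (show ¬ (p : ℤ) - q + r + s = 2 * N by omega),
        if_neg (show ¬ (p : ℤ) - q - r - s = 0 by omega),
        if_neg (show ¬ (p : ℤ) + q + r - s = 0 by omega),
        if_neg (show ¬ (p : ℤ) + q - r + s = 0 by omega)]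
      by_cases b3 : (p : ℤ) + q + r + s = 2 * N
      · rw [if_pos b3, if_neg (show ¬ (p : ℤ) + q - r - s = 0 by omega),
          if_neg (show ¬ (r = p ∧ s = q) by omega), if_neg (show ¬ (r = q ∧ s = p) by omega),
          if_pos (show (r = N - q ∧ s = N - p) by omega),
          if_neg (show ¬ (r = N - p ∧ s = N - q) by omega)]
        norm_num
      · rw [if_neg b3, if_neg (show ¬ (r = q ∧ s = p) by omega),
          if_neg (show ¬ (r = N - q ∧ s = N - p) by omega),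
          if_neg (show ¬ (r = N - p ∧ s = N - q) by omega)]
        by_cases b4 : (p : ℤ) + q - r - s = 0
        · rw [if_pos b4, if_pos (show (r = p ∧ s = q) by omega)]
          norm_num
        · rw [if_neg b4, if_neg (show ¬ (r = p ∧ s = q) by omega)]
          norm_num
    · rw [if_neg a1, if_neg a2, if_neg (show ¬ (r = p ∧ s = q) by omega),
        if_neg (show ¬ (r = q ∧ s = p) by omega),
        if_neg (show ¬ (r = N - q ∧ s = N - p) by omega),
        if_neg (show ¬ (r = N - p ∧ s = N - q) by omega)]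
      by_cases a3 : (p : ℤ) - q + r + s = 2 * N
      · rw [if_neg (show ¬ (p : ℤ) + q + r - s = 0 by omega),
          if_neg (show ¬ (p : ℤ) + q - r + s = 0 by omega),
          if_neg (show ¬ (p : ℤ) + q + r + s = 2 * N by omega),
          if_neg (show ¬ (p : ℤ) + q - r - s = 0 by omega)]
        norm_num
      · by_cases a4 : (p : ℤ) - q - r - s = 0
        · rw [if_neg (show ¬ (p : ℤ) + q + r - s = 0 by omega),
            if_neg (show ¬ (p : ℤ) + q - r + s = 0 by omega),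
            if_neg (show ¬ (p : ℤ) + q + r + s = 2 * N by omega),
            if_neg (show ¬ (p : ℤ) + q - r - s = 0 by omega)]
          norm_num
        · rw [if_neg a3, if_neg a4]
          norm_num

/-- cosine -/
noncomputable def C (n : ℕ) (k : ℤ) (a : ℕ) : ℝ := Real.cos (k * (Real.pi / (n + 1 : ℕ)) * a)

lemma sumCS (n : ℕ) (k : ℤ) (r s : ℕ) :
    ∑ a : Fin n, C n k (a.1 + 1) * (S n r (a.1 + 1) * S n s (a.1 + 1)) =
      ((n + 1 : ℕ) : ℝ) / 4 * D (n + 1 : ℕ) k r s := by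
  rw [Fin.sum_univ_eq_sum_range (fun a => C n k (a + 1) * (S n r (a + 1) * S n s (a + 1))) n,
    sum_shift n (fun a => C n k a * (S n r a * S n s a)) (by simp [S_zero])]
  have h := sumT (n + 1) (Nat.succ_pos n) k r s
  unfold D
  rw [← h]
  refine Finset.sum_congr rfl fun a _ => ?_
  unfold C S
  push_cast
  ring

lemma sumC (n : ℕ) (k : ℤ) (hk : 0 < k) (hk' : k < 2 * (n + 1)) :
    ∑ a : Fin n, C n k (a.1 + 1) = -(1 + Real.cos (Real.pi * k)) / 2 := by
  rw [Fin.sum_univ_eq_sum_range (fun a => C n k (a + 1)) n]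
  have h := sumcos (n + 1) (Nat.succ_pos n) k
  rw [if_neg (by
    intro hd
    have := Int.le_of_dvd hk hd
    push_cast at this
    omega), Finset.sum_range_succ'] at h
  have h2 : ∑ a ∈ range n, C n k (a + 1) =
      ∑ a ∈ range n, Real.cos (k * (Real.pi / (n + 1 : ℕ)) * ((a + 1 : ℕ) : ℝ)) := rfl
  rw [h2]
  simp only [Nat.cast_zero, mul_zero, Real.cos_zero] at h
  linarith

lemma sum_ind (n P Q : ℕ) (hP : 1 ≤ P) (hP' : P ≤ n) (hQ : 1 ≤ Q) (hQ' : Q ≤ n)
    (g : ℕ → ℕ → ℝ) :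
    ∑ r ∈ range n, ∑ s ∈ range n, g (r + 1) (s + 1) *
      (if r + 1 = P ∧ s + 1 = Q then (1 : ℝ) else 0) = g P Q := by
  rw [Finset.sum_eq_single (P - 1)]
  · rw [Finset.sum_eq_single (Q - 1)]
    · rw [Nat.sub_add_cancel hP, Nat.sub_add_cancel hQ, if_pos ⟨rfl, rfl⟩, mul_one]
    · intro s _ hs
      rw [if_neg (by omega), mul_zero]
    · intro h
      rw [Finset.mem_range] at h
      omega
  · intro r _ hr
    apply Finset.sum_eq_zero
    intro s _
    rw [if_neg (by omega), mul_zero]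
  · intro h
    rw [Finset.mem_range] at h
    omega

lemma θ_refl (n p : ℕ) (hp : p ≤ n) : θ n (n + 1 - p) = - θ n p := by
  unfold θ
  have hN : ((n + 1 : ℕ) : ℝ) ≠ 0 := by positivity
  rw [Nat.cast_sub (by omega)]
  have : (((n + 1 : ℕ) : ℝ) - p) * (Real.pi / ((n + 1 : ℕ) : ℝ)) =
      Real.pi - p * (Real.pi / ((n + 1 : ℕ) : ℝ)) := by
    field_simp
  rw [this, Real.cos_pi_sub]
  ring

/-- The key identity. -/
lemma star (n p q : ℕ) (hq : 1 ≤ q) (hpq : q < p) (hN : p + q < n + 1) (t : ℝ) :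
    ∑ a : Fin n, ∑ b : Fin n, C n ((p : ℤ) - q) (a.1 + 1) * C n ((p : ℤ) + q) (b.1 + 1) *
      ‖U n t a b‖ ^ 2 = - Real.cos (t * (θ n p - θ n q)) := by
  have hN0 : ((n + 1 : ℕ) : ℝ) ≠ 0 := by positivity
  have h1 : ∀ a b : Fin n, ‖U n t a b‖ ^ 2 = ∑ r ∈ range n, ∑ s ∈ range n,
      ((2 / ((n + 1 : ℕ) : ℝ)) ^ 2 * Real.cos (t * (θ n (r + 1) - θ n (s + 1)))) *
        (S n (r + 1) (a.1 + 1) * S n (s + 1) (a.1 + 1)) *
        (S n (r + 1) (b.1 + 1) * S n (s + 1) (b.1 + 1)) := by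
    intro a b
    rw [U_normsq]
    refine Finset.sum_congr rfl fun r _ => Finset.sum_congr rfl fun s _ => ?_
    ring
  simp_rw [h1]
  rw [swap4 Finset.univ (range n) (fun a : Fin n => C n ((p : ℤ) - q) (a.1 + 1))
    (fun b : Fin n => C n ((p : ℤ) + q) (b.1 + 1))
    (fun r s => (2 / ((n + 1 : ℕ) : ℝ)) ^ 2 * Real.cos (t * (θ n (r + 1) - θ n (s + 1))))
    (fun (a : Fin n) r s => S n (r + 1) (a.1 + 1) * S n (s + 1) (a.1 + 1))]
  simp_rw [sumCS]
  set g : ℕ → ℕ → ℝ := fun r s => Real.cos (t * (θ n r - θ n s)) with hg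
  have h2 : ∀ r ∈ range n, ∀ s ∈ range n,
      (2 / ((n + 1 : ℕ) : ℝ)) ^ 2 * Real.cos (t * (θ n (r + 1) - θ n (s + 1))) *
        (((n + 1 : ℕ) : ℝ) / 4 * D (n + 1 : ℕ) ((p : ℤ) - q) (r + 1 : ℕ) (s + 1 : ℕ)) *
        (((n + 1 : ℕ) : ℝ) / 4 * D (n + 1 : ℕ) ((p : ℤ) + q) (r + 1 : ℕ) (s + 1 : ℕ)) =
      -(1 / 4) * (g (r + 1) (s + 1) * (if r + 1 = p ∧ s + 1 = q then (1 : ℝ) else 0) +
        g (r + 1) (s + 1) * (if r + 1 = q ∧ s + 1 = p then (1 : ℝ) else 0) +
        g (r + 1) (s + 1) * (if r + 1 = n + 1 - q ∧ s + 1 = n + 1 - p then (1 : ℝ) else 0) +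
        g (r + 1) (s + 1) * (if r + 1 = n + 1 - p ∧ s + 1 = n + 1 - q then (1 : ℝ) else 0)) := by
    intro r hr s hs
    rw [Finset.mem_range] at hr hs
    have h3 := prodD (n + 1) p q (r + 1) (s + 1) hq hpq hN (by omega) (by omega) (by omega)
      (by omega)
    have h4 : (2 / ((n + 1 : ℕ) : ℝ)) ^ 2 * Real.cos (t * (θ n (r + 1) - θ n (s + 1))) *
        (((n + 1 : ℕ) : ℝ) / 4 * D (n + 1 : ℕ) ((p : ℤ) - q) (r + 1 : ℕ) (s + 1 : ℕ)) *
        (((n + 1 : ℕ) : ℝ) / 4 * D (n + 1 : ℕ) ((p : ℤ) + q) (r + 1 : ℕ) (s + 1 : ℕ)) =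
        (1 / 4) * g (r + 1) (s + 1) * (D (n + 1 : ℕ) ((p : ℤ) - q) (r + 1 : ℕ) (s + 1 : ℕ) *
          D (n + 1 : ℕ) ((p : ℤ) + q) (r + 1 : ℕ) (s + 1 : ℕ)) := by
      rw [hg]
      field_simp
      ring
    rw [h4, h3]
    ring
  rw [Finset.sum_congr rfl (fun r hr => Finset.sum_congr rfl (h2 r hr))]
  simp_rw [← Finset.mul_sum, Finset.sum_add_distrib]
  rw [sum_ind n p q (by omega) (by omega) (by omega) (by omega),
    sum_ind n q p (by omega) (by omega) (by omega) (by omega),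
    sum_ind n (n + 1 - q) (n + 1 - p) (by omega) (by omega) (by omega) (by omega),
    sum_ind n (n + 1 - p) (n + 1 - q) (by omega) (by omega) (by omega) (by omega)]
  rw [hg]
  simp only
  rw [θ_refl n p (by omega), θ_refl n q (by omega)]
  have e1 : Real.cos (t * (θ n q - θ n p)) = Real.cos (t * (θ n p - θ n q)) := by
    rw [← Real.cos_neg]
    congr 1
    ring
  have e2 : Real.cos (t * (-θ n q - -θ n p)) = Real.cos (t * (θ n p - θ n q)) := by
    congr 1
    ring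
  have e3 : Real.cos (t * (-θ n p - -θ n q)) = Real.cos (t * (θ n p - θ n q)) := by
    rw [← Real.cos_neg]
    congr 1
    ring
  rw [e1, e2, e3]
  ring

end Pool.Agent.V11117.PathMix
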