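import Mathlib

namespace Pool.Agent.V11117.Thr

open Finset Matrix Polynomial

/-- real adjacency function of the threshold graph with bits `b` -/
def adjF (b : ℕ → Bool) (i j : ℕ) : ℝ := if i ≠ j ∧ b (max i j) = true then 1 else 0

/-- real bit -/
def bit (b : ℕ → Bool) (n : ℕ) : ℝ := if b n = true then 1 else 0

/-- Laplacian of the threshold graph on `n` vertices with bits `b` -/
def lapF (b : ℕ → Bool) (n : ℕ) : Matrix (Fin n) (Fin n) ℝ :=
  Matrix.of fun i j => (if i = j then ∑ k : Fin n, adjF b i k else 0) - adjF b i j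

/-- nontrivial spectrum of the threshold graph on `n + 1` vertices -/
noncomputable def spec0 (b : ℕ → Bool) : ℕ → Multiset ℝ
  | 0 => 0
  | n + 1 => if b (n + 1) = true then ((n : ℝ) + 2) ::ₘ (spec0 b n).map (fun x => x + 1)
      else 0 ::ₘ spec0 b n

lemma adjF_symm (b : ℕ → Bool) (i j : ℕ) : adjF b i j = adjF b j i := by
  unfold adjF
  rw [max_comm]
  simp only [ne_comm]

lemma adjF_last (b : ℕ → Bool) (n i : ℕ) (h : i < n) : adjF b i n = bit b n := by
  unfold adjF bit
  rw [max_eq_right h.le]
  simp [h.ne]

lemma rowsum (b : ℕ → Bool) (n : ℕ) (i : Fin n) : ∑ j, lapF b n i j = 0 := by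
  unfold lapF
  simp only [Matrix.of_apply, Finset.sum_sub_distrib]
  rw [Finset.sum_ite_eq]
  simp

lemma mulVec_one (b : ℕ → Bool) (n : ℕ) : lapF b n *ᵥ (fun _ => 1) = 0 := by
  funext i
  simp only [Matrix.mulVec, dotProduct, mul_one, Pi.zero_apply]
  exact rowsum b n i

lemma block (b : ℕ → Bool) (n : ℕ) :
    (lapF b (n + 1)).submatrix (finSumFinEquiv (m := n) (n := 1)) finSumFinEquiv =
      fromBlocks (lapF b n + (bit b n) • 1) (Matrix.of fun _ _ => - bit b n)
        (Matrix.of fun _ _ => - bit b n) (Matrix.of fun _ _ => (n : ℝ) * bit b n) := by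
  ext i j
  rcases i with i | i <;> rcases j with j | j
  · simp only [Matrix.submatrix_apply, finSumFinEquiv_apply_left, fromBlocks_apply₁₁, lapF,
      Matrix.of_apply, Matrix.add_apply, Matrix.smul_apply, Matrix.one_apply, Fin.val_castAdd,
      Fin.castAdd_inj, smul_eq_mul, mul_ite, mul_one, mul_zero]
    rw [Fin.sum_univ_castSucc]
    simp only [Fin.val_castSucc, Fin.val_last]
    rw [adjF_last b n i i.2]
    by_cases h : i = j
    · simp [h]
      ring
    · simp [h]
  · have hj : (Fin.natAdd n j : Fin (n + 1)) = Fin.last n := by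
      ext; simp
    simp only [Matrix.submatrix_apply, finSumFinEquiv_apply_left, finSumFinEquiv_apply_right,
      fromBlocks_apply₁₂, lapF, Matrix.of_apply, hj]
    have hne : (Fin.castAdd 1 i : Fin (n + 1)) ≠ Fin.last n := by
      intro h
      have := congrArg Fin.val h
      simp at this
      omega
    rw [if_neg hne]
    simp only [Fin.val_castAdd, Fin.val_last]
    rw [adjF_last b n i i.2]
    ring
  · have hj : (Fin.natAdd n i : Fin (n + 1)) = Fin.last n := by
      ext; simp
    simp only [Matrix.submatrix_apply, finSumFinEquiv_apply_left, finSumFinEquiv_apply_right,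
      fromBlocks_apply₂₁, lapF, Matrix.of_apply, hj]
    have hne : Fin.last n ≠ (Fin.castAdd 1 j : Fin (n + 1)) := by
      intro h
      have := congrArg Fin.val h
      simp at this
      omega
    rw [if_neg hne]
    simp only [Fin.val_castAdd, Fin.val_last]
    rw [adjF_symm, adjF_last b n j j.2]
    ring
  · have hj : ∀ j : Fin 1, (Fin.natAdd n j : Fin (n + 1)) = Fin.last n := by
      intro j; ext; simp
    simp only [Matrix.submatrix_apply, finSumFinEquiv_apply_right,
      fromBlocks_apply₂₂, lapF, Matrix.of_apply, hj, if_true]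
    rw [Fin.sum_univ_castSucc]
    simp only [Fin.val_castSucc, Fin.val_last]
    have : ∀ x : Fin n, adjF b n x = bit b n := fun x => by
      rw [adjF_symm, adjF_last b n x x.2]
    simp only [this]
    simp

lemma cp_block (b : ℕ → Bool) (n : ℕ) : (lapF b (n + 1)).charpoly =
    (fromBlocks (lapF b n + (bit b n) • 1) (Matrix.of fun _ _ => - bit b n)
        (Matrix.of fun _ _ => - bit b n) (Matrix.of fun _ _ => (n : ℝ) * bit b n) :
        Matrix (Fin n ⊕ Fin 1) (Fin n ⊕ Fin 1) ℝ).charpoly := by
  rw [← block]
  exact (Matrix.charpoly_reindex finSumFinEquiv.symm (lapF b (n + 1))).symm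

lemma cp_false (b : ℕ → Bool) (n : ℕ) (h : b n = false) :
    (lapF b (n + 1)).charpoly = X * (lapF b n).charpoly := by
  rw [cp_block]
  have hb : bit b n = 0 := by simp [bit, h]
  rw [hb]
  apply Polynomial.funext
  intro x
  rw [Matrix.eval_charpoly, Polynomial.eval_mul, Polynomial.eval_X, Matrix.eval_charpoly]
  have : (scalar (Fin n ⊕ Fin 1) x - fromBlocks (lapF b n + (0 : ℝ) • 1) (Matrix.of fun _ _ => - 0)
        (Matrix.of fun _ _ => - 0) (Matrix.of fun _ _ => (n : ℝ) * 0)) =
      fromBlocks (scalar (Fin n) x - lapF b n) 0 0 (Matrix.of fun _ _ => x) := by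
    ext i j
    rcases i with i | i <;> rcases j with j | j
    · simp [Matrix.diagonal_apply]
    · simp [Matrix.diagonal_apply]
    · simp [Matrix.diagonal_apply]
    · have : i = j := Subsingleton.elim _ _
      simp [Matrix.diagonal_apply, this]
  rw [this, Matrix.det_fromBlocks_zero₂₁]
  simp
  ring

lemma cp_true (b : ℕ → Bool) (n : ℕ) (h : b n = true) :
    (X - C 1) * (lapF b (n + 1)).charpoly =
      X * (X - C ((n : ℝ) + 1)) * ((lapF b n).charpoly).comp (X - C 1) := by
  rw [cp_block]
  have hb : bit b n = 1 := by simp [bit, h]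
  rw [hb]
  apply Polynomial.eq_of_infinite_eval_eq
  have hfin : ({x : ℝ | x = 1 ∨ (lapF b n).charpoly.eval (x - 1) = 0}).Finite := by
    have h1 : ({x : ℝ | (lapF b n).charpoly.IsRoot x}).Finite :=
      Polynomial.finite_setOf_isRoot (Matrix.charpoly_monic _).ne_zero
    have h2 := h1.image (fun x => x + 1)
    refine ((Set.finite_singleton (1 : ℝ)).union h2).subset ?_
    rintro x (hx | hx)
    · left; exact hx
    · right
      exact ⟨x - 1, hx, by ring⟩
  refine (hfin.infinite_compl).mono ?_
  intro x hx
  simp only [Set.mem_compl_iff, Set.mem_setOf_eq, not_or] at hx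
  obtain ⟨hx1, hx2⟩ := hx
  simp only [Set.mem_setOf_eq, Polynomial.eval_mul, Polynomial.eval_sub, Polynomial.eval_X,
    Polynomial.eval_C, Polynomial.eval_comp]
  rw [Matrix.eval_charpoly] at hx2 ⊢
  rw [Matrix.eval_charpoly]
  set A : Matrix (Fin n) (Fin n) ℝ := scalar (Fin n) (x - 1) - lapF b n with hA
  have e : (scalar (Fin n ⊕ Fin 1) x - fromBlocks (lapF b n + (1 : ℝ) • 1)
      (Matrix.of fun _ _ => - 1) (Matrix.of fun _ _ => - 1) (Matrix.of fun _ _ => (n : ℝ) * 1)) =
      fromBlocks A (Matrix.of fun _ _ => 1) (Matrix.of fun _ _ => 1)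
        (Matrix.of fun _ _ => x - n) := by
    ext i j
    rcases i with i | i <;> rcases j with j | j
    · by_cases hij : i = j
      · simp [hA, Matrix.diagonal_apply, hij]
        ring
      · simp [hA, Matrix.diagonal_apply, hij]
    · simp [Matrix.diagonal_apply]
    · simp [Matrix.diagonal_apply]
    · have : i = j := Subsingleton.elim _ _
      simp [Matrix.diagonal_apply, this]
  rw [e]
  have hu : IsUnit A.det := isUnit_iff_ne_zero.mpr hx2
  haveI : Invertible A := Matrix.invertibleOfIsUnitDet A hu
  rw [Matrix.det_fromBlocks₁₁]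
  have hA1 : A *ᵥ (fun _ => (1 : ℝ)) = fun _ => (x - 1) := by
    rw [hA, Matrix.sub_mulVec, mulVec_one]
    funext i
    simp [Matrix.mulVec_diagonal]
  have hinv : (⅟A) *ᵥ (fun _ => (1 : ℝ)) = fun _ => (x - 1)⁻¹ := by
    have h1 : (⅟A) *ᵥ (A *ᵥ (fun _ => (1 : ℝ))) = fun _ => 1 := by
      rw [Matrix.mulVec_mulVec, invOf_mul_self, Matrix.one_mulVec]
    rw [hA1] at h1
    have h2 : (fun _ => (x - 1) : Fin n → ℝ) = (x - 1) • (fun _ => (1 : ℝ)) := by
      funext i; simp
    rw [h2, Matrix.mulVec_smul] at h1
    have h3 : (x - 1)⁻¹ • ((x - 1) • ((⅟A) *ᵥ (fun _ => (1 : ℝ)))) = (x - 1)⁻¹ • (fun _ => 1) := by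
      rw [h1]
    rw [smul_smul, inv_mul_cancel₀ (sub_ne_zero.mpr hx1), one_smul] at h3
    rw [h3]
    funext i; simp
  have hD : ((Matrix.of fun _ _ => x - n : Matrix (Fin 1) (Fin 1) ℝ) -
      (Matrix.of fun _ _ => 1 : Matrix (Fin 1) (Fin n) ℝ) * ⅟A *
        (Matrix.of fun _ _ => 1 : Matrix (Fin n) (Fin 1) ℝ)).det =
      x - n - n * (x - 1)⁻¹ := by
    rw [Matrix.det_fin_one, Matrix.sub_apply, Matrix.mul_assoc, Matrix.mul_apply]
    have h4 : ∀ j : Fin n, ((⅟A) * (Matrix.of fun _ _ => 1 : Matrix (Fin n) (Fin 1) ℝ)) j 0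
        = (x - 1)⁻¹ := by
      intro j
      have := congrFun hinv j
      rw [Matrix.mul_apply]
      simp only [Matrix.mulVec, dotProduct] at this
      simpa using this
    simp only [Matrix.of_apply, h4]
    simp
  rw [hD]
  have hx1' : x - 1 ≠ 0 := sub_ne_zero.mpr hx1
  field_simp
  ring

lemma charpoly_spec (b : ℕ → Bool) : ∀ n : ℕ, (lapF b (n + 1)).charpoly =
    X * ((spec0 b n).map (fun a => X - C a)).prod := by
  intro n
  induction n with
  | zero =>
    simp only [spec0, Multiset.map_zero, Multiset.prod_zero, mul_one]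
    have : lapF b (0 + 1) = 0 := by
      ext i j
      have hi : i = j := by
        apply Fin.ext
        have := i.2
        have := j.2
        omega
      subst hi
      have h0 : ∀ k : Fin (0 + 1), adjF b i k = 0 := by
        intro k
        have h1 : (i : ℕ) = k := by
          have := i.2
          have := k.2
          omega
        simp [adjF, h1]
      simp [lapF, h0]
    rw [this]
    simp
  | succ n ih =>
    by_cases h : b (n + 1) = true
    · have h1 := cp_true b (n + 1) h
      rw [ih] at h1
      have hne : (X - C (1 : ℝ)) ≠ 0 := Polynomial.X_sub_C_ne_zero 1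
      apply mul_left_cancel₀ hne
      rw [h1]
      simp only [spec0, h, if_true, Multiset.map_cons, Multiset.prod_cons, Multiset.map_map,
        Polynomial.mul_comp, Polynomial.X_comp]
      have h2 : (((spec0 b n).map (fun a => X - C a)).prod).comp (X - C 1) =
          ((spec0 b n).map (fun a => X - C (a + 1))).prod := by
        rw [Polynomial.multiset_prod_comp]
        rw [Multiset.map_map]
        congr 1
        apply Multiset.map_congr rfl
        intro a _
        simp only [Function.comp, Polynomial.sub_comp, Polynomial.X_comp, Polynomial.C_comp,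
          Polynomial.C_add]
        ring
      rw [h2]
      simp only [Function.comp_def]
      push_cast
      have h3 : (C ((n : ℝ) + 1 + 1) : ℝ[X]) = C ((n : ℝ) + 2) := by norm_num [add_assoc]
      rw [h3]
      ring
    · have h' : b (n + 1) = false := by simpa using h
      rw [cp_false b (n + 1) h', ih]
      simp only [spec0, h', Bool.false_eq_true, if_false, Multiset.map_cons, Multiset.prod_cons]
      simp

/-- number of edges of the threshold graph on `n + 1` vertices -/
def mm (b : ℕ → Bool) : ℕ → ℕ
  | 0 => 0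
  | n + 1 => mm b n + if b (n + 1) = true then n + 1 else 0

lemma card_spec0 (b : ℕ → Bool) : ∀ n, Multiset.card (spec0 b n) = n := by
  intro n
  induction n with
  | zero => simp [spec0]
  | succ n ih =>
    by_cases h : b (n + 1) = true
    · simp [spec0, h, ih]
    · simp [spec0, h, ih]

lemma sum_map_add (S : Multiset ℝ) : (S.map (fun x => x + 1)).sum = S.sum + Multiset.card S := by
  induction S using Multiset.induction with
  | empty => simp
  | cons a s ih =>
    simp only [Multiset.map_cons, Multiset.sum_cons, Multiset.card_cons, ih]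
    push_cast
    ring

lemma sum_spec0 (b : ℕ → Bool) : ∀ n, (spec0 b n).sum = 2 * (mm b n : ℝ) := by
  intro n
  induction n with
  | zero => simp [spec0, mm]
  | succ n ih =>
    by_cases h : b (n + 1) = true
    · simp only [spec0, mm, h, if_true, Multiset.sum_cons, sum_map_add, ih, card_spec0]
      push_cast
      ring
    · simp only [spec0, mm, h]
      simp [ih]

lemma nonneg_spec0 (b : ℕ → Bool) : ∀ n, ∀ x ∈ spec0 b n, 0 ≤ x := by
  intro n
  induction n with
  | zero => simp [spec0]
  | succ n ih =>
    intro x hx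
    by_cases h : b (n + 1) = true
    · simp only [spec0, h, if_true, Multiset.mem_cons, Multiset.mem_map] at hx
      rcases hx with rfl | ⟨y, hy, rfl⟩
      · positivity
      · have := ih y hy
        linarith
    · simp only [spec0, h] at hx
      simp only [Bool.false_eq_true, if_false, Multiset.mem_cons] at hx
      rcases hx with rfl | hx
      · exact le_rfl
      · exact ih x hx

lemma one_le_spec0 (b : ℕ → Bool) (n : ℕ) (h : b (n + 1) = true) :
    ∀ x ∈ spec0 b (n + 1), 1 ≤ x := by
  intro x hx
  simp only [spec0, h, if_true, Multiset.mem_cons, Multiset.mem_map] at hx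
  rcases hx with rfl | ⟨y, hy, rfl⟩
  · have : (0 : ℝ) ≤ n := Nat.cast_nonneg n
    linarith
  · have := nonneg_spec0 b n y hy
    linarith

lemma sub_of_le_map {S T : Multiset ℝ} (h : T ≤ S.map (fun x => x + 1)) :
    ∃ U ≤ S, T = U.map (fun x => x + 1) := by
  refine ⟨T.map (fun x => x - 1), ?_, ?_⟩
  · have := Multiset.map_le_map (f := fun x : ℝ => x - 1) h
    rw [Multiset.map_map] at this
    simpa [Function.comp_def] using this
  · rw [Multiset.map_map]
    simp [Function.comp_def]

lemma brouwer (b : ℕ → Bool) : ∀ n, ∀ T ≤ spec0 b n,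
    T.sum ≤ (mm b n : ℝ) + (Multiset.card T : ℝ) * ((Multiset.card T : ℝ) + 1) / 2 := by
  intro n
  induction n with
  | zero =>
    intro T hT
    have : T = 0 := by simpa [spec0] using hT
    subst this
    simp [mm]
  | succ n ih =>
    intro T hT
    by_cases h : b (n + 1) = true
    · simp only [spec0, h, if_true] at hT
      have hmm : (mm b (n + 1) : ℝ) = mm b n + ((n : ℝ) + 1) := by
        simp only [mm, h, if_true]
        push_cast
        ring
      rw [hmm]
      by_cases hm : ((n : ℝ) + 2) ∈ T
      · have h1 := Multiset.erase_le_iff_le_cons.mpr hT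
        obtain ⟨U, hU, hTU⟩ := sub_of_le_map h1
        have h2 := ih U hU
        have h3 : T = ((n : ℝ) + 2) ::ₘ U.map (fun x => x + 1) := by
          rw [← hTU, Multiset.cons_erase hm]
        have h4 : T.sum = (n : ℝ) + 2 + (U.sum + Multiset.card U) := by
          rw [h3, Multiset.sum_cons, sum_map_add]
        have h5 : (Multiset.card T : ℝ) = Multiset.card U + 1 := by
          rw [h3, Multiset.card_cons, Multiset.card_map]
          push_cast
          ring
        rw [h4, h5]
        nlinarith
      · have h1 := Multiset.erase_le_iff_le_cons.mpr hT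
        rw [Multiset.erase_of_notMem hm] at h1
        obtain ⟨U, hU, hTU⟩ := sub_of_le_map h1
        have h2 := ih U hU
        have h4 : T.sum = (U.sum + Multiset.card U) := by
          rw [hTU, sum_map_add]
        have h5 : (Multiset.card T : ℝ) = Multiset.card U := by
          rw [hTU, Multiset.card_map]
        have h6 : (Multiset.card U : ℝ) ≤ n := by
          have := Multiset.card_le_card hU
          rw [card_spec0] at this
          exact_mod_cast this
        rw [h4, h5]
        linarith
    · have h' : b (n + 1) = false := by simpa using h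
      simp only [spec0, h', Bool.false_eq_true, if_false] at hT
      have hmm : (mm b (n + 1) : ℝ) = mm b n := by
        simp [mm, h']
      rw [hmm]
      by_cases hm : (0 : ℝ) ∈ T
      · have h1 := Multiset.erase_le_iff_le_cons.mpr hT
        have h2 := ih _ h1
        have h3 : T = (0 : ℝ) ::ₘ T.erase 0 := (Multiset.cons_erase hm).symm
        have h4 : T.sum = (T.erase 0).sum := by
          conv_lhs => rw [h3]
          simp
        have h5 : (Multiset.card T : ℝ) = Multiset.card (T.erase 0) + 1 := by
          conv_lhs => rw [h3]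
          simp
        rw [h4, h5]
        have : (0 : ℝ) ≤ Multiset.card (T.erase 0) := Nat.cast_nonneg _
        nlinarith
      · have h1 := Multiset.erase_le_iff_le_cons.mpr hT
        rw [Multiset.erase_of_notMem hm] at h1
        exact ih _ h1

end Pool.Agent.V11117.Thr
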