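import Mathlib

/-!
Continuous-time quantum walks: transition matrix and spectral idempotents.
-/

namespace Pool.Agent.V11117.FRDef

open Matrix Finset

variable {V : Type} [Fintype V] [DecidableEq V]

/-- The transition matrix `U(t) = exp(itA)` of the continuous-time quantum walk. -/
noncomputable def walk (X : SimpleGraph V) [DecidableRel X.Adj] (t : ℝ) : Matrix V V ℂ :=
  NormedSpace.exp (((t : ℂ) * Complex.I) • X.adjMatrix ℂ)

/-- The orthogonal projection `E_θ` onto the `θ`-eigenspace of the adjacency matrix. -/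
noncomputable def proj (X : SimpleGraph V) [DecidableRel X.Adj] (θ : ℝ) :
    EuclideanSpace ℝ V →L[ℝ] EuclideanSpace ℝ V :=
  (Module.End.eigenspace (Matrix.toEuclideanLin (X.adjMatrix ℝ)) θ).starProjection

variable {X : SimpleGraph V} [DecidableRel X.Adj]

lemma symm : (Matrix.toEuclideanLin (X.adjMatrix ℝ)).IsSymmetric := by
  rw [Matrix.isSymmetric_toEuclideanLin_iff, Matrix.IsHermitian,
    Matrix.conjTranspose_eq_transpose_of_trivial, SimpleGraph.transpose_adjMatrix]

lemma mem_eig {θ : ℝ} {y : V → ℝ} (h : X.adjMatrix ℝ *ᵥ y = θ • y) :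
    WithLp.toLp 2 y ∈ Module.End.eigenspace (Matrix.toEuclideanLin (X.adjMatrix ℝ)) θ := by
  rw [Module.End.mem_eigenspace_iff, Matrix.toEuclideanLin_toLp, Matrix.toLin'_apply, h]
  rfl

lemma proj_same {θ : ℝ} {y : V → ℝ} (h : X.adjMatrix ℝ *ᵥ y = θ • y) :
    proj X θ (WithLp.toLp 2 y) = WithLp.toLp 2 y := by
  rw [proj, Submodule.starProjection_eq_self_iff]
  exact mem_eig h

lemma proj_diff {θ θ' : ℝ} {y : V → ℝ} (h : X.adjMatrix ℝ *ᵥ y = θ' • y) (hne : θ' ≠ θ) :
    proj X θ (WithLp.toLp 2 y) = 0 := by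
  rw [proj, Submodule.starProjection_apply_eq_zero_iff, Submodule.mem_orthogonal]
  intro u hu
  have h2 := (symm (X := X)).orthogonalFamily_eigenspaces (i := θ) (j := θ') (Ne.symm hne)
    ⟨u, hu⟩ ⟨_, mem_eig h⟩
  exact h2

end Pool.Agent.V11117.FRDef
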