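import Mathlib
import Pool.Agent.V11117.Spec
import Pool.Agent.V11117.MExp2
import Pool.Agent.V11117.FRDef

/-!
Fractional revival and cospectrality, towards trees.
-/

namespace Pool.Agent.V11117.FRTree

open Matrix Finset Pool.Agent.V11117 Pool.Agent.V11117.FRDef

variable {V : Type} [Fintype V] [DecidableEq V] {X : SimpleGraph V} [DecidableRel X.Adj]

/-- an orthonormal eigenbasis (columns of `U`) with eigenvalues `l` -/
structure Eig (X : SimpleGraph V) [DecidableRel X.Adj] (U : Matrix V V ℝ) (l : V → ℝ) : Prop where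
  orth : U * Uᵀ = 1
  orth' : Uᵀ * U = 1
  eq : X.adjMatrix ℝ = U * diagonal l * Uᵀ

lemma exists_eig : ∃ (U : Matrix V V ℝ) (l : V → ℝ), Eig X U l := by
  have hA : (X.adjMatrix ℝ).IsHermitian := by
    rw [Matrix.IsHermitian, Matrix.conjTranspose_eq_transpose_of_trivial,
      SimpleGraph.transpose_adjMatrix]
  obtain ⟨U, h1, h2, h3⟩ := Spec.spec hA
  exact ⟨U, hA.eigenvalues, h2, h1, h3⟩

variable {U : Matrix V V ℝ} {l : V → ℝ}

lemma row_orth (h : Eig X U l) (u v : V) : ∑ r, U u r * U v r = if u = v then 1 else 0 := by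
  have := congrFun (congrFun h.orth u) v
  rw [Matrix.mul_apply, Matrix.one_apply] at this
  simpa [Matrix.transpose_apply] using this

lemma pow_entry (h : Eig X U l) (k : ℕ) (u v : V) :
    (X.adjMatrix ℝ ^ k) u v = ∑ r, l r ^ k * (U u r * U v r) := by
  rw [h.eq, Spec.conj_pow h.orth' h.orth, Matrix.diagonal_pow, Matrix.mul_apply]
  refine Finset.sum_congr rfl fun r _ => ?_
  rw [Matrix.mul_diagonal, Matrix.transpose_apply, Pi.pow_apply]
  ring

lemma col_eig (h : Eig X U l) (r : V) :
    X.adjMatrix ℝ *ᵥ (fun v => U v r) = l r • (fun v => U v r) := by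
  have h1 : X.adjMatrix ℝ * U = U * diagonal l := by
    rw [h.eq, Matrix.mul_assoc, h.orth', Matrix.mul_one]
  funext u
  have h2 := congrFun (congrFun h1 u) r
  rw [Matrix.mul_apply, Matrix.mul_diagonal] at h2
  rw [Matrix.mulVec, dotProduct, Pi.smul_apply, smul_eq_mul, h2, mul_comm]

lemma walk_col (h : Eig X U l) (t : ℝ) (r : V) :
    walk X t *ᵥ (fun v => (U v r : ℂ)) =
      Complex.exp ((t : ℂ) * Complex.I * (l r : ℂ)) • (fun v => (U v r : ℂ)) := by
  apply MExp.exp_mulVec
  apply MExp.smul_mulVec_eig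
  funext u
  have h2 := congrFun (col_eig h r) u
  rw [Matrix.mulVec, dotProduct, Pi.smul_apply, smul_eq_mul] at h2
  rw [Matrix.mulVec, dotProduct, Pi.smul_apply, smul_eq_mul]
  have h3 : ((∑ v, X.adjMatrix ℝ u v * U v r : ℝ) : ℂ) = ((l r * U u r : ℝ) : ℂ) := by rw [h2]
  push_cast at h3
  rw [← h3]
  refine Finset.sum_congr rfl fun v _ => ?_
  rw [SimpleGraph.adjMatrix_apply, SimpleGraph.adjMatrix_apply]
  split_ifs <;> simp

lemma walk_symm (t : ℝ) (u v : V) : walk X t u v = walk X t v u := by
  have h1 : (walk X t)ᵀ = walk X t := by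
    unfold walk
    rw [← Matrix.exp_transpose, Matrix.transpose_smul, SimpleGraph.transpose_adjMatrix]
  exact congrFun (congrFun h1 v) u

/-- The revival equation on eigenvectors. -/
lemma k1 (h : Eig X U l) {t : ℝ} {a b : V} {α β : ℂ}
    (hrev : walk X t *ᵥ (Pi.single a 1) = α • Pi.single a 1 + β • Pi.single b 1) (r : V) :
    Complex.exp ((t : ℂ) * Complex.I * (l r : ℂ)) * (U a r : ℂ) = α * U a r + β * U b r := by
  have h1 := congrFun (walk_col h t r) a
  rw [Pi.smul_apply, smul_eq_mul] at h1
  rw [← h1, Matrix.mulVec, dotProduct]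
  have h2 : ∀ v, walk X t a v = α * (if v = a then 1 else 0) + β * (if v = b then 1 else 0) := by
    intro v
    rw [walk_symm]
    have h3 := congrFun hrev v
    rw [Matrix.mulVec_single_one] at h3
    rw [show walk X t v a = (walk X t).col a v from rfl, h3]
    simp [Pi.single_apply]
  simp_rw [h2, add_mul, Finset.sum_add_distrib]
  congr 1
  · simp
  · simp

lemma normSq_exp (s : ℝ) (t : ℝ) :
    Complex.normSq (Complex.exp ((t : ℂ) * Complex.I * (s : ℂ))) = 1 := by
  have : (t : ℂ) * Complex.I * (s : ℂ) = ((t * s : ℝ) : ℂ) * Complex.I := by push_cast; ring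
  rw [Complex.normSq_eq_norm_sq, this, Complex.norm_exp_ofReal_mul_I]
  norm_num

lemma normSq_comb (α β : ℂ) (x y : ℝ) : Complex.normSq (α * x + β * y) =
    Complex.normSq α * x ^ 2 + Complex.normSq β * y ^ 2 +
      2 * (α.re * β.re + α.im * β.im) * (x * y) := by
  simp only [Complex.normSq_apply, Complex.add_re, Complex.mul_re, Complex.ofReal_re,
    Complex.ofReal_im, Complex.add_im, Complex.mul_im]
  ring

/-- the norm identity -/
lemma norm_one (h : Eig X U l) {t : ℝ} {a b : V} (hab : a ≠ b) {α β : ℂ}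
    (hrev : walk X t *ᵥ (Pi.single a 1) = α • Pi.single a 1 + β • Pi.single b 1) :
    Complex.normSq α + Complex.normSq β = 1 := by
  have h1 : ∀ r, U a r ^ 2 = Complex.normSq α * U a r ^ 2 + Complex.normSq β * U b r ^ 2 +
      2 * (α.re * β.re + α.im * β.im) * (U a r * U b r) := by
    intro r
    have h2 := congrArg Complex.normSq (k1 h hrev r)
    rw [Complex.normSq_mul, normSq_exp, normSq_comb, Complex.normSq_ofReal, one_mul, ← sq] at h2
    exact h2
  have h3 : ∑ r, U a r ^ 2 = Complex.normSq α * ∑ r, U a r ^ 2 +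
      Complex.normSq β * ∑ r, U b r ^ 2 +
      2 * (α.re * β.re + α.im * β.im) * ∑ r, (U a r * U b r) := by
    rw [Finset.mul_sum, Finset.mul_sum, Finset.mul_sum, ← Finset.sum_add_distrib,
      ← Finset.sum_add_distrib]
    exact Finset.sum_congr rfl fun r _ => h1 r
  have e1 : ∑ r, U a r ^ 2 = 1 := by
    have := row_orth h a a
    rw [if_pos rfl] at this
    rw [← this]
    exact Finset.sum_congr rfl fun r _ => sq _
  have e2 : ∑ r, U b r ^ 2 = 1 := by
    have := row_orth h b b
    rw [if_pos rfl] at this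
    rw [← this]
    exact Finset.sum_congr rfl fun r _ => sq _
  have e3 : ∑ r, (U a r * U b r) = 0 := by
    have := row_orth h a b
    rwa [if_neg hab] at this
  rw [e1, e2, e3] at h3
  linarith

/-- The relation between the two vertices, with a real constant `c`. -/
lemma k2 (h : Eig X U l) {t : ℝ} {a b : V} (hab : a ≠ b) {α β : ℂ} (hβ : β ≠ 0)
    (hrev : walk X t *ᵥ (Pi.single a 1) = α • Pi.single a 1 + β • Pi.single b 1) :
    ∃ c : ℝ, ∀ r, U a r ^ 2 - U b r ^ 2 = c * (U a r * U b r) := by
  have hb : 0 < Complex.normSq β := Complex.normSq_pos.2 hβ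
  refine ⟨2 * (α.re * β.re + α.im * β.im) / Complex.normSq β, fun r => ?_⟩
  have h2 := congrArg Complex.normSq (k1 h hrev r)
  rw [Complex.normSq_mul, normSq_exp, normSq_comb, Complex.normSq_ofReal, one_mul, ← sq] at h2
  have h3 := norm_one h hab hrev
  have h4 : Complex.normSq α = 1 - Complex.normSq β := by linarith
  rw [h4] at h2
  field_simp
  linarith

/-- The relation for powers. -/
lemma k2_pow (h : Eig X U l) {a b : V} {c : ℝ}
    (hc : ∀ r, U a r ^ 2 - U b r ^ 2 = c * (U a r * U b r)) (k : ℕ) :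
    (X.adjMatrix ℝ ^ k) a a - (X.adjMatrix ℝ ^ k) b b = c * (X.adjMatrix ℝ ^ k) a b := by
  rw [pow_entry h, pow_entry h, pow_entry h, ← Finset.sum_sub_distrib, Finset.mul_sum]
  refine Finset.sum_congr rfl fun r _ => ?_
  have := hc r
  linear_combination (l r ^ k) * this

/-! ### Cospectral vertices -/

/-- the determinant of a matrix with row `a` replaced by a unit row -/
lemma adjugate_diag {R : Type} [CommRing R] (M : Matrix V V R) (a : V) :
    M.adjugate a a = (M.submatrix (fun x : {x // x ≠ a} => (x : V)) (fun x : {x // x ≠ a} => (x : V))).det := by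
  rw [Matrix.adjugate_apply]
  have h := Matrix.twoBlockTriangular_det (M.updateRow a (Pi.single a 1)) (fun x => x ≠ a) (by
    intro i hi j hj
    have hia : i = a := not_not.1 hi
    subst hia
    rw [Matrix.updateRow_self, Pi.single_apply, if_neg hj])
  rw [h]
  have h1 : (Matrix.toSquareBlockProp (M.updateRow a (Pi.single a 1)) fun x => ¬ x ≠ a).det = 1 := by
    have hu : Unique {x : V // ¬ x ≠ a} :=
      { default := ⟨a, fun h => h rfl⟩
        uniq := fun x => Subtype.ext (not_not.1 x.2) }
    rw [Matrix.det_unique]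
    have hd : ((default : {x : V // ¬ x ≠ a}) : V) = a := not_not.1 (default : {x : V // ¬ x ≠ a}).2
    rw [Matrix.toSquareBlockProp_def, Matrix.of_apply]
    rw [hd, Matrix.updateRow_self, Pi.single_apply, if_pos rfl]
  rw [h1, mul_one]
  congr 1
  ext i j
  rw [Matrix.toSquareBlockProp_def, Matrix.of_apply, Matrix.submatrix_apply,
    Matrix.updateRow_ne i.2]

/-- the characteristic polynomial of a vertex-deleted subgraph -/
noncomputable def delPoly (X : SimpleGraph V) [DecidableRel X.Adj] (a : V) : Polynomial ℝ :=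
  ((X.adjMatrix ℝ).submatrix (fun x : {x // x ≠ a} => (x : V)) (fun x : {x // x ≠ a} => (x : V))).charpoly

lemma delPoly_eval (h : Eig X U l) (a : V) (t : ℝ) (ht : ∀ r, t ≠ l r) :
    (delPoly X a).eval t = (∏ r, (t - l r)) * ∑ r, U a r ^ 2 / (t - l r) := by
  rw [delPoly, Matrix.eval_charpoly]
  have e1 : Matrix.scalar {x // x ≠ a} t -
      (X.adjMatrix ℝ).submatrix (fun x : {x // x ≠ a} => (x : V)) (fun x : {x // x ≠ a} => (x : V)) =
      (Matrix.scalar V t - X.adjMatrix ℝ).submatrix (fun x : {x // x ≠ a} => (x : V))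
        (fun x : {x // x ≠ a} => (x : V)) := by
    ext i j
    simp only [Matrix.sub_apply, Matrix.submatrix_apply, Matrix.scalar_apply,
      Matrix.diagonal_apply]
    by_cases hij : i = j
    · subst hij; simp
    · rw [if_neg hij, if_neg (fun h => hij (Subtype.ext h))]
  rw [e1, ← adjugate_diag]
  set M : Matrix V V ℝ := Matrix.scalar V t - X.adjMatrix ℝ with hM
  have hMU : M = U * diagonal (fun r => t - l r) * Uᵀ := by
    have h1 : diagonal (fun r => t - l r) = Matrix.scalar V t - diagonal l := by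
      rw [Matrix.scalar_apply, Matrix.diagonal_sub]
    rw [h1, Matrix.mul_sub, Matrix.sub_mul, ← h.eq, hM]
    congr 1
    rw [Matrix.scalar_apply, ← Matrix.smul_one_eq_diagonal, Matrix.mul_smul, Matrix.mul_one,
      Matrix.smul_mul, h.orth]
  set N : Matrix V V ℝ := U * diagonal (fun r => (t - l r)⁻¹) * Uᵀ with hN
  have hMN : M * N = 1 := by
    rw [hMU, hN]
    calc U * diagonal (fun r => t - l r) * Uᵀ * (U * diagonal (fun r => (t - l r)⁻¹) * Uᵀ) =
        U * diagonal (fun r => t - l r) * (Uᵀ * U) * diagonal (fun r => (t - l r)⁻¹) * Uᵀ := by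
          simp only [Matrix.mul_assoc]
      _ = U * (diagonal (fun r => t - l r) * diagonal (fun r => (t - l r)⁻¹)) * Uᵀ := by
          rw [h.orth', Matrix.mul_one]
          simp only [Matrix.mul_assoc]
      _ = 1 := by
          rw [Matrix.diagonal_mul_diagonal]
          have : (fun r => (t - l r) * (t - l r)⁻¹) = fun _ => (1 : ℝ) := by
            funext r
            exact mul_inv_cancel₀ (sub_ne_zero.2 (ht r))
          rw [this, Matrix.diagonal_one, Matrix.mul_one, h.orth]
  have hdet : M.det = ∏ r, (t - l r) := by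
    rw [hMU, Matrix.det_mul, Matrix.det_mul, Matrix.det_diagonal]
    have h1 : U.det * Uᵀ.det = 1 := by rw [← Matrix.det_mul, h.orth, Matrix.det_one]
    linear_combination (∏ r, (t - l r)) * h1
  have hadj : M.adjugate = M.det • N := by
    have h1 : M.adjugate * M * N = M.adjugate := by rw [Matrix.mul_assoc, hMN, Matrix.mul_one]
    rw [← h1, Matrix.adjugate_mul, Matrix.smul_mul, Matrix.one_mul]
  rw [hadj, Matrix.smul_apply, smul_eq_mul, hdet]
  congr 1
  rw [hN, Matrix.mul_apply]
  refine Finset.sum_congr rfl fun r _ => ?_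
  rw [Matrix.mul_diagonal, Matrix.transpose_apply]
  field_simp

lemma delPoly_eq (h : Eig X U l) {a b : V} (hc : ∀ r, U a r ^ 2 = U b r ^ 2) :
    delPoly X a = delPoly X b := by
  apply Polynomial.eq_of_infinite_eval_eq
  have hfin : (Set.range l).Finite := Set.finite_range l
  refine hfin.infinite_compl.mono ?_
  intro t ht
  have ht' : ∀ r, t ≠ l r := fun r hr => ht ⟨r, hr.symm⟩
  show (delPoly X a).eval t = (delPoly X b).eval t
  rw [delPoly_eval h a t ht', delPoly_eval h b t ht']
  congr 1
  exact Finset.sum_congr rfl fun r _ => by rw [hc r]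

end Pool.Agent.V11117.FRTree
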