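import Mathlib
import Pool.Agent.V11117.FRTree

/-!
Fractional revival and cospectrality in trees.
-/

namespace Pool.Agent.V11117.FRTree

open Matrix Finset Pool.Agent.V11117 Pool.Agent.V11117.FRDef

variable {V : Type} [Fintype V] [DecidableEq V] {X : SimpleGraph V} [DecidableRel X.Adj]

/-! ### walks in trees -/

lemma pow_int_cast (k : ℕ) (u v : V) :
    (X.adjMatrix ℝ ^ k) u v = (((X.adjMatrix ℤ ^ k) u v : ℤ) : ℝ) := by
  rw [SimpleGraph.adjMatrix_pow_apply_eq_card_walk, SimpleGraph.adjMatrix_pow_apply_eq_card_walk]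
  push_cast
  rfl

lemma pow_zero_of_parity (c : X.Coloring Bool) (k : ℕ) (u v : V) (h : ¬ (Even k ↔ (c u ↔ c v))) :
    (X.adjMatrix ℤ ^ k) u v = 0 := by
  rw [SimpleGraph.adjMatrix_pow_apply_eq_card_walk]
  have : IsEmpty {p : X.Walk u v | p.length = k} := by
    constructor
    rintro ⟨p, hp⟩
    apply h
    have := c.even_length_iff_congr p
    rwa [show p.length = k from hp] at this
  rw [Fintype.card_eq_zero]
  rfl

lemma exists_coloring (hX : X.IsTree) : Nonempty (X.Coloring Bool) :=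
  ⟨SimpleGraph.recolorOfEquiv X finTwoEquiv hX.coloringTwo⟩

lemma pow_dist (hX : X.IsTree) (u v : V) : (X.adjMatrix ℤ ^ (X.dist u v)) u v = 1 := by
  rw [SimpleGraph.adjMatrix_pow_apply_eq_card_walk]
  obtain ⟨p, hp⟩ := hX.connected.exists_walk_length_eq_dist u v
  have h1 : Fintype.card {p : X.Walk u v | p.length = X.dist u v} = 1 := by
    rw [Fintype.card_eq_one_iff]
    refine ⟨⟨p, hp⟩, ?_⟩
    rintro ⟨q, hq⟩
    apply Subtype.ext
    have h2 := hX.existsUnique_path u v
    exact h2.unique (q.isPath_of_length_eq_dist hq) (p.isPath_of_length_eq_dist hp)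
  rw [h1]
  rfl

/-! ### arithmetic -/

lemma int_case {c k : ℤ} (h : k * k = c * c + 4) : c = 0 := by
  by_contra hc
  have h1 : 1 ≤ |c| := Int.one_le_abs hc
  have e1 : |c| * |c| = c * c := abs_mul_abs_self c
  have e2 : |k| * |k| = k * k := abs_mul_abs_self k
  have h2 : |c| < |k| := by
    by_contra h3
    push Not at h3
    have := mul_self_le_mul_self (abs_nonneg k) h3
    omega
  rcases eq_or_lt_of_le (Int.add_one_le_iff.2 h2) with h4 | h4
  · rw [← h4] at e2
    have h5 : 2 * |c| + 1 = 4 := by nlinarith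
    omega
  · have h5 : |c| + 2 ≤ |k| := by omega
    have := mul_self_le_mul_self (by positivity) h5
    nlinarith

lemma rat_case {c : ℤ} {κ : ℚ} (h : κ ^ 2 + c * κ - 1 = 0) : c = 0 := by
  have h1 : IsSquare ((c * c + 4 : ℤ) : ℚ) := ⟨2 * κ + c, by push_cast; linarith⟩
  rw [Rat.isSquare_intCast_iff] at h1
  obtain ⟨k, hk⟩ := h1
  exact int_case hk.symm

/-! ### Hankel matrices -/

/-- If the moments `∑ w_j x_j ^ k` (with nonzero weights and distinct nodes) are all integers,
then the sum of the nodes is rational. -/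
lemma hankel {n : ℕ} (x w : Fin n → ℝ) (hx : Function.Injective x) (hw : ∀ j, w j ≠ 0)
    (f : ℕ → ℤ) (hf : ∀ k, (f k : ℝ) = ∑ j, w j * x j ^ k) :
    ∃ q : ℚ, (q : ℝ) = ∑ j, x j := by
  set W := Matrix.vandermonde x with hW
  have hdetW : W.det ≠ 0 := Matrix.det_vandermonde_ne_zero_iff.2 hx
  set H0 : Matrix (Fin n) (Fin n) ℤ := Matrix.of fun i j => f (i + j) with hH0
  set H1 : Matrix (Fin n) (Fin n) ℤ := Matrix.of fun i j => f (i + j + 1) with hH1
  set φ : ℤ →+* ℝ := Int.castRingHom ℝ with hφ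
  have e0 : H0.map φ = Wᵀ * diagonal w * W := by
    ext i j
    have hm : H0.map φ i j = ((f (i + j) : ℤ) : ℝ) := rfl
    rw [hm, hf, Matrix.mul_apply]
    refine Finset.sum_congr rfl fun k _ => ?_
    rw [Matrix.mul_diagonal, Matrix.transpose_apply, hW, Matrix.vandermonde_apply,
      Matrix.vandermonde_apply, pow_add]
    ring
  have e1 : H1.map φ = Wᵀ * diagonal w * (diagonal x * W) := by
    ext i j
    have hm : H1.map φ i j = ((f (i + j + 1) : ℤ) : ℝ) := rfl
    rw [hm, hf, Matrix.mul_apply]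
    refine Finset.sum_congr rfl fun k _ => ?_
    rw [Matrix.mul_diagonal, Matrix.transpose_apply, Matrix.diagonal_mul, hW,
      Matrix.vandermonde_apply, Matrix.vandermonde_apply, pow_add, pow_add]
    ring
  have hu : IsUnit W.det := isUnit_iff_ne_zero.2 hdetW
  set C : Matrix (Fin n) (Fin n) ℝ := W⁻¹ * (diagonal x * W) with hC
  have e2 : H0.map φ * C = H1.map φ := by
    rw [e0, e1, hC]
    calc Wᵀ * diagonal w * W * (W⁻¹ * (diagonal x * W)) =
        Wᵀ * diagonal w * ((W * W⁻¹) * (diagonal x * W)) := by simp only [Matrix.mul_assoc]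
      _ = _ := by rw [Matrix.mul_nonsing_inv _ hu, Matrix.one_mul]
  have e3 : C.trace = ∑ j, x j := by
    rw [hC, Matrix.trace_mul_comm, Matrix.mul_assoc, Matrix.mul_nonsing_inv _ hu, Matrix.mul_one,
      Matrix.trace_diagonal]
  have e4 : (H0.map φ).adjugate * H1.map φ = (H0.map φ).det • C := by
    rw [← e2, ← Matrix.mul_assoc, Matrix.adjugate_mul, Matrix.smul_mul, Matrix.one_mul]
  have e5 := congrArg Matrix.trace e4
  rw [Matrix.trace_smul, e3, smul_eq_mul] at e5
  have e6 : (H0.map φ).adjugate * H1.map φ = (H0.adjugate * H1).map φ := by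
    rw [Matrix.map_mul]
    congr 1
    exact (RingHom.map_adjugate φ H0).symm
  have e7 : ((H0.adjugate * H1).map φ).trace = ((H0.adjugate * H1).trace : ℝ) := by
    rw [Matrix.trace, Matrix.trace]
    push_cast
    rfl
  have e8 : (H0.map φ).det = (H0.det : ℝ) := (RingHom.map_det φ H0).symm
  rw [e6, e7, e8] at e5
  have h0 : (H0.det : ℝ) ≠ 0 := by
    rw [← e8, e0, Matrix.det_mul, Matrix.det_mul, Matrix.det_transpose, Matrix.det_diagonal]
    exact mul_ne_zero (mul_ne_zero hdetW (Finset.prod_ne_zero_iff.2 fun j _ => hw j)) hdetW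
  refine ⟨((H0.adjugate * H1).trace : ℚ) / (H0.det : ℚ), ?_⟩
  rw [Rat.cast_div, Rat.cast_intCast, Rat.cast_intCast, div_eq_iff h0]
  linarith

variable {U : Matrix V V ℝ} {l : V → ℝ}

lemma rat_sq (h : Eig X U l) {a : V} {ω : ℝ} (m : V → ℤ) (hm : ∀ r, U a r ≠ 0 → l r = ω * m r)
    (hne : ∃ r, U a r ≠ 0 ∧ l r ≠ 0) : ∃ q : V → ℚ, ∀ r, U a r ≠ 0 → (q r : ℝ) = l r ^ 2 := by
  classical
  set S : Finset V := univ.filter fun r => U a r ≠ 0 with hS
  have memS : ∀ r, r ∈ S ↔ U a r ≠ 0 := fun r => by simp [hS]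
  set Y : Finset ℝ := S.image fun r => l r ^ 2 with hY
  set e : Fin Y.card ≃ Y := Y.equivFin.symm with he
  set x : Fin Y.card → ℝ := fun j => (e j : ℝ) with hxdef
  set w : ℝ → ℝ := fun y => ∑ r ∈ S with l r ^ 2 = y, U a r ^ 2 with hwdef
  have hsumx : ∀ g : ℝ → ℝ, ∑ j, g (x j) = ∑ y ∈ Y, g y := by
    intro g
    rw [← Finset.sum_coe_sort Y g]
    exact Equiv.sum_comp e (fun y : Y => g y)
  obtain ⟨q0, hq0⟩ := hankel x (fun j => w (x j))
    (fun i j hij => e.injective (Subtype.ext hij))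
    (by
      intro j
      have hj : (e j : ℝ) ∈ Y := (e j).2
      obtain ⟨r, hr, hr2⟩ := Finset.mem_image.1 hj
      have h1 : U a r ^ 2 ≤ w (x j) := by
        refine Finset.single_le_sum (f := fun r => U a r ^ 2) (fun i _ => sq_nonneg _) ?_
        exact Finset.mem_filter.2 ⟨hr, hr2⟩
      have h2 : 0 < U a r ^ 2 := by
        have := (memS r).1 hr
        positivity
      exact (lt_of_lt_of_le h2 h1).ne')
    (fun k => (X.adjMatrix ℤ ^ (2 * k)) a a)
    (by
      intro k
      rw [← pow_int_cast, pow_entry h, hsumx (fun y => w y * y ^ k)]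
      have h1 : ∑ r, l r ^ (2 * k) * (U a r * U a r) = ∑ r ∈ S, (l r ^ 2) ^ k * U a r ^ 2 := by
        rw [hS, Finset.sum_filter]
        refine Finset.sum_congr rfl fun r _ => ?_
        split_ifs with h0
        · rw [pow_mul, sq (U a r)]
        · rw [not_not.1 h0]; ring
      rw [h1, ← Finset.sum_fiberwise_of_maps_to (s := S) (t := Y) (g := fun r => l r ^ 2)
        (fun r hr => Finset.mem_image_of_mem _ hr)]
      refine Finset.sum_congr rfl fun y _ => ?_
      rw [hwdef, Finset.sum_mul]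
      refine Finset.sum_congr rfl fun r hr => ?_
      rw [(Finset.mem_filter.1 hr).2]
      ring)
  rw [hsumx (fun y => y)] at hq0
  have hN : ∀ y ∈ Y, ∃ N : ℕ, y = ω ^ 2 * N := by
    intro y hy
    obtain ⟨r, hr, hr2⟩ := Finset.mem_image.1 hy
    refine ⟨(m r).natAbs ^ 2, ?_⟩
    rw [← hr2, hm r ((memS r).1 hr)]
    have : (((m r).natAbs ^ 2 : ℕ) : ℝ) = (m r : ℝ) ^ 2 := by
      rw [Nat.cast_pow, Nat.cast_natAbs, Int.cast_abs, sq_abs]
    rw [this]
    ring
  choose! N hN using hN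
  have hsum : (q0 : ℝ) = ω ^ 2 * ((∑ y ∈ Y, N y : ℕ) : ℝ) := by
    rw [hq0]
    push_cast
    rw [Finset.mul_sum]
    exact Finset.sum_congr rfl fun y hy => hN y hy
  have hpos : (∑ y ∈ Y, N y) ≠ 0 := by
    obtain ⟨r, hr, hlr⟩ := hne
    intro h0
    rw [Finset.sum_eq_zero_iff] at h0
    have hy : l r ^ 2 ∈ Y := Finset.mem_image_of_mem _ ((memS r).2 hr)
    have h1 := hN _ hy
    rw [h0 _ hy, Nat.cast_zero, mul_zero] at h1
    exact hlr (pow_eq_zero_iff (two_ne_zero) |>.1 h1)
  have hposR : ((∑ y ∈ Y, N y : ℕ) : ℝ) ≠ 0 := Nat.cast_ne_zero.2 hpos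
  refine ⟨fun r => q0 / ((∑ y ∈ Y, N y : ℕ) : ℚ) * (m r : ℚ) ^ 2, fun r hr => ?_⟩
  have h5 : ω ^ 2 = (q0 : ℝ) / ((∑ y ∈ Y, N y : ℕ) : ℝ) := by
    rw [hsum]
    field_simp
  rw [hm r hr, mul_pow, h5]
  push_cast
  ring

/-- entries of polynomials in the adjacency matrix -/
lemma poly_entry (h : Eig X U l) (p : Polynomial ℚ) (u v : V) :
    (((∑ i ∈ range (p.natDegree + 1), p.coeff i * ((X.adjMatrix ℤ ^ i) u v : ℤ)) : ℚ) : ℝ) =
      ∑ r, Polynomial.aeval (l r) p * (U u r * U v r) := by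
  push_cast
  have h1 : ∀ r, Polynomial.aeval (l r) p * (U u r * U v r) =
      ∑ i ∈ range (p.natDegree + 1), (p.coeff i : ℝ) * (l r ^ i * (U u r * U v r)) := by
    intro r
    rw [Polynomial.aeval_eq_sum_range, Finset.sum_mul]
    refine Finset.sum_congr rfl fun i _ => ?_
    rw [Algebra.smul_def]
    simp only [eq_ratCast]
    ring
  simp_rw [h1]
  rw [Finset.sum_comm]
  refine Finset.sum_congr rfl fun i _ => ?_
  rw [← Finset.mul_sum, ← pow_entry h, pow_int_cast]

lemma walk_im (col : X.Coloring Bool) (t : ℝ) {u v : V} (hp : col u ↔ col v) :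
    (walk X t u v).im = 0 := by
  have h1 := MExp.hasSum_exp_apply (((t : ℂ) * Complex.I) • X.adjMatrix ℂ) u v
  have h2 : ∀ n : ℕ, (((n.factorial : ℂ)⁻¹) *
      ((((t : ℂ) * Complex.I) • X.adjMatrix ℂ) ^ n) u v).im = 0 := by
    intro n
    rw [smul_pow, Matrix.smul_apply, smul_eq_mul]
    have h3 : (X.adjMatrix ℂ ^ n) u v = (((X.adjMatrix ℤ ^ n) u v : ℤ) : ℂ) := by
      rw [SimpleGraph.adjMatrix_pow_apply_eq_card_walk,
        SimpleGraph.adjMatrix_pow_apply_eq_card_walk]
      push_cast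
      rfl
    rw [h3]
    by_cases hn : Even n
    · obtain ⟨j, rfl⟩ := hn
      have h4 : ((t : ℂ) * Complex.I) ^ (j + j) = (((-(t ^ 2)) ^ j : ℝ) : ℂ) := by
        rw [← two_mul, pow_mul, mul_pow, Complex.I_sq]
        push_cast
        ring
      rw [h4]
      have h5 : (((j + j).factorial : ℂ)⁻¹) * ((((-(t ^ 2)) ^ j : ℝ) : ℂ) *
          (((X.adjMatrix ℤ ^ (j + j)) u v : ℤ) : ℂ)) =
          ((((j + j).factorial : ℝ)⁻¹ * ((-(t ^ 2)) ^ j *
            (((X.adjMatrix ℤ ^ (j + j)) u v : ℤ) : ℝ)) : ℝ) : ℂ) := by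
        push_cast
        ring
      rw [h5, Complex.ofReal_im]
    · rw [pow_zero_of_parity col n u v (fun h => hn (h.2 hp))]
      simp
  have h3 : HasSum (fun n : ℕ => (((n.factorial : ℂ)⁻¹) *
      ((((t : ℂ) * Complex.I) • X.adjMatrix ℂ) ^ n) u v).im) (walk X t u v).im :=
    h1.mapL Complex.imCLM
  simp_rw [h2] at h3
  exact (hasSum_zero.unique h3).symm

/-- In a tree, proper fractional revival forces equal diagonal idempotent entries. -/
lemma sq_eq (hX : X.IsTree) (h : Eig X U l) {t : ℝ} (ht : 0 < t) {a b : V} (hab : a ≠ b)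
    {α β : ℂ} (hβ : β ≠ 0)
    (hrev : walk X t *ᵥ (Pi.single a 1) = α • Pi.single a 1 + β • Pi.single b 1) (r : V) :
    U a r ^ 2 = U b r ^ 2 := by
  classical
  obtain ⟨c, hc⟩ := k2 h hab hβ hrev
  obtain ⟨col⟩ := exists_coloring hX
  set d := X.dist a b with hd
  set cz : ℤ := (X.adjMatrix ℤ ^ d) a a - (X.adjMatrix ℤ ^ d) b b with hcz
  have hcc : c = cz := by
    have h1 := k2_pow h hc d
    rw [pow_int_cast, pow_int_cast, pow_int_cast, hd, pow_dist hX a b, ← hd] at h1
    rw [hcz]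
    push_cast
    push_cast at h1
    linarith
  suffices hcz0 : cz = 0 by
    have h1 := hc r
    rw [hcc, hcz0, Int.cast_zero, zero_mul] at h1
    linarith
  have hdpar : Even d ↔ (col a ↔ col b) := by
    by_contra h0
    have h1 := pow_zero_of_parity col d a b h0
    rw [hd, pow_dist hX a b] at h1
    exact one_ne_zero h1
  by_cases hpar : (col a ↔ col b)
  swap
  · have hodd : ¬ Even d := fun h0 => hpar (hdpar.1 h0)
    rw [hcz, pow_zero_of_parity col d a a (fun h0 => hodd (h0.2 Iff.rfl)),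
      pow_zero_of_parity col d b b (fun h0 => hodd (h0.2 Iff.rfl)), sub_zero]
  -- the even case
  have eα : walk X t a a = α := by
    have h1 := congrFun hrev a
    rw [Matrix.mulVec_single_one] at h1
    simpa [hab] using h1
  have eβ : walk X t b a = β := by
    have h1 := congrFun hrev b
    rw [Matrix.mulVec_single_one] at h1
    simpa [hab.symm] using h1
  have iα : α.im = 0 := by rw [← eα]; exact walk_im col t Iff.rfl
  have iβ : β.im = 0 := by rw [← eβ]; exact walk_im col t hpar.symm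
  obtain ⟨α', rfl⟩ : ∃ x : ℝ, α = x := ⟨α.re, Complex.ext (by simp) (by simp [iα])⟩
  obtain ⟨β', rfl⟩ : ∃ x : ℝ, β = x := ⟨β.re, Complex.ext (by simp) (by simp [iβ])⟩
  have hβ' : β' ≠ 0 := fun h0 => hβ (by rw [h0]; simp)
  have hk1 := k1 h hrev
  -- outside the support
  have hout : ∀ r, U a r = 0 → U b r = 0 := by
    intro r hr
    have h1 := hk1 r
    rw [hr] at h1
    simp only [Complex.ofReal_zero, mul_zero, zero_add] at h1
    rcases mul_eq_zero.1 h1.symm with h2 | h2
    · exact absurd h2 hβ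
    · exact_mod_cast h2
  -- signs
  have hsign : ∀ r, U a r ≠ 0 →
      Complex.exp ((t : ℂ) * Complex.I * (l r : ℂ)) = 1 ∨
      Complex.exp ((t : ℂ) * Complex.I * (l r : ℂ)) = -1 := by
    intro r hr
    have h1 := hk1 r
    have hrC : (U a r : ℂ) ≠ 0 := by exact_mod_cast hr
    have h2 : Complex.exp ((t : ℂ) * Complex.I * (l r : ℂ)) =
        (((α' * U a r + β' * U b r) / U a r : ℝ) : ℂ) := by
      push_cast
      rw [eq_div_iff hrC, h1]
    have h3 := normSq_exp (l r) t
    rw [h2, Complex.normSq_ofReal] at h3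
    rw [h2]
    rcases mul_self_eq_one_iff.1 h3 with h4 | h4
    · left; rw [h4]; simp
    · right; rw [h4]; simp
  have hm : ∀ r, ∃ m : ℤ, U a r ≠ 0 → l r = (Real.pi / t) * m := by
    intro r
    by_cases hr : U a r = 0
    · exact ⟨0, fun h0 => absurd hr h0⟩
    have h1 : Complex.exp (2 * ((t : ℂ) * Complex.I * (l r : ℂ))) = 1 := by
      rw [two_mul, Complex.exp_add]
      rcases hsign r hr with h2 | h2 <;> rw [h2] <;> norm_num
    obtain ⟨n, hn⟩ := Complex.exp_eq_one_iff.1 h1
    refine ⟨n, fun _ => ?_⟩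
    have h2 : ((t * l r : ℝ) : ℂ) = ((n * Real.pi : ℝ) : ℂ) := by
      have hI : (2 * Complex.I) ≠ 0 := mul_ne_zero two_ne_zero Complex.I_ne_zero
      apply mul_left_cancel₀ hI
      push_cast
      linear_combination hn
    have h3 : t * l r = n * Real.pi := by exact_mod_cast h2
    field_simp
    linarith
  choose m hm using hm
  -- a nonzero eigenvalue in the support
  have hne : ∃ r, U a r ≠ 0 ∧ l r ≠ 0 := by
    by_contra h0
    push Not at h0
    have hadj : ∃ v, X.Adj a v := by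
      obtain ⟨p⟩ := hX.connected.preconnected a b
      cases p with
      | nil => exact absurd rfl hab
      | cons h' p' => exact ⟨_, h'⟩
    obtain ⟨v, hv⟩ := hadj
    have h1 := pow_entry h 1 a v
    rw [pow_one, SimpleGraph.adjMatrix_apply, if_pos hv] at h1
    have h2 : ∑ r, l r ^ 1 * (U a r * U v r) = 0 := by
      refine Finset.sum_eq_zero fun r _ => ?_
      by_cases hr : U a r = 0
      · rw [hr]; ring
      · rw [h0 r hr]; ring
    rw [h2] at h1
    exact one_ne_zero h1
  obtain ⟨q, hq⟩ := rat_sq h m hm hne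
  set Sp : Finset V := univ.filter fun r => U a r ≠ 0 ∧
    Complex.exp ((t : ℂ) * Complex.I * (l r : ℂ)) = 1 with hSp
  have memSp : ∀ r, r ∈ Sp ↔ U a r ≠ 0 ∧
    Complex.exp ((t : ℂ) * Complex.I * (l r : ℂ)) = 1 := fun r => by simp [hSp]
  set κp : ℝ := (1 - α') / β' with hκp
  set κm : ℝ := (-1 - α') / β' with hκm
  have hUp : ∀ r ∈ Sp, U b r = κp * U a r := by
    intro r hr
    have h1 := hk1 r
    rw [((memSp r).1 hr).2] at h1
    have h2 : U a r = α' * U a r + β' * U b r := by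
      have : ((1 * U a r : ℝ) : ℂ) = ((α' * U a r + β' * U b r : ℝ) : ℂ) := by
        push_cast; exact h1
      have h3 : 1 * U a r = α' * U a r + β' * U b r := by exact_mod_cast this
      linarith
    rw [hκp]
    field_simp
    linarith
  have hUm : ∀ r, r ∉ Sp → U b r = κm * U a r := by
    intro r hr
    by_cases h0 : U a r = 0
    · rw [h0, hout r h0, mul_zero]
    have h5 : Complex.exp ((t : ℂ) * Complex.I * (l r : ℂ)) = -1 := by
      rcases hsign r h0 with h2 | h2
      · exact absurd ((memSp r).2 ⟨h0, h2⟩) hr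
      · exact h2
    have h1 := hk1 r
    rw [h5] at h1
    have h2 : -U a r = α' * U a r + β' * U b r := by
      have : ((-1 * U a r : ℝ) : ℂ) = ((α' * U a r + β' * U b r : ℝ) : ℂ) := by
        push_cast; exact h1
      have h3 : -1 * U a r = α' * U a r + β' * U b r := by exact_mod_cast this
      linarith
    rw [hκm]
    field_simp
    linarith
  have rowa : ∑ r, U a r ^ 2 = 1 := by
    have := row_orth h a a
    rw [if_pos rfl] at this
    rw [← this]
    exact Finset.sum_congr rfl fun r _ => sq _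
  have rowb : ∑ r, U b r ^ 2 = 1 := by
    have := row_orth h b b
    rw [if_pos rfl] at this
    rw [← this]
    exact Finset.sum_congr rfl fun r _ => sq _
  have rowab : ∑ r, U a r * U b r = 0 := by
    have := row_orth h a b
    rwa [if_neg hab] at this
  -- there is a minus element
  have hminus : ∃ r, U a r ≠ 0 ∧ r ∉ Sp := by
    by_contra h0
    push Not at h0
    have h1 : ∀ r, U b r = κp * U a r := by
      intro r
      by_cases hr : U a r = 0
      · rw [hr, hout r hr, mul_zero]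
      · exact hUp r (h0 r hr)
    have h2 : κp = 0 := by
      have : ∑ r, U a r * U b r = κp * ∑ r, U a r ^ 2 := by
        rw [Finset.mul_sum]
        refine Finset.sum_congr rfl fun r _ => ?_
        rw [h1 r]; ring
      rw [rowab, rowa] at this
      linarith
    have h3 : ∑ r, U b r ^ 2 = 0 := by
      refine Finset.sum_eq_zero fun r _ => ?_
      rw [h1 r, h2]; ring
    rw [rowb] at h3
    exact one_ne_zero h3
  obtain ⟨r0, hr0, hr0m⟩ := hminus
  have hκeq : κm ^ 2 + c * κm - 1 = 0 := by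
    have h1 := hc r0
    rw [hUm r0 hr0m] at h1
    have h2 : U a r0 ^ 2 * (κm ^ 2 + c * κm - 1) = 0 := by linear_combination -h1
    rcases mul_eq_zero.1 h2 with h3 | h3
    · exact absurd (pow_eq_zero_iff two_ne_zero |>.1 h3) hr0
    · exact h3
  -- the polynomial
  set p : Polynomial ℚ := ∏ s ∈ Sp, (Polynomial.X ^ 2 - Polynomial.C (q s)) ^ 2 with hp
  have hpval : ∀ r, Polynomial.aeval (l r) p = ∏ s ∈ Sp, (l r ^ 2 - l s ^ 2) ^ 2 := by
    intro r
    rw [hp, map_prod]
    refine Finset.prod_congr rfl fun s hs => ?_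
    rw [map_pow, map_sub, map_pow, Polynomial.aeval_X, Polynomial.aeval_C, ← hq s ((memSp s).1 hs).1]
    simp
  have hpnonneg : ∀ r, 0 ≤ Polynomial.aeval (l r) p := by
    intro r
    rw [hpval]
    exact Finset.prod_nonneg fun s _ => sq_nonneg _
  have hpzero : ∀ r ∈ Sp, Polynomial.aeval (l r) p = 0 := by
    intro r hr
    rw [hpval]
    exact Finset.prod_eq_zero hr (by ring)
  have hppos : 0 < Polynomial.aeval (l r0) p := by
    rw [hpval]
    refine Finset.prod_pos fun s hs => ?_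
    have h1 : l r0 ^ 2 ≠ l s ^ 2 := by
      intro h2
      apply hr0m
      rw [memSp]
      refine ⟨hr0, ?_⟩
      have h3 := ((memSp s).1 hs).2
      rcases sq_eq_sq_iff_eq_or_eq_neg.1 h2 with h4 | h4
      · rw [h4]; exact h3
      · rw [h4]
        have : (t : ℂ) * Complex.I * ((-l s : ℝ) : ℂ) = -((t : ℂ) * Complex.I * (l s : ℂ)) := by
          push_cast; ring
        rw [this, Complex.exp_neg, h3, inv_one]
    have := sub_ne_zero.2 h1
    positivity
  have hFaa := poly_entry h p a a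
  have hFab := poly_entry h p a b
  set Faa : ℚ := ∑ i ∈ range (p.natDegree + 1), p.coeff i * ((X.adjMatrix ℤ ^ i) a a : ℤ)
  set Fab : ℚ := ∑ i ∈ range (p.natDegree + 1), p.coeff i * ((X.adjMatrix ℤ ^ i) a b : ℤ)
  have hrel : (Fab : ℝ) = κm * Faa := by
    rw [hFab, hFaa, Finset.mul_sum]
    refine Finset.sum_congr rfl fun r _ => ?_
    by_cases hr : r ∈ Sp
    · rw [hpzero r hr]; ring
    · rw [hUm r hr]; ring
  have hFpos : (0 : ℝ) < Faa := by
    rw [hFaa]
    refine Finset.sum_pos' (fun r _ => mul_nonneg (hpnonneg r) (mul_self_nonneg _))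
      ⟨r0, Finset.mem_univ _, ?_⟩
    exact mul_pos hppos (mul_self_pos.2 hr0)
  have hκq : κm = ((Fab / Faa : ℚ) : ℝ) := by
    push_cast
    rw [hrel]
    field_simp
  apply rat_case (κ := Fab / Faa)
  have h9 : (((Fab / Faa : ℚ) ^ 2 + cz * (Fab / Faa : ℚ) - 1 : ℚ) : ℝ) = 0 := by
    rw [Rat.cast_sub, Rat.cast_add, Rat.cast_pow, Rat.cast_mul, ← hκq, Rat.cast_one,
      Rat.cast_intCast, ← hcc]
    exact hκeq
  exact_mod_cast h9

end Pool.Agent.V11117.FRTree
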