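import Mathlib
import Pool.Agent.V11117.Spec

/-!
Matrices of a graph with two distinct eigenvalues.
-/

namespace Pool.Agent.V11117.QLib

open Matrix Finset Polynomial Pool.Agent.V11117

/-- `S(G)`: real symmetric matrices whose off-diagonal nonzero pattern is given by the edges
of `G` (the diagonal is unrestricted). -/
def InS {V : Type} (G : SimpleGraph V) (A : Matrix V V ℝ) : Prop :=
  A.IsSymm ∧ ∀ i j, i ≠ j → (A i j ≠ 0 ↔ G.Adj i j)

/-- The set of distinct real eigenvalues of a matrix. -/
def eigs {V : Type} [Fintype V] (A : Matrix V V ℝ) : Set ℝ :=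
  {μ | ∃ x : V → ℝ, x ≠ 0 ∧ A *ᵥ x = μ • x}

/-- `q(G)`: the least number of distinct eigenvalues of a matrix in `S(G)`. -/
noncomputable def q {V : Type} [Fintype V] (G : SimpleGraph V) : ℕ :=
  sInf {m | ∃ A : Matrix V V ℝ, InS G A ∧ (eigs A).ncard = m}

/-- `G` (on `n` vertices) achieves the bipartition `[n-k,k]`: some matrix in `S(G)` has exactly
two distinct eigenvalues, of multiplicities `k` and `n-k`, i.e. its characteristic polynomial is
`(X - a)^k (X - b)^(n-k)` with `a ≠ b`. -/
def Achieves {V : Type} [Fintype V] [DecidableEq V] (G : SimpleGraph V) (k : ℕ) : Prop :=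
  ∃ A : Matrix V V ℝ, InS G A ∧ ∃ a b : ℝ, a ≠ b ∧
    A.charpoly = (X - C a) ^ k * (X - C b) ^ (Fintype.card V - k)

/-- `MB(G)`: the least `k` with `1 ≤ k ≤ ⌊n/2⌋` such that `G` achieves `[n-k,k]`. -/
noncomputable def MB {V : Type} [Fintype V] [DecidableEq V] (G : SimpleGraph V) : ℕ :=
  sInf {k | 1 ≤ k ∧ k ≤ Fintype.card V / 2 ∧ Achieves G k}

/-- `mr₊(G)`: the minimum rank of a positive semidefinite matrix in `S(G)`. -/
noncomputable def mrp {V : Type} [Fintype V] [DecidableEq V] (G : SimpleGraph V) : ℕ :=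
  sInf {r | ∃ A : Matrix V V ℝ, InS G A ∧ A.PosSemidef ∧ A.rank = r}

variable {V : Type} [Fintype V] [DecidableEq V]

lemma herm {A : Matrix V V ℝ} (hA : A.IsSymm) : A.IsHermitian := by
  rw [Matrix.IsHermitian, Matrix.conjTranspose_eq_transpose_of_trivial]
  exact hA

lemma eigs_finite (A : Matrix V V ℝ) (hA : A.IsSymm) :
    (eigs A).Finite := by
  refine (Set.finite_range (herm hA).eigenvalues).subset ?_
  rintro μ ⟨x, hx, h⟩
  exact Spec.exists_index (herm hA) hx h

lemma two_le {G : SimpleGraph V} {a b : V}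
    (hab : G.Adj a b) {A : Matrix V V ℝ} (hA : InS G A) : 2 ≤ (eigs A).ncard := by
  by_contra hlt
  have hH : A.IsHermitian := herm hA.1
  obtain ⟨U, h1, h2, h3⟩ := Spec.spec hH
  have hall : ∀ r, hH.eigenvalues r = hH.eigenvalues a := by
    intro r
    by_contra hne
    apply hlt
    have m1 : hH.eigenvalues r ∈ eigs A := Spec.exists_vec hH r
    have m2 : hH.eigenvalues a ∈ eigs A := Spec.exists_vec hH a
    have h4 : ({hH.eigenvalues r, hH.eigenvalues a} : Set ℝ) ⊆ eigs A := by
      intro x hx
      rcases hx with rfl | rfl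
      · exact m1
      · exact m2
    have h5 := Set.ncard_le_ncard h4 (eigs_finite A hA.1)
    rwa [Set.ncard_pair hne] at h5
  have h6 : diagonal hH.eigenvalues = hH.eigenvalues a • (1 : Matrix V V ℝ) := by
    rw [Matrix.smul_one_eq_diagonal]
    congr 1
    funext r
    exact hall r
  rw [h6, Matrix.mul_smul, Matrix.mul_one, Matrix.smul_mul, h2] at h3
  have hne : a ≠ b := hab.ne
  have h7 := (hA.2 a b hne).2 hab
  apply h7
  rw [h3, Matrix.smul_apply, Matrix.one_apply_ne hne, smul_zero]

lemma le_two {A : Matrix V V ℝ} {c : ℝ} (hc : 0 ≤ c)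
    (h : A * A = c • (1 : Matrix V V ℝ)) : (eigs A).ncard ≤ 2 := by
  have h1 : eigs A ⊆ {Real.sqrt c, -Real.sqrt c} := by
    rintro μ ⟨x, hx, hμ⟩
    have h2 : (A * A) *ᵥ x = (μ * μ) • x := by
      rw [← Matrix.mulVec_mulVec, hμ, Matrix.mulVec_smul, hμ, smul_smul]
    rw [h, Matrix.smul_mulVec, Matrix.one_mulVec] at h2
    obtain ⟨i, hi⟩ := Function.ne_iff.1 hx
    have h3 := congrFun h2 i
    rw [Pi.smul_apply, Pi.smul_apply, smul_eq_mul, smul_eq_mul] at h3
    have h4 : c = μ * μ := mul_right_cancel₀ hi h3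
    have h5 : Real.sqrt c ^ 2 = μ ^ 2 := by rw [Real.sq_sqrt hc, h4]; ring
    rcases sq_eq_sq_iff_eq_or_eq_neg.1 h5 with h6 | h6
    · left; exact h6.symm
    · right; rw [Set.mem_singleton_iff, h6]; ring
  calc (eigs A).ncard ≤ ({Real.sqrt c, -Real.sqrt c} : Set ℝ).ncard :=
        Set.ncard_le_ncard h1 (Set.toFinite _)
    _ ≤ 2 := by
      refine (Set.ncard_insert_le _ _).trans ?_
      rw [Set.ncard_singleton]

lemma q_eq_two {G : SimpleGraph V} {a b : V}
    (hab : G.Adj a b) {A : Matrix V V ℝ} (hA : InS G A) {c : ℝ} (hc : 0 ≤ c)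
    (h : A * A = c • (1 : Matrix V V ℝ)) : q G = 2 := by
  have h2 : (eigs A).ncard = 2 := le_antisymm (le_two hc h) (two_le hab hA)
  apply le_antisymm
  · exact Nat.sInf_le ⟨A, hA, h2⟩
  · refine le_csInf ⟨2, A, hA, h2⟩ ?_
    rintro m ⟨B, hB, rfl⟩
    exact two_le hab hB

/-! ### Multiplicities -/

lemma charpoly_prod {A : Matrix V V ℝ} (hA : A.IsHermitian) :
    A.charpoly = ∏ i, (X - C (hA.eigenvalues i)) := by
  have := hA.charpoly_eq
  simpa using this

/-- A symmetric matrix with `A² = c²` and trace `0` has characteristic polynomial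
`(X-c)^(n/2) (X+c)^(n/2)`. -/
lemma charpoly_of_sq {A : Matrix V V ℝ} (hA : A.IsSymm) {c : ℝ} (hc : c ≠ 0)
    (h : A * A = (c * c) • (1 : Matrix V V ℝ)) (htr : A.trace = 0) {k : ℕ}
    (hk : Fintype.card V = 2 * k) :
    A.charpoly = (X - C c) ^ k * (X - C (-c)) ^ (Fintype.card V - k) := by
  have hH := herm hA
  have hpm : ∀ i, hH.eigenvalues i = c ∨ hH.eigenvalues i = -c := by
    intro i
    obtain ⟨x, hx, hμ⟩ := Spec.exists_vec hH i
    have h2 : (A * A) *ᵥ x = (hH.eigenvalues i * hH.eigenvalues i) • x := by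
      rw [← Matrix.mulVec_mulVec, hμ, Matrix.mulVec_smul, hμ, smul_smul]
    rw [h, Matrix.smul_mulVec, Matrix.one_mulVec] at h2
    obtain ⟨j, hj⟩ := Function.ne_iff.1 hx
    have h3 := congrFun h2 j
    rw [Pi.smul_apply, Pi.smul_apply, smul_eq_mul, smul_eq_mul] at h3
    have h4 : c * c = hH.eigenvalues i * hH.eigenvalues i := mul_right_cancel₀ hj h3
    exact mul_self_eq_mul_self_iff.1 h4.symm
  have htr2 : ∑ i, hH.eigenvalues i = 0 := by
    have := hH.trace_eq_sum_eigenvalues
    rw [htr] at this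
    simpa using this.symm
  have hcne : c ≠ -c := fun h0 => hc (by linarith)
  set s : Finset V := univ.filter fun i => hH.eigenvalues i = c with hs
  have hsum : ∑ i, hH.eigenvalues i = c * (s.card : ℝ) - c * ((Fintype.card V : ℝ) - s.card) := by
    have h1 : ∀ i, hH.eigenvalues i = (if hH.eigenvalues i = c then 2 * c else 0) - c := by
      intro i
      split_ifs with h0
      · rw [h0]; ring
      · rw [(hpm i).resolve_left h0]; ring
    rw [Finset.sum_congr rfl fun i _ => h1 i, Finset.sum_sub_distrib, ← Finset.sum_filter,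
      Finset.sum_const, Finset.sum_const, nsmul_eq_mul, nsmul_eq_mul, ← hs, Finset.card_univ]
    ring
  have hcard : s.card = k := by
    rw [htr2, hk] at hsum
    push_cast at hsum
    have h1 : c * (2 * (s.card : ℝ) - 2 * k) = 0 := by linarith
    rcases mul_eq_zero.1 h1 with h2 | h2
    · exact absurd h2 hc
    · have : (s.card : ℝ) = k := by linarith
      exact_mod_cast this
  rw [charpoly_prod hH, ← Finset.prod_filter_mul_prod_filter_not univ
    (fun i => hH.eigenvalues i = c)]
  congr 1
  · rw [Finset.prod_congr rfl (g := fun _ => (X - C c : ℝ[X]))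
      (fun i hi => by rw [(Finset.mem_filter.1 hi).2]), Finset.prod_const, ← hs, hcard]
  · rw [Finset.prod_congr rfl (g := fun _ => (X - C (-c) : ℝ[X]))
      (fun i hi => by rw [(hpm i).resolve_left (Finset.mem_filter.1 hi).2]), Finset.prod_const]
    congr 1
    have h1 := Finset.card_filter_add_card_filter_not (s := (univ : Finset V))
      (fun i => hH.eigenvalues i = c)
    rw [Finset.card_univ, ← hs] at h1
    omega

/-- From a matrix with two eigenvalues to a projection of rank `k`. -/
lemma proj_of_achieves {G : SimpleGraph V} {k : ℕ} (hk : k ≤ Fintype.card V)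
    (h : Achieves G k) :
    ∃ P : Matrix V V ℝ, InS G P ∧ P * P = P ∧ P.rank = k ∧ P.trace = k := by
  obtain ⟨A, hA, a, b, hab, hch⟩ := h
  have hH := herm hA.1
  obtain ⟨U, h1, h2, h3⟩ := Spec.spec hH
  have hprod : A.charpoly = (((Finset.univ : Finset V).val.map hH.eigenvalues).map
      (fun t => (X - C t : ℝ[X]))).prod := by
    rw [charpoly_prod hH, Multiset.map_map]
    rfl
  rw [hprod] at hch
  have hroots := congrArg Polynomial.roots hch
  rw [Polynomial.roots_multiset_prod_X_sub_C, Polynomial.roots_mul (mul_ne_zero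
    (pow_ne_zero _ (X_sub_C_ne_zero a)) (pow_ne_zero _ (X_sub_C_ne_zero b))),
    Polynomial.roots_pow, Polynomial.roots_pow, Polynomial.roots_X_sub_C,
    Polynomial.roots_X_sub_C] at hroots
  have hmem : ∀ i, hH.eigenvalues i = a ∨ hH.eigenvalues i = b := by
    intro i
    have hi : hH.eigenvalues i ∈ (Finset.univ : Finset V).val.map hH.eigenvalues :=
      Multiset.mem_map_of_mem _ (Finset.mem_univ i)
    rw [hroots, Multiset.mem_add] at hi
    rcases hi with hi | hi
    · left; exact Multiset.mem_singleton.1 (Multiset.mem_of_mem_nsmul hi)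
    · right; exact Multiset.mem_singleton.1 (Multiset.mem_of_mem_nsmul hi)
  have hcount : (univ.filter fun i => hH.eigenvalues i = a).card = k := by
    have h4 := congrArg (Multiset.count a) hroots
    rw [Multiset.count_map, Multiset.count_add, Multiset.count_nsmul, Multiset.count_nsmul,
      Multiset.count_singleton_self, Multiset.count_singleton, if_neg hab, mul_one, mul_zero,
      add_zero] at h4
    rw [← h4, Finset.card_def, Finset.filter_val]
    congr 1
    apply Multiset.filter_congr
    intro x _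
    exact eq_comm
  have hd : a - b ≠ 0 := sub_ne_zero.2 hab
  set p : V → ℝ := fun i => if hH.eigenvalues i = a then 1 else 0 with hp
  have hP : (a - b)⁻¹ • (A - b • (1 : Matrix V V ℝ)) = U * diagonal p * Uᵀ := by
    have h5 : diagonal p = (a - b)⁻¹ • (diagonal hH.eigenvalues - b • (1 : Matrix V V ℝ)) := by
      rw [Matrix.smul_one_eq_diagonal, Matrix.diagonal_sub, ← Matrix.diagonal_smul]
      congr 1
      funext i
      rw [Pi.smul_apply, smul_eq_mul, hp]
      dsimp only
      split_ifs with h0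
      · rw [h0]; field_simp
      · rw [(hmem i).resolve_left h0]; simp
    rw [h5, Matrix.mul_smul, Matrix.smul_mul, Matrix.mul_sub, Matrix.sub_mul, ← h3,
      Matrix.mul_smul, Matrix.mul_one, Matrix.smul_mul, h2]
  refine ⟨(a - b)⁻¹ • (A - b • (1 : Matrix V V ℝ)), ⟨?_, ?_⟩, ?_, ?_, ?_⟩
  · rw [Matrix.IsSymm, Matrix.transpose_smul, Matrix.transpose_sub, hA.1, Matrix.transpose_smul,
      Matrix.transpose_one]
  · intro i j hij
    rw [Matrix.smul_apply, Matrix.sub_apply, Matrix.smul_apply, Matrix.one_apply_ne hij,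
      smul_zero, sub_zero, smul_eq_mul, ← hA.2 i j hij]
    constructor
    · exact fun h0 => right_ne_zero_of_mul h0
    · exact fun h0 => mul_ne_zero (inv_ne_zero hd) h0
  · rw [hP]
    calc U * diagonal p * Uᵀ * (U * diagonal p * Uᵀ) =
        U * diagonal p * (Uᵀ * U) * diagonal p * Uᵀ := by simp only [Matrix.mul_assoc]
      _ = U * (diagonal p * diagonal p) * Uᵀ := by
          rw [h1, Matrix.mul_one]; simp only [Matrix.mul_assoc]
      _ = U * diagonal p * Uᵀ := by
          rw [Matrix.diagonal_mul_diagonal]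
          congr 2
          congr 1
          funext i
          rw [hp]
          dsimp only
          split_ifs <;> simp
  · have hUdet : IsUnit U.det := by
      have : U.det * Uᵀ.det = 1 := by rw [← Matrix.det_mul, h2, Matrix.det_one]
      exact IsUnit.of_mul_eq_one _ this
    have hUtdet : IsUnit Uᵀ.det := by rwa [Matrix.det_transpose]
    rw [hP, Matrix.rank_mul_eq_left_of_isUnit_det _ _ hUtdet,
      Matrix.rank_mul_eq_right_of_isUnit_det _ _ hUdet, Matrix.rank_diagonal, ← hcount,
      Fintype.card_subtype]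
    congr 1
    ext i
    simp [hp]
  · rw [hP, Matrix.trace_mul_comm, ← Matrix.mul_assoc, h1, Matrix.one_mul,
      Matrix.trace_diagonal, hp]
    simp only [Finset.sum_ite, Finset.sum_const_zero, add_zero, Finset.sum_const, nsmul_eq_mul,
      mul_one, hcount]

lemma diag_pos {P : Matrix V V ℝ} (hs : P.IsSymm) (hP : P * P = P) {i j : V}
    (hij : P i j ≠ 0) : 0 < P i i := by
  have h1 := congrFun (congrFun hP i) i
  rw [Matrix.mul_apply] at h1
  rw [← h1]
  refine Finset.sum_pos' (fun k _ => ?_) ⟨j, Finset.mem_univ _, ?_⟩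
  · rw [hs.apply i k]; exact mul_self_nonneg _
  · rw [hs.apply i j]; exact mul_self_pos.2 hij

/-- minors of size four vanish when the rank is at most three -/
lemma minor4 {P : Matrix V V ℝ} (h : P.rank ≤ 3) (f g : Fin 4 → V) :
    (P.submatrix f g).det = 0 := by
  by_contra h0
  have h1 : P.submatrix f g = (1 : Matrix V V ℝ).submatrix f id * P *
      (1 : Matrix V V ℝ).submatrix id g := by
    ext i j
    simp [Matrix.mul_apply, Matrix.one_apply]
  have h2 : (P.submatrix f g).rank = 4 := by
    have := Matrix.rank_of_isUnit (P.submatrix f g)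
      ((Matrix.isUnit_iff_isUnit_det _).2 (isUnit_iff_ne_zero.2 h0))
    simpa using this
  have h3 : (P.submatrix f g).rank ≤ P.rank := by
    rw [h1]
    exact (Matrix.rank_mul_le_left _ _).trans (Matrix.rank_mul_le_right _ _)
  omega

end Pool.Agent.V11117.QLib
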