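import Mathlib

namespace Pool.Agent.V11117.HT

open Finset

abbrev X (K : ℕ) := Fin K → ZMod 8
abbrev Vt (K : ℕ) := ZMod (2 ^ K) × X K

open Classical in
noncomputable def H (K k : ℕ) : Finset (X K) :=
  univ.filter (fun h => ∀ t : Fin K, t.val < k → h t = 0)

open Classical in
noncomputable def B (K k : ℕ) : Finset (Vt K) :=
  univ.filter (fun g => (∃ z : ℤ, |z| < 2 ^ k ∧ ((z : ℤ) : ZMod (2 ^ K)) = g.1) ∧ g.2 ∈ H K k)

lemma mem_H {K k : ℕ} {h : X K} : h ∈ H K k ↔ ∀ t : Fin K, t.val < k → h t = 0 := by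
  classical
  simp [H]

lemma mem_B {K k : ℕ} {g : Vt K} : g ∈ B K k ↔
    (∃ z : ℤ, |z| < 2 ^ k ∧ ((z : ℤ) : ZMod (2 ^ K)) = g.1) ∧ g.2 ∈ H K k := by
  classical
  simp [B]

lemma card_X (K : ℕ) : Fintype.card (X K) = 8 ^ K := by
  simp [X, ZMod.card]

lemma card_H {K k : ℕ} (hk : k ≤ K) : (H K k).card * 8 ^ k = 8 ^ K := by
  classical
  have e : H K k = Fintype.piFinset
      (fun t : Fin K => if t.val < k then ({0} : Finset (ZMod 8)) else univ) := by
    ext h
    rw [mem_H, Fintype.mem_piFinset]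
    constructor
    · intro hh t
      by_cases ht : t.val < k
      · simp [ht, hh t ht]
      · simp [ht]
    · intro hh t ht
      have := hh t
      simpa [ht] using this
  have e2 : (8 : ℕ) ^ k = ∏ t : Fin K, (if t.val < k then 8 else 1) := by
    rw [Fin.prod_univ_eq_prod_range (fun i => if i < k then 8 else 1) K]
    rw [Finset.prod_ite]
    simp only [prod_const_one, mul_one, prod_const]
    congr 1
    have : filter (fun x => x < k) (range K) = range k := by
      ext x; simp; omega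
    rw [this, card_range]
  rw [e, Fintype.card_piFinset, e2, ← prod_mul_distrib]
  have : ∀ t : Fin K, (if t.val < k then ({0} : Finset (ZMod 8)) else univ).card *
      (if t.val < k then 8 else 1) = 8 := by
    intro t
    by_cases ht : t.val < k
    · simp [ht]
    · simp [ht, ZMod.card]
  rw [prod_congr rfl (fun t _ => this t)]
  simp

lemma zero_mem_H {K k : ℕ} : (0 : X K) ∈ H K k := by
  rw [mem_H]; intro t _; rfl

lemma card_B_le (K k : ℕ) : (B K k).card ≤ 2 ^ (k + 1) * (H K k).card := by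
  classical
  have : B K k ⊆ ((Finset.Ioo (-(2 ^ k : ℤ)) (2 ^ k)).image (fun z : ℤ => (z : ZMod (2 ^ K)))) ×ˢ H K k := by
    intro g hg
    rw [mem_B] at hg
    obtain ⟨⟨z, hz, hz2⟩, h2⟩ := hg
    rw [mem_product]
    refine ⟨?_, h2⟩
    rw [mem_image]
    refine ⟨z, ?_, hz2⟩
    rw [Finset.mem_Ioo]
    exact abs_lt.mp hz
  refine (card_le_card this).trans ?_
  rw [card_product]
  refine Nat.mul_le_mul_right _ ?_
  refine card_image_le.trans ?_
  rw [Int.card_Ioo]
  have : (2 ^ k - -(2 ^ k : ℤ) - 1).toNat = 2 ^ (k + 1) - 1 := by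
    have h2 : (2 ^ k - -(2 ^ k : ℤ) - 1) = ((2 ^ (k + 1) - 1 : ℕ) : ℤ) := by
      have : 1 ≤ 2 ^ (k + 1) := Nat.one_le_two_pow
      push_cast [this]
      ring
    rw [h2, Int.toNat_natCast]
  rw [this]
  exact Nat.sub_le _ _

open Classical in
/-- elements of the ball around v outside S -/
noncomputable def out {K : ℕ} (S : Finset (Vt K)) (j : ℕ) (v : Vt K) : Finset (Vt K) :=
  univ.filter (fun u => u ∉ S ∧ u - v ∈ B K j)

open Classical in
noncomputable def U {K : ℕ} (S : Finset (Vt K)) (k : ℕ) : Finset (Vt K) :=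
  S.filter (fun v => ∃ j ≤ k, 8 ^ K ≤ 8 * 4 ^ j * (out S j v).card)

open Classical in
noncomputable def cc {K : ℕ} (S : Finset (Vt K)) (i : ZMod (2 ^ K)) : ℕ :=
  (univ.filter (fun x : X K => (i, x) ∉ S)).card

open Classical in
noncomputable def F {K : ℕ} (S : Finset (Vt K)) : Finset (ZMod (2 ^ K)) :=
  univ.filter (fun i => 8 * cc S i < 8 ^ K)

lemma mem_out {K : ℕ} {S : Finset (Vt K)} {j : ℕ} {v u : Vt K} :
    u ∈ out S j v ↔ u ∉ S ∧ u - v ∈ B K j := by
  classical
  simp [out]

lemma mem_U {K : ℕ} {S : Finset (Vt K)} {k : ℕ} {v : Vt K} :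
    v ∈ U S k ↔ v ∈ S ∧ ∃ j ≤ k, 8 ^ K ≤ 8 * 4 ^ j * (out S j v).card := by
  classical
  simp [U]

lemma mem_F {K : ℕ} {S : Finset (Vt K)} {i : ZMod (2 ^ K)} :
    i ∈ F S ↔ 8 * cc S i < 8 ^ K := by
  classical
  simp [F]

lemma cc_le_out {K : ℕ} (S : Finset (Vt K)) (v : Vt K) : cc S v.1 ≤ (out S 0 v).card := by
  classical
  unfold cc
  have : (univ.filter (fun x : X K => (v.1, x) ∉ S)).image (fun x => ((v.1, x) : Vt K)) ⊆ out S 0 v := by
    intro u hu
    rw [mem_image] at hu
    obtain ⟨x, hx, rfl⟩ := hu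
    rw [mem_filter] at hx
    rw [mem_out]
    refine ⟨hx.2, ?_⟩
    rw [mem_B]
    refine ⟨⟨0, by simp, by simp⟩, ?_⟩
    rw [mem_H]
    intro t ht
    omega
  refine le_trans (le_of_eq ?_) (card_le_card this)
  rw [card_image_of_injective]
  intro x y hxy
  simpa using hxy

lemma mem_U_of_notMem_F {K : ℕ} {S : Finset (Vt K)} {k : ℕ} {v : Vt K} (hv : v ∈ S)
    (h : v.1 ∉ F S) : v ∈ U S k := by
  rw [mem_U]
  refine ⟨hv, 0, Nat.zero_le _, ?_⟩
  rw [mem_F] at h
  have := cc_le_out S v
  simp only [pow_zero, mul_one]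
  omega

/-- the part of S outside the nearly full clusters -/
noncomputable def R {K : ℕ} (S : Finset (Vt K)) : Finset (Vt K) := by
  classical
  exact S.filter (fun v => v.1 ∉ F S)

lemma mem_R {K : ℕ} {S : Finset (Vt K)} {v : Vt K} : v ∈ R S ↔ v ∈ S ∧ v.1 ∉ F S := by
  classical
  simp [R]

lemma R_sub {K : ℕ} (S : Finset (Vt K)) (k : ℕ) : R S ⊆ U S k := by
  intro v hv
  rw [mem_R] at hv
  exact mem_U_of_notMem_F hv.1 hv.2

open Classical in
lemma card_shift {K k : ℕ} (y : X K) : (univ.filter (fun x : X K => y - x ∈ H K k)).card = (H K k).card := by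
  have : (univ.filter (fun x : X K => y - x ∈ H K k)) = (H K k).image (fun h => y - h) := by
    ext x
    simp only [mem_filter, mem_univ, true_and, mem_image]
    constructor
    · intro h
      exact ⟨y - x, h, by simp⟩
    · rintro ⟨h, hh, rfl⟩
      simpa using hh
  rw [this, card_image_of_injective]
  intro a b hab
  simpa using hab

open Classical in
lemma card_shift' {K k : ℕ} (x : X K) : (univ.filter (fun y : X K => y - x ∈ H K k)).card = (H K k).card := by
  have : (univ.filter (fun y : X K => y - x ∈ H K k)) = (H K k).image (fun h => h + x) := by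
    ext y
    simp only [mem_filter, mem_univ, true_and, mem_image]
    constructor
    · intro h
      exact ⟨y - x, h, by simp⟩
    · rintro ⟨h, hh, rfl⟩
      simpa using hh
  rw [this, card_image_of_injective]
  intro a b hab
  simpa using hab

open Classical in
/-- window starting at a of length L -/
noncomputable def Win (K L : ℕ) (a : ZMod (2 ^ K)) : Finset (ZMod (2 ^ K)) :=
  univ.filter (fun i => (i - a).val < L)

lemma mem_Win {K L : ℕ} {a i : ZMod (2 ^ K)} : i ∈ Win K L a ↔ (i - a).val < L := by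
  classical
  simp [Win]

lemma win_sub {K k : ℕ} {a i j : ZMod (2 ^ K)} (hi : i ∈ Win K (2 ^ k) a) (hj : j ∈ Win K (2 ^ k) a) :
    ∃ z : ℤ, |z| < 2 ^ k ∧ ((z : ℤ) : ZMod (2 ^ K)) = j - i := by
  rw [mem_Win] at hi hj
  refine ⟨((j - a).val : ℤ) - ((i - a).val : ℤ), ?_, ?_⟩
  · have h1 : ((j - a).val : ℤ) < 2 ^ k := by exact_mod_cast hj
    have h2 : ((i - a).val : ℤ) < 2 ^ k := by exact_mod_cast hi
    have h3 : (0:ℤ) ≤ ((j - a).val : ℤ) := Int.natCast_nonneg _
    have h4 : (0:ℤ) ≤ ((i - a).val : ℤ) := Int.natCast_nonneg _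
    rw [abs_lt]
    constructor <;> linarith
  · push_cast
    rw [ZMod.natCast_zmod_val, ZMod.natCast_zmod_val]
    ring

open Classical in
lemma lemW {K k : ℕ} (hk : k ≤ K) (S : Finset (Vt K)) (a : ZMod (2 ^ K))
    (h1 : 2 ^ k ≤ 4 * ((Win K (2 ^ k) a).filter (fun i => i ∉ F S)).card)
    (h2 : 32 * (R S).card < 2 ^ k * 8 ^ K) :
    5 * 8 ^ K * ((Win K (2 ^ k) a).filter (fun i => i ∈ F S)).card ≤
      8 * ((U S k).filter (fun v => v.1 ∈ Win K (2 ^ k) a)).card := by
  set J := (Win K (2 ^ k) a).filter (fun i => i ∉ F S) with hJ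
  have hHpos : 0 < (H K k).card := card_pos.mpr ⟨0, zero_mem_H⟩
  let gS : X K → ℕ := fun x => ((J ×ˢ (univ : Finset (X K))).filter (fun u => u ∈ S ∧ u.2 - x ∈ H K k)).card
  let gN : X K → ℕ := fun x => ((J ×ˢ (univ : Finset (X K))).filter (fun u => u ∉ S ∧ u.2 - x ∈ H K k)).card
  have hsum : ∀ x, gS x + gN x = J.card * (H K k).card := by
    intro x
    have e : (J ×ˢ (univ : Finset (X K))).filter (fun u => u.2 - x ∈ H K k) =
        J ×ˢ (univ.filter (fun y : X K => y - x ∈ H K k)) := by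
      ext u
      simp only [mem_filter, mem_product, mem_univ, true_and, and_true]
    have e2 : ((J ×ˢ (univ : Finset (X K))).filter (fun u => u.2 - x ∈ H K k)).card = J.card * (H K k).card := by
      rw [e, card_product, card_shift']
    rw [← e2]
    have e3 : ((J ×ˢ (univ : Finset (X K))).filter (fun u => u.2 - x ∈ H K k)) =
        ((J ×ˢ (univ : Finset (X K))).filter (fun u => u ∈ S ∧ u.2 - x ∈ H K k)) ∪
        ((J ×ˢ (univ : Finset (X K))).filter (fun u => u ∉ S ∧ u.2 - x ∈ H K k)) := by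
      ext u
      simp only [mem_filter, mem_union]
      tauto
    rw [e3, card_union_of_disjoint]
    rw [Finset.disjoint_left]
    intro u hu hu2
    rw [mem_filter] at hu hu2
    exact hu2.2.1 hu.2.1
  have hdc : ∑ x, gS x ≤ (R S).card * (H K k).card := by
    have e : ∀ x, gS x = ∑ u ∈ (J ×ˢ (univ : Finset (X K))).filter (fun u => u ∈ S),
        (if u.2 - x ∈ H K k then 1 else 0) := by
      intro x
      show ((J ×ˢ (univ : Finset (X K))).filter (fun u => u ∈ S ∧ u.2 - x ∈ H K k)).card = _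
      rw [← card_filter, filter_filter]
    rw [sum_congr rfl (fun x _ => e x), sum_comm]
    have e2 : ∀ u ∈ (J ×ˢ (univ : Finset (X K))).filter (fun u => u ∈ S),
        ∑ x : X K, (if u.2 - x ∈ H K k then 1 else 0) = (H K k).card := by
      intro u _
      rw [← card_filter, card_shift]
    rw [sum_congr rfl e2, sum_const, smul_eq_mul]
    refine Nat.mul_le_mul_right _ (card_le_card ?_)
    intro u hu
    rw [mem_filter, mem_product, hJ, mem_filter] at hu
    rw [mem_R]
    exact ⟨hu.2, hu.1.1.2⟩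
  let Bad : Finset (X K) := univ.filter (fun x => 8 * gN x < 2 ^ k * (H K k).card)
  have hbad1 : ∀ x ∈ Bad, 2 ^ k * (H K k).card ≤ 8 * gS x := by
    intro x hx
    have hx' : 8 * gN x < 2 ^ k * (H K k).card := by
      simpa [Bad] using hx
    have h3 := hsum x
    have h4 : 2 ^ k * (H K k).card ≤ 4 * J.card * (H K k).card := Nat.mul_le_mul_right _ h1
    have h5 : 4 * J.card * (H K k).card = 4 * (J.card * (H K k).card) := by ring
    omega
  have hbad2 : Bad.card * 2 ^ k ≤ 8 * (R S).card := by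
    have h3 : Bad.card * (2 ^ k * (H K k).card) ≤ 8 * ((R S).card * (H K k).card) := by
      calc Bad.card * (2 ^ k * (H K k).card) = ∑ x ∈ Bad, 2 ^ k * (H K k).card := by
            rw [sum_const, smul_eq_mul]
        _ ≤ ∑ x ∈ Bad, 8 * gS x := sum_le_sum hbad1
        _ ≤ ∑ x, 8 * gS x := sum_le_sum_of_subset (subset_univ _)
        _ = 8 * ∑ x, gS x := by rw [mul_sum]
        _ ≤ _ := Nat.mul_le_mul_left _ hdc
    have h4 : (Bad.card * 2 ^ k) * (H K k).card ≤ (8 * (R S).card) * (H K k).card := by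
      calc (Bad.card * 2 ^ k) * (H K k).card = Bad.card * (2 ^ k * (H K k).card) := by ring
        _ ≤ _ := h3
        _ = _ := by ring
    exact Nat.le_of_mul_le_mul_right h4 hHpos
  have hbad3 : 4 * Bad.card < 8 ^ K := by
    have h3 : 2 ^ k * (4 * Bad.card) < 2 ^ k * 8 ^ K := by
      calc 2 ^ k * (4 * Bad.card) = 4 * (Bad.card * 2 ^ k) := by ring
        _ ≤ 4 * (8 * (R S).card) := Nat.mul_le_mul_left _ hbad2
        _ = 32 * (R S).card := by ring
        _ < _ := h2
    exact Nat.lt_of_mul_lt_mul_left h3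
  have hA : ∀ i ∈ (Win K (2 ^ k) a).filter (fun i => i ∈ F S),
      5 * 8 ^ K ≤ 8 * (univ.filter (fun x : X K => (i, x) ∈ S ∧ x ∉ Bad)).card := by
    intro i hi
    rw [mem_filter, mem_F] at hi
    have hc : (univ : Finset (X K)) ⊆ (univ.filter (fun x : X K => (i, x) ∈ S ∧ x ∉ Bad)) ∪
        ((univ.filter (fun x : X K => (i, x) ∉ S)) ∪ Bad) := by
      intro x _
      simp only [mem_union, mem_filter, mem_univ, true_and]
      tauto
    have h3 := card_le_card hc
    have h4 := h3.trans (card_union_le _ _)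
    have h5 := card_union_le (univ.filter (fun x : X K => (i, x) ∉ S)) Bad
    have h6 : (univ : Finset (X K)).card = 8 ^ K := by rw [card_univ, card_X]
    have h7 : (univ.filter (fun x : X K => (i, x) ∉ S)).card = cc S i := by
      unfold cc; rfl
    rw [h6] at h4
    rw [h7] at h5
    have := hi.2
    omega
  have hU : ((((Win K (2 ^ k) a).filter (fun i => i ∈ F S)) ×ˢ (univ : Finset (X K))).filter
      (fun u => u ∈ S ∧ u.2 ∉ Bad)) ⊆ (U S k).filter (fun v => v.1 ∈ Win K (2 ^ k) a) := by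
    intro u hu
    rw [mem_filter, mem_product, mem_filter] at hu
    obtain ⟨⟨⟨hw, hF⟩, -⟩, hS, hB⟩ := hu
    rw [mem_filter, mem_U]
    refine ⟨⟨hS, k, le_rfl, ?_⟩, hw⟩
    have hB' : 2 ^ k * (H K k).card ≤ 8 * gN u.2 := by
      by_contra hcon
      apply hB
      simp only [Bad, mem_filter, mem_univ, true_and]
      omega
    have hle : gN u.2 ≤ (out S k u).card := by
      apply card_le_card
      intro w hw2
      rw [mem_filter, mem_product, hJ, mem_filter] at hw2
      rw [mem_out, mem_B]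
      exact ⟨hw2.2.1, win_sub hw hw2.1.1.1, hw2.2.2⟩
    calc 8 ^ K = (H K k).card * 8 ^ k := (card_H hk).symm
      _ = 4 ^ k * (2 ^ k * (H K k).card) := by
          have : (8:ℕ) ^ k = 4 ^ k * 2 ^ k := by rw [← mul_pow]; norm_num
          rw [this]; ring
      _ ≤ 4 ^ k * (8 * gN u.2) := Nat.mul_le_mul_left _ hB'
      _ ≤ 4 ^ k * (8 * (out S k u).card) := Nat.mul_le_mul_left _ (Nat.mul_le_mul_left _ hle)
      _ = _ := by ring
  have hcard : ((((Win K (2 ^ k) a).filter (fun i => i ∈ F S)) ×ˢ (univ : Finset (X K))).filter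
      (fun u => u ∈ S ∧ u.2 ∉ Bad)).card = ∑ i ∈ (Win K (2 ^ k) a).filter (fun i => i ∈ F S),
        (univ.filter (fun x : X K => (i, x) ∈ S ∧ x ∉ Bad)).card := by
    rw [card_filter, sum_product]
    refine sum_congr rfl (fun i _ => ?_)
    rw [card_filter]
  calc 5 * 8 ^ K * ((Win K (2 ^ k) a).filter (fun i => i ∈ F S)).card
      = ∑ i ∈ (Win K (2 ^ k) a).filter (fun i => i ∈ F S), 5 * 8 ^ K := by
        rw [sum_const, smul_eq_mul]; ring
    _ ≤ ∑ i ∈ (Win K (2 ^ k) a).filter (fun i => i ∈ F S),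
          8 * (univ.filter (fun x : X K => (i, x) ∈ S ∧ x ∉ Bad)).card := sum_le_sum hA
    _ = 8 * ((((Win K (2 ^ k) a).filter (fun i => i ∈ F S)) ×ˢ (univ : Finset (X K))).filter
      (fun u => u ∈ S ∧ u.2 ∉ Bad)).card := by rw [hcard, mul_sum]
    _ ≤ _ := Nat.mul_le_mul_left _ (card_le_card hU)

open Classical in
lemma card_W0 {K L : ℕ} (hL : L ≤ 2 ^ K) :
    (univ.filter (fun s : ZMod (2 ^ K) => s.val < L)).card = L := by
  have : (univ.filter (fun s : ZMod (2 ^ K) => s.val < L)).image ZMod.val = range L := by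
    ext m
    simp only [mem_image, mem_filter, mem_univ, true_and, mem_range]
    constructor
    · rintro ⟨s, hs, rfl⟩; exact hs
    · intro hm
      refine ⟨(m : ZMod (2 ^ K)), ?_, ?_⟩
      · rw [ZMod.val_natCast, Nat.mod_eq_of_lt (by omega)]; exact hm
      · rw [ZMod.val_natCast, Nat.mod_eq_of_lt (by omega)]
  rw [← card_image_of_injective _ (ZMod.val_injective (2 ^ K)), this, card_range]

open Classical in
lemma card_wins {K L : ℕ} (hL : L ≤ 2 ^ K) (i : ZMod (2 ^ K)) :
    (univ.filter (fun b : ZMod (2 ^ K) => i ∈ Win K L b)).card = L := by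
  have : (univ.filter (fun b : ZMod (2 ^ K) => i ∈ Win K L b)) =
      (univ.filter (fun s : ZMod (2 ^ K) => s.val < L)).image (fun s => i - s) := by
    ext b
    simp only [mem_filter, mem_univ, true_and, mem_image, mem_Win]
    constructor
    · intro h
      exact ⟨i - b, h, by simp⟩
    · rintro ⟨s, hs, rfl⟩
      simpa using hs
  rw [this, card_image_of_injective, card_W0 hL]
  intro a b hab
  simpa using hab

open Classical in
lemma sum_win {K L : ℕ} (hL : L ≤ 2 ^ K) (A : Finset (ZMod (2 ^ K))) :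
    ∑ b : ZMod (2 ^ K), ((Win K L b).filter (fun i => i ∈ A)).card = L * A.card := by
  have e : ∀ b : ZMod (2 ^ K), ((Win K L b).filter (fun i => i ∈ A)).card =
      ∑ i ∈ A, (if i ∈ Win K L b then 1 else 0) := by
    intro b
    rw [← card_filter]
    congr 1
    ext i
    simp only [mem_filter]
    tauto
  rw [sum_congr rfl (fun b _ => e b), sum_comm]
  rw [sum_congr rfl (fun i _ => by rw [← card_filter, card_wins hL])]
  rw [sum_const, smul_eq_mul]; ring

open Classical in
lemma sum_win' {K L : ℕ} (hL : L ≤ 2 ^ K) (A : Finset (Vt K)) :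
    ∑ b : ZMod (2 ^ K), (A.filter (fun v => v.1 ∈ Win K L b)).card = L * A.card := by
  have e : ∀ b : ZMod (2 ^ K), (A.filter (fun v => v.1 ∈ Win K L b)).card =
      ∑ v ∈ A, (if v.1 ∈ Win K L b then 1 else 0) := by
    intro b
    rw [← card_filter]
  rw [sum_congr rfl (fun b _ => e b), sum_comm]
  rw [sum_congr rfl (fun i _ => by rw [← card_filter, card_wins hL])]
  rw [sum_const, smul_eq_mul]; ring

lemma card_Win {K L : ℕ} (hL : L ≤ 2 ^ K) (a : ZMod (2 ^ K)) : (Win K L a).card = L := by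
  classical
  have : Win K L a = (univ.filter (fun s : ZMod (2 ^ K) => s.val < L)).image (fun s => s + a) := by
    ext b
    rw [mem_Win]
    simp only [mem_filter, mem_univ, true_and, mem_image]
    constructor
    · intro h
      exact ⟨b - a, h, by simp⟩
    · rintro ⟨s, hs, rfl⟩
      simpa using hs
  rw [this, card_image_of_injective, card_W0 hL]
  intro a b hab
  simpa using hab

open Classical in
lemma win_succ {K L : ℕ} (a : ZMod (2 ^ K)) : Win K L (a + 1) ⊆ insert (a + (L : ZMod (2 ^ K))) (Win K L a) := by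
  intro i hi
  rw [mem_insert]
  by_cases h : i ∈ Win K L a
  · right; exact h
  · left
    rw [mem_Win] at h hi
    have h1 : i - a = (((i - (a + 1)).val + 1 : ℕ) : ZMod (2 ^ K)) := by
      push_cast
      rw [ZMod.natCast_zmod_val]
      ring
    have h2 : (i - a).val ≤ (i - (a + 1)).val + 1 := by
      rw [h1, ZMod.val_natCast]
      have h3 : (i - (a + 1)).val + 1 ≤ (i - (a+1)).val + 1 := le_rfl
      exact (Nat.mod_le _ _)
    have h4 : (i - a).val = L := by omega
    have h5 : i - a = (L : ZMod (2 ^ K)) := by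
      rw [← h4, ZMod.natCast_zmod_val]
    rw [← h5]; ring

open Classical in
lemma card_S_split {K : ℕ} (S : Finset (Vt K)) : S.card ≤ 8 ^ K * (F S).card + (R S).card := by
  have h : S ⊆ ((F S) ×ˢ (univ : Finset (X K))) ∪ R S := by
    intro v hv
    rw [mem_union, mem_product, mem_R]
    by_cases h : v.1 ∈ F S
    · left; exact ⟨h, mem_univ _⟩
    · right; exact ⟨hv, h⟩
  refine (card_le_card h).trans ((card_union_le _ _).trans ?_)
  rw [card_product, card_univ, card_X, mul_comm]

open Classical in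
lemma card_F_le {K : ℕ} (S : Finset (Vt K)) : 7 * 8 ^ K * (F S).card ≤ 8 * S.card := by
  have h : ((F S ×ˢ (univ : Finset (X K))).filter (fun u => u ∈ S)).card ≤ S.card := by
    apply card_le_card
    intro u hu
    rw [mem_filter] at hu
    exact hu.2
  have h2 : ((F S ×ˢ (univ : Finset (X K))).filter (fun u => u ∈ S)).card =
      ∑ i ∈ F S, (univ.filter (fun x : X K => (i, x) ∈ S)).card := by
    rw [card_filter, sum_product]
    refine sum_congr rfl (fun i _ => ?_)
    rw [card_filter]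
  have h3 : ∀ i ∈ F S, 7 * 8 ^ K ≤ 8 * (univ.filter (fun x : X K => (i, x) ∈ S)).card := by
    intro i hi
    rw [mem_F] at hi
    have h4 : (univ.filter (fun x : X K => (i, x) ∈ S)).card + cc S i = 8 ^ K := by
      unfold cc
      rw [← card_X K, ← card_univ]
      rw [← card_union_of_disjoint]
      · congr 1
        ext x
        simp only [mem_union, mem_filter, mem_univ, true_and, iff_true]
        tauto
      · rw [Finset.disjoint_left]
        intro x hx hx2
        rw [mem_filter] at hx hx2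
        exact hx2.2 hx.2
    omega
  calc 7 * 8 ^ K * (F S).card = ∑ i ∈ F S, 7 * 8 ^ K := by rw [sum_const, smul_eq_mul]; ring
    _ ≤ ∑ i ∈ F S, 8 * (univ.filter (fun x : X K => (i, x) ∈ S)).card := sum_le_sum h3
    _ = 8 * ((F S ×ˢ (univ : Finset (X K))).filter (fun u => u ∈ S)).card := by rw [h2, mul_sum]
    _ ≤ _ := Nat.mul_le_mul_left _ h

theorem main {K k : ℕ} (hk2 : 2 ≤ k) (hk : k ≤ K) (S : Finset (Vt K)) (hS : S.Nonempty)
    (hhalf : 2 * S.card ≤ 2 ^ K * 8 ^ K) : 2 ^ k * S.card ≤ 16 * 2 ^ K * (U S k).card := by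
  classical
  by_contra hcon
  push Not at hcon
  have hL : 2 ^ k ≤ 2 ^ K := Nat.pow_le_pow_right (by norm_num) hk
  have hSpos : 0 < S.card := card_pos.mpr hS
  have hn : 0 < 2 ^ K := by positivity
  have hM : 0 < 8 ^ K := by positivity
  have hRU : (R S).card ≤ (U S k).card := card_le_card (R_sub S k)
  have hU32 : 32 * (U S k).card < 2 ^ k * 8 ^ K := by
    have h1 : 2 ^ K * (32 * (U S k).card) < 2 ^ K * (2 ^ k * 8 ^ K) := by
      calc 2 ^ K * (32 * (U S k).card) = 2 * (16 * 2 ^ K * (U S k).card) := by ring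
        _ < 2 * (2 ^ k * S.card) := by omega
        _ = 2 ^ k * (2 * S.card) := by ring
        _ ≤ 2 ^ k * (2 ^ K * 8 ^ K) := Nat.mul_le_mul_left _ hhalf
        _ = _ := by ring
    exact Nat.lt_of_mul_lt_mul_left h1
  have hR32 : 32 * (R S).card < 2 ^ k * 8 ^ K := by omega
  have hLpos : 0 < 2 ^ k := by positivity
  by_cases hall : ∀ b : ZMod (2 ^ K), 2 ^ k ≤ 4 * ((Win K (2 ^ k) b).filter (fun i => i ∉ F S)).card
  · -- case 1
    have h1 : ∑ b : ZMod (2 ^ K), 5 * 8 ^ K * ((Win K (2 ^ k) b).filter (fun i => i ∈ F S)).card ≤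
        ∑ b : ZMod (2 ^ K), 8 * ((U S k).filter (fun v => v.1 ∈ Win K (2 ^ k) b)).card :=
      sum_le_sum (fun b _ => lemW hk S b (hall b) hR32)
    rw [← mul_sum, ← mul_sum, sum_win hL, sum_win' hL] at h1
    have h2 : 5 * 8 ^ K * (F S).card ≤ 8 * (U S k).card := by
      have h3 : 2 ^ k * (5 * 8 ^ K * (F S).card) ≤ 2 ^ k * (8 * (U S k).card) := by
        calc 2 ^ k * (5 * 8 ^ K * (F S).card) = 5 * 8 ^ K * (2 ^ k * (F S).card) := by ring
          _ ≤ _ := h1
          _ = _ := by ring
      exact Nat.le_of_mul_le_mul_left h3 hLpos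
    have h4 := card_S_split S
    have h5 : 16 * (U S k).card < S.card := by
      have h6 : 2 ^ K * (16 * (U S k).card) < 2 ^ K * S.card := by
        calc 2 ^ K * (16 * (U S k).card) = 16 * 2 ^ K * (U S k).card := by ring
          _ < 2 ^ k * S.card := hcon
          _ ≤ 2 ^ K * S.card := Nat.mul_le_mul_right _ hL
      exact Nat.lt_of_mul_lt_mul_left h6
    have h7 : 5 * 8 ^ K * (F S).card = 5 * (8 ^ K * (F S).card) := by ring
    omega
  · push Not at hall
    obtain ⟨a, ha⟩ := hall
    -- some window has many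
    have hex : ∃ b : ZMod (2 ^ K), 2 ^ k ≤ 4 * ((Win K (2 ^ k) b).filter (fun i => i ∉ F S)).card := by
      by_contra hno
      push Not at hno
      have h1 : ∑ b : ZMod (2 ^ K), (4 * ((Win K (2 ^ k) b).filter (fun i => i ∉ F S)).card + 1) ≤
          ∑ b : ZMod (2 ^ K), 2 ^ k := sum_le_sum (fun b _ => hno b)
      have h2 : ∑ b : ZMod (2 ^ K), ((Win K (2 ^ k) b).filter (fun i => i ∉ F S)).card =
          2 ^ k * ((F S)ᶜ).card := by
        rw [← sum_win hL]
        refine sum_congr rfl (fun b _ => ?_)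
        congr 1
        ext i
        simp only [mem_filter, mem_compl]
      rw [sum_add_distrib, ← mul_sum, h2] at h1
      simp only [sum_const, card_univ, ZMod.card, smul_eq_mul, mul_one] at h1
      have h3 : 4 * ((F S)ᶜ).card < 2 ^ K := by
        have h4 : 2 ^ k * (4 * ((F S)ᶜ).card) < 2 ^ k * 2 ^ K := by
          have e1 : 2 ^ k * (4 * ((F S)ᶜ).card) = 4 * (2 ^ k * ((F S)ᶜ).card) := by ring
          have e2 : 2 ^ k * 2 ^ K = 2 ^ K * 2 ^ k := by ring
          rw [e1, e2]
          omega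
        exact Nat.lt_of_mul_lt_mul_left h4
      have h5 : ((F S)ᶜ).card = 2 ^ K - (F S).card := by
        rw [card_compl, ZMod.card]
      have h6 : (F S).card ≤ 2 ^ K := by
        have := card_le_univ (F S)
        rwa [ZMod.card] at this
      have h7 := card_F_le S
      have h8 : 8 ^ K * (14 * (F S).card) ≤ 8 ^ K * (8 * 2 ^ K) := by
        calc 8 ^ K * (14 * (F S).card) = 2 * (7 * 8 ^ K * (F S).card) := by ring
          _ ≤ 2 * (8 * S.card) := Nat.mul_le_mul_left _ h7
          _ = 8 * (2 * S.card) := by ring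
          _ ≤ 8 * (2 ^ K * 8 ^ K) := Nat.mul_le_mul_left _ hhalf
          _ = _ := by ring
      have h9 : 14 * (F S).card ≤ 8 * 2 ^ K := Nat.le_of_mul_le_mul_left h8 hM
      omega
    obtain ⟨b, hb⟩ := hex
    let q : ℕ → ℕ := fun t => ((Win K (2 ^ k) (a + (t : ZMod (2 ^ K)))).filter (fun i => i ∉ F S)).card
    have hq : ∃ t, 2 ^ k ≤ 4 * q t := by
      refine ⟨(b - a).val, ?_⟩
      show 2 ^ k ≤ 4 * ((Win K (2 ^ k) (a + (((b - a).val : ℕ) : ZMod (2 ^ K)))).filter (fun i => i ∉ F S)).card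
      rw [ZMod.natCast_zmod_val]
      have : a + (b - a) = b := by ring
      rw [this]
      exact hb
    have hq0 : 4 * q 0 < 2 ^ k := by
      show 4 * ((Win K (2 ^ k) (a + ((0 : ℕ) : ZMod (2 ^ K)))).filter (fun i => i ∉ F S)).card < 2 ^ k
      rw [Nat.cast_zero, add_zero]
      exact ha
    have hstep : ∀ t, q (t + 1) ≤ q t + 1 := by
      intro t
      show ((Win K (2 ^ k) (a + ((t + 1 : ℕ) : ZMod (2 ^ K)))).filter (fun i => i ∉ F S)).card ≤
        ((Win K (2 ^ k) (a + ((t : ℕ) : ZMod (2 ^ K)))).filter (fun i => i ∉ F S)).card + 1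
      have e : a + ((t + 1 : ℕ) : ZMod (2 ^ K)) = (a + (t : ZMod (2 ^ K))) + 1 := by
        push_cast; ring
      rw [e]
      have hsub : (Win K (2 ^ k) ((a + (t : ZMod (2 ^ K))) + 1)).filter (fun i => i ∉ F S) ⊆
          insert ((a + (t : ZMod (2 ^ K))) + ((2 ^ k : ℕ) : ZMod (2 ^ K)))
            ((Win K (2 ^ k) (a + (t : ZMod (2 ^ K)))).filter (fun i => i ∉ F S)) := by
        intro i hi
        rw [mem_filter] at hi
        have := win_succ _ hi.1
        rw [mem_insert] at this ⊢
        rcases this with h | h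
        · left; exact h
        · right; rw [mem_filter]; exact ⟨h, hi.2⟩
      exact (card_le_card hsub).trans (card_insert_le _ _)
    obtain ⟨L', hL'⟩ : ∃ L', 2 ^ k = 4 * L' := by
      refine ⟨2 ^ (k - 2), ?_⟩
      have : k = (k - 2) + 2 := by omega
      conv_lhs => rw [this, pow_add]
      ring
    have hfind := Nat.find_spec hq
    have hmin : ∀ m, m < Nat.find hq → ¬ (2 ^ k ≤ 4 * q m) := fun m hm => Nat.find_min hq hm
    have hne : Nat.find hq ≠ 0 := by
      intro h0
      rw [h0] at hfind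
      omega
    obtain ⟨s, hs⟩ := Nat.exists_eq_succ_of_ne_zero hne
    have h1 := hmin s (by omega)
    have h2 := hstep s
    rw [hs] at hfind
    have h3 : q (s + 1) = L' := by
      have : Nat.succ s = s + 1 := rfl
      rw [this] at hfind
      omega
    set c : ZMod (2 ^ K) := a + ((s + 1 : ℕ) : ZMod (2 ^ K)) with hc
    have h4 : ((Win K (2 ^ k) c).filter (fun i => i ∉ F S)).card = L' := h3
    have h5 : ((Win K (2 ^ k) c).filter (fun i => i ∈ F S)).card = 3 * L' := by
      have h6 : ((Win K (2 ^ k) c).filter (fun i => i ∈ F S)).card +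
          ((Win K (2 ^ k) c).filter (fun i => i ∉ F S)).card = (Win K (2 ^ k) c).card := by
        rw [← card_union_of_disjoint]
        · congr 1
          ext i
          simp only [mem_union, mem_filter]
          tauto
        · rw [Finset.disjoint_left]
          intro i hi hi2
          rw [mem_filter] at hi hi2
          exact hi2.2 hi.2
      rw [card_Win hL, h4] at h6
      omega
    have h7 := lemW hk S c (by rw [h4]; omega) hR32
    rw [h5] at h7
    have h8 : ((U S k).filter (fun v => v.1 ∈ Win K (2 ^ k) c)).card ≤ (U S k).card :=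
      card_le_card (filter_subset _ _)
    have h9 : 15 * (8 ^ K * L') ≤ 8 * (U S k).card := by
      calc 15 * (8 ^ K * L') = 5 * 8 ^ K * (3 * L') := by ring
        _ ≤ _ := h7
        _ ≤ _ := Nat.mul_le_mul_left _ h8
    have h10 : 32 * (U S k).card < 4 * (8 ^ K * L') := by
      calc 32 * (U S k).card < 2 ^ k * 8 ^ K := hU32
        _ = 4 * (8 ^ K * L') := by rw [hL']; ring
    omega

end Pool.Agent.V11117.HT
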