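import Mathlib
import Pool.Agent.V11117.MExp2
import Pool.Agent.V11117.FRDef

/-!
A graph on `2 + 4 * 7990` vertices with balanced fractional revival between the non-cospectral
vertices `inl false` and `inl true`. The support eigenvalues are `40 + m r` with
`m ∈ {101, 1, -95}` and `r = ±√2`.
-/

namespace Pool.Agent.V11117.FRBal

open Matrix Finset Pool.Agent.V11117 Pool.Agent.V11117.FRDef

instance : NeZero 7990 := ⟨by norm_num⟩

/-- the vertices: two special ones and four cells of size 7990 -/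
abbrev Vt := Bool ⊕ (Fin 4 × ZMod 7990)

/-- difference sets between the cells -/
def D : Fin 4 → Fin 4 → Finset ℕ
  | 0, 0 => Icc 1 19 ∪ Icc 7971 7989
  | 0, 1 => Icc 0 5
  | 0, 2 => Icc 0 95
  | 1, 0 => {0} ∪ Icc 7985 7989
  | 1, 1 => Icc 1 13 ∪ Icc 7977 7989
  | 1, 3 => Icc 0 95
  | 2, 0 => {0} ∪ Icc 7895 7989
  | 2, 2 => Icc 1 44 ∪ Icc 7946 7989 ∪ {3995}
  | 2, 3 => {0}
  | 3, 1 => {0} ∪ Icc 7895 7989
  | 3, 2 => {0}
  | 3, 3 => Icc 1 43 ∪ Icc 7947 7989 ∪ {3995}
  | _, _ => ∅

/-- adjacency -/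
def adj : Vt → Vt → Bool
  | Sum.inl s, Sum.inr (c, _) => (s == false && c == 0) || (s == true && c == 1)
  | Sum.inr (c, _), Sum.inl s => (s == false && c == 0) || (s == true && c == 1)
  | Sum.inr (c, i), Sum.inr (d, j) => decide ((j - i).val ∈ D c d)
  | _, _ => false

lemma D_symm (c d : Fin 4) (z : ZMod 7990) (h : z.val ∈ D c d) : (-z).val ∈ D d c := by
  have hz := ZMod.val_lt z
  rw [ZMod.neg_val]
  by_cases h0 : z = 0
  · subst h0
    rw [if_pos rfl]
    rw [ZMod.val_zero] at h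
    fin_cases c <;> fin_cases d <;> simp [D] at h ⊢
  · rw [if_neg h0]
    have hz0 : z.val ≠ 0 := fun h1 => h0 ((ZMod.val_eq_zero z).1 h1)
    fin_cases c <;> fin_cases d <;>
      simp only [D, Finset.mem_union, Finset.mem_Icc, Finset.mem_singleton,
        Finset.notMem_empty, Fin.zero_eta, Fin.mk_one, Fin.reduceFinMk] at h ⊢ <;> omega

lemma D_irrefl (c : Fin 4) : 0 ∉ D c c := by
  fin_cases c <;> simp [D]

/-- the graph -/
def X : SimpleGraph Vt where
  Adj x y := adj x y = true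
  symm := ⟨by
    rintro (s | ⟨c, i⟩) (t | ⟨d, j⟩) h
    · exact h
    · exact h
    · exact h
    · have h1 : (j - i).val ∈ D c d := of_decide_eq_true h
      have h2 := D_symm c d _ h1
      rw [neg_sub] at h2
      exact decide_eq_true h2⟩
  loopless := ⟨by
    rintro (s | ⟨c, i⟩) h
    · exact absurd h (by simp [adj])
    · have h1 : (i - i).val ∈ D c c := of_decide_eq_true h
      rw [sub_self, ZMod.val_zero] at h1
      exact D_irrefl c h1⟩

instance : DecidableRel X.Adj := fun x y => inferInstanceAs (Decidable (adj x y = true))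

/-- the first vertex -/
def va : Vt := Sum.inl false

/-- the second vertex -/
def vb : Vt := Sum.inl true

/-- cells of the equitable partition -/
def cell : Vt → Fin 6
  | Sum.inl false => 0
  | Sum.inl true => 1
  | Sum.inr (0, _) => 2
  | Sum.inr (1, _) => 3
  | Sum.inr (2, _) => 4
  | Sum.inr (3, _) => 5

/-- the quotient matrix -/
def B : Matrix (Fin 6) (Fin 6) ℤ :=
  !![0, 0, 7990, 0, 0, 0;
     0, 0, 0, 7990, 0, 0;
     1, 0, 38, 6, 96, 0;
     0, 1, 6, 26, 0, 96;
     0, 0, 96, 0, 89, 1;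
     0, 0, 0, 96, 1, 87]

/-- integer adjacency matrix -/
def AZ : Matrix Vt Vt ℤ := Matrix.of fun x y => if adj x y = true then 1 else 0

lemma D_lt (c d : Fin 4) : ∀ k ∈ D c d, k < 7990 := by
  intro k hk
  fin_cases c <;> fin_cases d <;> simp [D] at hk <;> omega

lemma count_gen {n : ℕ} [NeZero n] (S : Finset ℕ) (hS : ∀ k ∈ S, k < n) (i : ZMod n) :
    ∑ j : ZMod n, (if (j - i).val ∈ S then (1 : ℤ) else 0) = S.card := by
  have h1 : ∑ j : ZMod n, (if (j - i).val ∈ S then (1 : ℤ) else 0) =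
      ∑ z : ZMod n, (if z.val ∈ S then (1 : ℤ) else 0) :=
    Equiv.sum_comp (Equiv.subRight i) (fun z => if z.val ∈ S then (1 : ℤ) else 0)
  rw [h1, Finset.sum_boole]
  congr 1
  refine Finset.card_bij (fun z _ => z.val) ?_ ?_ ?_
  · intro z hz
    exact (Finset.mem_filter.1 hz).2
  · intro z _ w _ h
    exact ZMod.val_injective _ h
  · intro k hk
    refine ⟨(k : ZMod n), ?_, ZMod.val_cast_of_lt (hS k hk)⟩
    rw [Finset.mem_filter]
    refine ⟨Finset.mem_univ _, ?_⟩
    rw [ZMod.val_cast_of_lt (hS k hk)]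
    exact hk

lemma count (c d : Fin 4) (i : ZMod 7990) :
    ∑ j : ZMod 7990, (if (j - i).val ∈ D c d then (1 : ℤ) else 0) = (D c d).card :=
  count_gen (D c d) (D_lt c d) i

lemma count' (c d : Fin 4) (i : ZMod 7990) :
    ∑ j : ZMod 7990, AZ (Sum.inr (c, i)) (Sum.inr (d, j)) = (D c d).card := by
  rw [← count c d i]
  refine Finset.sum_congr rfl fun j _ => ?_
  simp [AZ, adj]

lemma cards : (D 0 0).card = 38 ∧ (D 0 1).card = 6 ∧ (D 0 2).card = 96 ∧ (D 0 3).card = 0 ∧
    (D 1 0).card = 6 ∧ (D 1 1).card = 26 ∧ (D 1 2).card = 0 ∧ (D 1 3).card = 96 ∧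
    (D 2 0).card = 96 ∧ (D 2 1).card = 0 ∧ (D 2 2).card = 89 ∧ (D 2 3).card = 1 ∧
    (D 3 0).card = 0 ∧ (D 3 1).card = 96 ∧ (D 3 2).card = 1 ∧ (D 3 3).card = 87 := by
  decide +kernel

lemma cells : ∀ (x : Vt) (k : Fin 6),
    ∑ y, (if cell y = k then AZ x y else 0) = B (cell x) k := by
  obtain ⟨h00, h01, h02, h03, h10, h11, h12, h13, h20, h21, h22, h23, h30, h31, h32, h33⟩ := cards
  have hz : ∀ (c d : Fin 4) (i : ZMod 7990) (k : Fin 6),
      ∑ j : ZMod 7990, (if cell (Sum.inr (d, j)) = k then AZ (Sum.inr (c, i)) (Sum.inr (d, j))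
        else 0) = if cell (Sum.inr (d, 0)) = k then ((D c d).card : ℤ) else 0 := by
    intro c d i k
    have hc : ∀ j : ZMod 7990, cell (Sum.inr (d, j)) = cell (Sum.inr (d, 0)) := by
      intro j
      fin_cases d <;> rfl
    by_cases h : cell (Sum.inr (d, 0)) = k
    · rw [if_pos h, ← count' c d i]
      refine Finset.sum_congr rfl fun j _ => ?_
      rw [hc, if_pos h]
    · rw [if_neg h]
      apply Finset.sum_eq_zero
      intro j _
      rw [hc, if_neg h]
  rintro (s | ⟨c, i⟩) k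
  · rw [Fintype.sum_sum_type, Fintype.sum_prod_type, Fin.sum_univ_four, Fintype.sum_bool]
    cases s <;> fin_cases k <;> simp [cell, AZ, adj, B]
  · rw [Fintype.sum_sum_type, Fintype.sum_prod_type, Fin.sum_univ_four, Fintype.sum_bool]
    rw [hz, hz, hz, hz]
    fin_cases c <;> fin_cases k <;>
      simp [cell, AZ, adj, B, h00, h01, h02, h03, h10, h11, h12, h13, h20, h21, h22, h23, h30,
        h31, h32, h33]

lemma adj_eq (R : Type) [CommRing R] : X.adjMatrix R = AZ.map (Int.castRingHom R) := by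
  ext x y
  rw [SimpleGraph.adjMatrix_apply, Matrix.map_apply, AZ, Matrix.of_apply]
  by_cases h : adj x y = true
  · rw [if_pos h, if_pos (show X.Adj x y from h)]
    simp
  · rw [if_neg h, if_neg (show ¬ X.Adj x y from h)]
    simp

lemma mulVec_cell {R : Type} [CommRing R] (w : Fin 6 → R) :
    X.adjMatrix R *ᵥ (w ∘ cell) = ((B.map (Int.castRingHom R)) *ᵥ w) ∘ cell := by
  rw [adj_eq]
  exact MExp.quotient_mulVec AZ B cell cells w

lemma B_mul {R : Type} [CommRing R] (w : Fin 6 → R) : (B.map (Int.castRingHom R)) *ᵥ w =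
    ![7990 * w 2, 7990 * w 3, w 0 + 38 * w 2 + 6 * w 3 + 96 * w 4,
      w 1 + 6 * w 2 + 26 * w 3 + 96 * w 5, 96 * w 2 + 89 * w 4 + w 5,
      96 * w 3 + w 4 + 87 * w 5] := by
  funext i
  fin_cases i <;>
    simp [B, Matrix.mulVec, dotProduct, Fin.sum_univ_six, Matrix.map_apply]

variable {R : Type} [Field R] [CharZero R]

/-- component vectors -/
def w (r p q s : R) : Fin 6 → R := ![p, (r - 1) * p, q, (r - 1) * q, s, (r - 1) * s]

/-- component for the eigenvalue `40 + 101 r` -/
def w1 (r : R) : Fin 6 → R :=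
  w r ((9400 - 3760 * r) / 39200) ((-48 + 100 * r) / 39200) (96 / 39200)

/-- component for the eigenvalue `40 + r` -/
def w2 (r : R) : Fin 6 → R :=
  w r ((9600 - 240 * r) / 19200) (48 / 19200) (-96 / 19200)

/-- component for the eigenvalue `40 - 95 r` -/
def w3 (r : R) : Fin 6 → R :=
  w r ((9792 + 4080 * r) / 37632) ((-48 - 96 * r) / 37632) (96 / 37632)

/-- the two-point vector -/
def F (r : R) : Fin 6 → R := ![1, r - 1, 0, 0, 0, 0]

lemma F_eq (r : R) : F r = w1 r + w2 r + w3 r := by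
  funext i
  fin_cases i <;> simp [F, w1, w2, w3, w] <;> field_simp <;> ring

/-- eigenvector equation, reduced to three scalar identities -/
lemma w_eig (r θ p q s : R) (hr : r ^ 2 = 2) (h1 : 7990 * q = θ * p)
    (h2 : p + (32 + 6 * r) * q + 96 * s = θ * q) (h3 : 96 * q + (88 + r) * s = θ * s) :
    (B.map (Int.castRingHom R)) *ᵥ (w r p q s) = θ • w r p q s := by
  rw [B_mul]
  funext i
  fin_cases i
  · simp [w]; linear_combination h1
  · simp [w]; linear_combination (r - 1) * h1
  · simp [w]; linear_combination h2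
  · simp [w]; linear_combination (r - 1) * h2 - 6 * q * hr
  · simp [w]; linear_combination h3
  · simp [w]; linear_combination (r - 1) * h3 - s * hr

lemma w1_eig (r : R) (hr : r ^ 2 = 2) :
    (B.map (Int.castRingHom R)) *ᵥ (w1 r) = (40 + 101 * r) • w1 r := by
  apply w_eig r _ _ _ _ hr
  · field_simp; linear_combination (3760 * 101 : R) * hr
  · field_simp; linear_combination (-9500 : R) * hr
  · field_simp; ring

lemma w2_eig (r : R) (hr : r ^ 2 = 2) :
    (B.map (Int.castRingHom R)) *ᵥ (w2 r) = (40 + r) • w2 r := by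
  apply w_eig r _ _ _ _ hr
  · field_simp; linear_combination (240 : R) * hr
  · field_simp; ring
  · field_simp; ring

lemma w3_eig (r : R) (hr : r ^ 2 = 2) :
    (B.map (Int.castRingHom R)) *ᵥ (w3 r) = (40 - 95 * r) • w3 r := by
  apply w_eig r _ _ _ _ hr
  · field_simp; linear_combination (4080 * 95 : R) * hr
  · field_simp; linear_combination (-9696 : R) * hr
  · field_simp; ring

end Pool.Agent.V11117.FRBal
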