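import Mathlib
import Pool.Agent.V11117.Spec

namespace Pool.Agent.V11117.Top

open Matrix Finset Pool.Agent.V11117

variable {V : Type*} [Fintype V] [DecidableEq V] {A : Matrix V V ℝ}

lemma quad (hA : A.IsHermitian) (x : V → ℝ) : ∃ c : V → ℝ,
    x ⬝ᵥ (A *ᵥ x) = ∑ i, hA.eigenvalues i * c i ^ 2 ∧ x ⬝ᵥ x = ∑ i, c i ^ 2 := by
  obtain ⟨U, h1, h2, h3⟩ := Spec.spec hA
  have hX : ∀ (D : V → ℝ) (x : V → ℝ), x ⬝ᵥ ((U * diagonal D * Uᵀ) *ᵥ x)
      = ∑ i, D i * ((Uᵀ *ᵥ x) i) ^ 2 := by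
    intro D x
    rw [← Matrix.mulVec_mulVec, ← Matrix.mulVec_mulVec, Matrix.dotProduct_mulVec,
      ← Matrix.mulVec_transpose, dotProduct]
    refine Finset.sum_congr rfl fun i _ => ?_
    rw [Matrix.mulVec_diagonal]
    ring
  refine ⟨Uᵀ *ᵥ x, ?_, ?_⟩
  · have := hX hA.eigenvalues x
    rw [← h3] at this
    exact this
  · have := hX (fun _ => 1) x
    rw [Matrix.diagonal_one, Matrix.mul_one, h2, Matrix.one_mulVec] at this
    simpa using this

/-- eigenvalue set -/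
def evs (A : Matrix V V ℝ) : Set ℝ := {t : ℝ | ∃ y : V → ℝ, y ≠ 0 ∧ A *ᵥ y = t • y}

lemma evs_eq (hA : A.IsHermitian) : evs A = Set.range hA.eigenvalues := by
  ext t
  constructor
  · rintro ⟨y, hy, h⟩
    exact Spec.exists_index hA hy h
  · rintro ⟨i, rfl⟩
    exact Spec.exists_vec hA i

lemma bdd (hA : A.IsHermitian) : BddAbove (evs A) := by
  rw [evs_eq hA]
  exact (Set.finite_range _).bddAbove

lemma quad_le (hA : A.IsHermitian) (x : V → ℝ) : x ⬝ᵥ (A *ᵥ x) ≤ sSup (evs A) * (x ⬝ᵥ x) := by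
  obtain ⟨c, h1, h2⟩ := quad hA x
  rw [h1, h2, Finset.mul_sum]
  refine Finset.sum_le_sum fun i _ => mul_le_mul_of_nonneg_right ?_ (sq_nonneg _)
  exact le_csSup (bdd hA) (Spec.exists_vec hA i)

lemma sSup_le_of [Nonempty V] (hA : A.IsHermitian) (c : ℝ)
    (h : ∀ x, x ⬝ᵥ (A *ᵥ x) ≤ c * (x ⬝ᵥ x)) : sSup (evs A) ≤ c := by
  apply csSup_le
  · obtain ⟨i⟩ := (inferInstance : Nonempty V)
    exact ⟨_, Spec.exists_vec hA i⟩
  · rintro t ⟨y, hy, hty⟩
    have h1 := h y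
    rw [hty, dotProduct_smul, smul_eq_mul] at h1
    have h2 : 0 < y ⬝ᵥ y := by
      have h3 : 0 ≤ y ⬝ᵥ y := by
        rw [dotProduct]
        exact Finset.sum_nonneg fun i _ => mul_self_nonneg _
      refine lt_of_le_of_ne h3 fun h4 => hy ?_
      exact dotProduct_self_eq_zero.mp h4.symm
    exact le_of_mul_le_mul_right h1 h2

/-- Laplacian of a weight matrix -/
lemma lap_quad (W : Matrix V V ℝ) (hW : ∀ u v, W u v = W v u) (x : V → ℝ) :
    x ⬝ᵥ ((Matrix.diagonal (fun u => ∑ v, W u v) - W) *ᵥ x)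
      = 1 / 2 * ∑ u, ∑ v, W u v * (x u - x v) ^ 2 := by
  rw [Matrix.sub_mulVec, dotProduct_sub]
  have e1 : x ⬝ᵥ (Matrix.diagonal (fun u => ∑ v, W u v) *ᵥ x) = ∑ u, ∑ v, W u v * x u ^ 2 := by
    rw [dotProduct]
    refine Finset.sum_congr rfl fun u _ => ?_
    rw [Matrix.mulVec_diagonal, ← mul_assoc, mul_comm (x u), mul_assoc, Finset.sum_mul]
    exact Finset.sum_congr rfl fun v _ => by ring
  have e2 : x ⬝ᵥ (W *ᵥ x) = ∑ u, ∑ v, W u v * (x u * x v) := by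
    rw [dotProduct]
    refine Finset.sum_congr rfl fun u _ => ?_
    rw [Matrix.mulVec, dotProduct, Finset.mul_sum]
    exact Finset.sum_congr rfl fun v _ => by ring
  have e3 : ∑ u, ∑ v, W u v * x u ^ 2 = ∑ u, ∑ v, W u v * x v ^ 2 := by
    rw [Finset.sum_comm]
    refine Finset.sum_congr rfl fun u _ => Finset.sum_congr rfl fun v _ => ?_
    rw [hW]
  have e4 : ∑ u, ∑ v, W u v * (x u - x v) ^ 2
      = ∑ u, ∑ v, W u v * x u ^ 2 + ∑ u, ∑ v, W u v * x v ^ 2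
        - 2 * ∑ u, ∑ v, W u v * (x u * x v) := by
    rw [Finset.mul_sum, ← Finset.sum_add_distrib, ← Finset.sum_sub_distrib]
    refine Finset.sum_congr rfl fun u _ => ?_
    rw [Finset.mul_sum, ← Finset.sum_add_distrib, ← Finset.sum_sub_distrib]
    exact Finset.sum_congr rfl fun v _ => by ring
  rw [e1, e2, e4, ← e3]
  ring

end Pool.Agent.V11117.Top
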