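import Mathlib
import Pool.Agent.V11117.MExp2

/-!
A graph on 66 vertices with fractional revival between the non-cospectral vertices
`(false, none)` and `(true, none)`. The support eigenvalues are `6 ± 2√5 + 8√2 * {-1, 0, 1}`.
-/

namespace Pool.Agent.V11117.FR66

open Matrix Finset Pool.Agent.V11117

/-- base vertices: the root `none`, and two cells with 16 vertices each -/
abbrev Bs := Option (Bool × Fin 4 × Fin 4)

/-- the vertices: two copies of the base -/
abbrev Vt := Bool × Bs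

/-- edges inside each copy -/
def qAdj : Bs → Bs → Bool
  | none, some (false, _) => true
  | some (false, _), none => true
  | some (false, (i, _)), some (true, (j, _)) => i == j
  | some (true, (i, _)), some (false, (j, _)) => i == j
  | some (true, (i, _)), some (true, (j, _)) => i != j
  | _, _ => false

/-- edges inside the first copy and between the copies -/
def kAdj : Bs → Bs → Bool
  | some (false, (i, _)), some (false, (j, _)) => i != j
  | _, _ => false

/-- adjacency -/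
def adj (x y : Vt) : Bool := (x.1 == y.1 && qAdj x.2 y.2) || (kAdj x.2 y.2 && !(x.1 && y.1))

/-- the graph -/
def X : SimpleGraph Vt where
  Adj x y := adj x y = true
  symm := ⟨by decide +kernel⟩
  loopless := ⟨by decide +kernel⟩

instance : DecidableRel X.Adj := fun x y => inferInstanceAs (Decidable (adj x y = true))

/-- the first vertex -/
def va : Vt := (false, none)

/-- the second vertex -/
def vb : Vt := (true, none)

/-- cells of the equitable partition -/
def cell : Vt → Fin 6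
  | (false, none) => 0
  | (false, some (false, _)) => 1
  | (false, some (true, _)) => 2
  | (true, none) => 3
  | (true, some (false, _)) => 4
  | (true, some (true, _)) => 5

/-- the quotient matrix -/
def B : Matrix (Fin 6) (Fin 6) ℤ :=
  !![0, 16, 0, 0, 0, 0;
     1, 12, 4, 0, 12, 0;
     0, 4, 12, 0, 0, 0;
     0, 0, 0, 0, 16, 0;
     0, 12, 0, 1, 0, 4;
     0, 0, 0, 0, 4, 12]

/-- integer adjacency matrix -/
def AZ : Matrix Vt Vt ℤ := Matrix.of fun x y => if adj x y = true then 1 else 0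

lemma cells : ∀ (x : Vt) (k : Fin 6),
    ∑ y, (if cell y = k then AZ x y else 0) = B (cell x) k := by decide +kernel

lemma adj_eq (R : Type) [CommRing R] : X.adjMatrix R = AZ.map (Int.castRingHom R) := by
  ext x y
  rw [SimpleGraph.adjMatrix_apply, Matrix.map_apply, AZ, Matrix.of_apply]
  by_cases h : adj x y = true
  · rw [if_pos h, if_pos (show X.Adj x y from h)]
    simp
  · rw [if_neg h, if_neg (show ¬ X.Adj x y from h)]
    simp

lemma mulVec_cell {R : Type} [CommRing R] (w : Fin 6 → R) :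
    X.adjMatrix R *ᵥ (w ∘ cell) = ((B.map (Int.castRingHom R)) *ᵥ w) ∘ cell := by
  rw [adj_eq]
  exact MExp.quotient_mulVec AZ B cell cells w

lemma B_mul {R : Type} [CommRing R] (w : Fin 6 → R) : (B.map (Int.castRingHom R)) *ᵥ w =
    ![16 * w 1, w 0 + 12 * w 1 + 4 * w 2 + 12 * w 4, 4 * w 1 + 12 * w 2, 16 * w 4,
      12 * w 1 + w 3 + 4 * w 5, 4 * w 4 + 12 * w 5] := by
  funext i
  fin_cases i <;>
    simp [B, Matrix.mulVec, dotProduct, Fin.sum_univ_six, Matrix.map_apply]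

variable {R : Type} [Field R] [CharZero R]

/-- component for the eigenvalue `4 + 4 r` -/
def w0 (r : R) : Fin 6 → R :=
  ![(20 - 12 * r) / 32, (2 - r) / 32, -1 / 32, (r - 1) * (20 - 12 * r) / 32,
    (r - 1) * (2 - r) / 32, -(r - 1) / 32]

/-- component for the eigenvalue `4 + 4 r + ω` -/
def w1 (r ω : R) : Fin 6 → R :=
  ![(48 + 48 * r - ω * (4 + 4 * r)) / 256, (4 * r - 8 + ω) / 256, 4 / 256,
    (r - 1) * (48 + 48 * r - ω * (4 + 4 * r)) / 256, (r - 1) * (4 * r - 8 + ω) / 256,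
    (r - 1) * 4 / 256]

/-- the two-point vector -/
def F (r : R) : Fin 6 → R := ![1, 0, 0, r - 1, 0, 0]

lemma F_eq (r ω : R) (hr : r ^ 2 = r + 1) : F r = w0 r + w1 r ω + w1 r (-ω) := by
  funext i
  fin_cases i
  · simp [F, w0, w1]; field_simp; ring
  · simp [F, w0, w1]; field_simp; ring
  · simp [F, w0, w1]; field_simp; ring
  · simp [F, w0, w1]; field_simp; ring
  · simp [F, w0, w1]; field_simp; ring
  · simp [F, w0, w1]; field_simp; ring

lemma w0_eig (r : R) (hr : r ^ 2 = r + 1) :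
    (B.map (Int.castRingHom R)) *ᵥ (w0 r) = (4 + 4 * r) • w0 r := by
  rw [B_mul]
  funext i
  fin_cases i
  · simp [w0]; field_simp; linear_combination (48 : R) * hr
  · simp [w0]; field_simp; linear_combination (-8 : R) * hr
  · simp [w0]; field_simp; linear_combination (0 : R) * hr
  · simp [w0]; field_simp; linear_combination (48 * r - 48 : R) * hr
  · simp [w0]; field_simp; linear_combination (4 * r - 16 : R) * hr
  · simp [w0]; field_simp; linear_combination (0 : R) * hr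

lemma w1_eig (r ω : R) (hr : r ^ 2 = r + 1) (hω : ω ^ 2 = 128) :
    (B.map (Int.castRingHom R)) *ᵥ (w1 r ω) = (4 + 4 * r + ω) • w1 r ω := by
  rw [B_mul]
  funext i
  fin_cases i
  · simp [w1]; field_simp; linear_combination (16 * ω - 192 : R) * hr + 4 * (r + 1) * hω
  · simp [w1]; field_simp; linear_combination (32 : R) * hr - hω
  · simp [w1]; field_simp; linear_combination (0 : R) * hr
  · simp [w1]; field_simp
    linear_combination (r - 1) * ((16 * ω - 192 : R) * hr + 4 * (r + 1) * hω)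
  · simp [w1]; field_simp
    linear_combination (-16 * r + 64 - 12 * ω : R) * hr - (r - 1) * hω
  · simp [w1]; field_simp; linear_combination (0 : R) * hr

lemma W0_eig (r : R) (hr : r ^ 2 = r + 1) :
    X.adjMatrix R *ᵥ (w0 r ∘ cell) = (4 + 4 * r) • (w0 r ∘ cell) := by
  rw [mulVec_cell, w0_eig r hr]
  rfl

lemma W1_eig (r ω : R) (hr : r ^ 2 = r + 1) (hω : ω ^ 2 = 128) :
    X.adjMatrix R *ᵥ (w1 r ω ∘ cell) = (4 + 4 * r + ω) • (w1 r ω ∘ cell) := by
  rw [mulVec_cell, w1_eig r ω hr hω]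
  rfl

omit [CharZero R] in
lemma F_cell (r : R) : F r ∘ cell = Pi.single va 1 + (r - 1) • Pi.single vb 1 := by
  funext x
  rcases x with ⟨s, p⟩
  rcases s with _ | _ <;> rcases p with _ | ⟨t, p⟩
  · simp [cell, F, va, vb]
  · rcases t with _ | _ <;> simp [cell, F, va, vb]
  · simp [cell, F, va, vb]
  · rcases t with _ | _ <;> simp [cell, F, va, vb]

/-! ### The quantum walk -/

/-- the walk matrix -/
noncomputable def U (t : ℝ) : Matrix Vt Vt ℂ :=
  NormedSpace.exp (((t : ℂ) * Complex.I) • X.adjMatrix ℂ)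

/-- the time -/
noncomputable def τ : ℝ := 2 * Real.pi / (8 * Real.sqrt 2)

lemma sq2 : (Real.sqrt 2) ^ 2 = 2 := Real.sq_sqrt (by norm_num)

lemma sq5 : (Real.sqrt 5) ^ 2 = 5 := Real.sq_sqrt (by norm_num)

lemma τ_pos : 0 < τ := by
  unfold τ
  have := Real.pi_pos
  positivity

lemma exp_ω (s : ℝ) (hs : s = 8 * Real.sqrt 2 ∨ s = -(8 * Real.sqrt 2)) :
    Complex.exp ((τ : ℂ) * Complex.I * (s : ℂ)) = 1 := by
  have h2 : (0 : ℝ) < Real.sqrt 2 := Real.sqrt_pos.2 (by norm_num)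
  have h1 : τ * (8 * Real.sqrt 2) = 2 * Real.pi := by
    unfold τ
    field_simp
  rw [Complex.exp_eq_one_iff]
  rcases hs with rfl | rfl
  · refine ⟨1, ?_⟩
    have : (τ : ℂ) * Complex.I * ((8 * Real.sqrt 2 : ℝ) : ℂ) =
        ((τ * (8 * Real.sqrt 2) : ℝ) : ℂ) * Complex.I := by push_cast; ring
    rw [this, h1]
    push_cast
    ring
  · refine ⟨-1, ?_⟩
    have : (τ : ℂ) * Complex.I * ((-(8 * Real.sqrt 2) : ℝ) : ℂ) =
        -(((τ * (8 * Real.sqrt 2) : ℝ) : ℂ) * Complex.I) := by push_cast; ring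
    rw [this, h1]
    push_cast
    ring

lemma U_F (r : ℝ) (hr : r ^ 2 = r + 1) :
    U τ *ᵥ (F (r : ℂ) ∘ cell) =
      Complex.exp ((τ : ℂ) * Complex.I * ((4 + 4 * r : ℝ) : ℂ)) • (F (r : ℂ) ∘ cell) := by
  have hr' : (r : ℂ) ^ 2 = (r : ℂ) + 1 := by exact_mod_cast hr
  set ω : ℝ := 8 * Real.sqrt 2 with hω
  have hω2 : ω ^ 2 = 128 := by
    rw [hω, mul_pow, sq2]; norm_num
  have hω2' : (ω : ℂ) ^ 2 = 128 := by exact_mod_cast hω2
  have hω2'' : (-(ω : ℂ)) ^ 2 = 128 := by rw [neg_sq, hω2']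
  have e0 := MExp.exp_mulVec (MExp.smul_mulVec_eig (W0_eig (r : ℂ) hr') ((τ : ℂ) * Complex.I))
  have e1 := MExp.exp_mulVec (MExp.smul_mulVec_eig (W1_eig (r : ℂ) (ω : ℂ) hr' hω2')
    ((τ : ℂ) * Complex.I))
  have e2 := MExp.exp_mulVec (MExp.smul_mulVec_eig (W1_eig (r : ℂ) (-(ω : ℂ)) hr' hω2'')
    ((τ : ℂ) * Complex.I))
  have c1 : Complex.exp ((τ : ℂ) * Complex.I * (4 + 4 * (r : ℂ) + (ω : ℂ))) =
      Complex.exp ((τ : ℂ) * Complex.I * ((4 + 4 * r : ℝ) : ℂ)) := by
    rw [mul_add, Complex.exp_add, exp_ω ω (Or.inl hω), mul_one]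
    push_cast
    rfl
  have c2 : Complex.exp ((τ : ℂ) * Complex.I * (4 + 4 * (r : ℂ) + (-(ω : ℂ)))) =
      Complex.exp ((τ : ℂ) * Complex.I * ((4 + 4 * r : ℝ) : ℂ)) := by
    have := exp_ω (-ω) (Or.inr (by rw [hω]))
    rw [mul_add, Complex.exp_add, show (-(ω : ℂ)) = ((-ω : ℝ) : ℂ) by push_cast; rfl, this,
      mul_one]
    push_cast
    rfl
  have c0 : Complex.exp ((τ : ℂ) * Complex.I * (4 + 4 * (r : ℂ))) =
      Complex.exp ((τ : ℂ) * Complex.I * ((4 + 4 * r : ℝ) : ℂ)) := by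
    push_cast
    rfl
  rw [c1] at e1
  rw [c2] at e2
  rw [c0] at e0
  have hF : F (r : ℂ) ∘ cell = (w0 (r : ℂ) ∘ cell) + (w1 (r : ℂ) (ω : ℂ) ∘ cell) +
      (w1 (r : ℂ) (-(ω : ℂ)) ∘ cell) := by
    rw [F_eq (r : ℂ) (ω : ℂ) hr']
    rfl
  rw [U, hF, Matrix.mulVec_add, Matrix.mulVec_add, e0, e1, e2, smul_add, smul_add]

/-- the golden ratio -/
noncomputable def g : ℝ := (1 + Real.sqrt 5) / 2

/-- its conjugate -/
noncomputable def h : ℝ := (1 - Real.sqrt 5) / 2

lemma g_sq : g ^ 2 = g + 1 := by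
  unfold g
  nlinarith [sq5]

lemma h_sq : h ^ 2 = h + 1 := by
  unfold h
  nlinarith [sq5]

/-- phases -/
noncomputable def E1 : ℂ := Complex.exp ((τ : ℂ) * Complex.I * ((4 + 4 * g : ℝ) : ℂ))

/-- phases -/
noncomputable def E2 : ℂ := Complex.exp ((τ : ℂ) * Complex.I * ((4 + 4 * h : ℝ) : ℂ))

/-- revival coefficients -/
noncomputable def α : ℂ := ((g : ℂ) * E1 - (h : ℂ) * E2) / (Real.sqrt 5 : ℝ)

/-- revival coefficients -/
noncomputable def β : ℂ := (E1 - E2) / (Real.sqrt 5 : ℝ)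

lemma s5_pos : (0 : ℝ) < Real.sqrt 5 := Real.sqrt_pos.2 (by norm_num)

lemma norm_E (s : ℝ) : ‖Complex.exp ((τ : ℂ) * Complex.I * (s : ℂ))‖ = 1 := by
  have : (τ : ℂ) * Complex.I * (s : ℂ) = ((τ * s : ℝ) : ℂ) * Complex.I := by push_cast; ring
  rw [this, Complex.norm_exp_ofReal_mul_I]

lemma α_ne : α ≠ 0 := by
  unfold α
  have h5 : ((Real.sqrt 5 : ℝ) : ℂ) ≠ 0 := by exact_mod_cast s5_pos.ne'
  apply div_ne_zero _ h5
  intro h0
  have h1 : (g : ℂ) * E1 = (h : ℂ) * E2 := sub_eq_zero.1 h0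
  have h2 := congrArg norm h1
  rw [norm_mul, norm_mul, E1, E2, norm_E, norm_E, mul_one, mul_one, Complex.norm_real,
    Complex.norm_real, Real.norm_eq_abs, Real.norm_eq_abs] at h2
  have h3 : g ^ 2 = h ^ 2 := by rw [← sq_abs g, ← sq_abs h, h2]
  rw [g_sq, h_sq] at h3
  unfold g h at h3
  have := s5_pos
  linarith

lemma β_ne : β ≠ 0 := by
  unfold β
  have h5 : ((Real.sqrt 5 : ℝ) : ℂ) ≠ 0 := by exact_mod_cast s5_pos.ne'
  apply div_ne_zero _ h5
  intro h0
  have h1 : E1 = E2 := sub_eq_zero.1 h0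
  unfold E1 E2 at h1
  rw [Complex.exp_eq_exp_iff_exists_int] at h1
  obtain ⟨n, hn⟩ := h1
  have h2 : ((τ * (4 + 4 * g) : ℝ) : ℂ) * Complex.I =
      ((τ * (4 + 4 * h) + n * (2 * Real.pi) : ℝ) : ℂ) * Complex.I := by
    push_cast
    push_cast at hn
    linear_combination hn
  have h3 := mul_right_cancel₀ Complex.I_ne_zero h2
  have h4 : τ * (4 + 4 * g) = τ * (4 + 4 * h) + n * (2 * Real.pi) := by exact_mod_cast h3
  have h2p : (0 : ℝ) < Real.sqrt 2 := Real.sqrt_pos.2 (by norm_num)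
  have hpi := Real.pi_pos
  have h5 : τ * (4 * Real.sqrt 5) = n * (2 * Real.pi) := by
    have : g - h = Real.sqrt 5 := by unfold g h; ring
    rw [← this]
    linarith
  unfold τ at h5
  have h6 : Real.sqrt 5 = 2 * n * Real.sqrt 2 := by
    field_simp at h5
    nlinarith
  have h7 : (5 : ℝ) = 8 * n ^ 2 := by
    have := sq5
    rw [h6, mul_pow, mul_pow, sq2] at this
    linarith
  have h8 : (5 : ℤ) = 8 * n ^ 2 := by exact_mod_cast h7
  omega

lemma revival : U τ *ᵥ (Pi.single va 1) = α • Pi.single va 1 + β • Pi.single vb 1 := by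
  have h5 : ((Real.sqrt 5 : ℝ) : ℂ) ≠ 0 := by exact_mod_cast s5_pos.ne'
  have hg := U_F g g_sq
  have hh := U_F h h_sq
  rw [F_cell] at hg hh
  have hgh : (g : ℂ) - (h : ℂ) = ((Real.sqrt 5 : ℝ) : ℂ) := by
    unfold g h; push_cast; ring
  have hgh1 : (g : ℂ) + (h : ℂ) = 1 := by
    unfold g h; push_cast; ring
  have hghm : (g : ℂ) * (h : ℂ) = -1 := by
    have : g * h = -1 := by unfold g h; nlinarith [sq5]
    exact_mod_cast this
  have hs : (Pi.single va 1 : Vt → ℂ) = ((g : ℂ) / (Real.sqrt 5 : ℝ)) •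
      (Pi.single va 1 + ((g : ℂ) - 1) • Pi.single vb 1) +
      (-(h : ℂ) / (Real.sqrt 5 : ℝ)) • (Pi.single va 1 + ((h : ℂ) - 1) • Pi.single vb 1) := by
    have e1 : ((g : ℂ) / (Real.sqrt 5 : ℝ)) + (-(h : ℂ) / (Real.sqrt 5 : ℝ)) = 1 := by
      rw [← add_div, ← sub_eq_add_neg, hgh, div_self h5]
    have e2 : ((g : ℂ) / (Real.sqrt 5 : ℝ)) * ((g : ℂ) - 1) +
        (-(h : ℂ) / (Real.sqrt 5 : ℝ)) * ((h : ℂ) - 1) = 0 := by
      field_simp
      linear_combination ((g : ℂ) - (h : ℂ)) * hgh1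
    rw [smul_add, smul_add, smul_smul, smul_smul]
    have : ∀ (x y : Vt → ℂ) (a b c d : ℂ), a • x + b • y + (c • x + d • y) =
        (a + c) • x + (b + d) • y := by
      intro x y a b c d
      rw [add_smul, add_smul]
      abel
    rw [this, e1, e2, one_smul, zero_smul, add_zero]
  conv_lhs => rw [hs]
  rw [Matrix.mulVec_add, Matrix.mulVec_smul, Matrix.mulVec_smul, hg, hh]
  change ((g : ℂ) / (Real.sqrt 5 : ℝ)) • E1 • (Pi.single va 1 + ((g : ℂ) - 1) • Pi.single vb 1) +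
    (-(h : ℂ) / (Real.sqrt 5 : ℝ)) • E2 • (Pi.single va 1 + ((h : ℂ) - 1) • Pi.single vb 1) = _
  simp only [smul_add, smul_smul]
  have : ∀ (x y : Vt → ℂ) (a b c d : ℂ), a • x + b • y + (c • x + d • y) =
        (a + c) • x + (b + d) • y := by
      intro x y a b c d
      rw [add_smul, add_smul]
      abel
  rw [this]
  congr 1
  · congr 1
    unfold α
    field_simp
    ring
  · congr 1
    unfold β
    field_simp
    linear_combination E1 * ((g : ℂ) * hgh1 - hghm) - E2 * ((h : ℂ) * hgh1 - hghm)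

end Pool.Agent.V11117.FR66
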