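import Mathlib
import Pool.Agent.V11117.FR66
import Pool.Agent.V11117.FRDef

/-!
The spectral idempotents of the graph on 66 vertices.
-/

namespace Pool.Agent.V11117.FR66

open Matrix Finset Pool.Agent.V11117 Pool.Agent.V11117.FRDef

/-- `8√2` -/
noncomputable def ω : ℝ := 8 * Real.sqrt 2

lemma ω_sq : ω ^ 2 = 128 := by
  rw [ω, mul_pow, sq2]; norm_num

lemma ω_neg_sq : (-ω) ^ 2 = 128 := by rw [neg_sq, ω_sq]

/-- decomposition of the first unit vector -/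
lemma single_a : (EuclideanSpace.single va 1 : EuclideanSpace ℝ Vt) =
    (g / Real.sqrt 5) • (WithLp.toLp 2 (w0 g ∘ cell) + WithLp.toLp 2 (w1 g ω ∘ cell) +
      WithLp.toLp 2 (w1 g (-ω) ∘ cell)) +
    (-h / Real.sqrt 5) • (WithLp.toLp 2 (w0 h ∘ cell) + WithLp.toLp 2 (w1 h ω ∘ cell) +
      WithLp.toLp 2 (w1 h (-ω) ∘ cell)) := by
  have h5 := s5_pos.ne'
  have hg : WithLp.toLp 2 (w0 g ∘ cell) + WithLp.toLp 2 (w1 g ω ∘ cell) +
      WithLp.toLp 2 (w1 g (-ω) ∘ cell) =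
      (WithLp.toLp 2 (F g ∘ cell) : EuclideanSpace ℝ Vt) := by
    rw [F_eq g ω g_sq]; rfl
  have hh : WithLp.toLp 2 (w0 h ∘ cell) + WithLp.toLp 2 (w1 h ω ∘ cell) +
      WithLp.toLp 2 (w1 h (-ω) ∘ cell) =
      (WithLp.toLp 2 (F h ∘ cell) : EuclideanSpace ℝ Vt) := by
    rw [F_eq h ω h_sq]; rfl
  rw [hg, hh, F_cell, F_cell]
  have hgh : g - h = Real.sqrt 5 := by unfold g h; ring
  have hgh1 : g + h = 1 := by unfold g h; ring
  ext x
  simp only [PiLp.add_apply, PiLp.smul_apply, Pi.add_apply, Pi.smul_apply, smul_eq_mul,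
    EuclideanSpace.single_apply, Pi.single_apply]
  field_simp
  by_cases h1 : x = va
  · by_cases h2 : x = vb
    · exact absurd (h1.symm.trans h2) (by decide)
    · rw [if_pos h1, if_neg h2]
      linarith
  · by_cases h2 : x = vb
    · rw [if_neg h1, if_pos h2]
      linear_combination -g_sq + h_sq
    · rw [if_neg h1, if_neg h2]
      ring

/-- decomposition of the second unit vector -/
lemma single_b : (EuclideanSpace.single vb 1 : EuclideanSpace ℝ Vt) =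
    (1 / Real.sqrt 5) • (WithLp.toLp 2 (w0 g ∘ cell) + WithLp.toLp 2 (w1 g ω ∘ cell) +
      WithLp.toLp 2 (w1 g (-ω) ∘ cell)) +
    (-1 / Real.sqrt 5) • (WithLp.toLp 2 (w0 h ∘ cell) + WithLp.toLp 2 (w1 h ω ∘ cell) +
      WithLp.toLp 2 (w1 h (-ω) ∘ cell)) := by
  have h5 := s5_pos.ne'
  have hg : WithLp.toLp 2 (w0 g ∘ cell) + WithLp.toLp 2 (w1 g ω ∘ cell) +
      WithLp.toLp 2 (w1 g (-ω) ∘ cell) =
      (WithLp.toLp 2 (F g ∘ cell) : EuclideanSpace ℝ Vt) := by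
    rw [F_eq g ω g_sq]; rfl
  have hh : WithLp.toLp 2 (w0 h ∘ cell) + WithLp.toLp 2 (w1 h ω ∘ cell) +
      WithLp.toLp 2 (w1 h (-ω) ∘ cell) =
      (WithLp.toLp 2 (F h ∘ cell) : EuclideanSpace ℝ Vt) := by
    rw [F_eq h ω h_sq]; rfl
  rw [hg, hh, F_cell, F_cell]
  have hgh : g - h = Real.sqrt 5 := by unfold g h; ring
  have hgh1 : g + h = 1 := by unfold g h; ring
  ext x
  simp only [PiLp.add_apply, PiLp.smul_apply, Pi.add_apply, Pi.smul_apply, smul_eq_mul,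
    EuclideanSpace.single_apply, Pi.single_apply]
  field_simp
  by_cases h1 : x = va
  · by_cases h2 : x = vb
    · exact absurd (h1.symm.trans h2) (by decide)
    · rw [if_pos h1, if_neg h2]
      ring
  · by_cases h2 : x = vb
    · rw [if_neg h1, if_pos h2]
      linarith
    · rw [if_neg h1, if_neg h2]
      ring

lemma val_g : 4 + 4 * g = 6 + 2 * Real.sqrt 5 := by unfold g; ring

lemma val_h : 4 + 4 * h = 6 - 2 * Real.sqrt 5 := by unfold h; ring

lemma ω_gt : 11 < ω := by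
  unfold ω
  have : (1.4 : ℝ) < Real.sqrt 2 := by
    rw [Real.lt_sqrt (by norm_num)]; norm_num
  linarith

lemma s5_lo : 2.23 < Real.sqrt 5 := by
  rw [Real.lt_sqrt (by norm_num)]; norm_num

lemma s5_hi : Real.sqrt 5 < 2.24 := by
  rw [Real.sqrt_lt' (by norm_num)]; norm_num

lemma gh : 4 + 4 * g = 4 + 4 * h + 4 * Real.sqrt 5 := by unfold g h; ring

lemma proj_b (θ : ℝ) : proj X θ (EuclideanSpace.single vb 1) =
    (1 / Real.sqrt 5) • (proj X θ (WithLp.toLp 2 (w0 g ∘ cell)) +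
      proj X θ (WithLp.toLp 2 (w1 g ω ∘ cell)) +
      proj X θ (WithLp.toLp 2 (w1 g (-ω) ∘ cell))) +
    (-1 / Real.sqrt 5) • (proj X θ (WithLp.toLp 2 (w0 h ∘ cell)) +
      proj X θ (WithLp.toLp 2 (w1 h ω ∘ cell)) +
      proj X θ (WithLp.toLp 2 (w1 h (-ω) ∘ cell))) := by
  rw [single_b]
  simp only [map_add, map_smul]

lemma proj_a (θ : ℝ) : proj X θ (EuclideanSpace.single va 1) =
    (g / Real.sqrt 5) • (proj X θ (WithLp.toLp 2 (w0 g ∘ cell)) +
      proj X θ (WithLp.toLp 2 (w1 g ω ∘ cell)) +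
      proj X θ (WithLp.toLp 2 (w1 g (-ω) ∘ cell))) +
    (-h / Real.sqrt 5) • (proj X θ (WithLp.toLp 2 (w0 h ∘ cell)) +
      proj X θ (WithLp.toLp 2 (w1 h ω ∘ cell)) +
      proj X θ (WithLp.toLp 2 (w1 h (-ω) ∘ cell))) := by
  rw [single_a]
  simp only [map_add, map_smul]

/-- `E_θ e_b` for `θ = 6 + 2√5` -/
lemma proj_b_g : proj X (4 + 4 * g) (EuclideanSpace.single vb 1) =
    (1 / Real.sqrt 5) • WithLp.toLp 2 (w0 g ∘ cell) := by
  have h1 := ω_gt
  have h2 := s5_lo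
  have h3 := s5_hi
  have h4 := gh
  rw [proj_b, proj_same (W0_eig g g_sq), proj_diff (W1_eig g ω g_sq ω_sq) (by linarith),
    proj_diff (W1_eig g (-ω) g_sq ω_neg_sq) (by linarith),
    proj_diff (W0_eig h h_sq) (by linarith),
    proj_diff (W1_eig h ω h_sq ω_sq) (by linarith),
    proj_diff (W1_eig h (-ω) h_sq ω_neg_sq) (by linarith)]
  simp

/-- `E_θ e_b` for `θ = 6 - 2√5` -/
lemma proj_b_h : proj X (4 + 4 * h) (EuclideanSpace.single vb 1) =
    (-1 / Real.sqrt 5) • WithLp.toLp 2 (w0 h ∘ cell) := by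
  have h1 := ω_gt
  have h2 := s5_lo
  have h3 := s5_hi
  have h4 := gh
  rw [proj_b, proj_same (W0_eig h h_sq), proj_diff (W1_eig h ω h_sq ω_sq) (by linarith),
    proj_diff (W1_eig h (-ω) h_sq ω_neg_sq) (by linarith),
    proj_diff (W0_eig g g_sq) (by linarith),
    proj_diff (W1_eig g ω g_sq ω_sq) (by linarith),
    proj_diff (W1_eig g (-ω) g_sq ω_neg_sq) (by linarith)]
  simp

/-- `E_θ e_a` for `θ = 6 + 2√5 + 8√2` -/
lemma proj_a_w : proj X (4 + 4 * g + ω) (EuclideanSpace.single va 1) =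
    (g / Real.sqrt 5) • WithLp.toLp 2 (w1 g ω ∘ cell) := by
  have h1 := ω_gt
  have h2 := s5_lo
  have h3 := s5_hi
  have h4 := gh
  rw [proj_a, proj_same (W1_eig g ω g_sq ω_sq), proj_diff (W0_eig g g_sq) (by linarith),
    proj_diff (W1_eig g (-ω) g_sq ω_neg_sq) (by linarith),
    proj_diff (W0_eig h h_sq) (by linarith),
    proj_diff (W1_eig h ω h_sq ω_sq) (by linarith),
    proj_diff (W1_eig h (-ω) h_sq ω_neg_sq) (by linarith)]
  simp

/-- revival from the second vertex -/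
lemma revival_b : U τ *ᵥ (Pi.single vb 1) =
    ((E1 - E2) / (Real.sqrt 5 : ℝ)) • Pi.single va 1 +
    (((g - 1 : ℝ) * E1 - (h - 1 : ℝ) * E2) / (Real.sqrt 5 : ℝ)) • Pi.single vb 1 := by
  have h5 : ((Real.sqrt 5 : ℝ) : ℂ) ≠ 0 := by exact_mod_cast s5_pos.ne'
  have hg := U_F g g_sq
  have hh := U_F h h_sq
  rw [F_cell] at hg hh
  have hgh : (g : ℂ) - (h : ℂ) = ((Real.sqrt 5 : ℝ) : ℂ) := by
    unfold g h; push_cast; ring
  have key : ∀ (x y : Vt → ℂ) (a b c d : ℂ), a • x + b • y + (c • x + d • y) =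
        (a + c) • x + (b + d) • y := by
      intro x y a b c d
      rw [add_smul, add_smul]
      abel
  have hs : (Pi.single vb 1 : Vt → ℂ) = (1 / ((Real.sqrt 5 : ℝ) : ℂ)) •
      (Pi.single va 1 + ((g : ℂ) - 1) • Pi.single vb 1) +
      (-1 / ((Real.sqrt 5 : ℝ) : ℂ)) • (Pi.single va 1 + ((h : ℂ) - 1) • Pi.single vb 1) := by
    have e1 : (1 / ((Real.sqrt 5 : ℝ) : ℂ)) + (-1 / ((Real.sqrt 5 : ℝ) : ℂ)) = 0 := by
      ring
    have e2 : (1 / ((Real.sqrt 5 : ℝ) : ℂ)) * ((g : ℂ) - 1) +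
        (-1 / ((Real.sqrt 5 : ℝ) : ℂ)) * ((h : ℂ) - 1) = 1 := by
      field_simp
      linear_combination hgh
    rw [smul_add, smul_add, smul_smul, smul_smul, key, e1, e2, one_smul, zero_smul, zero_add]
  conv_lhs => rw [hs]
  rw [Matrix.mulVec_add, Matrix.mulVec_smul, Matrix.mulVec_smul, hg, hh]
  change (1 / ((Real.sqrt 5 : ℝ) : ℂ)) • E1 • (Pi.single va 1 + ((g : ℂ) - 1) • Pi.single vb 1) +
    (-1 / ((Real.sqrt 5 : ℝ) : ℂ)) • E2 • (Pi.single va 1 + ((h : ℂ) - 1) • Pi.single vb 1) = _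
  simp only [smul_add, smul_smul]
  rw [key]
  congr 1
  · congr 1
    field_simp
    ring
  · congr 1
    push_cast
    field_simp
    ring

end Pool.Agent.V11117.FR66
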