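import Mathlib
import Pool.Agent.V11117.Spec

/-!
Integer certificates for lower and upper bounds on the energy (trace norm).
-/

namespace Pool.Agent.V11117.EnergyCert

open Matrix Finset Pool.Agent.V11117.Spec

variable {V : Type} [Fintype V] [DecidableEq V]

/-- `‖Z‖ ≤ K` from the row sums of `Z²`. -/
lemma contraction (Z : Matrix V V ℝ) (hZ : ∀ i j, Z i j = Z j i) {K : ℝ} (hK : 0 < K)
    (hrow : ∀ i, ∑ j, |∑ k, Z i k * Z k j| ≤ K ^ 2) (x : V → ℝ) :
    |x ⬝ᵥ ((K⁻¹ • Z) *ᵥ x)| ≤ x ⬝ᵥ x := by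
  set z : V → ℝ := Z *ᵥ x with hz
  have hzz : z ⬝ᵥ z = ∑ i, ∑ j, (∑ k, Z i k * Z k j) * (x i * x j) := by
    simp only [hz, Matrix.mulVec, dotProduct]
    calc ∑ k, (∑ i, Z k i * x i) * (∑ j, Z k j * x j) =
        ∑ k, ∑ i, ∑ j, (Z i k * Z k j) * (x i * x j) := by
          refine Finset.sum_congr rfl fun k _ => ?_
          rw [Finset.sum_mul_sum]
          refine Finset.sum_congr rfl fun i _ => Finset.sum_congr rfl fun j _ => ?_
          rw [hZ k i]
          ring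
      _ = ∑ i, ∑ j, (∑ k, Z i k * Z k j) * (x i * x j) := by
          rw [Finset.sum_comm]
          refine Finset.sum_congr rfl fun i _ => ?_
          rw [Finset.sum_comm]
          refine Finset.sum_congr rfl fun j _ => ?_
          rw [Finset.sum_mul]
  have hsym : ∀ i j, ∑ k, Z i k * Z k j = ∑ k, Z j k * Z k i := by
    intro i j
    refine Finset.sum_congr rfl fun k _ => ?_
    rw [hZ i k, hZ k j]
    ring
  have hle : z ⬝ᵥ z ≤ K ^ 2 * (x ⬝ᵥ x) := by
    rw [hzz]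
    calc ∑ i, ∑ j, (∑ k, Z i k * Z k j) * (x i * x j) ≤
        ∑ i, ∑ j, |∑ k, Z i k * Z k j| * ((x i ^ 2 + x j ^ 2) / 2) := by
          refine Finset.sum_le_sum fun i _ => Finset.sum_le_sum fun j _ => ?_
          calc (∑ k, Z i k * Z k j) * (x i * x j) ≤ |(∑ k, Z i k * Z k j) * (x i * x j)| :=
                le_abs_self _
            _ = |∑ k, Z i k * Z k j| * |x i * x j| := abs_mul _ _
            _ ≤ _ := by
                apply mul_le_mul_of_nonneg_left _ (abs_nonneg _)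
                rw [abs_le]
                constructor <;> nlinarith [sq_nonneg (x i + x j), sq_nonneg (x i - x j)]
      _ = (∑ i, (∑ j, |∑ k, Z i k * Z k j|) * x i ^ 2) := by
          have e1 : ∀ i j, |∑ k, Z i k * Z k j| * ((x i ^ 2 + x j ^ 2) / 2) =
              |∑ k, Z i k * Z k j| * x i ^ 2 / 2 + |∑ k, Z i k * Z k j| * x j ^ 2 / 2 := by
            intro i j
            ring
          simp_rw [e1, Finset.sum_add_distrib]
          have e2 : ∑ i, ∑ j, |∑ k, Z i k * Z k j| * x j ^ 2 / 2 =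
              ∑ i, ∑ j, |∑ k, Z i k * Z k j| * x i ^ 2 / 2 := by
            rw [Finset.sum_comm]
            refine Finset.sum_congr rfl fun i _ => Finset.sum_congr rfl fun j _ => ?_
            rw [hsym j i]
          rw [e2, ← Finset.sum_add_distrib]
          refine Finset.sum_congr rfl fun i _ => ?_
          rw [← Finset.sum_add_distrib, Finset.sum_mul]
          exact Finset.sum_congr rfl fun j _ => by ring
      _ ≤ ∑ i, K ^ 2 * x i ^ 2 := by
          refine Finset.sum_le_sum fun i _ => mul_le_mul_of_nonneg_right (hrow i) (sq_nonneg _)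
      _ = K ^ 2 * (x ⬝ᵥ x) := by
          rw [dotProduct, Finset.mul_sum]
          exact Finset.sum_congr rfl fun i _ => by ring
  have hcs : (x ⬝ᵥ z) ^ 2 ≤ (x ⬝ᵥ x) * (z ⬝ᵥ z) := by
    simp only [dotProduct]
    have := Finset.sum_mul_sq_le_sq_mul_sq (Finset.univ : Finset V) x z
    calc (∑ i, x i * z i) ^ 2 ≤ (∑ i, x i ^ 2) * ∑ i, z i ^ 2 := this
      _ = _ := by
        congr 1
        · exact Finset.sum_congr rfl fun i _ => sq _
        · exact Finset.sum_congr rfl fun i _ => sq _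
  have hxx : 0 ≤ x ⬝ᵥ x := by
    rw [dotProduct]
    exact Finset.sum_nonneg fun i _ => mul_self_nonneg _
  have h1 : (x ⬝ᵥ z) ^ 2 ≤ (K * (x ⬝ᵥ x)) ^ 2 := by
    calc (x ⬝ᵥ z) ^ 2 ≤ (x ⬝ᵥ x) * (z ⬝ᵥ z) := hcs
      _ ≤ (x ⬝ᵥ x) * (K ^ 2 * (x ⬝ᵥ x)) := mul_le_mul_of_nonneg_left hle hxx
      _ = _ := by ring
  have h2 : |x ⬝ᵥ z| ≤ K * (x ⬝ᵥ x) := abs_le_of_sq_le_sq h1 (by positivity)
  rw [Matrix.smul_mulVec, dotProduct_smul, smul_eq_mul, abs_mul, abs_of_pos (inv_pos.2 hK)]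
  rw [inv_mul_le_iff₀ hK]
  exact h2

/-- Lower bound for the trace norm from an integer matrix. -/
lemma lower {A : Matrix V V ℝ} (hA : A.IsHermitian) (A0 Z : Matrix V V ℤ) (K : ℤ) (hK : 0 < K)
    (hA0 : ∀ i j, A i j = (A0 i j : ℝ))
    (hZ : ∀ i j, Z i j = Z j i)
    (hrow : ∀ i, ∑ j, |∑ k, Z i k * Z k j| ≤ K ^ 2) :
    ((∑ i, ∑ j, Z i j * A0 j i : ℤ) : ℝ) / K ≤ ∑ i, |hA.eigenvalues i| := by
  set ZR : Matrix V V ℝ := Z.map (Int.cast : ℤ → ℝ) with hZR
  have hKR : (0 : ℝ) < K := by exact_mod_cast hK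
  have h1 := trace_mul_le hA ((K : ℝ)⁻¹ • ZR) (contraction ZR
    (fun i j => by simp only [hZR, Matrix.map_apply]; rw [hZ]) hKR
    (fun i => by
      have := hrow i
      have h2 : ((∑ j, |∑ k, Z i k * Z k j| : ℤ) : ℝ) ≤ ((K ^ 2 : ℤ) : ℝ) := by exact_mod_cast this
      push_cast at h2
      simpa only [hZR, Matrix.map_apply] using h2))
  refine le_trans (le_of_eq ?_) h1
  rw [Matrix.smul_mul, Matrix.trace_smul, smul_eq_mul, Matrix.trace, div_eq_inv_mul]
  congr 1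
  push_cast
  refine Finset.sum_congr rfl fun i _ => ?_
  rw [Matrix.diag_apply, Matrix.mul_apply]
  refine Finset.sum_congr rfl fun j _ => ?_
  rw [hA0, hZR, Matrix.map_apply]

/-- Upper bound for the trace norm from an approximate decomposition
`K² A = B Bᵀ - C Cᵀ + R`. -/
lemma upper {A : Matrix V V ℝ} (hA : A.IsHermitian) {P Q : Type} [Fintype P] [Fintype Q]
    (A0 : Matrix V V ℤ) (B : Matrix V P ℤ) (C : Matrix V Q ℤ) (K : ℤ) (hK : 0 < K)
    (hA0 : ∀ i j, A i j = (A0 i j : ℝ)) :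
    ∑ i, |hA.eigenvalues i| ≤ (((∑ i, ∑ p, B i p ^ 2) + (∑ i, ∑ q, C i q ^ 2) +
      ∑ i, ∑ j, |K ^ 2 * A0 i j - (∑ p, B i p * B j p) + ∑ q, C i q * C j q| : ℤ) : ℝ) /
        K ^ 2 := by
  have hKR : (0 : ℝ) < K := by exact_mod_cast hK
  obtain ⟨X, hXs, hXt, hXc, hXr⟩ := exists_sign hA
  rw [← hXt, le_div_iff₀ (by positivity)]
  have hX1 : ∀ i j, |X i j| ≤ 1 := by
    intro i j
    have h1 : X i j ^ 2 ≤ 1 := (Finset.single_le_sum (f := fun w => X i w ^ 2)
      (fun w _ => sq_nonneg _) (Finset.mem_univ j)).trans (hXr i)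
    exact abs_le_one_iff_mul_self_le_one.2 (by rw [← sq]; exact h1)
  have key : (X * A).trace * (K : ℝ) ^ 2 = (∑ p, ∑ i, ∑ j, (B i p : ℝ) * (X i j * B j p)) -
      (∑ q, ∑ i, ∑ j, (C i q : ℝ) * (X i j * C j q)) +
      ∑ i, ∑ j, X i j * ((K : ℝ) ^ 2 * A0 j i - (∑ p, (B j p : ℝ) * B i p) +
        ∑ q, (C j q : ℝ) * C i q) := by
    have e1 : (X * A).trace = ∑ i, ∑ j, X i j * (A0 j i : ℝ) := by
      rw [Matrix.trace]
      refine Finset.sum_congr rfl fun i _ => ?_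
      rw [Matrix.diag_apply, Matrix.mul_apply]
      exact Finset.sum_congr rfl fun j _ => by rw [hA0]
    have e2 : ∑ p, ∑ i, ∑ j, (B i p : ℝ) * (X i j * B j p) =
        ∑ i, ∑ j, X i j * ∑ p, (B j p : ℝ) * B i p := by
      rw [Finset.sum_comm]
      refine Finset.sum_congr rfl fun i _ => ?_
      rw [Finset.sum_comm]
      refine Finset.sum_congr rfl fun j _ => ?_
      rw [Finset.mul_sum]
      exact Finset.sum_congr rfl fun p _ => by ring
    have e3 : ∑ q, ∑ i, ∑ j, (C i q : ℝ) * (X i j * C j q) =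
        ∑ i, ∑ j, X i j * ∑ q, (C j q : ℝ) * C i q := by
      rw [Finset.sum_comm]
      refine Finset.sum_congr rfl fun i _ => ?_
      rw [Finset.sum_comm]
      refine Finset.sum_congr rfl fun j _ => ?_
      rw [Finset.mul_sum]
      exact Finset.sum_congr rfl fun q _ => by ring
    rw [e1, e2, e3, Finset.sum_mul, ← Finset.sum_sub_distrib, ← Finset.sum_add_distrib]
    refine Finset.sum_congr rfl fun i _ => ?_
    rw [Finset.sum_mul, ← Finset.sum_sub_distrib, ← Finset.sum_add_distrib]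
    exact Finset.sum_congr rfl fun j _ => by ring
  have quad : ∀ y : V → ℝ, |∑ i, ∑ j, y i * (X i j * y j)| ≤ ∑ i, y i ^ 2 := by
    intro y
    have h1 := hXc y
    simp only [dotProduct, Matrix.mulVec, Finset.mul_sum] at h1
    refine h1.trans (le_of_eq ?_)
    exact Finset.sum_congr rfl fun i _ => (sq _).symm
  rw [key]
  push_cast
  have b1 : ∑ p, ∑ i, ∑ j, (B i p : ℝ) * (X i j * B j p) ≤ ∑ i, ∑ p, (B i p : ℝ) ^ 2 := by
    rw [Finset.sum_comm (s := (Finset.univ : Finset V))]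
    exact Finset.sum_le_sum fun p _ => (le_abs_self _).trans (quad fun i => (B i p : ℝ))
  have b2 : -∑ q, ∑ i, ∑ j, (C i q : ℝ) * (X i j * C j q) ≤ ∑ i, ∑ q, (C i q : ℝ) ^ 2 := by
    rw [Finset.sum_comm (s := (Finset.univ : Finset V)), ← Finset.sum_neg_distrib]
    exact Finset.sum_le_sum fun q _ => (neg_le_abs _).trans (quad fun i => (C i q : ℝ))
  have b3 : ∑ i, ∑ j, X i j * ((K : ℝ) ^ 2 * A0 j i - (∑ p, (B j p : ℝ) * B i p) +
        ∑ q, (C j q : ℝ) * C i q) ≤ ∑ i, ∑ j, |(K : ℝ) ^ 2 * A0 i j -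
          (∑ p, (B i p : ℝ) * B j p) + ∑ q, (C i q : ℝ) * C j q| := by
    rw [Finset.sum_comm (s := (Finset.univ : Finset V)) (t := (Finset.univ : Finset V))
      (f := fun i j => |(K : ℝ) ^ 2 * A0 i j - (∑ p, (B i p : ℝ) * B j p) +
        ∑ q, (C i q : ℝ) * C j q|)]
    refine Finset.sum_le_sum fun i _ => Finset.sum_le_sum fun j _ => ?_
    refine (le_abs_self _).trans ?_
    rw [abs_mul]
    calc |X i j| * _ ≤ 1 * |(K : ℝ) ^ 2 * A0 j i - (∑ p, (B j p : ℝ) * B i p) +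
        ∑ q, (C j q : ℝ) * C i q| := mul_le_mul_of_nonneg_right (hX1 i j) (abs_nonneg _)
      _ = _ := one_mul _
  linarith

end Pool.Agent.V11117.EnergyCert
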