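import Mathlib

namespace Pool.Agent.V11117.FixA

/-- every endomorphism is a sum of two automorphisms -/
def S (A : Type*) [AddCommGroup A] : Prop :=
  ∀ φ : A →+ A, ∃ X Y : A ≃+ A, ∀ a, φ a = X a + Y a

lemma S_iso {A B : Type*} [AddCommGroup A] [AddCommGroup B] (e : A ≃+ B) (h : S A) : S B := by
  intro φ
  obtain ⟨X, Y, hXY⟩ := h ((e.symm.toAddMonoidHom.comp φ).comp e.toAddMonoidHom)
  refine ⟨(e.symm.trans X).trans e, (e.symm.trans Y).trans e, fun b => ?_⟩
  have h1 := hXY (e.symm b)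
  simp only [AddMonoidHom.comp_apply, AddEquiv.coe_toAddMonoidHom, AddEquiv.apply_symm_apply] at h1
  simp only [AddEquiv.trans_apply]
  rw [← map_add, ← h1, AddEquiv.apply_symm_apply]

lemma S_triv {A : Type*} [AddCommGroup A] [Subsingleton A] : S A := by
  intro φ
  exact ⟨AddEquiv.refl A, AddEquiv.refl A, fun a => Subsingleton.elim _ _⟩

/-- lower triangular automorphism -/
def lowEquiv {A B : Type*} [AddCommGroup A] [AddCommGroup B] (X : A ≃+ A) (Y : B ≃+ B)
    (c : A →+ B) : (A × B) ≃+ (A × B) where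
  toFun v := (X v.1, c v.1 + Y v.2)
  invFun v := (X.symm v.1, Y.symm (v.2 - c (X.symm v.1)))
  left_inv v := by
    simp
  right_inv v := by
    simp
  map_add' v w := by
    ext
    · simp
    · simp only [Prod.snd_add, Prod.fst_add, map_add]
      abel

/-- upper triangular automorphism -/
def upEquiv {A B : Type*} [AddCommGroup A] [AddCommGroup B] (X : A ≃+ A) (Y : B ≃+ B)
    (c : B →+ A) : (A × B) ≃+ (A × B) where
  toFun v := (X v.1 + c v.2, Y v.2)
  invFun v := (X.symm (v.1 - c (Y.symm v.2)), Y.symm v.2)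
  left_inv v := by
    simp
  right_inv v := by
    simp
  map_add' v w := by
    ext
    · simp only [Prod.snd_add, Prod.fst_add, map_add]
      abel
    · simp

lemma S_prod {A B : Type*} [AddCommGroup A] [AddCommGroup B] (hA : S A) (hB : S B) :
    S (A × B) := by
  intro φ
  obtain ⟨X1, X2, hX⟩ := hA (((AddMonoidHom.fst A B).comp φ).comp (AddMonoidHom.inl A B))
  obtain ⟨Y1, Y2, hY⟩ := hB (((AddMonoidHom.snd A B).comp φ).comp (AddMonoidHom.inr A B))
  refine ⟨lowEquiv X1 Y1 (((AddMonoidHom.snd A B).comp φ).comp (AddMonoidHom.inl A B)),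
    upEquiv X2 Y2 (((AddMonoidHom.fst A B).comp φ).comp (AddMonoidHom.inr A B)), fun v => ?_⟩
  have h1 := hX v.1
  have h2 := hY v.2
  simp only [AddMonoidHom.comp_apply, AddMonoidHom.inl_apply, AddMonoidHom.coe_fst,
    AddMonoidHom.inr_apply, AddMonoidHom.coe_snd] at h1 h2
  have h3 : φ v = φ (v.1, 0) + φ (0, v.2) := by
    rw [← map_add]
    simp
  rw [h3]
  ext
  · simp only [lowEquiv, upEquiv, AddEquiv.coe_mk, Equiv.coe_fn_mk, Prod.fst_add,
      AddMonoidHom.comp_apply, AddMonoidHom.inr_apply, AddMonoidHom.coe_fst]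
    rw [h1]
    abel
  · simp only [lowEquiv, upEquiv, AddEquiv.coe_mk, Equiv.coe_fn_mk, Prod.snd_add,
      AddMonoidHom.comp_apply, AddMonoidHom.inl_apply, AddMonoidHom.coe_snd]
    rw [h2]
    abel

/-- multiplication by an invertible matrix -/
noncomputable def mulVecEquiv {R : Type*} [CommRing R] {k : ℕ} (X : Matrix (Fin k) (Fin k) R)
    (h : IsUnit X.det) : (Fin k → R) ≃+ (Fin k → R) where
  toFun v := X.mulVec v
  invFun v := X⁻¹.mulVec v
  left_inv v := by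
    change X⁻¹.mulVec (X.mulVec v) = v
    rw [Matrix.mulVec_mulVec, Matrix.nonsing_inv_mul _ h, Matrix.one_mulVec]
  right_inv v := by
    change X.mulVec (X⁻¹.mulVec v) = v
    rw [Matrix.mulVec_mulVec, Matrix.mul_nonsing_inv _ h, Matrix.one_mulVec]
  map_add' v w := Matrix.mulVec_add _ _ _

lemma unit_of_cast (p e : ℕ) [hp : Fact p.Prime] (he : 0 < e) (x : ZMod (p ^ e))
    (hx : ZMod.castHom (dvd_pow_self p he.ne') (ZMod p) x ≠ 0) : IsUnit x := by
  haveI : NeZero (p ^ e) := ⟨(pow_pos hp.1.pos e).ne'⟩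
  have h1 : ((x.val : ℕ) : ZMod (p ^ e)) = x := ZMod.natCast_zmod_val x
  rw [← h1] at hx ⊢
  rw [map_natCast] at hx
  rw [ZMod.isUnit_iff_coprime]
  apply Nat.Coprime.pow_right
  rw [Nat.coprime_comm, hp.1.coprime_iff_not_dvd]
  intro hd
  exact hx ((ZMod.natCast_eq_zero_iff _ _).2 hd)

lemma S_of_residue (p e k : ℕ) [hp : Fact p.Prime] (he : 0 < e)
    (h : ∀ M : Matrix (Fin k) (Fin k) (ZMod p), ∃ X : Matrix (Fin k) (Fin k) (ZMod p),
      X.det ≠ 0 ∧ (M - X).det ≠ 0) : S (Fin k → ZMod (p ^ e)) := by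
  intro φ
  set M : Matrix (Fin k) (Fin k) (ZMod (p ^ e)) :=
    LinearMap.toMatrix' (φ.toZModLinearMap (p ^ e)) with hM
  have hφ : ∀ v, φ v = M.mulVec v := by
    intro v
    rw [hM, LinearMap.toMatrix'_mulVec]
    rfl
  set c := ZMod.castHom (dvd_pow_self p he.ne') (ZMod p) with hc
  obtain ⟨X', hX1, hX2⟩ := h (M.map c)
  have hsur : Function.Surjective c := ZMod.castHom_surjective _
  choose X hX using fun i j => hsur (X' i j)
  have hXmap : (Matrix.of X).map c = X' := by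
    ext i j
    simp [hX]
  have hu1 : IsUnit (Matrix.of X).det := by
    apply unit_of_cast p e he
    rw [← hc, RingHom.map_det, RingHom.mapMatrix_apply, hXmap]
    exact hX1
  have hu2 : IsUnit (M - Matrix.of X).det := by
    apply unit_of_cast p e he
    rw [← hc, RingHom.map_det, RingHom.mapMatrix_apply]
    have : (M - Matrix.of X).map c = M.map c - X' := by
      rw [← hXmap]
      ext i j
      simp
    rw [this]
    exact hX2
  refine ⟨mulVecEquiv _ hu1, mulVecEquiv _ hu2, fun v => ?_⟩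
  rw [hφ]
  change M.mulVec v = (Matrix.of X).mulVec v + (M - Matrix.of X).mulVec v
  rw [← Matrix.add_mulVec]
  congr 1
  abel

lemma S_one (p e : ℕ) [hp : Fact p.Prime] (hp2 : p ≠ 2) (he : 0 < e) :
    S (Fin 1 → ZMod (p ^ e)) := by
  apply S_of_residue p e 1 he
  intro M
  have h2 : (2 : ZMod p) ≠ 0 := by
    intro h
    have h3 : ((2 : ℕ) : ZMod p) = 0 := by exact_mod_cast h
    rw [ZMod.natCast_eq_zero_iff] at h3
    have := (Nat.prime_dvd_prime_iff_eq hp.1 Nat.prime_two).1 h3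
    exact hp2 this
  by_cases hM : M 0 0 = 1
  · refine ⟨Matrix.of fun _ _ => 2, ?_, ?_⟩
    · simpa [Matrix.det_unique] using h2
    · rw [Matrix.det_unique]
      simp only [Fin.default_eq_zero, Matrix.sub_apply, hM, Matrix.of_apply]
      norm_num
  · refine ⟨Matrix.of fun _ _ => 1, ?_, ?_⟩
    · simp [Matrix.det_unique]
    · rw [Matrix.det_unique]
      simp only [Fin.default_eq_zero, Matrix.sub_apply, Matrix.of_apply]
      exact sub_ne_zero.2 hM

def W2 : List (Fin 4 → ZMod 2) := [![0, 1, 1, 0], ![1, 1, 1, 0], ![1, 0, 0, 1], ![1, 1, 0, 1],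
  ![1, 0, 1, 1]]

theorem dec2 : ∀ a b c d : ZMod 2, ∃ w ∈ W2, w 0 * w 3 - w 1 * w 2 ≠ 0 ∧
    (a - w 0) * (d - w 3) - (b - w 1) * (c - w 2) ≠ 0 := by
  decide +kernel

def W3 : List (Fin 9 → ZMod 2) := [![0, 0, 1, 0, 1, 0, 1, 0, 0], ![1, 1, 0, 0, 0, 1, 0, 1, 0],
  ![1, 1, 1, 0, 1, 1, 1, 1, 0], ![0, 1, 1, 1, 1, 0, 1, 0, 0], ![1, 0, 0, 1, 0, 1, 0, 1, 0],
  ![0, 0, 1, 1, 0, 1, 1, 1, 0], ![0, 1, 1, 1, 0, 0, 0, 0, 1], ![1, 1, 1, 0, 1, 1, 1, 0, 1],
  ![0, 0, 1, 1, 1, 0, 1, 0, 0]]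

def d3 (a b c d e f g h i : ZMod 2) : ZMod 2 :=
  a * e * i - a * f * h - b * d * i + b * f * g + c * d * h - c * e * g

theorem dec3 : ∀ a b c d e f g h i : ZMod 2, ∃ w ∈ W3,
    d3 (w 0) (w 1) (w 2) (w 3) (w 4) (w 5) (w 6) (w 7) (w 8) ≠ 0 ∧
    d3 (a - w 0) (b - w 1) (c - w 2) (d - w 3) (e - w 4) (f - w 5) (g - w 6) (h - w 7)
      (i - w 8) ≠ 0 := by
  decide +kernel

lemma S_two (e : ℕ) (he : 0 < e) : S (Fin 2 → ZMod (2 ^ e)) := by
  apply S_of_residue 2 e 2 he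
  intro M
  obtain ⟨w, _, h1, h2⟩ := dec2 (M 0 0) (M 0 1) (M 1 0) (M 1 1)
  refine ⟨!![w 0, w 1; w 2, w 3], ?_, ?_⟩
  · rw [Matrix.det_fin_two]
    simpa using h1
  · rw [Matrix.det_fin_two]
    simpa using h2

lemma S_three (e : ℕ) (he : 0 < e) : S (Fin 3 → ZMod (2 ^ e)) := by
  apply S_of_residue 2 e 3 he
  intro M
  obtain ⟨w, _, h1, h2⟩ := dec3 (M 0 0) (M 0 1) (M 0 2) (M 1 0) (M 1 1) (M 1 2) (M 2 0) (M 2 1)
    (M 2 2)
  refine ⟨!![w 0, w 1, w 2; w 3, w 4, w 5; w 6, w 7, w 8], ?_, ?_⟩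
  · rw [Matrix.det_fin_three]
    simpa [d3] using h1
  · rw [Matrix.det_fin_three]
    simpa [d3] using h2

/-- every subgroup of a finite abelian group is a kernel of an endomorphism -/
theorem exists_ker (G : Type*) [CommGroup G] [Finite G] (H : Subgroup G) :
    ∃ φ : G →* G, φ.ker = H := by
  obtain ⟨e1⟩ := CommGroup.monoidHom_mulEquiv_of_hasEnoughRootsOfUnity (G ⧸ H) ℂ
  obtain ⟨e2⟩ := CommGroup.monoidHom_mulEquiv_of_hasEnoughRootsOfUnity G ℂ
  let r : ((G ⧸ H) →* ℂˣ) →* (G →* ℂˣ) :=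
    { toFun := fun f => f.comp (QuotientGroup.mk' H)
      map_one' := by ext; rfl
      map_mul' := fun f g => by ext; rfl }
  have hr : Function.Injective r := by
    intro f g hfg
    ext x
    have := congrArg (fun k : G →* ℂˣ => k x) hfg
    exact congrArg Units.val this
  refine ⟨((e2.toMonoidHom.comp r).comp e1.symm.toMonoidHom).comp (QuotientGroup.mk' H), ?_⟩
  ext g
  rw [MonoidHom.mem_ker]
  simp only [MonoidHom.comp_apply, MulEquiv.toMonoidHom_eq_coe, MonoidHom.coe_coe,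
    EmbeddingLike.map_eq_one_iff]
  constructor
  · intro h
    have h2 : r (e1.symm ((QuotientGroup.mk' H) g)) = r 1 := by rw [h, map_one]
    have h3 := hr h2
    rw [EmbeddingLike.map_eq_one_iff] at h3
    exact (QuotientGroup.eq_one_iff g).1 h3
  · intro h
    have : (QuotientGroup.mk' H) g = 1 := (QuotientGroup.eq_one_iff g).2 h
    rw [this, map_one, map_one]

end Pool.Agent.V11117.FixA
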