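import Mathlib
import Pool.Agent.V11117.FixA

namespace Pool.Agent.V11117.FixA

/-- splitting a product by a predicate -/
def splitEquiv {ι : Type} (P : ι → Prop) [DecidablePred P] (M : ι → Type)
    [∀ i, AddCommGroup (M i)] :
    (∀ i, M i) ≃+ (∀ i : {x // P x}, M i) × (∀ i : {x // ¬ P x}, M i) :=
  { Equiv.piEquivPiSubtypeProd P M with map_add' := fun _ _ => rfl }

/-- a homogeneous block -/
noncomputable def blockEquiv {κ : Type} (k q : ℕ) (e : κ ≃ Fin k) (m : κ → ℕ)
    (hm : ∀ i, m i = q) : (∀ i, ZMod (m i)) ≃+ (Fin k → ZMod q) :=
  (AddEquiv.piCongrRight (fun i => (ZMod.ringEquivCongr (hm i)).toAddEquiv)).trans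
    { toFun := fun f j => f (e.symm j)
      invFun := fun f i => f (e i)
      left_inv := fun f => by
        funext i
        simp
      right_inv := fun f => by
        funext j
        simp
      map_add' := fun f g => rfl }

/-- the condition on the exponents -/
def Cond {ι : Type} (p e : ι → ℕ) : Prop :=
  ∀ i, p i = 2 → ∃ j, j ≠ i ∧ p j = 2 ∧ e j = e i

theorem S_all : ∀ (n : ℕ) (ι : Type) [Fintype ι] (p e : ι → ℕ), Fintype.card ι = n →
    (∀ i, (p i).Prime) → (∀ i, 0 < e i) → Cond p e → S (∀ i, ZMod (p i ^ e i)) := by
  classical
  intro n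
  induction n using Nat.strong_induction_on with
  | _ n ih =>
    intro ι _ p e hcard hp he hc
    -- reduction step
    have step : ∀ (P : ι → Prop) (k q : ℕ), 0 < k → Nat.card {x // P x} = k →
        (∀ i : {x // P x}, p i.1 ^ e i.1 = q) → S (Fin k → ZMod q) →
        Cond (fun i : {x // ¬ P x} => p i.1) (fun i => e i.1) →
        S (∀ i, ZMod (p i ^ e i)) := by
      intro P k q hk hcP' hq hS hC
      have hcP : Fintype.card {x // P x} = k := by
        rw [← Nat.card_eq_fintype_card]
        exact hcP'
      have h1 : Fintype.card {x // ¬ P x} < n := by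
        rw [Fintype.card_subtype_compl, hcP, hcard]
        have : 0 < n := by
          rw [← hcard]
          have h2 : 0 < Fintype.card {x // P x} := by omega
          obtain ⟨x⟩ := Fintype.card_pos_iff.1 h2
          exact Fintype.card_pos_iff.2 ⟨x.1⟩
        omega
      have h2 := ih _ h1 {x // ¬ P x} (fun i => p i.1) (fun i => e i.1) rfl
        (fun i => hp i.1) (fun i => he i.1) hC
      refine S_iso (splitEquiv P (fun i => ZMod (p i ^ e i))).symm (S_prod ?_ h2)
      exact S_iso (blockEquiv k q (Fintype.equivFinOfCardEq hcP) (fun i => p i.1 ^ e i.1)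
        hq).symm hS
    rcases isEmpty_or_nonempty ι with hι | ⟨⟨i0⟩⟩
    · haveI : Subsingleton (∀ i, ZMod (p i ^ e i)) := inferInstance
      exact S_triv
    by_cases hodd : ∃ i, p i ≠ 2
    · obtain ⟨i, hi⟩ := hodd
      haveI : Fact (p i).Prime := ⟨hp i⟩
      apply step (fun x => x = i) 1 (p i ^ e i) one_pos (Nat.card_eq_fintype_card.trans (Fintype.card_subtype_eq i))
        (fun x => by rw [x.2]) (S_one (p i) (e i) hi (he i))
      rintro ⟨x, hx⟩ hx2
      obtain ⟨j, hj1, hj2, hj3⟩ := hc x hx2
      refine ⟨⟨j, fun h => hi (by rw [← h]; exact hj2)⟩, ?_, hj2, hj3⟩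
      intro h
      exact hj1 (congrArg Subtype.val h)
    · push Not at hodd
      obtain ⟨j0, hj1, hj2, hj3⟩ := hc i0 (hodd i0)
      by_cases h3 : Fintype.card {x // e x = e i0} = 3
      · apply step (fun x => e x = e i0) 3 (2 ^ e i0) (by norm_num) (Nat.card_eq_fintype_card.trans h3)
          (fun x => by rw [x.2, hodd]) (S_three (e i0) (he i0))
        rintro ⟨x, hx⟩ hx2
        obtain ⟨j, hj1, hj2, hj3⟩ := hc x hx2
        refine ⟨⟨j, fun h => hx (by rw [← hj3]; exact h)⟩, ?_, hj2, hj3⟩
        intro h
        exact hj1 (congrArg Subtype.val h)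
      · have hcard2 : Fintype.card {x // x = i0 ∨ x = j0} = 2 := by
          rw [Fintype.card_subtype]
          have : (Finset.univ.filter (fun x => x = i0 ∨ x = j0)) = {i0, j0} := by
            ext x
            simp
          rw [this, Finset.card_pair hj1.symm]
        apply step (fun x => x = i0 ∨ x = j0) 2 (2 ^ e i0) (by norm_num)
          (Nat.card_eq_fintype_card.trans hcard2)
          (fun x => by
            rcases x.2 with h | h
            · rw [h, hodd]
            · rw [h, hodd, hj3]) (S_two (e i0) (he i0))
        rintro ⟨x, hx⟩ hx2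
        push Not at hx
        obtain ⟨y, hy1, hy2, hy3⟩ := hc x hx2
        simp only at hy2 hy3 hx2
        by_cases hy : y = i0 ∨ y = j0
        · have hex : e x = e i0 := by
            rcases hy with h | h
            · rw [← hy3, h]
            · rw [← hy3, h, hj3]
          -- the class has at least four elements
          have hfour : ∃ z, e z = e i0 ∧ z ≠ i0 ∧ z ≠ j0 ∧ z ≠ x := by
            by_contra hcon
            push Not at hcon
            apply h3
            rw [Fintype.card_subtype]
            have : (Finset.univ.filter (fun z => e z = e i0)) = {i0, j0, x} := by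
              ext z
              simp only [Finset.mem_filter, Finset.mem_univ, true_and, Finset.mem_insert,
                Finset.mem_singleton]
              constructor
              · intro hz
                by_cases c1 : z = i0
                · exact Or.inl c1
                · by_cases c2 : z = j0
                  · exact Or.inr (Or.inl c2)
                  · exact Or.inr (Or.inr (hcon z hz c1 c2))
              · rintro (h | h | h)
                · rw [h]
                · rw [h, hj3]
                · rw [h, hex]
            rw [this, Finset.card_eq_three]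
            exact ⟨i0, j0, x, hj1.symm, fun h => hx.1 h.symm, fun h => hx.2 h.symm, rfl⟩
          obtain ⟨z, hz1, hz2, hz3, hz4⟩ := hfour
          refine ⟨⟨z, by
            rintro (h | h)
            · exact hz2 h
            · exact hz3 h⟩, ?_, hodd z, ?_⟩
          · intro h
            exact hz4 (congrArg Subtype.val h)
          · simp only
            rw [hz1, hex]
        · refine ⟨⟨y, hy⟩, ?_, hy2, hy3⟩
          intro h
          exact hy1 (congrArg Subtype.val h)

end Pool.Agent.V11117.FixA
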