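import Mathlib
import Pool.Agent.V11117.FixB

namespace Pool.Agent.V11117.FixA

lemma z1 (m k : ℕ) (hk : 0 < k) (hm : m = 2 ^ k) (x : ZMod m) (h : (2 : ℕ) • x = 0) :
    ∃ c : ZMod m, x = (2 ^ (k - 1) : ℕ) • c := by
  haveI : NeZero m := ⟨by rw [hm]; positivity⟩
  have h1 : ((x.val : ℕ) : ZMod m) = x := ZMod.natCast_zmod_val x
  have h2 : ((2 * x.val : ℕ) : ZMod m) = 0 := by
    rw [Nat.cast_mul, h1, ← nsmul_eq_mul]
    exact h
  rw [ZMod.natCast_eq_zero_iff] at h2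
  have h2' : 2 ^ k ∣ 2 * x.val := by
    rw [← hm]
    exact h2
  obtain ⟨j, rfl⟩ : ∃ j, k = j + 1 := ⟨k - 1, by omega⟩
  rw [pow_succ'] at h2'
  obtain ⟨c, hc⟩ := Nat.dvd_of_mul_dvd_mul_left (by norm_num) h2'
  refine ⟨(c : ZMod m), ?_⟩
  rw [nsmul_eq_mul, ← Nat.cast_mul, Nat.add_sub_cancel]
  rw [← hc, h1]

lemma z2 (m : ℕ) (hm : m.Coprime 2) (hm0 : 0 < m) (x : ZMod m) (h : (2 : ℕ) • x = 0) :
    x = 0 := by
  haveI : NeZero m := ⟨hm0.ne'⟩
  have h1 : ((x.val : ℕ) : ZMod m) = x := ZMod.natCast_zmod_val x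
  have h2 : ((2 * x.val : ℕ) : ZMod m) = 0 := by
    rw [Nat.cast_mul, h1, ← nsmul_eq_mul]
    exact h
  rw [ZMod.natCast_eq_zero_iff] at h2
  have h3 := hm.dvd_of_dvd_mul_left h2
  rw [← h1, ZMod.natCast_eq_zero_iff]
  exact h3

lemma z3 (m k E : ℕ) (hm : m = 2 ^ k) (hkE : k ≤ E) (w : ZMod m) : (2 ^ E : ℕ) • w = 0 := by
  rw [nsmul_eq_mul]
  have : ((2 ^ E : ℕ) : ZMod m) = 0 := by
    rw [ZMod.natCast_eq_zero_iff, hm]
    exact pow_dvd_pow 2 hkE
  rw [this, zero_mul]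

lemma z4 (m E : ℕ) (hE : 0 < E) (hm : m = 2 ^ E) (w : ZMod m) :
    (2 ^ (E - 1) : ℕ) • w = 0 ∨ (2 ^ (E - 1) : ℕ) • w = (2 ^ (E - 1) : ℕ) • (1 : ZMod m) := by
  haveI : NeZero m := ⟨by rw [hm]; positivity⟩
  have h1 : ((w.val : ℕ) : ZMod m) = w := ZMod.natCast_zmod_val w
  have hpow : 2 ^ (E - 1) * 2 = 2 ^ E := by
    rw [← pow_succ]
    congr 1
    omega
  rcases Nat.even_or_odd' w.val with ⟨c, hc | hc⟩
  · left
    rw [← h1, hc, nsmul_eq_mul, ← Nat.cast_mul, ZMod.natCast_eq_zero_iff, hm, ← mul_assoc, hpow]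
    exact Dvd.intro c rfl
  · right
    rw [← h1, hc, nsmul_eq_mul, nsmul_eq_mul, ← Nat.cast_mul]
    have : 2 ^ (E - 1) * (2 * c + 1) = m * c + 2 ^ (E - 1) := by
      rw [hm, ← hpow]
      ring
    rw [this, Nat.cast_add, Nat.cast_mul, ZMod.natCast_self]
    ring

theorem nec {ι : Type} [Fintype ι] (p e : ι → ℕ) (hp : ∀ i, (p i).Prime) (he : ∀ i, 0 < e i)
    (i : ι) (hi : p i = 2) (hu : ∀ j, j ≠ i → p j = 2 → e j ≠ e i)
    (β : (∀ i, ZMod (p i ^ e i)) ≃+ (∀ i, ZMod (p i ^ e i))) : ∃ a, a ≠ 0 ∧ β a = a := by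
  classical
  haveI : ∀ i, NeZero (p i ^ e i) := fun i => ⟨(pow_pos (hp i).pos _).ne'⟩
  set E := e i with hE
  have hE0 : 0 < E := he i
  let V0 : AddSubgroup (∀ i, ZMod (p i ^ e i)) :=
    { carrier := {v | (2 : ℕ) • v = 0 ∧ ∃ w, v = (2 ^ (E - 1) : ℕ) • w}
      zero_mem' := ⟨smul_zero _, 0, (smul_zero _).symm⟩
      add_mem' := by
        rintro a b ⟨h1, w1, h2⟩ ⟨h3, w2, h4⟩
        refine ⟨by rw [smul_add, h1, h3, add_zero], w1 + w2, by rw [smul_add, ← h2, ← h4]⟩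
      neg_mem' := by
        rintro a ⟨h1, w1, h2⟩
        refine ⟨by rw [smul_neg, h1, neg_zero], -w1, by rw [smul_neg, ← h2]⟩ }
  let V1 : AddSubgroup (∀ i, ZMod (p i ^ e i)) :=
    { carrier := {v | (2 : ℕ) • v = 0 ∧ ∃ w, v = (2 ^ E : ℕ) • w}
      zero_mem' := ⟨smul_zero _, 0, (smul_zero _).symm⟩
      add_mem' := by
        rintro a b ⟨h1, w1, h2⟩ ⟨h3, w2, h4⟩
        refine ⟨by rw [smul_add, h1, h3, add_zero], w1 + w2, by rw [smul_add, ← h2, ← h4]⟩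
      neg_mem' := by
        rintro a ⟨h1, w1, h2⟩
        refine ⟨by rw [smul_neg, h1, neg_zero], -w1, by rw [smul_neg, ← h2]⟩ }
  have hm0 : ∀ v, v ∈ V0 ↔ (2 : ℕ) • v = 0 ∧ ∃ w, v = (2 ^ (E - 1) : ℕ) • w := fun v => Iff.rfl
  have hm1 : ∀ v, v ∈ V1 ↔ (2 : ℕ) • v = 0 ∧ ∃ w, v = (2 ^ E : ℕ) • w := fun v => Iff.rfl
  have hpow : 2 ^ (E - 1) * 2 = 2 ^ E := by
    rw [← pow_succ]
    congr 1
    omega
  have hsub : ∀ v, v ∈ V1 → v ∈ V0 := by
    rintro v ⟨h1, w, h2⟩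
    exact ⟨h1, (2 : ℕ) • w, by rw [h2, smul_smul, hpow]⟩
  have hpres0 : ∀ (γ : (∀ i, ZMod (p i ^ e i)) ≃+ (∀ i, ZMod (p i ^ e i))) v, v ∈ V0 →
      γ v ∈ V0 := by
    rintro γ v ⟨h1, w, h2⟩
    exact ⟨by rw [← map_nsmul, h1, map_zero], γ w, by rw [← map_nsmul, ← h2]⟩
  have hpres1 : ∀ (γ : (∀ i, ZMod (p i ^ e i)) ≃+ (∀ i, ZMod (p i ^ e i))) v, v ∈ V1 →
      γ v ∈ V1 := by
    rintro γ v ⟨h1, w, h2⟩
    exact ⟨by rw [← map_nsmul, h1, map_zero], γ w, by rw [← map_nsmul, ← h2]⟩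
  have hmi : p i ^ e i = 2 ^ E := by rw [hi]
  set v0 : ∀ i, ZMod (p i ^ e i) := (2 ^ (E - 1) : ℕ) • Pi.single i 1 with hv0
  have hv0i : v0 i = (2 ^ (E - 1) : ℕ) • (1 : ZMod (p i ^ e i)) := by
    rw [hv0, Pi.smul_apply, Pi.single_eq_same]
  have hv0j : ∀ j, j ≠ i → v0 j = 0 := by
    intro j hj
    rw [hv0, Pi.smul_apply, Pi.single_eq_of_ne hj, smul_zero]
  have hv0mem : v0 ∈ V0 := by
    refine ⟨?_, _, rfl⟩
    funext j
    by_cases hj : j = i
    · subst hj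
      rw [Pi.smul_apply, hv0i, smul_smul, mul_comm, hpow]
      exact z3 _ E E hmi le_rfl _
    · rw [Pi.smul_apply, hv0j j hj, smul_zero]
      rfl
  have hv0not : v0 ∉ V1 := by
    rintro ⟨_, w, hw⟩
    have h1 := congrFun hw i
    rw [hv0i, Pi.smul_apply, z3 _ E E hmi le_rfl, nsmul_eq_mul, mul_one,
      ZMod.natCast_eq_zero_iff, hmi] at h1
    have h2 := Nat.le_of_dvd (by positivity) h1
    have h3 : 0 < 2 ^ (E - 1) := by positivity
    omega
  have claim : ∀ v, v ∈ V0 → v ∈ V1 ∨ v - v0 ∈ V1 := by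
    intro v hv
    obtain ⟨h2v, w, hw⟩ := hv
    have hcoord : ∀ j, j ≠ i → ∃ c, v j = (2 ^ E : ℕ) • c := by
      intro j hj
      have hvj : (2 : ℕ) • v j = 0 := by
        have := congrFun h2v j
        rwa [Pi.smul_apply] at this
      by_cases hpj : p j = 2
      · have hmj : p j ^ e j = 2 ^ e j := by rw [hpj]
        rcases lt_or_gt_of_ne (hu j hj hpj) with h | h
        · refine ⟨0, ?_⟩
          rw [smul_zero, hw, Pi.smul_apply]
          exact z3 _ (e j) (E - 1) hmj (by omega) _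
        · obtain ⟨c, hc⟩ := z1 _ (e j) (he j) hmj (v j) hvj
          refine ⟨(2 ^ (e j - 1 - E) : ℕ) • c, ?_⟩
          rw [hc, smul_smul, ← pow_add]
          congr 2
          omega
      · refine ⟨0, ?_⟩
        rw [smul_zero]
        refine z2 _ ?_ (pow_pos (hp j).pos _) _ hvj
        apply Nat.Coprime.pow_left
        rw [(hp j).coprime_iff_not_dvd]
        intro hd
        exact hpj ((Nat.prime_dvd_prime_iff_eq (hp j) Nat.prime_two).1 hd)
    have hvi : v i = 0 ∨ v i = v0 i := by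
      rw [hv0i, hw, Pi.smul_apply]
      exact z4 _ E hE0 hmi (w i)
    rcases hvi with h | h
    · left
      refine ⟨h2v, ?_⟩
      have : ∀ j, ∃ c, v j = (2 ^ E : ℕ) • c := by
        intro j
        by_cases hj : j = i
        · subst hj
          exact ⟨0, by rw [smul_zero, h]⟩
        · exact hcoord j hj
      choose c hc using this
      exact ⟨c, by funext j; rw [Pi.smul_apply]; exact hc j⟩
    · right
      refine ⟨by rw [smul_sub, h2v, hv0mem.1, sub_zero], ?_⟩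
      have : ∀ j, ∃ c, (v - v0) j = (2 ^ E : ℕ) • c := by
        intro j
        by_cases hj : j = i
        · subst hj
          exact ⟨0, by rw [smul_zero, Pi.sub_apply, h, sub_self]⟩
        · obtain ⟨c, hc⟩ := hcoord j hj
          exact ⟨c, by rw [Pi.sub_apply, hv0j j hj, sub_zero, hc]⟩
      choose c hc using this
      exact ⟨c, by funext j; rw [Pi.smul_apply]; exact hc j⟩
  have hdiff : ∀ v, v ∈ V0 → β v - v ∈ V1 := by
    intro v hv
    rcases claim v hv with h | h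
    · exact V1.sub_mem (hpres1 β v h) h
    · by_cases hv1 : v ∈ V1
      · exact V1.sub_mem (hpres1 β v hv1) hv1
      · rcases claim (β v) (hpres0 β v hv) with h2 | h2
        · exfalso
          apply hv1
          have := hpres1 β.symm _ h2
          rwa [AddEquiv.symm_apply_apply] at this
        · have h3 := V1.sub_mem h2 h
          rwa [sub_sub_sub_cancel_right] at h3
  have hlt : (V1 : Set (∀ i, ZMod (p i ^ e i))).ncard <
      (V0 : Set (∀ i, ZMod (p i ^ e i))).ncard := by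
    apply Set.ncard_lt_ncard _ (Set.toFinite _)
    rw [Set.ssubset_iff_of_subset (fun v hv => hsub v hv)]
    exact ⟨v0, hv0mem, hv0not⟩
  obtain ⟨x, hx, y, hy, hxy, hf⟩ := Set.exists_ne_map_eq_of_ncard_lt_of_maps_to hlt
    (f := fun v => β v - v) (fun v hv => hdiff v hv) (Set.toFinite _)
  refine ⟨x - y, sub_ne_zero.2 hxy, ?_⟩
  rw [map_sub]
  have : β x - x = β y - y := hf
  rw [sub_eq_sub_iff_add_eq_add] at this
  rw [sub_eq_sub_iff_add_eq_add]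
  rw [this]
  abel

end Pool.Agent.V11117.FixA
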