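import Mathlib

namespace Pool.Agent.V11117.IMV

/-- K4-free partition of the edges of the complete graph on `Fin n` into `r` parts: the edge
`{a,b}` lies in part number `f a b < r`. -/
def K4FreePartition (n r : ℕ) (f : Fin n → Fin n → ℕ) : Prop :=
  (∀ a b, f a b = f b a) ∧ (∀ a b, a ≠ b → f a b < r) ∧
    ∀ a b c d, a ≠ b → a ≠ c → a ≠ d → b ≠ c → b ≠ d → c ≠ d →
      ¬ (f a b = f a c ∧ f a b = f a d ∧ f a b = f b c ∧ f a b = f b d ∧ f a b = f c d)

lemma ramsey33 {V : Type*} [DecidableEq V] (A : Finset V) (hA : 6 ≤ A.card) (P : V → V → Prop)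
    (hP : ∀ a b, P a b → P b a) : ∃ a b c, a ∈ A ∧ b ∈ A ∧ c ∈ A ∧ a ≠ b ∧ a ≠ c ∧ b ≠ c ∧
      ((P a b ∧ P a c ∧ P b c) ∨ (¬ P a b ∧ ¬ P a c ∧ ¬ P b c)) := by
  classical
  obtain ⟨v, hv⟩ : A.Nonempty := Finset.card_pos.1 (by omega)
  have h5 : 5 ≤ (A.erase v).card := by
    rw [Finset.card_erase_of_mem hv]
    omega
  have hsplit := Finset.card_filter_add_card_filter_not (s := A.erase v) (fun x => P v x)
  by_cases h : 2 < ((A.erase v).filter (fun x => P v x)).card
  · rw [Finset.two_lt_card] at h
    obtain ⟨x, hx, y, hy, z, hz, hxy, hxz, hyz⟩ := h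
    rw [Finset.mem_filter, Finset.mem_erase] at hx hy hz
    by_cases c1 : P x y
    · exact ⟨v, x, y, hv, hx.1.2, hy.1.2, hx.1.1.symm, hy.1.1.symm, hxy,
        Or.inl ⟨hx.2, hy.2, c1⟩⟩
    by_cases c2 : P x z
    · exact ⟨v, x, z, hv, hx.1.2, hz.1.2, hx.1.1.symm, hz.1.1.symm, hxz,
        Or.inl ⟨hx.2, hz.2, c2⟩⟩
    by_cases c3 : P y z
    · exact ⟨v, y, z, hv, hy.1.2, hz.1.2, hy.1.1.symm, hz.1.1.symm, hyz,
        Or.inl ⟨hy.2, hz.2, c3⟩⟩
    exact ⟨x, y, z, hx.1.2, hy.1.2, hz.1.2, hxy, hxz, hyz, Or.inr ⟨c1, c2, c3⟩⟩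
  · have h' : 2 < ((A.erase v).filter (fun x => ¬ P v x)).card := by omega
    rw [Finset.two_lt_card] at h'
    obtain ⟨x, hx, y, hy, z, hz, hxy, hxz, hyz⟩ := h'
    rw [Finset.mem_filter, Finset.mem_erase] at hx hy hz
    by_cases c1 : P x y
    · by_cases c2 : P x z
      · by_cases c3 : P y z
        · exact ⟨x, y, z, hx.1.2, hy.1.2, hz.1.2, hxy, hxz, hyz, Or.inl ⟨c1, c2, c3⟩⟩
        · exact ⟨v, y, z, hv, hy.1.2, hz.1.2, hy.1.1.symm, hz.1.1.symm, hyz,
            Or.inr ⟨hy.2, hz.2, c3⟩⟩
      · exact ⟨v, x, z, hv, hx.1.2, hz.1.2, hx.1.1.symm, hz.1.1.symm, hxz,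
          Or.inr ⟨hx.2, hz.2, c2⟩⟩
    · exact ⟨v, x, y, hv, hx.1.2, hy.1.2, hx.1.1.symm, hy.1.1.symm, hxy,
        Or.inr ⟨hx.2, hy.2, c1⟩⟩

theorem small_partition (n : ℕ) (hn : n ≤ 9) : ∃ f, K4FreePartition n 2 f := by
  refine ⟨fun a b => if a.1 / 3 = b.1 / 3 then 0 else 1, ?_, ?_, ?_⟩
  · intro a b
    simp only [eq_comm]
  · intro a b _
    simp only
    split_ifs <;> norm_num
  · intro a b c d hab hac had hbc hbd hcd hmono
    have h1 : a.1 ≠ b.1 := fun h => hab (Fin.ext h)
    have h2 : a.1 ≠ c.1 := fun h => hac (Fin.ext h)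
    have h3 : a.1 ≠ d.1 := fun h => had (Fin.ext h)
    have h4 : b.1 ≠ c.1 := fun h => hbc (Fin.ext h)
    have h5 : b.1 ≠ d.1 := fun h => hbd (Fin.ext h)
    have h6 : c.1 ≠ d.1 := fun h => hcd (Fin.ext h)
    have l1 := a.2
    have l2 := b.2
    have l3 := c.2
    have l4 := d.2
    simp only at hmono
    by_cases q : a.1 / 3 = b.1 / 3
    · rw [if_pos q] at hmono
      have r1 : a.1 / 3 = c.1 / 3 := by
        by_contra h; rw [if_neg h] at hmono; omega
      have r2 : a.1 / 3 = d.1 / 3 := by
        by_contra h; rw [if_neg h] at hmono; omega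
      omega
    · rw [if_neg q] at hmono
      have r1 : a.1 / 3 ≠ c.1 / 3 := by
        intro h; rw [if_pos h] at hmono; omega
      have r2 : a.1 / 3 ≠ d.1 / 3 := by
        intro h; rw [if_pos h] at hmono; omega
      have r3 : b.1 / 3 ≠ c.1 / 3 := by
        intro h; rw [if_pos h] at hmono; omega
      have r4 : b.1 / 3 ≠ d.1 / 3 := by
        intro h; rw [if_pos h] at hmono; omega
      have r5 : c.1 / 3 ≠ d.1 / 3 := by
        intro h; rw [if_pos h] at hmono; omega
      omega

lemma third {x t u : ℕ} (h1 : x < 3) (h2 : t < 3) (h3 : u < 3) (h4 : x ≠ t) (h5 : x ≠ u)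
    (h6 : t ≠ u) : x + t + u = 3 := by omega

lemma two' {x u : ℕ} (h1 : x < 2) (h2 : u < 2) (h3 : x ≠ u) : x + u = 1 := by omega

lemma mono_of {n : ℕ} {f : Fin n → Fin n → ℕ}
    (hfree : ∀ a b c d, a ≠ b → a ≠ c → a ≠ d → b ≠ c → b ≠ d → c ≠ d →
      ¬ (f a b = f a c ∧ f a b = f a d ∧ f a b = f b c ∧ f a b = f b d ∧ f a b = f c d))
    (l : ℕ) {a b c d : Fin n} (hab : a ≠ b) (hac : a ≠ c) (had : a ≠ d) (hbc : b ≠ c)
    (hbd : b ≠ d) (hcd : c ≠ d) (h1 : f a b = l) (h2 : f a c = l) (h3 : f a d = l)
    (h4 : f b c = l) (h5 : f b d = l) (h6 : f c d = l) : False :=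
  hfree a b c d hab hac had hbc hbd hcd
    ⟨h1.trans h2.symm, h1.trans h3.symm, h1.trans h4.symm, h1.trans h5.symm, h1.trans h6.symm⟩

/-- The combinatorial core. -/
theorem core (n k : ℕ) (hn : 0 < n) (hk : k ≤ 3) (f : Fin n → Fin n → ℕ)
    (hf : K4FreePartition n k f) (m : Fin n → ℕ) (hm : ∀ a, m a < k)
    (hfm : ∀ a b, a ≠ b → f a b ≠ m a) : 0 < k ∧ ∃ f', K4FreePartition n (k - 1) f' := by
  classical
  obtain ⟨hs, hlt, hfree⟩ := hf
  have hk0 : 0 < k := lt_of_le_of_lt (Nat.zero_le _) (hm ⟨0, hn⟩)
  refine ⟨hk0, ?_⟩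
  have hfm' : ∀ a b, a ≠ b → f a b ≠ m b := by
    intro a b hab
    rw [hs a b]
    exact hfm b a hab.symm
  rcases (show k = 1 ∨ k = 2 ∨ k = 3 by omega) with h | h | h
  · subst h
    refine ⟨f, hs, ?_, hfree⟩
    intro a b hab
    exfalso
    have h1 := hlt a b hab
    have h2 := hm a
    have h3 := hfm a b hab
    omega
  · subst h
    refine ⟨fun _ _ => 0, fun _ _ => rfl, fun _ _ _ => by norm_num, ?_⟩
    intro a b c d hab hac had hbc hbd hcd _
    have e1 := two' (hlt a b hab) (hm a) (hfm a b hab)
    have e2 := two' (hlt a b hab) (hm b) (hfm' a b hab)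
    have e3 := two' (hlt a c hac) (hm a) (hfm a c hac)
    have e4 := two' (hlt a c hac) (hm c) (hfm' a c hac)
    have e5 := two' (hlt a d had) (hm a) (hfm a d had)
    have e7 := two' (hlt b c hbc) (hm b) (hfm b c hbc)
    have e8 := two' (hlt b d hbd) (hm b) (hfm b d hbd)
    have e9 := two' (hlt c d hcd) (hm c) (hfm c d hcd)
    exact mono_of hfree (f a b) hab hac had hbc hbd hcd rfl (by omega) (by omega) (by omega)
      (by omega) (by omega)
  · subst h
    have cross : ∀ t v u, t < 3 → v < 3 → u < 3 → t ≠ v → t ≠ u → v ≠ u → ∀ a x, m a = t →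
        m x = v → a ≠ x ∧ f a x = u := by
      intro t v u ht hv hu htv htu hvu a x ha hx
      have hax : a ≠ x := by
        intro h
        rw [h, hx] at ha
        exact htv ha.symm
      refine ⟨hax, ?_⟩
      have h1 := third (hlt a x hax) ht hv (by rw [← ha]; exact hfm a x hax)
        (by rw [← hx]; exact hfm' a x hax) htv
      have h2 := third hu ht hv htu.symm hvu.symm htv
      omega
    have inner : ∀ t v u, t < 3 → v < 3 → u < 3 → t ≠ v → t ≠ u → v ≠ u → ∀ a b, a ≠ b → m a = t →
        f a b ≠ u → f a b = v := by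
      intro t v u ht hv hu htv htu hvu a b hab ha hfu
      have h1 := third (hlt a b hab) ht hu (by rw [← ha]; exact hfm a b hab) hfu htu
      have h2 := third hv ht hu htv.symm hvu htu
      omega
    by_cases hall : ∀ t < 3, ∃ a, m a = t
    · -- any mono triangle inside a class is impossible
      have notri : ∀ t v u, t < 3 → v < 3 → u < 3 → t ≠ v → t ≠ u → v ≠ u → ∀ a b c, m a = t →
          m b = t → m c = t → a ≠ b → a ≠ c → b ≠ c → f a b = u → f a c = u → f b c = u →
          False := by
        intro t v u ht hv hu htv htu hvu a b c ha hb hc hab hac hbc h1 h2 h3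
        obtain ⟨x, hx⟩ := hall v hv
        obtain ⟨ax, h4⟩ := cross t v u ht hv hu htv htu hvu a x ha hx
        obtain ⟨bx, h5⟩ := cross t v u ht hv hu htv htu hvu b x hb hx
        obtain ⟨cx, h6⟩ := cross t v u ht hv hu htv htu hvu c x hc hx
        exact mono_of hfree u hab hac ax hbc bx cx h1 h2 h4 h3 h5 h6
      have others : ∀ t, t < 3 → ∃ u v, u < 3 ∧ v < 3 ∧ t ≠ u ∧ t ≠ v ∧ u ≠ v := by
        intro t ht
        rcases (by omega : t = 0 ∨ t = 1 ∨ t = 2) with h | h | h
        · exact ⟨1, 2, by omega, by omega, by omega, by omega, by omega⟩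
        · exact ⟨0, 2, by omega, by omega, by omega, by omega, by omega⟩
        · exact ⟨0, 1, by omega, by omega, by omega, by omega, by omega⟩
      have hcls : ∀ t, t < 3 → (Finset.univ.filter (fun a => m a = t)).card ≤ 5 := by
        intro t ht
        by_contra hcon
        push Not at hcon
        obtain ⟨u, v, hu, hv, htu, htv, huv⟩ := others t ht
        obtain ⟨a, b, c, ha, hb, hc, hab, hac, hbc, hmono⟩ := ramsey33
          (Finset.univ.filter (fun a => m a = t)) hcon (fun x y => f x y = u)
          (fun x y h => by rw [hs y x]; exact h)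
        have ha := (Finset.mem_filter.1 ha).2
        have hb := (Finset.mem_filter.1 hb).2
        have hc := (Finset.mem_filter.1 hc).2
        rcases hmono with ⟨h1, h2, h3⟩ | ⟨h1, h2, h3⟩
        · exact notri t v u ht hv hu htv htu huv.symm a b c ha hb hc hab hac hbc h1 h2 h3
        · exact notri t u v ht hu hv htu htv huv a b c ha hb hc hab hac hbc
            (inner t v u ht hv hu htv htu huv.symm a b hab ha h1)
            (inner t v u ht hv hu htv htu huv.symm a c hac ha h2)
            (inner t v u ht hv hu htv htu huv.symm b c hbc hb h3)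
      have edge : ∀ i j l, i < 3 → j < 3 → l < 3 → i ≠ j → i ≠ l → j ≠ l →
          3 ≤ (Finset.univ.filter (fun a => m a = i)).card →
          ∃ a b, m a = i ∧ m b = i ∧ a ≠ b ∧ f a b = l := by
        intro i j l hi hj hl hij hil hjl c1
        have c1' : 2 < (Finset.univ.filter (fun a => m a = i)).card := c1
        rw [Finset.two_lt_card] at c1'
        obtain ⟨a, ha, b, hb, c, hc, hab, hac, hbc⟩ := c1'
        have ha := (Finset.mem_filter.1 ha).2
        have hb := (Finset.mem_filter.1 hb).2
        have hc := (Finset.mem_filter.1 hc).2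
        by_contra hcon
        push Not at hcon
        exact notri i l j hi hl hj hil hij hjl.symm a b c ha hb hc hab hac hbc
          (inner i j l hi hj hl hij hil hjl a b hab ha (hcon a b ha hb hab))
          (inner i j l hi hj hl hij hil hjl a c hac ha (hcon a c ha hc hac))
          (inner i j l hi hj hl hij hil hjl b c hbc hb (hcon b c hb hc hbc))
      have hpair : ∀ i j l, i < 3 → j < 3 → l < 3 → i ≠ j → i ≠ l → j ≠ l →
          ¬ (3 ≤ (Finset.univ.filter (fun a => m a = i)).card ∧
            3 ≤ (Finset.univ.filter (fun a => m a = j)).card) := by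
        rintro i j l hi hj hl hij hil hjl ⟨c1, c2⟩
        obtain ⟨a, b, ha, hb, hab, hfab⟩ := edge i j l hi hj hl hij hil hjl c1
        obtain ⟨c, d, hc, hd, hcd, hfcd⟩ := edge j i l hj hi hl hij.symm hjl hil c2
        obtain ⟨hac, e1⟩ := cross i j l hi hj hl hij hil hjl a c ha hc
        obtain ⟨had, e2⟩ := cross i j l hi hj hl hij hil hjl a d ha hd
        obtain ⟨hbc, e3⟩ := cross i j l hi hj hl hij hil hjl b c hb hc
        obtain ⟨hbd, e4⟩ := cross i j l hi hj hl hij hil hjl b d hb hd
        exact mono_of hfree l hab hac had hbc hbd hcd hfab e1 e2 e3 e4 hfcd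
      have hn15 : n ≤ 9 := by
        have hcov : (Finset.univ : Finset (Fin n)) ⊆
            (Finset.univ.filter (fun a => m a = 0)) ∪ (Finset.univ.filter (fun a => m a = 1)) ∪
              (Finset.univ.filter (fun a => m a = 2)) := by
          intro a _
          have := hm a
          simp only [Finset.mem_union, Finset.mem_filter, Finset.mem_univ, true_and]
          omega
        have h1 := Finset.card_le_card hcov
        rw [Finset.card_univ, Fintype.card_fin] at h1
        have h2 := Finset.card_union_le ((Finset.univ.filter (fun a => m a = 0)) ∪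
          (Finset.univ.filter (fun a => m a = 1))) (Finset.univ.filter (fun a => m a = 2))
        have h3 := Finset.card_union_le (Finset.univ.filter (fun a => m a = 0))
          (Finset.univ.filter (fun a => m a = 1))
        have c0 := hcls 0 (by norm_num)
        have c1 := hcls 1 (by norm_num)
        have c2 := hcls 2 (by norm_num)
        have p1 := hpair 0 1 2 (by norm_num) (by norm_num) (by norm_num) (by norm_num)
          (by norm_num) (by norm_num)
        have p2 := hpair 0 2 1 (by norm_num) (by norm_num) (by norm_num) (by norm_num)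
          (by norm_num) (by norm_num)
        have p3 := hpair 1 2 0 (by norm_num) (by norm_num) (by norm_num) (by norm_num)
          (by norm_num) (by norm_num)
        omega
      exact small_partition n hn15
    · push Not at hall
      obtain ⟨t, ht, hall⟩ := hall
      refine ⟨fun a b => if f a b = t then 0 else 1, ?_, ?_, ?_⟩
      · intro a b
        simp only [hs a b]
      · intro a b _
        simp only
        split_ifs <;> norm_num
      · intro a b c d hab hac had hbc hbd hcd hmono
        simp only at hmono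
        obtain ⟨q1, q2, q3, q4, q5⟩ := hmono
        have hz : ∀ x y : ℕ, (if x = t then (0 : ℕ) else 1) = (if y = t then 0 else 1) →
            (x = t ↔ y = t) := by
          intro x y h
          split_ifs at h with h1 h2 h2
          · exact ⟨fun _ => h2, fun _ => h1⟩
          · exact ⟨fun h => absurd h h1, fun h => absurd h h2⟩
        have z1 := hz _ _ q1
        have z2 := hz _ _ q2
        have z3 := hz _ _ q3
        have z4 := hz _ _ q4
        have z5 := hz _ _ q5
        by_cases q : f a b = t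
        · exact mono_of hfree t hab hac had hbc hbd hcd q (z1.1 q) (z2.1 q) (z3.1 q) (z4.1 q)
            (z5.1 q)
        · have T : ∀ x y, x ≠ y → f x y ≠ t → f x y + t + m x = 3 ∧ f x y + t + m y = 3 := by
            intro x y hxy hne
            exact ⟨third (hlt x y hxy) ht (hm x) hne (hfm x y hxy) (hall x).symm,
              third (hlt x y hxy) ht (hm y) hne (hfm' x y hxy) (hall y).symm⟩
          have t1 := T a b hab q
          have t2 := T a c hac (fun h => q (z1.2 h))
          have t3 := T a d had (fun h => q (z2.2 h))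
          have t4 := T b c hbc (fun h => q (z3.2 h))
          have t5 := T b d hbd (fun h => q (z4.2 h))
          have t6 := T c d hcd (fun h => q (z5.2 h))
          clear z1 z2 z3 z4 z5 q1 q2 q3 q4 q5 hz
          exact mono_of hfree (f a b) hab hac had hbc hbd hcd rfl (by omega) (by omega)
            (by omega) (by omega) (by omega)

end Pool.Agent.V11117.IMV
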