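import Mathlib
import Pool.Agent.V11117.Top

namespace Pool.Agent.V11117.Fied

open Matrix Finset Pool.Agent.V11117

variable {V : Type*} [Fintype V] [DecidableEq V]

/-- A symmetric integer matrix that differs from a sum of squares by a diagonally dominant matrix
has a nonnegative quadratic form. -/
lemma quad_nonneg_of_dd {κ : Type*} [Fintype κ] (M : V → V → ℤ) (B : κ → V → ℤ)
    (hs : ∀ i j, M i j = M j i)
    (hd : ∀ i, ∑ j, |M i j - ∑ k, B k i * B k j| ≤ 2 * (M i i - ∑ k, B k i * B k i))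
    (w : V → ℝ) : 0 ≤ ∑ i, ∑ j, (M i j : ℝ) * w i * w j := by
  set E : V → V → ℝ := fun i j => (M i j : ℝ) - ∑ k, (B k i : ℝ) * (B k j : ℝ) with hE
  have hEs : ∀ i j, E i j = E j i := by
    intro i j
    simp only [hE]
    rw [hs i j]
    congr 1
    exact Finset.sum_congr rfl fun k _ => mul_comm _ _
  have hd' : ∀ i, ∑ j, |E i j| ≤ 2 * E i i := by
    intro i
    have := hd i
    have h2 : ((∑ j, |M i j - ∑ k, B k i * B k j| : ℤ) : ℝ) ≤
        ((2 * (M i i - ∑ k, B k i * B k i) : ℤ) : ℝ) := by exact_mod_cast this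
    push_cast at h2
    exact h2
  have hEd : ∀ i, 0 ≤ E i i := by
    intro i
    have h1 : 0 ≤ ∑ j, |E i j| := Finset.sum_nonneg fun j _ => abs_nonneg _
    linarith [hd' i]
  have hsplit : ∑ i, ∑ j, (M i j : ℝ) * w i * w j =
      (∑ k, (∑ i, (B k i : ℝ) * w i) ^ 2) + ∑ i, ∑ j, E i j * w i * w j := by
    have h1 : (∑ k, (∑ i, (B k i : ℝ) * w i) ^ 2) =
        ∑ i, ∑ j, (∑ k, (B k i : ℝ) * (B k j : ℝ)) * w i * w j := by
      have : ∀ k, (∑ i, (B k i : ℝ) * w i) ^ 2 =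
          ∑ i, ∑ j, (B k i : ℝ) * (B k j : ℝ) * w i * w j := by
        intro k
        rw [sq, Finset.sum_mul_sum]
        refine Finset.sum_congr rfl fun i _ => Finset.sum_congr rfl fun j _ => by ring
      rw [Finset.sum_congr rfl fun k _ => this k, Finset.sum_comm]
      refine Finset.sum_congr rfl fun i _ => ?_
      rw [Finset.sum_comm]
      refine Finset.sum_congr rfl fun j _ => ?_
      rw [Finset.sum_mul, Finset.sum_mul]
    rw [h1, ← Finset.sum_add_distrib]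
    refine Finset.sum_congr rfl fun i _ => ?_
    rw [← Finset.sum_add_distrib]
    refine Finset.sum_congr rfl fun j _ => ?_
    simp only [hE]
    ring
  rw [hsplit]
  have hsq : 0 ≤ ∑ k, (∑ i, (B k i : ℝ) * w i) ^ 2 := Finset.sum_nonneg fun k _ => sq_nonneg _
  have hmain : 0 ≤ ∑ i, ∑ j, E i j * w i * w j := by
    have h1 : ∀ i j, (if i = j then 2 * |E i j| * w i ^ 2 else 0) -
        |E i j| * (w i ^ 2 + w j ^ 2) / 2 ≤ E i j * w i * w j := by
      intro i j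
      split_ifs with h
      · subst h
        rw [abs_of_nonneg (hEd i)]
        nlinarith
      · rcases abs_cases (E i j) with ⟨h2, h3⟩ | ⟨h2, h3⟩
        · rw [h2]
          nlinarith [mul_nonneg h3 (sq_nonneg (w i + w j))]
        · rw [h2]
          nlinarith [mul_nonneg (neg_nonneg.2 h3.le) (sq_nonneg (w i - w j))]
    have h2 : ∑ i, ∑ j, ((if i = j then 2 * |E i j| * w i ^ 2 else 0) -
        |E i j| * (w i ^ 2 + w j ^ 2) / 2) ≤ ∑ i, ∑ j, E i j * w i * w j :=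
      Finset.sum_le_sum fun i _ => Finset.sum_le_sum fun j _ => h1 i j
    refine le_trans ?_ h2
    have h3 : ∑ i, ∑ j, ((if i = j then 2 * |E i j| * w i ^ 2 else 0) -
        |E i j| * (w i ^ 2 + w j ^ 2) / 2) =
        ∑ i, (2 * E i i - ∑ j, |E i j|) * w i ^ 2 := by
      have h4 : ∑ i, ∑ j, |E i j| * (w i ^ 2 + w j ^ 2) / 2 = ∑ i, (∑ j, |E i j|) * w i ^ 2 := by
        have h5 : ∑ i, ∑ j, |E i j| * w j ^ 2 = ∑ i, ∑ j, |E i j| * w i ^ 2 := by
          rw [Finset.sum_comm]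
          refine Finset.sum_congr rfl fun i _ => Finset.sum_congr rfl fun j _ => ?_
          rw [hEs j i]
        have h6 : ∑ i, ∑ j, |E i j| * (w i ^ 2 + w j ^ 2) / 2 =
            (∑ i, ∑ j, |E i j| * w i ^ 2) / 2 + (∑ i, ∑ j, |E i j| * w j ^ 2) / 2 := by
          rw [Finset.sum_div, Finset.sum_div, ← Finset.sum_add_distrib]
          refine Finset.sum_congr rfl fun i _ => ?_
          rw [Finset.sum_div, Finset.sum_div, ← Finset.sum_add_distrib]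
          refine Finset.sum_congr rfl fun j _ => ?_
          ring
        rw [h6, h5]
        have h7 : ∑ i, ∑ j, |E i j| * w i ^ 2 = ∑ i, (∑ j, |E i j|) * w i ^ 2 := by
          refine Finset.sum_congr rfl fun i _ => ?_
          rw [Finset.sum_mul]
        rw [h7]
        ring
      have h8 : ∑ i, ∑ j, ((if i = j then 2 * |E i j| * w i ^ 2 else 0) -
        |E i j| * (w i ^ 2 + w j ^ 2) / 2) = (∑ i, 2 * |E i i| * w i ^ 2) -
          ∑ i, ∑ j, |E i j| * (w i ^ 2 + w j ^ 2) / 2 := by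
        rw [← Finset.sum_sub_distrib]
        refine Finset.sum_congr rfl fun i _ => ?_
        rw [Finset.sum_sub_distrib]
        congr 1
        rw [Finset.sum_ite_eq]
        simp
      rw [h8, h4, ← Finset.sum_sub_distrib]
      refine Finset.sum_congr rfl fun i _ => ?_
      rw [abs_of_nonneg (hEd i)]
      ring
    rw [h3]
    exact Finset.sum_nonneg fun i _ => mul_nonneg (by linarith [hd' i]) (sq_nonneg _)
  linarith

lemma dot_symm {L : Matrix V V ℝ} (hL : Lᵀ = L) (x y : V → ℝ) :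
    x ⬝ᵥ (L *ᵥ y) = (L *ᵥ x) ⬝ᵥ y := by
  rw [Matrix.dotProduct_mulVec, ← Matrix.mulVec_transpose, hL]

lemma sum_eigvec {L : Matrix V V ℝ} (hL : Lᵀ = L) (h1 : L *ᵥ 1 = 0) {μ : ℝ} (hμ : μ ≠ 0)
    {φ : V → ℝ} (hφ : L *ᵥ φ = μ • φ) : ∑ i, φ i = 0 := by
  have h := dot_symm hL 1 φ
  rw [h1, hφ, zero_dotProduct, dotProduct_smul, smul_eq_mul] at h
  have h2 := (mul_eq_zero.1 h).resolve_left hμ
  rw [dotProduct] at h2
  simpa using h2

lemma cs (x y : V → ℝ) : (x ⬝ᵥ y) ^ 2 ≤ (x ⬝ᵥ x) * (y ⬝ᵥ y) := by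
  have := Finset.sum_mul_sq_le_sq_mul_sq univ x y
  simp only [dotProduct]
  have e1 : ∑ i, x i * x i = ∑ i, x i ^ 2 := Finset.sum_congr rfl fun i _ => (sq (x i)).symm
  have e2 : ∑ i, y i * y i = ∑ i, y i ^ 2 := Finset.sum_congr rfl fun i _ => (sq (y i)).symm
  rw [e1, e2]
  exact this

lemma dpnn (x : V → ℝ) : 0 ≤ x ⬝ᵥ x := Finset.sum_nonneg fun i _ => mul_self_nonneg (x i)

/-- Upper bound for the least positive eigenvalue, and approximation of its eigenvectors. -/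
lemma approx {L : Matrix V V ℝ} (hL : Lᵀ = L) (h1 : L *ᵥ 1 = 0)
    (hpsd : ∀ w, 0 ≤ w ⬝ᵥ (L *ᵥ w)) {P : V → ℝ} (hP0 : ∑ i, P i = 0) {ρ lm c d ε : ℝ}
    (hcert : ∀ w : V → ℝ, ρ * (w ⬝ᵥ w) ≤ w ⬝ᵥ (L *ᵥ w) + c * (∑ i, w i) ^ 2 + d * (P ⬝ᵥ w) ^ 2)
    (hPP : 0 < P ⬝ᵥ P) (hray : P ⬝ᵥ (L *ᵥ P) ≤ lm * (P ⬝ᵥ P)) (hlm : 0 < lm) (hlt : lm < ρ)
    (hd0 : 0 ≤ d) (hres : (L *ᵥ P - lm • P) ⬝ᵥ (L *ᵥ P - lm • P) ≤ ε ^ 2)
    (hdε : d * ε ^ 2 < ρ * lm ^ 2)
    {μ : ℝ} (hμ : 0 < μ)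
    (hleast : ∀ (ν : ℝ) (ψ : V → ℝ), ψ ≠ 0 → L *ᵥ ψ = ν • ψ → 0 < ν → μ ≤ ν) :
    μ ≤ lm := by
  by_contra hcon
  push Not at hcon
  have hLh : L.IsHermitian := by
    rw [Matrix.IsHermitian, Matrix.conjTranspose_eq_transpose_of_trivial, hL]
  -- the kernel on sum-zero vectors is trivial
  have hker : ∀ w : V → ℝ, ∑ i, w i = 0 → L *ᵥ w = 0 → w = 0 := by
    intro w hw0 hw
    by_contra hne
    have hpos : 0 < w ⬝ᵥ w := by
      rcases (dpnn w).lt_or_eq with h | h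
      · exact h
      · exact absurd (dotProduct_self_eq_zero.1 h.symm) hne
    have h2 : lm * (P ⬝ᵥ w) = - ((L *ᵥ P - lm • P) ⬝ᵥ w) := by
      rw [sub_dotProduct, smul_dotProduct, smul_eq_mul, ← dot_symm hL, hw, dotProduct_zero]
      ring
    have h3 := cs (L *ᵥ P - lm • P) w
    have h4 : lm ^ 2 * (P ⬝ᵥ w) ^ 2 ≤ ε ^ 2 * (w ⬝ᵥ w) := by
      have : lm ^ 2 * (P ⬝ᵥ w) ^ 2 = ((L *ᵥ P - lm • P) ⬝ᵥ w) ^ 2 := by
        rw [← mul_pow, h2, neg_sq]
      rw [this]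
      exact h3.trans (mul_le_mul_of_nonneg_right hres hpos.le)
    have h5 := hcert w
    rw [hw, dotProduct_zero, hw0] at h5
    have h6 : ρ * (w ⬝ᵥ w) ≤ d * (P ⬝ᵥ w) ^ 2 := by nlinarith
    have h7 : ρ * lm ^ 2 * (w ⬝ᵥ w) ≤ d * ε ^ 2 * (w ⬝ᵥ w) := by
      calc ρ * lm ^ 2 * (w ⬝ᵥ w) = lm ^ 2 * (ρ * (w ⬝ᵥ w)) := by ring
        _ ≤ lm ^ 2 * (d * (P ⬝ᵥ w) ^ 2) := mul_le_mul_of_nonneg_left h6 (sq_nonneg _)
        _ = d * (lm ^ 2 * (P ⬝ᵥ w) ^ 2) := by ring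
        _ ≤ d * (ε ^ 2 * (w ⬝ᵥ w)) := mul_le_mul_of_nonneg_left h4 hd0
        _ = d * ε ^ 2 * (w ⬝ᵥ w) := by ring
    nlinarith
  -- L + μ J - μ I is positive semidefinite
  set J : Matrix V V ℝ := Matrix.of fun _ _ => μ with hJ
  set B : Matrix V V ℝ := L + J - μ • (1 : Matrix V V ℝ) with hB
  have hJmul : ∀ w : V → ℝ, J *ᵥ w = fun _ => μ * ∑ i, w i := by
    intro w
    funext i
    simp [hJ, Matrix.mulVec, dotProduct, Finset.mul_sum]
  have hBmul : ∀ w : V → ℝ, B *ᵥ w = L *ᵥ w + (fun _ : V => μ * ∑ i, w i) - μ • w := by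
    intro w
    rw [hB, Matrix.sub_mulVec, Matrix.add_mulVec, hJmul, Matrix.smul_mulVec, Matrix.one_mulVec]
  have hJs : Jᵀ = J := by
    ext i j
    simp [hJ]
  have hBs : Bᵀ = B := by
    rw [hB, Matrix.transpose_sub, Matrix.transpose_add, hL, hJs, Matrix.transpose_smul,
      Matrix.transpose_one]
  have hBh : B.IsHermitian := by
    rw [Matrix.IsHermitian, Matrix.conjTranspose_eq_transpose_of_trivial, hBs]
  have hBp : B.PosSemidef := by
    rw [hBh.posSemidef_iff_eigenvalues_nonneg]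
    intro i
    show 0 ≤ hBh.eigenvalues i
    obtain ⟨w, hw0, hw⟩ := Spec.exists_vec hBh i
    set ν := hBh.eigenvalues i with hν
    by_cases hs : ∑ i, w i = 0
    · have h2 : L *ᵥ w = (ν + μ) • w := by
        have := hBmul w
        rw [hw, hs] at this
        funext k
        have h3 := congrFun this k
        simp only [Pi.smul_apply, Pi.sub_apply, Pi.add_apply, smul_eq_mul, mul_zero, add_zero] at h3 ⊢
        linarith
      by_contra hneg
      push Not at hneg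
      have h4 : ¬ 0 < ν + μ := by
        intro h5
        have := hleast _ w hw0 h2 h5
        linarith
      have h5 : 0 ≤ (ν + μ) * (w ⬝ᵥ w) := by
        have := hpsd w
        rwa [h2, dotProduct_smul, smul_eq_mul] at this
      have hpos : 0 < w ⬝ᵥ w := by
        rcases (dpnn w).lt_or_eq with h | h
        · exact h
        · exact absurd (dotProduct_self_eq_zero.1 h.symm) hw0
      have h6 : ν + μ = 0 := by
        rcases lt_or_eq_of_le (not_lt.1 h4) with h | h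
        · nlinarith
        · exact h
      rw [h6, zero_smul] at h2
      exact hw0 (hker w hs h2)
    · -- take the inner product with the all-one vector
      have h2 := hBmul w
      rw [hw] at h2
      have h3 : ∑ k, (ν • w) k = ∑ k, (L *ᵥ w + (fun _ : V => μ * ∑ i, w i) - μ • w) k := by
        rw [h2]
      have h4 : ∑ k, (L *ᵥ w) k = 0 := by
        have := dot_symm hL 1 w
        rw [h1, zero_dotProduct, dotProduct] at this
        simpa using this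
      simp only [Pi.smul_apply, Pi.sub_apply, Pi.add_apply, smul_eq_mul, Finset.sum_sub_distrib,
        Finset.sum_add_distrib, ← Finset.mul_sum, h4, Finset.sum_const, Finset.card_univ,
        nsmul_eq_mul] at h3
      have h5 : (ν - (Fintype.card V * μ - μ)) * (∑ i, w i) = 0 := by linarith
      have h6 := (mul_eq_zero.1 h5).resolve_right hs
      have h7 : (1 : ℝ) ≤ Fintype.card V := by
        have : Nonempty V := ⟨i⟩
        exact_mod_cast Fintype.card_pos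
      nlinarith
  have hq := hBp.dotProduct_mulVec_nonneg P
  rw [hBmul, hP0] at hq
  have e1 : star P = P := by
    funext i
    simp
  rw [e1, mul_zero, dotProduct_sub, dotProduct_add, dotProduct_smul, smul_eq_mul] at hq
  have e2 : P ⬝ᵥ (fun _ => (0 : ℝ)) = 0 := dotProduct_zero P
  rw [e2] at hq
  nlinarith

/-- Eigenvectors of the least positive eigenvalue are close to multiples of `P`. -/
lemma close {L : Matrix V V ℝ} (hL : Lᵀ = L) (h1 : L *ᵥ 1 = 0)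
    {P : V → ℝ} (hP0 : ∑ i, P i = 0) {ρ lm c d ε δ : ℝ}
    (hcert : ∀ w : V → ℝ, ρ * (w ⬝ᵥ w) ≤ w ⬝ᵥ (L *ᵥ w) + c * (∑ i, w i) ^ 2 + d * (P ⬝ᵥ w) ^ 2)
    (hPP : 0 < P ⬝ᵥ P) (hlt : lm < ρ)
    (hε : 0 ≤ ε) (hres : (L *ᵥ P - lm • P) ⬝ᵥ (L *ᵥ P - lm • P) ≤ ε ^ 2)
    (hδ : ε ≤ δ * (ρ - lm))
    {μ : ℝ} (hμ : 0 < μ) (hle : μ ≤ lm) {φ : V → ℝ} (hφ : L *ᵥ φ = μ • φ) :
    ((P ⬝ᵥ φ) / (P ⬝ᵥ P) = 0 → φ = 0) ∧
      ∀ i, |φ i - (P ⬝ᵥ φ) / (P ⬝ᵥ P) * P i| ≤ |(P ⬝ᵥ φ) / (P ⬝ᵥ P)| * δ := by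
  set α := (P ⬝ᵥ φ) / (P ⬝ᵥ P) with hα
  set w := φ - α • P with hw
  have hPw : P ⬝ᵥ w = 0 := by
    rw [hw, dotProduct_sub, dotProduct_smul, smul_eq_mul, hα]
    field_simp
    ring
  have hφ0 := sum_eigvec hL h1 hμ.ne' hφ
  have hw0 : ∑ i, w i = 0 := by
    simp only [hw, Pi.sub_apply, Pi.smul_apply, smul_eq_mul, Finset.sum_sub_distrib,
      ← Finset.mul_sum, hφ0, hP0]
    ring
  have hLw : L *ᵥ w = μ • w - α • ((L *ᵥ P - lm • P) + (lm - μ) • P) := by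
    rw [hw, Matrix.mulVec_sub, Matrix.mulVec_smul, hφ]
    funext i
    simp only [Pi.sub_apply, Pi.smul_apply, Pi.add_apply, smul_eq_mul]
    ring
  set r := L *ᵥ P - lm • P with hr
  have h2 := hcert w
  have h3 : w ⬝ᵥ (L *ᵥ w) = μ * (w ⬝ᵥ w) - α * (w ⬝ᵥ r) := by
    rw [hLw, dotProduct_sub, dotProduct_smul, dotProduct_smul, dotProduct_add, dotProduct_smul,
      dotProduct_comm w P, hPw]
    simp only [smul_eq_mul]
    ring
  rw [h3, hw0, hPw] at h2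
  have h4 : (ρ - μ) * (w ⬝ᵥ w) ≤ - (α * (w ⬝ᵥ r)) := by nlinarith
  have hww := dpnn w
  have hgap : 0 < ρ - lm := by linarith
  have h5 : (ρ - lm) * (w ⬝ᵥ w) ≤ - (α * (w ⬝ᵥ r)) := by nlinarith
  have h6 := cs w r
  -- (ρ - lm)^2 (w·w) ≤ α² ε²
  have h7 : (ρ - lm) ^ 2 * (w ⬝ᵥ w) ≤ α ^ 2 * ε ^ 2 := by
    rcases hww.lt_or_eq with hpos | hzero
    · have h8 : ((ρ - lm) * (w ⬝ᵥ w)) ^ 2 ≤ (α * (w ⬝ᵥ r)) ^ 2 := by
        have h9 : 0 ≤ (ρ - lm) * (w ⬝ᵥ w) := by positivity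
        rw [← neg_sq (α * (w ⬝ᵥ r))]
        exact pow_le_pow_left₀ h9 h5 2
      have h10 : (α * (w ⬝ᵥ r)) ^ 2 ≤ α ^ 2 * ((w ⬝ᵥ w) * ε ^ 2) := by
        rw [mul_pow]
        exact mul_le_mul_of_nonneg_left
          (h6.trans (mul_le_mul_of_nonneg_left hres hww)) (sq_nonneg _)
      have h11 : (w ⬝ᵥ w) * ((ρ - lm) ^ 2 * (w ⬝ᵥ w)) ≤ (w ⬝ᵥ w) * (α ^ 2 * ε ^ 2) := by
        nlinarith
      exact le_of_mul_le_mul_left h11 hpos
    · rw [← hzero, mul_zero]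
      positivity
  refine ⟨?_, ?_⟩
  · intro h0
    rw [h0] at h7
    have h8 : w ⬝ᵥ w = 0 := by
      have : 0 < (ρ - lm) ^ 2 := by positivity
      nlinarith
    have h9 := dotProduct_self_eq_zero.1 h8
    rw [hw, h0, zero_smul, sub_zero] at h9
    exact h9
  · intro i
    have h8 : (w i) ^ 2 ≤ w ⬝ᵥ w := by
      rw [dotProduct, sq]
      exact Finset.single_le_sum (f := fun i => w i * w i) (fun j _ => mul_self_nonneg _)
        (Finset.mem_univ i)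
    have h9 : ((ρ - lm) * |w i|) ^ 2 ≤ (|α| * ε) ^ 2 := by
      rw [mul_pow, mul_pow, sq_abs, sq_abs]
      exact (mul_le_mul_of_nonneg_left h8 (sq_nonneg _)).trans h7
    have h10 : (ρ - lm) * |w i| ≤ |α| * ε :=
      le_of_sq_le_sq h9 (mul_nonneg (abs_nonneg _) hε)
    have h11 : |α| * ε ≤ |α| * (δ * (ρ - lm)) := mul_le_mul_of_nonneg_left hδ (abs_nonneg _)
    have h12 : (ρ - lm) * |w i| ≤ (ρ - lm) * (|α| * δ) := by linarith
    have h13 := le_of_mul_le_mul_left h12 hgap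
    simpa [hw] using h13

/-- The integer certificate. -/
structure Cert {κ : Type} [Fintype κ] (Z : V → V → ℤ) (K : ℤ) (P : V → ℤ) (lm rk c t R D : ℤ)
    (B : κ → V → ℤ) : Prop where
  symm : ∀ i j, Z i j = Z j i
  nonneg : ∀ i j, 0 ≤ Z i j
  K_pos : 0 < K
  sum0 : ∑ i, P i = 0
  dd : ∀ i, ∑ j, |(K ^ 2 * ((if i = j then ∑ k, Z i k else 0) - Z i j) + c + t * P i * P j -
      (if i = j then rk else 0)) - ∑ k, B k i * B k j| ≤
      2 * ((K ^ 2 * ((∑ k, Z i k) - Z i i) + c + t * P i * P i - rk) - ∑ k, B k i * B k i)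
  pp : 0 < ∑ i, P i * P i
  ray : K * ∑ i, P i * ((∑ k, Z i k) * P i - ∑ j, Z i j * P j) ≤ lm * ∑ i, P i * P i
  res : ∑ i, (K * ((∑ k, Z i k) * P i - ∑ j, Z i j * P j) - lm * P i) ^ 2 ≤ R ^ 2
  lm_pos : 0 < lm
  lt : lm * K < rk
  t_nonneg : 0 ≤ t
  R_nonneg : 0 ≤ R
  small : t * R ^ 2 < rk * lm ^ 2
  del : R * K ≤ D * (rk - lm * K)

/-- What the certificate gives. -/
lemma of_cert {κ : Type} [Fintype κ] {Z : V → V → ℤ} {K : ℤ} {P : V → ℤ}
    {lm rk c t R D : ℤ} {B : κ → V → ℤ} (h : Cert Z K P lm rk c t R D B)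
    {L : Matrix V V ℝ} (hLZ : ∀ i j, L i j = (((if i = j then ∑ k, Z i k else 0) - Z i j : ℤ) : ℝ))
    {μ : ℝ} (hμ : 0 < μ)
    (hleast : ∀ (ν : ℝ) (ψ : V → ℝ), ψ ≠ 0 → L *ᵥ ψ = ν • ψ → 0 < ν → μ ≤ ν)
    {φ : V → ℝ} (hφ : L *ᵥ φ = μ • φ) :
    (∑ i, (P i : ℝ) * φ i = 0 → φ = 0) ∧
      ∃ α : ℝ, (∑ i, (P i : ℝ) * φ i = α * ∑ i, (P i : ℝ) * P i) ∧
        ∀ i, |φ i - α * P i| ≤ |α| * D := by
  have hLt : Lᵀ = L := by
    ext i j
    rw [Matrix.transpose_apply, hLZ, hLZ, h.symm i j]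
    by_cases hij : i = j
    · subst hij; rfl
    · rw [if_neg hij, if_neg (Ne.symm hij)]
  have hmul : ∀ w : V → ℝ, L *ᵥ w = fun i => (∑ k, (Z i k : ℝ)) * w i - ∑ j, (Z i j : ℝ) * w j := by
    intro w
    funext i
    rw [Matrix.mulVec, dotProduct]
    have : ∀ j, L i j * w j = (if i = j then (∑ k, (Z i k : ℝ)) * w i else 0) -
        (Z i j : ℝ) * w j := by
      intro j
      rw [hLZ]
      by_cases hij : i = j
      · subst hij
        rw [if_pos rfl, if_pos rfl]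
        push_cast
        ring
      · rw [if_neg hij, if_neg hij]
        push_cast
        ring
    rw [Finset.sum_congr rfl fun j _ => this j, Finset.sum_sub_distrib, Finset.sum_ite_eq]
    simp
  have h1 : L *ᵥ 1 = 0 := by
    rw [hmul]
    funext i
    simp
  have hK : (0 : ℝ) < (K : ℝ) := by exact_mod_cast h.K_pos
  have hpsd : ∀ w, 0 ≤ w ⬝ᵥ (L *ᵥ w) := by
    intro w
    rw [hmul]
    have e1 : w ⬝ᵥ (fun i => (∑ k, (Z i k : ℝ)) * w i - ∑ j, (Z i j : ℝ) * w j) =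
        (∑ i, ∑ j, (Z i j : ℝ) * (w i - w j) ^ 2) / 2 := by
      have e2 : ∑ i, ∑ j, (Z i j : ℝ) * (w j) ^ 2 = ∑ i, ∑ j, (Z i j : ℝ) * (w i) ^ 2 := by
        rw [Finset.sum_comm]
        refine Finset.sum_congr rfl fun i _ => Finset.sum_congr rfl fun j _ => ?_
        rw [h.symm]
      have e3 : ∑ i, ∑ j, (Z i j : ℝ) * (w i - w j) ^ 2 =
          ∑ i, ∑ j, (Z i j : ℝ) * (w i) ^ 2 + ∑ i, ∑ j, (Z i j : ℝ) * (w j) ^ 2 -
            2 * ∑ i, ∑ j, (Z i j : ℝ) * w i * w j := by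
        rw [Finset.mul_sum, ← Finset.sum_add_distrib, ← Finset.sum_sub_distrib]
        refine Finset.sum_congr rfl fun i _ => ?_
        rw [Finset.mul_sum, ← Finset.sum_add_distrib, ← Finset.sum_sub_distrib]
        refine Finset.sum_congr rfl fun j _ => ?_
        ring
      rw [e3, e2, dotProduct]
      have e4 : ∀ i, w i * ((∑ k, (Z i k : ℝ)) * w i - ∑ j, (Z i j : ℝ) * w j) =
          ∑ j, (Z i j : ℝ) * (w i) ^ 2 - ∑ j, (Z i j : ℝ) * w i * w j := by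
        intro i
        rw [mul_sub, Finset.sum_mul, Finset.mul_sum, Finset.mul_sum]
        congr 1
        · exact Finset.sum_congr rfl fun j _ => by ring
        · exact Finset.sum_congr rfl fun j _ => by ring
      rw [Finset.sum_congr rfl fun i _ => e4 i, Finset.sum_sub_distrib]
      ring
    rw [e1]
    apply div_nonneg _ (by norm_num)
    exact Finset.sum_nonneg fun i _ => Finset.sum_nonneg fun j _ =>
      mul_nonneg (by exact_mod_cast h.nonneg i j) (sq_nonneg _)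
  set P' : V → ℝ := fun i => (P i : ℝ) with hP'
  have hP0 : ∑ i, P' i = 0 := by
    have := h.sum0
    have h2 : ((∑ i, P i : ℤ) : ℝ) = 0 := by rw [this]; simp
    push_cast at h2
    exact h2
  have hPP : 0 < P' ⬝ᵥ P' := by
    have h2 : (0 : ℝ) < ((∑ i, P i * P i : ℤ) : ℝ) := by exact_mod_cast h.pp
    push_cast at h2
    exact h2
  have hcert : ∀ w : V → ℝ, ((rk : ℝ) / (K : ℝ) ^ 2) * (w ⬝ᵥ w) ≤ w ⬝ᵥ (L *ᵥ w) +
      ((c : ℝ) / (K : ℝ) ^ 2) * (∑ i, w i) ^ 2 + ((t : ℝ) / (K : ℝ) ^ 2) * (P' ⬝ᵥ w) ^ 2 := by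
    intro w
    have q := quad_nonneg_of_dd (fun i j => K ^ 2 * ((if i = j then ∑ k, Z i k else 0) - Z i j) +
      c + t * P i * P j - (if i = j then rk else 0)) B (by
        intro i j
        rw [h.symm i j]
        by_cases hij : i = j
        · subst hij; rfl
        · rw [if_neg hij, if_neg (Ne.symm hij), if_neg hij, if_neg (Ne.symm hij)]
          ring) (by
        intro i
        have := h.dd i
        simp only [if_true]
        exact this) w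
    have e1 : ∑ i, ∑ j, (((K ^ 2 * ((if i = j then ∑ k, Z i k else 0) - Z i j) +
      c + t * P i * P j - (if i = j then rk else 0) : ℤ)) : ℝ) * w i * w j =
        (K : ℝ) ^ 2 * (w ⬝ᵥ (L *ᵥ w)) + c * (∑ i, w i) ^ 2 + t * (P' ⬝ᵥ w) ^ 2 -
          rk * (w ⬝ᵥ w) := by
      have a1 : (K : ℝ) ^ 2 * (w ⬝ᵥ (L *ᵥ w)) = ∑ i, ∑ j, (K : ℝ) ^ 2 *
          (((if i = j then ∑ k, Z i k else 0) - Z i j : ℤ) : ℝ) * w i * w j := by
        rw [dotProduct, Finset.mul_sum]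
        refine Finset.sum_congr rfl fun i _ => ?_
        rw [Matrix.mulVec, dotProduct, Finset.mul_sum, Finset.mul_sum]
        refine Finset.sum_congr rfl fun j _ => ?_
        rw [hLZ]
        ring
      have a2 : (c : ℝ) * (∑ i, w i) ^ 2 = ∑ i, ∑ j, (c : ℝ) * w i * w j := by
        rw [sq, Finset.sum_mul_sum, Finset.mul_sum]
        refine Finset.sum_congr rfl fun i _ => ?_
        rw [Finset.mul_sum]
        exact Finset.sum_congr rfl fun j _ => by ring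
      have a3 : (t : ℝ) * (P' ⬝ᵥ w) ^ 2 = ∑ i, ∑ j, ((t : ℝ) * P i * P j) * w i * w j := by
        rw [dotProduct, sq, Finset.sum_mul_sum, Finset.mul_sum]
        refine Finset.sum_congr rfl fun i _ => ?_
        rw [Finset.mul_sum]
        exact Finset.sum_congr rfl fun j _ => by simp only [hP']; ring
      have a4 : (rk : ℝ) * (w ⬝ᵥ w) = ∑ i, ∑ j, (if i = j then (rk : ℝ) else 0) * w i * w j := by
        rw [dotProduct, Finset.mul_sum]
        refine Finset.sum_congr rfl fun i _ => ?_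
        have : ∀ j, (if i = j then (rk : ℝ) else 0) * w i * w j =
            (if i = j then (rk : ℝ) * w i * w j else 0) := by
          intro j
          by_cases hij : i = j
          · rw [if_pos hij, if_pos hij]
          · rw [if_neg hij, if_neg hij]; ring
        rw [Finset.sum_congr rfl fun j _ => this j, Finset.sum_ite_eq]
        simp
        ring
      rw [a1, a2, a3, a4, ← Finset.sum_add_distrib, ← Finset.sum_add_distrib,
        ← Finset.sum_sub_distrib]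
      refine Finset.sum_congr rfl fun i _ => ?_
      rw [← Finset.sum_add_distrib, ← Finset.sum_add_distrib,
        ← Finset.sum_sub_distrib]
      refine Finset.sum_congr rfl fun j _ => ?_
      by_cases hij : i = j
      · rw [if_pos hij, if_pos hij, if_pos hij]
        push_cast
        ring
      · rw [if_neg hij, if_neg hij, if_neg hij]
        push_cast
        ring
    rw [e1] at q
    have hK2 : (0 : ℝ) < (K : ℝ) ^ 2 := by positivity
    have : w ⬝ᵥ (L *ᵥ w) + ((c : ℝ) / (K : ℝ) ^ 2) * (∑ i, w i) ^ 2 +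
        ((t : ℝ) / (K : ℝ) ^ 2) * (P' ⬝ᵥ w) ^ 2 - ((rk : ℝ) / (K : ℝ) ^ 2) * (w ⬝ᵥ w) =
        ((K : ℝ) ^ 2 * (w ⬝ᵥ (L *ᵥ w)) + c * (∑ i, w i) ^ 2 + t * (P' ⬝ᵥ w) ^ 2 -
          rk * (w ⬝ᵥ w)) / (K : ℝ) ^ 2 := by
      field_simp
    have h3 : 0 ≤ ((K : ℝ) ^ 2 * (w ⬝ᵥ (L *ᵥ w)) + c * (∑ i, w i) ^ 2 + t * (P' ⬝ᵥ w) ^ 2 -
          rk * (w ⬝ᵥ w)) / (K : ℝ) ^ 2 := div_nonneg q hK2.le
    linarith
  have hLP : ∀ i, (L *ᵥ P') i = (((∑ k, Z i k) * P i - ∑ j, Z i j * P j : ℤ) : ℝ) := by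
    intro i
    rw [hmul]
    push_cast
    rfl
  have hray : P' ⬝ᵥ (L *ᵥ P') ≤ ((lm : ℝ) / K) * (P' ⬝ᵥ P') := by
    have h2 : ((K * ∑ i, P i * ((∑ k, Z i k) * P i - ∑ j, Z i j * P j) : ℤ) : ℝ) ≤
        ((lm * ∑ i, P i * P i : ℤ) : ℝ) := by exact_mod_cast h.ray
    have e1 : ((K * ∑ i, P i * ((∑ k, Z i k) * P i - ∑ j, Z i j * P j) : ℤ) : ℝ) =
        K * (P' ⬝ᵥ (L *ᵥ P')) := by
      have e3 : ∀ i, P' i * (L *ᵥ P') i =
          ((P i * ((∑ k, Z i k) * P i - ∑ j, Z i j * P j) : ℤ) : ℝ) := by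
        intro i
        rw [hLP i, Int.cast_mul]
      rw [dotProduct, Finset.sum_congr rfl fun i _ => e3 i, ← Int.cast_sum, ← Int.cast_mul]
    have e2 : ((lm * ∑ i, P i * P i : ℤ) : ℝ) = lm * (P' ⬝ᵥ P') := by
      rw [dotProduct]
      push_cast
      rfl
    rw [e1, e2] at h2
    rw [div_mul_eq_mul_div, le_div_iff₀ hK]
    linarith
  have hres : (L *ᵥ P' - ((lm : ℝ) / K) • P') ⬝ᵥ (L *ᵥ P' - ((lm : ℝ) / K) • P') ≤
      ((R : ℝ) / K) ^ 2 := by
    have h2 : ((∑ i, (K * ((∑ k, Z i k) * P i - ∑ j, Z i j * P j) - lm * P i) ^ 2 : ℤ) : ℝ) ≤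
        ((R ^ 2 : ℤ) : ℝ) := by exact_mod_cast h.res
    have e1 : ((∑ i, (K * ((∑ k, Z i k) * P i - ∑ j, Z i j * P j) - lm * P i) ^ 2 : ℤ) : ℝ) =
        (K : ℝ) ^ 2 * ((L *ᵥ P' - ((lm : ℝ) / K) • P') ⬝ᵥ (L *ᵥ P' - ((lm : ℝ) / K) • P')) := by
      rw [dotProduct, Finset.mul_sum, Int.cast_sum]
      refine Finset.sum_congr rfl fun i _ => ?_
      rw [Pi.sub_apply, Pi.smul_apply, smul_eq_mul, hLP i]
      simp only [hP']
      push_cast
      field_simp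
    rw [e1] at h2
    rw [div_pow, le_div_iff₀ (by positivity)]
    push_cast at h2
    linarith
  have hKlm : ((lm : ℝ) / K) < (rk : ℝ) / (K : ℝ) ^ 2 := by
    have h2 : ((lm * K : ℤ) : ℝ) < ((rk : ℤ) : ℝ) := by exact_mod_cast h.lt
    push_cast at h2
    rw [div_lt_div_iff₀ hK (by positivity)]
    nlinarith
  have hlm : (0 : ℝ) < lm := by exact_mod_cast h.lm_pos
  have ht : (0 : ℝ) ≤ t := by exact_mod_cast h.t_nonneg
  have hR : (0 : ℝ) ≤ R := by exact_mod_cast h.R_nonneg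
  have hsmall : ((t : ℝ) / (K : ℝ) ^ 2) * ((R : ℝ) / K) ^ 2 <
      ((rk : ℝ) / (K : ℝ) ^ 2) * ((lm : ℝ) / K) ^ 2 := by
    have h2 : ((t * R ^ 2 : ℤ) : ℝ) < ((rk * lm ^ 2 : ℤ) : ℝ) := by exact_mod_cast h.small
    push_cast at h2
    have e1 : ((t : ℝ) / (K : ℝ) ^ 2) * ((R : ℝ) / K) ^ 2 = (t * R ^ 2) / (K : ℝ) ^ 4 := by
      field_simp
    have e2 : ((rk : ℝ) / (K : ℝ) ^ 2) * ((lm : ℝ) / K) ^ 2 = (rk * lm ^ 2) / (K : ℝ) ^ 4 := by
      field_simp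
    rw [e1, e2]
    exact div_lt_div_of_pos_right h2 (by positivity)
  have hdel : ((R : ℝ) / K) ≤ (D : ℝ) * ((rk : ℝ) / (K : ℝ) ^ 2 - (lm : ℝ) / K) := by
    have h2 : ((R * K : ℤ) : ℝ) ≤ ((D * (rk - lm * K) : ℤ) : ℝ) := by exact_mod_cast h.del
    push_cast at h2
    have e1 : (D : ℝ) * ((rk : ℝ) / (K : ℝ) ^ 2 - (lm : ℝ) / K) =
        (D * (rk - lm * K)) / (K : ℝ) ^ 2 := by
      field_simp
    rw [e1, div_le_div_iff₀ hK (by positivity)]
    nlinarith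
  have hle := approx hLt h1 hpsd hP0 hcert hPP hray (div_pos hlm hK) hKlm
    (div_nonneg ht (by positivity)) hres hsmall hμ hleast
  have hcl := close hLt h1 hP0 hcert hPP hKlm (div_nonneg hR hK.le) hres hdel hμ hle hφ
  refine ⟨?_, (P' ⬝ᵥ φ) / (P' ⬝ᵥ P'), ?_, hcl.2⟩
  · intro h0
    apply hcl.1
    have : P' ⬝ᵥ φ = 0 := h0
    rw [this, zero_div]
  · show P' ⬝ᵥ φ = (P' ⬝ᵥ φ) / (P' ⬝ᵥ P') * (P' ⬝ᵥ P')
    field_simp

/-- existence of the least positive eigenvalue, with an eigenvector -/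
lemma exists_least {L : Matrix V V ℝ} (hL : L.IsHermitian) (htr : 0 < L.trace) :
    ∃ (μ : ℝ) (φ : V → ℝ), ∑ i, φ i ^ 2 = 1 ∧ L *ᵥ φ = μ • φ ∧ 0 < μ ∧
      ∀ (ν : ℝ) (ψ : V → ℝ), ψ ≠ 0 → L *ᵥ ψ = ν • ψ → 0 < ν → μ ≤ ν := by
  have h1 : L.trace = ∑ i, hL.eigenvalues i := by
    rw [hL.trace_eq_sum_eigenvalues]
    simp
  have h2 : ∃ i, 0 < hL.eigenvalues i := by
    by_contra h
    push Not at h
    have : ∑ i, hL.eigenvalues i ≤ 0 := Finset.sum_nonpos fun i _ => h i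
    linarith
  obtain ⟨i0, hi0⟩ := h2
  obtain ⟨i, hi, hmin⟩ := Finset.exists_min_image (univ.filter fun i => 0 < hL.eigenvalues i)
    hL.eigenvalues ⟨i0, by simp [hi0]⟩
  obtain ⟨y, hy0, hy⟩ := Spec.exists_vec hL i
  have hpos : 0 < y ⬝ᵥ y := by
    rcases (dpnn y).lt_or_eq with h | h
    · exact h
    · exact absurd (dotProduct_self_eq_zero.1 h.symm) hy0
  refine ⟨hL.eigenvalues i, (Real.sqrt (y ⬝ᵥ y))⁻¹ • y, ?_, ?_, (mem_filter.1 hi).2, ?_⟩
  · have : ∀ i, ((Real.sqrt (y ⬝ᵥ y))⁻¹ • y) i ^ 2 = (y ⬝ᵥ y)⁻¹ * (y i * y i) := by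
      intro i
      rw [Pi.smul_apply, smul_eq_mul, mul_pow, inv_pow, Real.sq_sqrt hpos.le, sq]
    rw [Finset.sum_congr rfl fun i _ => this i, ← Finset.mul_sum]
    have e : ∑ i, y i * y i = y ⬝ᵥ y := rfl
    rw [e]
    field_simp
  · rw [Matrix.mulVec_smul, hy, smul_comm]
  · intro ν ψ hψ0 hψ hν
    have hmem : ν ∈ Top.evs L := ⟨ψ, hψ0, hψ⟩
    rw [Top.evs_eq hL] at hmem
    obtain ⟨j, hj⟩ := hmem
    rw [← hj]
    apply hmin j
    rw [mem_filter]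
    exact ⟨mem_univ _, by rw [hj]; exact hν⟩

end Pool.Agent.V11117.Fied
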