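import Mathlib

/-!
Polynomial case analysis used for star complements of size at most three.
-/

namespace Pool.Agent.V11117.MM3

theorem pair3 (lam al be ga al' be' ga' ab ac bc av bv cv au bu cu uv : ℝ)
    (hab : ab = 0 ∨ ab = 1) (hac : ac = 0 ∨ ac = 1) (hbc : bc = 0 ∨ bc = 1)
    (h1 : av = 0 ∨ av = 1) (h2 : bv = 0 ∨ bv = 1) (h3 : cv = 0 ∨ cv = 1)
    (h4 : au = 0 ∨ au = 1) (h5 : bu = 0 ∨ bu = 1) (h6 : cu = 0 ∨ cu = 1)
    (h7 : uv = 0 ∨ uv = 1)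
    (hD : -lam^3 + (ab + ac + bc) * lam + 2 * ab * ac * bc ≠ 0)
    (a1 : ab * be + ac * ga + av = lam * al)
    (a2 : ab * al + bc * ga + bv = lam * be)
    (a3 : ac * al + bc * be + cv = lam * ga)
    (a4 : av * al + bv * be + cv * ga = lam)
    (a5 : au * al + bu * be + cu * ga + uv = 0)
    (b1 : ab * be' + ac * ga' + au = lam * al')
    (b2 : ab * al' + bc * ga' + bu = lam * be')
    (b3 : ac * al' + bc * be' + cu = lam * ga')
    (b4 : au * al' + bu * be' + cu * ga' = lam)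
    (b5 : av * al' + bv * be' + cv * ga' + uv = 0) :
    1 + al + be + ga = 0 ∨ (av = 0 ∧ bv = 0 ∧ cv = 0 ∧ uv = 0) ∨
      (ab = 0 ∧ ac = 0 ∧ bc = 0 ∧ uv = 0 ∧ ((av = 1 ∧ bv = 0 ∧ cv = 0 ∧ au = 0) ∨
        (av = 0 ∧ bv = 1 ∧ cv = 0 ∧ bu = 0) ∨ (av = 0 ∧ bv = 0 ∧ cv = 1 ∧ cu = 0))) := by
  rcases hab with rfl | rfl <;> rcases hac with rfl | rfl <;> rcases hbc with rfl | rfl <;>
  rcases h1 with rfl | rfl <;> rcases h2 with rfl | rfl <;> rcases h3 with rfl | rfl <;>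
  rcases h4 with rfl | rfl <;> rcases h5 with rfl | rfl <;> rcases h6 with rfl | rfl <;>
  rcases h7 with rfl | rfl <;> grind

theorem pair2 (lam al be al' be' ab av bv au bu uv : ℝ)
    (hab : ab = 0 ∨ ab = 1)
    (h1 : av = 0 ∨ av = 1) (h2 : bv = 0 ∨ bv = 1)
    (h4 : au = 0 ∨ au = 1) (h5 : bu = 0 ∨ bu = 1)
    (h7 : uv = 0 ∨ uv = 1)
    (hD : lam^2 - ab ≠ 0)
    (a1 : ab * be + av = lam * al)
    (a2 : ab * al + bv = lam * be)
    (a4 : av * al + bv * be = lam)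
    (a5 : au * al + bu * be + uv = 0)
    (b1 : ab * be' + au = lam * al')
    (b2 : ab * al' + bu = lam * be')
    (b4 : au * al' + bu * be' = lam)
    (b5 : av * al' + bv * be' + uv = 0) :
    1 + al + be = 0 ∨ (av = 0 ∧ bv = 0 ∧ uv = 0) ∨
      (ab = 0 ∧ uv = 0 ∧ ((av = 1 ∧ bv = 0 ∧ au = 0) ∨ (av = 0 ∧ bv = 1 ∧ bu = 0))) := by
  rcases hab with rfl | rfl <;>
  rcases h1 with rfl | rfl <;> rcases h2 with rfl | rfl <;>
  rcases h4 with rfl | rfl <;> rcases h5 with rfl | rfl <;>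
  rcases h7 with rfl | rfl <;> grind

theorem pair1 (lam al al' av au uv : ℝ)
    (h1 : av = 0 ∨ av = 1) (h4 : au = 0 ∨ au = 1) (h7 : uv = 0 ∨ uv = 1)
    (hD : lam ≠ 0)
    (a1 : av = lam * al)
    (a4 : av * al = lam)
    (a5 : au * al + uv = 0)
    (b1 : au = lam * al')
    (b4 : au * al' = lam)
    (b5 : av * al' + uv = 0) :
    1 + al = 0 := by
  rcases h1 with rfl | rfl <;>
  rcases h4 with rfl | rfl <;>
  rcases h7 with rfl | rfl <;> grind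

end Pool.Agent.V11117.MM3
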