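import Mathlib

namespace Pool.Agent.V11117.SpecC

open Matrix Finset

variable {V : Type*} [Fintype V] [DecidableEq V] {M : Matrix V V ℂ}

lemma specC (hM : M.IsHermitian) : ∃ U : Matrix V V ℂ, star U * U = 1 ∧ U * star U = 1 ∧
    M = U * diagonal (fun i => ((hM.eigenvalues i : ℝ) : ℂ)) * star U := by
  refine ⟨(hM.eigenvectorUnitary : Matrix V V ℂ),
    (Matrix.mem_unitaryGroup_iff'.mp hM.eigenvectorUnitary.2),
    (Matrix.mem_unitaryGroup_iff.mp hM.eigenvectorUnitary.2), ?_⟩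
  have h := hM.spectral_theorem
  rw [Unitary.conjStarAlgAut_apply] at h
  exact h

lemma exists_vec (hM : M.IsHermitian) (i : V) :
    ∃ y : V → ℂ, y ≠ 0 ∧ M *ᵥ y = ((hM.eigenvalues i : ℝ) : ℂ) • y := by
  refine ⟨⇑(hM.eigenvectorBasis i), ?_, hM.mulVec_eigenvectorBasis i⟩
  exact (WithLp.ofLp_eq_zero 2).ne.2 <| hM.eigenvectorBasis.orthonormal.ne_zero i

lemma quad_diag (D : V → ℝ) (U : Matrix V V ℂ) (f : V → ℂ) :
    star f ⬝ᵥ ((U * diagonal (fun i => ((D i : ℝ) : ℂ)) * star U) *ᵥ f)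
      = ((∑ i, D i * ‖(star U *ᵥ f) i‖ ^ 2 : ℝ) : ℂ) := by
  rw [← Matrix.mulVec_mulVec, ← Matrix.mulVec_mulVec, Matrix.dotProduct_mulVec,
    ← Matrix.mulVec_transpose]
  have h : Uᵀ *ᵥ star f = star (star U *ᵥ f) := by
    rw [Matrix.star_mulVec, Matrix.star_eq_conjTranspose, Matrix.conjTranspose_conjTranspose,
      ← Matrix.mulVec_transpose]
  rw [h, dotProduct, Complex.ofReal_sum]
  refine Finset.sum_congr rfl fun i _ => ?_
  rw [Matrix.mulVec_diagonal, Pi.star_apply]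
  push_cast
  rw [← Complex.conj_mul' ]
  rw [Complex.star_def]
  ring

lemma quad (hM : M.IsHermitian) (f : V → ℂ) : ∃ c : V → ℂ,
    star f ⬝ᵥ (M *ᵥ f) = ((∑ i, hM.eigenvalues i * ‖c i‖ ^ 2 : ℝ) : ℂ) ∧
    ∑ x, ‖f x‖ ^ 2 = ∑ i, ‖c i‖ ^ 2 := by
  obtain ⟨U, h1, h2, h3⟩ := specC hM
  refine ⟨star U *ᵥ f, ?_, ?_⟩
  · have := quad_diag hM.eigenvalues U f
    rw [← h3] at this
    exact this
  · have h4 := quad_diag (fun _ => (1 : ℝ)) U f
    have h5 : (diagonal (fun _ => (((1 : ℝ) : ℝ) : ℂ)) : Matrix V V ℂ) = 1 := by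
      simp
    rw [h5, Matrix.mul_one, h2, Matrix.one_mulVec] at h4
    have h6 : star f ⬝ᵥ f = ((∑ x, ‖f x‖ ^ 2 : ℝ) : ℂ) := by
      rw [dotProduct, Complex.ofReal_sum]
      refine Finset.sum_congr rfl fun i _ => ?_
      rw [Pi.star_apply]
      push_cast
      rw [← Complex.conj_mul', Complex.star_def]
    rw [h6] at h4
    have h7 := Complex.ofReal_injective h4
    simpa using h7

/-- if every eigenvalue is at least `c`, then the quadratic form is at least `c |f|^2` -/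
lemma quad_ge (hM : M.IsHermitian) (c : ℝ) (h : ∀ i, c ≤ hM.eigenvalues i) (f : V → ℂ) :
    c * ∑ x, ‖f x‖ ^ 2 ≤ (star f ⬝ᵥ (M *ᵥ f)).re := by
  obtain ⟨d, h1, h2⟩ := quad hM f
  rw [h1, Complex.ofReal_re, h2, Finset.mul_sum]
  exact Finset.sum_le_sum fun i _ => mul_le_mul_of_nonneg_right (h i) (sq_nonneg _)

end Pool.Agent.V11117.SpecC
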