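import Mathlib
import Pool.Agent.V11117.Spec

namespace Pool.Agent.V11117.Pos

open Matrix Finset Pool.Agent.V11117

variable {V : Type*} [Fintype V] [DecidableEq V]

/-- If the quadratic form of the symmetric matrix `D` is positive on the nonzero vectors of the
image of an injective linear map from a space of dimension `k`, then `D` has at least `k`
positive eigenvalues. -/
lemma card_pos_ge {D : Matrix V V ℝ} (hD : D.IsHermitian) {E : Type*} [AddCommGroup E]
    [Module ℝ E] [FiniteDimensional ℝ E] (f : E →ₗ[ℝ] (V → ℝ))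
    (hpos : ∀ c : E, c ≠ 0 → 0 < f c ⬝ᵥ (D *ᵥ f c)) :
    Module.finrank ℝ E ≤ (univ.filter (fun i => 0 < hD.eigenvalues i)).card := by
  obtain ⟨U, u1, u2, u3⟩ := Spec.spec hD
  by_contra hcon
  push Not at hcon
  set K := {i : V // 0 < hD.eigenvalues i} with hK
  have hKc : Fintype.card K = (univ.filter (fun i => 0 < hD.eigenvalues i)).card :=
    Fintype.card_subtype _
  let T : E →ₗ[ℝ] (K → ℝ) :=
    (LinearMap.funLeft ℝ ℝ (fun k : K => (k : V))).comp ((Matrix.toLin' Uᵀ).comp f)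
  have hker : LinearMap.ker T ≠ ⊥ := by
    apply LinearMap.ker_ne_bot_of_finrank_lt
    rw [Module.finrank_fintype_fun_eq_card, hKc]
    exact hcon
  obtain ⟨c, hc, hc0⟩ := Submodule.exists_mem_ne_zero_of_ne_bot hker
  have h1 : ∀ i, 0 < hD.eigenvalues i → (Uᵀ *ᵥ f c) i = 0 := by
    intro i hi
    have := congrFun (LinearMap.mem_ker.mp hc) ⟨i, hi⟩
    simpa [T, LinearMap.funLeft] using this
  have h2 : f c ⬝ᵥ (D *ᵥ f c) = ∑ i, hD.eigenvalues i * ((Uᵀ *ᵥ f c) i) ^ 2 := by
    conv_lhs => rw [u3]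
    rw [← Matrix.mulVec_mulVec, ← Matrix.mulVec_mulVec, Matrix.dotProduct_mulVec,
      ← Matrix.mulVec_transpose, dotProduct]
    refine Finset.sum_congr rfl fun i _ => ?_
    rw [Matrix.mulVec_diagonal]
    ring
  have h3 : f c ⬝ᵥ (D *ᵥ f c) ≤ 0 := by
    rw [h2]
    apply Finset.sum_nonpos
    intro i _
    by_cases hi : 0 < hD.eigenvalues i
    · rw [h1 i hi]; simp
    · exact mul_nonpos_of_nonpos_of_nonneg (not_lt.mp hi) (sq_nonneg _)
  exact absurd (hpos c hc0) (not_lt.mpr h3)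

/-- the vectors spanned by the eigenvectors with index in `K` -/
lemma exists_eig_embedding {S : Matrix V V ℝ} (hS : S.IsHermitian) (p : V → Prop)
    [DecidablePred p] : ∃ f : ({i : V // p i} → ℝ) →ₗ[ℝ] (V → ℝ),
      (∀ c, f c ⬝ᵥ f c = ∑ k, c k ^ 2) ∧
      (∀ c, f c ⬝ᵥ (S *ᵥ f c) = ∑ k : {i : V // p i}, hS.eigenvalues k * c k ^ 2) := by
  obtain ⟨U, u1, u2, u3⟩ := Spec.spec hS
  let g : ({i : V // p i} → ℝ) →ₗ[ℝ] (V → ℝ) :=
    { toFun := fun c i => if h : p i then c ⟨i, h⟩ else 0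
      map_add' := fun c d => by funext i; by_cases h : p i <;> simp [h]
      map_smul' := fun r c => by funext i; by_cases h : p i <;> simp [h] }
  have hsum : ∀ (F : V → ℝ) (c : {i : V // p i} → ℝ),
      ∑ i, F i * (g c i) ^ 2 = ∑ k : {i : V // p i}, F k * c k ^ 2 := by
    intro F c
    rw [← Finset.sum_filter_add_sum_filter_not univ p]
    have h2 : ∑ i ∈ univ.filter (fun i => ¬ p i), F i * (g c i) ^ 2 = 0 := by
      apply Finset.sum_eq_zero
      intro i hi
      have : ¬ p i := (mem_filter.mp hi).2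
      simp [g, this]
    rw [h2, add_zero, ← Finset.sum_subtype_of_mem (f := fun i => F i * (g c i) ^ 2) (p := p)
      (fun i hi => (mem_filter.mp hi).2)]
    have h3 : Finset.subtype p (univ.filter p) = univ := by
      ext k
      exact ⟨fun _ => mem_univ _, fun _ => Finset.mem_subtype.mpr (mem_filter.mpr ⟨mem_univ _, k.2⟩)⟩
    rw [h3]
    refine Finset.sum_congr rfl fun k _ => ?_
    have : g c k = c k := by simp [g, k.2]
    rw [this]
  refine ⟨(Matrix.toLin' U).comp g, ?_, ?_⟩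
  · intro c
    have h1 : ((Matrix.toLin' U).comp g) c = U *ᵥ (g c) := rfl
    rw [h1, Matrix.dotProduct_mulVec, ← Matrix.mulVec_transpose, Matrix.mulVec_mulVec, u1,
      Matrix.one_mulVec, dotProduct]
    have := hsum (fun _ => 1) c
    simp only [one_mul] at this
    rw [← this]
    exact Finset.sum_congr rfl fun i _ => by ring
  · intro c
    have h1 : ((Matrix.toLin' U).comp g) c = U *ᵥ (g c) := rfl
    have h2 : S *ᵥ (U *ᵥ g c) = U *ᵥ (diagonal hS.eigenvalues *ᵥ g c) := by
      conv_lhs => rw [u3]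
      rw [Matrix.mulVec_mulVec, Matrix.mul_assoc, u1, Matrix.mul_one, ← Matrix.mulVec_mulVec]
    rw [h1, h2, Matrix.dotProduct_mulVec, ← Matrix.mulVec_transpose, Matrix.mulVec_mulVec, u1,
      Matrix.one_mulVec, dotProduct, ← hsum hS.eigenvalues c]
    refine Finset.sum_congr rfl fun i _ => ?_
    rw [Matrix.mulVec_diagonal]
    ring

end Pool.Agent.V11117.Pos
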